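import Pool.Agent.P.MP_ab9b82_gt.B1

/-! Package P21: second order expansion at the pole. -/

namespace Pool.Agent.P.MP_ab9b82_gt

open MeasureTheory Set Filter Topology Real Asymptotics
open scoped ENNReal

namespace AsymAux

theorem small {g : ℝ → ℝ} (n : ℕ) (h : g =o[𝓝[>] 0] fun y => y ^ n) :
    (fun x => ∫ y in (0 : ℝ)..x, g y) =o[𝓝[>] 0] fun x => x ^ (n + 1) := by
  rw [isLittleO_iff] at h ⊢
  intro c hc
  obtain ⟨δ, hδ, h1⟩ := (mem_nhdsGT_iff_exists_Ioo_subset).1 (h hc)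
  filter_upwards [Ioo_mem_nhdsGT hδ] with x hx
  have h2 := intervalIntegral.norm_integral_le_of_norm_le_const (a := 0) (b := x) (f := g)
    (C := c * x ^ n) fun y hy => by
      rw [uIoc_of_le hx.1.le] at hy
      have h3 : ‖g y‖ ≤ c * ‖y ^ n‖ := h1 ⟨hy.1, hy.2.trans_lt hx.2⟩
      refine h3.trans (mul_le_mul_of_nonneg_left ?_ hc.le)
      rw [Real.norm_eq_abs, abs_of_pos (pow_pos hy.1 n)]
      exact pow_le_pow_left₀ hy.1.le hy.2 n
  rw [sub_zero, abs_of_pos hx.1] at h2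
  rw [Real.norm_eq_abs (x ^ (n + 1)), abs_of_pos (pow_pos hx.1 _), pow_succ, ← mul_assoc]
  exact h2

theorem ev_ii {I : ℝ → ℝ} (hm : Measurable I) {I0 : ℝ} (h : Tendsto I (𝓝[>] 0) (𝓝 I0)) :
    ∀ᶠ x in 𝓝[>] (0 : ℝ), IntervalIntegrable I volume 0 x := by
  have h0 : ∀ᶠ y in 𝓝[>] (0 : ℝ), |I y| < |I0| + 1 := h.abs.eventually (gt_mem_nhds (lt_add_one _))
  obtain ⟨δ, hδ, h1⟩ := (mem_nhdsGT_iff_exists_Ioo_subset).1 h0
  filter_upwards [Ioo_mem_nhdsGT hδ] with x hx
  rw [intervalIntegrable_iff, uIoc_of_le hx.1.le]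
  refine Measure.integrableOn_of_bounded (M := |I0| + 1) (by simp) hm.aestronglyMeasurable ?_
  exact (ae_restrict_iff' measurableSet_Ioc).2
    (ae_of_all _ fun y hy => le_of_lt (h1 ⟨hy.1, hy.2.trans_lt hx.2⟩))

theorem avg1 {I : ℝ → ℝ} (hm : Measurable I) {I0 : ℝ} (h : Tendsto I (𝓝[>] 0) (𝓝 I0)) :
    Tendsto (fun x => (∫ y in (0 : ℝ)..x, I y) / x) (𝓝[>] 0) (𝓝 I0) := by
  have h1 : (fun y => I y - I0) =o[𝓝[>] 0] fun y : ℝ => y ^ 0 := by
    simp only [pow_zero]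
    exact (isLittleO_one_iff ℝ).2 (tendsto_sub_nhds_zero_iff.2 h)
  have h2 := (small 0 h1).tendsto_div_nhds_zero
  rw [← tendsto_sub_nhds_zero_iff]
  refine h2.congr' ?_
  filter_upwards [ev_ii hm h, self_mem_nhdsWithin] with x hx hx0
  have hx1 : x ≠ 0 := ne_of_gt hx0
  rw [intervalIntegral.integral_sub hx intervalIntegrable_const, intervalIntegral.integral_const]
  simp only [sub_zero, smul_eq_mul, zero_add, pow_one]
  field_simp

theorem avg2 {I : ℝ → ℝ} (hm : Measurable I) {I1 : ℝ} (h : HasDerivWithinAt I I1 (Ioi 0) 0) :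
    HasDerivWithinAt (fun x => if x = 0 then I 0 else (∫ y in (0 : ℝ)..x, I y) / x) (I1 / 2)
      (Ioi 0) 0 := by
  have h1 : (fun y => I y - I 0 - y * I1) =o[𝓝[>] 0] fun y : ℝ => y ^ 1 := by
    simpa using hasDerivWithinAt_iff_isLittleO.1 h
  have h2 := (small 1 h1).tendsto_div_nhds_zero
  rw [hasDerivWithinAt_iff_tendsto_slope' (by simp), ← tendsto_sub_nhds_zero_iff]
  refine h2.congr' ?_
  filter_upwards [ev_ii hm h.continuousWithinAt.tendsto, self_mem_nhdsWithin] with x hx hx0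
  have hx1 : x ≠ 0 := ne_of_gt hx0
  rw [intervalIntegral.integral_sub (hx.sub intervalIntegrable_const)
    (Continuous.intervalIntegrable (by fun_prop) _ _),
    intervalIntegral.integral_sub hx intervalIntegrable_const, intervalIntegral.integral_const,
    intervalIntegral.integral_mul_const, integral_id, slope_def_field, if_neg hx1, if_pos rfl]
  simp only [sub_zero, smul_eq_mul]
  field_simp
  ring

/-- a function that vanishes to the right of the origin -/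
theorem vanish {E : ℝ → ℝ} {e : ℝ} (h : HasDerivWithinAt E e (Ioi 0) 0)
    (h0 : ∀ᶠ x in 𝓝[>] (0 : ℝ), E x = 0) : E 0 = 0 ∧ e = 0 := by
  have h1 : E 0 = 0 :=
    tendsto_nhds_unique h.continuousWithinAt.tendsto (tendsto_const_nhds.congr' (h0.mono
      fun x hx => hx.symm))
  refine ⟨h1, (uniqueDiffWithinAt_Ioi (0 : ℝ)).eq_deriv _ h ?_⟩
  exact (hasDerivWithinAt_const (0 : ℝ) (Ioi 0) (0 : ℝ)).congr_of_eventuallyEq h0 h1

theorem alg {a H F p r : ℝ} (ha : 0 < a) (ha1 : a < 1) (hF : 0 < F) (hp : 0 ≤ p) (hr : 0 < r)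
    (h0 : p = 2 * a * F - H * F ^ 2) {P : ℝ}
    (hP : P * F ^ 2 = (a * (a * p) - H * F * (a * p)) * F ^ 2 + p ^ 3 / 2 + p * F ^ 2)
    (e0 : 4 * a * p * F - 4 * F ^ 2 - p ^ 2 + 4 * F ^ 4 / r ^ 2 = 0)
    (e1 : 4 * a ^ 2 * p ^ 2 + 4 * a * (P * F + p * (a * p) - 2 * p * F) - 8 * F * (a * p)
      - 2 * p * P + 4 * (F ^ 2 * p ^ 2 + 4 * F ^ 3 * (a * p)) / r ^ 2 = 0) : F = r := by
  have hP' : P * F ^ 2 = p * (1 - a ^ 2) * F ^ 2 + a * p ^ 2 * F + p ^ 3 / 2 := by
    rw [hP]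
    linear_combination (-(a * p * F)) * h0
  have k : 2 * (1 - a ^ 2) * F ^ 2 * (p * (p + 2 * a * F)) = 0 := by
    linear_combination F ^ 2 * e1 - (p ^ 2 + 4 * a * p * F) * e0 - (4 * a * F - 2 * p) * hP'
  have h1 : 0 < 2 * (1 - a ^ 2) * F ^ 2 := by
    have : 0 < 1 - a ^ 2 := by nlinarith
    positivity
  have h2 : p = 0 := by
    rcases mul_eq_zero.1 ((mul_eq_zero.1 k).resolve_left h1.ne') with h | h
    · exact h
    · nlinarith [mul_pos ha hF]
  rw [h2] at e0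
  have h3 : F ^ 2 = r ^ 2 := by
    field_simp at e0
    nlinarith [pow_pos hF 2]
  exact (pow_left_inj₀ hF.le hr.le two_ne_zero).1 h3

end AsymAux

open AsymAux in
theorem sAsym : S_Asym := by
  intro f a0 hf s x0 a H ρ hx0 hx1 hpos hmono hC ha ha1 hda hρ hEL hSt
  obtain ⟨K, hK0, hK⟩ := hpos.lip.bdd
  set F : ℝ → ℝ := fun x => f (s x) with hF
  set p : ℝ → ℝ := deriv s with hp
  set w : ℝ → ℝ := fun x => x * (1 - x) * p x ^ 2 with hw
  set D : ℝ → ℝ := fun x => √(w x + F x ^ 2) with hD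
  set I : ℝ → ℝ := fun x => a * (D x + F x ^ 2 / D x) - H * F x ^ 2 with hI
  have hFc : Continuous F := hf.continuous.comp hpos.lip.continuous
  have hFp : ∀ x ∈ Icc 0 x0, 0 < F x := fun x hx => hf.fpos (hpos.pos x hx)
  have hF0 : 0 < F 0 := hFp 0 ⟨le_rfl, hx0.le⟩
  have hw0 : w 0 = 0 := by simp [hw]
  have hD0 : D 0 = F 0 := by simp only [hD, hw0, zero_add]; exact Real.sqrt_sq hF0.le
  have hI0 : I 0 = 2 * a * F 0 - H * F 0 ^ 2 := by
    simp only [hI, hD0]; field_simp; ring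
  have hev : ∀ᶠ x in 𝓝[>] (0 : ℝ), x ∈ Ioo 0 x0 := Ioo_mem_nhdsGT hx0
  have hIm : Measurable I := by
    have h1 := hFc.measurable
    have h3 : Measurable p := measurable_deriv s
    simp only [hI, hD, hw]
    fun_prop
  have hDp : ∀ x ∈ Ioo 0 x0, 0 < D x := fun x hx => by
    have h1 := hFp x (Ioo_subset_Icc_self hx)
    have h2 : 0 ≤ w x := mul_nonneg (mul_nonneg hx.1.le (by linarith [hx.2])) (sq_nonneg _)
    exact Real.sqrt_pos.2 (by positivity)
  have hel : ∀ x ∈ Ioo 0 x0, p x = (∫ y in (0 : ℝ)..x, I y) / x * D x / (F x * (1 - x)) :=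
    fun x hx => by
      have h1 : F x * (x * (1 - x) * p x) / D x = ∫ y in (0 : ℝ)..x, I y := by
        refine (hEL x hx).trans (intervalIntegral.integral_congr fun y hy => ?_)
        rw [uIcc_of_le hx.1.le] at hy
        simp only [Ls, hda y ⟨hy.1, hy.2.trans hx.2.le⟩]
        rfl
      have h2 := (hFp x (Ioo_subset_Icc_self hx)).ne'
      have h3 := (hDp x hx).ne'
      have h4 : x ≠ 0 := hx.1.ne'
      have h5 : 1 - x ≠ 0 := by linarith [hx.2]
      rw [← h1]; field_simp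
  -- first order
  have tF : Tendsto F (𝓝[>] 0) (𝓝 (F 0)) := hFc.continuousWithinAt
  have tx : Tendsto (fun x : ℝ => x) (𝓝[>] 0) (𝓝 0) := continuous_id.continuousWithinAt
  have tw : Tendsto w (𝓝[>] 0) (𝓝 0) := by
    have h1 : Tendsto (fun x : ℝ => x * K ^ 2) (𝓝[>] 0) (𝓝 0) := by
      simpa using tx.mul_const (K ^ 2)
    refine squeeze_zero' (hev.mono fun x hx => ?_) (hev.mono fun x hx => ?_) h1
    · exact mul_nonneg (mul_nonneg hx.1.le (by linarith [hx.2])) (sq_nonneg _)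
    · have h2 : p x ^ 2 ≤ K ^ 2 := sq_le_sq' (neg_le_of_abs_le (hK x)) (le_of_abs_le (hK x))
      have h3 : x * (1 - x) ≤ x := by nlinarith [hx.1]
      exact mul_le_mul h3 h2 (sq_nonneg _) hx.1.le
  have tD : Tendsto D (𝓝[>] 0) (𝓝 (F 0)) := by
    have := (tw.add (tF.pow 2)).sqrt
    rwa [zero_add, Real.sqrt_sq hF0.le] at this
  have tI : Tendsto I (𝓝[>] 0) (𝓝 (I 0)) := by
    have := ((tD.add ((tF.pow 2).div tD hF0.ne')).const_mul a).sub ((tF.pow 2).const_mul H)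
    simpa only [hI, hD0, Pi.div_apply] using this
  have tp : Tendsto p (𝓝[>] 0) (𝓝 (I 0)) := by
    have := ((avg1 hIm tI).mul tD).div (tF.mul (tx.const_sub 1)) (by simpa using hF0.ne')
    have e : I 0 * F 0 / (F 0 * (1 - 0)) = I 0 := by field_simp; ring
    rw [e] at this
    exact this.congr' (hev.mono fun x hx => (hel x hx).symm)
  have hp0 : 0 ≤ I 0 := ge_of_tendsto' tp fun x => hmono.deriv_nonneg
  -- second order
  have dF' : ∀ x ∈ Ioo 0 x0, HasDerivAt F (a * p x) x := fun x hx => by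
    have := (hf.diff (s x)).hasDerivAt.comp x (hC.diff x hx).hasDerivAt
    rwa [hda x (Ioo_subset_Icc_self hx)] at this
  have dF : HasDerivWithinAt F (a * I 0) (Ioi 0) 0 := by
    refine (hasDerivWithinAt_Ici_of_tendsto_deriv (s := Ioo 0 x0)
      (fun x hx => (dF' x hx).differentiableAt.differentiableWithinAt) hFc.continuousWithinAt
      hev ?_).mono Ioi_subset_Ici_self
    exact (tp.const_mul a).congr' (hev.mono fun x hx => (dF' x hx).deriv.symm)
  have dw : HasDerivWithinAt w (I 0 ^ 2) (Ioi 0) 0 := by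
    rw [hasDerivWithinAt_iff_tendsto_slope' (by simp)]
    have := (tx.const_sub 1).mul (tp.pow 2)
    rw [sub_zero, one_mul] at this
    refine this.congr' (hev.mono fun x hx => ?_)
    have h4 : x ≠ 0 := hx.1.ne'
    simp only [slope_def_field, hw0, sub_zero]
    simp only [hw]
    field_simp
  have dD : HasDerivWithinAt D ((I 0 ^ 2 + 2 * F 0 * (a * I 0)) / (2 * F 0)) (Ioi 0) 0 := by
    have := (dw.add (dF.pow 2)).sqrt (by simpa [hw0] using hF0.ne')
    refine this.congr_deriv ?_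
    simp only [Pi.add_apply, Pi.pow_apply, hw0, zero_add, Real.sqrt_sq hF0.le]
    norm_num
  have dI : HasDerivWithinAt I (2 * (a * (a * I 0) - H * F 0 * (a * I 0))) (Ioi 0) 0 := by
    have := ((dD.add ((dF.pow 2).div dD (by rw [hD0]; exact hF0.ne'))).const_mul a).sub
      ((dF.pow 2).const_mul H)
    refine this.congr_deriv ?_
    simp only [Pi.pow_apply, hD0]
    field_simp
    ring
  have dA := avg2 hIm dI
  set A : ℝ → ℝ := fun x => if x = 0 then I 0 else (∫ y in (0 : ℝ)..x, I y) / x with hA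
  have hA0 : A 0 = I 0 := by simp [hA]
  have dx : HasDerivWithinAt (fun x : ℝ => x) 1 (Ioi 0) 0 := hasDerivWithinAt_id _ _
  set P : ℝ → ℝ := fun x => A x * D x / (F x * (1 - x)) with hP
  have hP0 : P 0 = I 0 := by simp only [hP, hA0, hD0]; field_simp; ring
  have hPp : ∀ x ∈ Ioo 0 x0, P x = p x := fun x hx => by
    simp only [hP, hA, if_neg hx.1.ne']; exact (hel x hx).symm
  obtain ⟨P1, dP, hP1⟩ : ∃ P1, HasDerivWithinAt P P1 (Ioi 0) 0 ∧ P1 * F 0 ^ 2 =
      (a * (a * I 0) - H * F 0 * (a * I 0)) * F 0 ^ 2 + I 0 ^ 3 / 2 + I 0 * F 0 ^ 2 := by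
    refine ⟨_, (dA.mul dD).div (dF.mul (dx.const_sub 1)) (by simpa using hF0.ne'), ?_⟩
    simp only [Pi.mul_apply, hA0, hD0]
    field_simp
    ring
  have dE := ((((((dP.pow 2).mul (dx.mul (dx.const_sub 1))).const_mul (4 * a ^ 2)).add
    (((dP.mul dF).mul ((dx.const_mul 2).const_sub 1)).const_mul (4 * a))).sub
    ((dF.pow 2).const_mul 4)).sub (dP.pow 2)).add
    (((dF.pow 2).mul (((dx.mul (dx.const_sub 1)).mul (dP.pow 2)).add (dF.pow 2))).const_mul
      (4 / ρ ^ 2))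
  obtain ⟨e0, e1⟩ := vanish dE (hev.mono fun x hx => by
    have h1 := hSt x hx
    rw [hda x (Ioo_subset_Icc_self hx)] at h1
    have h2 : x * (1 - x) ≠ 0 := mul_ne_zero hx.1.ne' (by linarith [hx.2])
    simp only [Pi.add_apply, Pi.sub_apply, Pi.mul_apply, Pi.pow_apply, hPp x hx]
    refine mul_left_cancel₀ h2 ?_
    simp only [hF, hp]
    linear_combination h1)
  simp only [Pi.add_apply, Pi.sub_apply, Pi.mul_apply, Pi.pow_apply, hP0] at e0 e1
  refine alg ha ha1 hF0 hp0 hρ hI0 hP1 ?_ ?_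
  · linear_combination e0
  · norm_num at e1
    linear_combination e1

end Pool.Agent.P.MP_ab9b82_gt
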