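import Pool.Agent.P.MP_ab9b82_gt.B2

/-! Package P10: the spherical average nearly decreases the perimeter functional. -/

namespace Pool.Agent.P.MP_ab9b82_gt

open MeasureTheory Set Filter Topology Real
open scoped ENNReal

namespace Avg1Aux

variable {f : ℝ → ℝ} {a0 : ℝ}

/-- the derivative of `sp` in the area variable -/
noncomputable def D (r : ℝ) (z : ℝ × ℝ) : V :=
  !₂[r * (1 - 2 * z.1) / ph z.1 * cos z.2, r * (1 - 2 * z.1) / ph z.1 * sin z.2, 2 * r]

theorem ph_pos {x : ℝ} (hx : x ∈ Ioo (0 : ℝ) 1) : 0 < ph x :=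
  Real.sqrt_pos.2 (mul_pos hx.1 (sub_pos.2 hx.2))

theorem hasDerivAt_sp (r φ : ℝ) {x : ℝ} (hx : x ∈ Ioo (0 : ℝ) 1) :
    HasDerivAt (fun y => sp r (y, φ)) (D r (x, φ)) x := by
  have h0 := ph_pos hx
  have h1 : HasDerivAt ph ((1 - 2 * x) / (2 * ph x)) x := by
    have := ((hasDerivAt_id x).mul ((hasDerivAt_id x).const_sub 1)).sqrt
      (mul_pos hx.1 (sub_pos.2 hx.2)).ne'
    refine this.congr_deriv ?_
    simp only [id, Pi.mul_apply, ph]
    ring
  have h2 : HasDerivAt (fun y => (![2 * r * ph y * cos φ, 2 * r * ph y * sin φ, r * (2 * y - 1)] :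
      Fin 3 → ℝ)) ![r * (1 - 2 * x) / ph x * cos φ, r * (1 - 2 * x) / ph x * sin φ, 2 * r] x := by
    refine hasDerivAt_pi.2 fun i => ?_
    fin_cases i
    · refine ((h1.const_mul (2 * r)).mul_const _).congr_deriv ?_
      change _ = r * (1 - 2 * x) / ph x * cos φ
      field_simp
    · refine ((h1.const_mul (2 * r)).mul_const _).congr_deriv ?_
      change _ = r * (1 - 2 * x) / ph x * sin φ
      field_simp
    · exact ((((hasDerivAt_id x).const_mul 2).sub_const 1).const_mul r).congr_deriv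
        (by simp; ring)
  exact ((PiLp.continuousLinearEquiv 2 ℝ fun _ : Fin 3 => ℝ).symm.hasFDerivAt.comp_hasDerivAt x h2)

theorem D_meas (r : ℝ) : Measurable (D r) := by
  have := ph_cont.measurable
  refine (PiLp.continuous_toLp 2 _).measurable.comp (measurable_pi_lambda _ fun i => ?_)
  fin_cases i <;> simp <;> fun_prop

theorem norm_D_sq (r : ℝ) {z : ℝ × ℝ} (hz : z ∈ Om) : ph z.1 ^ 2 * ‖D r z‖ ^ 2 = r ^ 2 := by
  have h0 := ph_pos hz.1
  have h1 := ph_sq hz.1.1.le hz.1.2.le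
  have h2 := sin_sq_add_cos_sq z.2
  rw [norm_sq_eq]
  simp only [D, PiLp.toLp_apply, Matrix.cons_val_zero, Matrix.cons_val_one, Matrix.cons_val]
  field_simp
  linear_combination (r ^ 2 * (1 - 2 * z.1) ^ 2) * h2 + 4 * r ^ 2 * h1

theorem inner_D (s r : ℝ) {z : ℝ × ℝ} (hz : z ∈ Om) : inner ℝ (sp s z) (D r z) = 0 := by
  have h0 := ph_pos hz.1
  have h2 := sin_sq_add_cos_sq z.2
  rw [inner_eq, sp_zero, sp_one, sp_two]
  simp only [D, PiLp.toLp_apply, Matrix.cons_val_zero, Matrix.cons_val_one, Matrix.cons_val]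
  field_simp
  linear_combination (2 * s * r * (1 - 2 * z.1)) * h2

theorem cal (h : Prof f a0) {r : ℝ} (hr : 0 < r) {z : ℝ × ℝ} (hz : z ∈ Om) (l : V →L[ℝ] ℝ)
    {α β c : ℝ} (hab : α ^ 2 + β ^ 2 ≤ 1) (hc : |c| ≤ ph z.1) :
    2 * f r ^ 2 * β * l (sp 1 z) + 2 * f r * α * (c * l (D r z)) ≤ 2 * r ^ 2 * nrm f (sp r z) l := by
  have hf := h.fpos hr
  have h0 := ph_pos hz.1
  have n1 : ‖sp r z‖ = r := by rw [norm_sp r (Om_mem hz), abs_of_pos hr]
  have n2 : ‖sp 1 z‖ = 1 := by rw [norm_sp 1 (Om_mem hz), abs_one]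
  have e0 := psi_mul h r
  have e1 : inner ℝ (sp r z) (β • sp 1 z + (α * c / f r) • D r z) / r = β := by
    rw [inner_add_right, real_inner_smul_right, real_inner_smul_right, inner_D r r hz, sp_smul r,
      real_inner_smul_left, real_inner_self_eq_norm_sq, n2]
    field_simp
    ring
  have e2 : ‖β • sp 1 z + (α * c / f r) • D r z‖ ^ 2 =
      β ^ 2 + (α * c / f r) ^ 2 * ‖D r z‖ ^ 2 := by
    rw [norm_add_sq_real, real_inner_smul_left, real_inner_smul_right, inner_D 1 r hz, norm_smul,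
      norm_smul, n2, mul_pow, mul_pow, Real.norm_eq_abs, Real.norm_eq_abs, sq_abs, sq_abs]
    ring
  have e3 : ‖D r z‖ ^ 2 = r ^ 2 / ph z.1 ^ 2 := by
    rw [← norm_D_sq r hz]; field_simp
  have e4 : c ^ 2 / ph z.1 ^ 2 ≤ 1 := by
    rw [div_le_one (by positivity), ← sq_abs]
    exact pow_le_pow_left₀ (abs_nonneg _) hc 2
  have h1 := nrm_ge f (sp r z) l (ξ := β • sp 1 z + (α * c / f r) • D r z) (by
    rw [gm_self, n1, e1, e2, e3]
    have : psi f r ^ 2 * (β ^ 2 + (α * c / f r) ^ 2 * (r ^ 2 / ph z.1 ^ 2) - β ^ 2) =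
        α ^ 2 * (c ^ 2 / ph z.1 ^ 2) := by
      rw [← e0]
      have := (psi_pos h hr.le).ne'
      field_simp
      ring
    rw [this]
    nlinarith [sq_nonneg α])
  rw [n1, map_add, map_smul, map_smul, smul_eq_mul, smul_eq_mul] at h1
  have h2 := mul_le_mul_of_nonneg_left h1 (by positivity : 0 ≤ 2 * r ^ 2)
  refine le_trans (le_of_eq ?_) h2
  have e5 : psi f r = f r / r := by rw [← e0]; field_simp
  rw [e5]
  field_simp

theorem sp_dist {r φ x y : ℝ} (hr : 0 ≤ r) :
    ‖sp r (x, φ) - sp r (y, φ)‖ ≤ 2 * r * (|ph x - ph y| + |x - y|) := by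
  refine abs_le_of_sq_le_sq' ?_ (by positivity) |>.2
  have h2 := sin_sq_add_cos_sq φ
  rw [norm_sq_eq]
  simp only [PiLp.sub_apply, sp_zero, sp_one, sp_two]
  have : (2 * r * ph x * cos φ - 2 * r * ph y * cos φ) ^ 2 +
      (2 * r * ph x * sin φ - 2 * r * ph y * sin φ) ^ 2 + (r * (2 * x - 1) - r * (2 * y - 1)) ^ 2 =
      4 * r ^ 2 * (|ph x - ph y| ^ 2 + |x - y| ^ 2) := by
    rw [sq_abs, sq_abs]
    linear_combination (4 * r ^ 2 * (ph x - ph y) ^ 2) * h2
  rw [this]
  have : 0 ≤ r ^ 2 * (|ph x - ph y| * |x - y|) := by positivity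
  nlinarith

theorem ph_mul_le {x y : ℝ} (hx : x ∈ Icc (0 : ℝ) 1) (hy : y ∈ Icc (0 : ℝ) 1) :
    ph y * |ph x - ph y| ≤ |x - y| := by
  have h1 : (ph x + ph y) * |ph x - ph y| = |x - y| * |1 - x - y| := by
    rw [← abs_of_nonneg (add_nonneg (ph_nn x) (ph_nn y)), ← abs_mul, ← abs_mul]
    congr 1
    linear_combination ph_sq hx.1 hx.2 - ph_sq hy.1 hy.2
  have h2 : |1 - x - y| ≤ 1 := abs_le.2 ⟨by linarith [hx.2, hy.2], by linarith [hx.1, hy.1]⟩
  have h3 := mul_nonneg (ph_nn x) (abs_nonneg (ph x - ph y))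
  nlinarith [abs_nonneg (x - y)]

/-- test functions -/
structure Tf (χ χ' : ℝ → ℝ) (L : ℝ) : Prop where
  der : ∀ x ∈ Icc (0 : ℝ) 1, HasDerivAt χ (χ' x) x
  meas : Measurable χ
  meas' : Measurable χ'
  bd : ∀ x ∈ Icc (0 : ℝ) 1, |χ' x| ≤ L
  le : ∀ x ∈ Icc (0 : ℝ) 1, |χ x| ≤ ph x

variable {u : V → ℝ} {R r L : ℝ} {χ χ' : ℝ → ℝ}

theorem Tf.zero (t : Tf χ χ' L) : χ 0 = 0 := by simpa [ph] using t.le 0 (by simp)

theorem Tf.one (t : Tf χ χ' L) : χ 1 = 0 := by simpa [ph] using t.le 1 (by simp)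

theorem ibp1 (hu : Good u R) (t : Tf χ χ' L) (hr : 0 ≤ r) {φ : ℝ}
    (hd : ∀ᵐ x ∂volume.restrict (Ioo (0 : ℝ) 1), DifferentiableAt ℝ u (sp r (x, φ))) :
    ∫ x in Ioo (0 : ℝ) 1, (χ x * fderiv ℝ u (sp r (x, φ)) (D r (x, φ)) +
      χ' x * u (sp r (x, φ))) = 0 := by
  obtain ⟨K, hK⟩ := hu.lip
  have hL : 0 ≤ L := (abs_nonneg _).trans (t.bd 0 (by simp))
  have h1 : LipschitzOnWith (L + K * (4 * r)).toNNReal (fun x => χ x * u (sp r (x, φ)))
      (uIcc 0 1) := by
    rw [uIcc_of_le zero_le_one]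
    refine LipschitzOnWith.of_dist_le_mul fun x hx y hy => ?_
    have a1 : |χ x - χ y| ≤ L * |x - y| :=
      (convex_Icc 0 1).norm_image_sub_le_of_norm_hasDerivWithin_le
        (fun x hx => (t.der x hx).hasDerivWithinAt) t.bd hy hx
    have a2 : |u (sp r (x, φ)) - u (sp r (y, φ))| ≤ K * (2 * r * (|ph x - ph y| + |x - y|)) :=
      (hK.dist_le_mul _ _).trans (mul_le_mul_of_nonneg_left (by
        rw [dist_eq_norm]; exact sp_dist hr) K.2)
    have a3 := ph_mul_le hx hy
    have a4 : ph y * |x - y| ≤ |x - y| :=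
      mul_le_of_le_one_left (abs_nonneg _) ((ph_le y).trans (by norm_num))
    have a5 : |u (sp r (x, φ))| ≤ 1 := abs_le.2 ⟨by linarith [hu.nn (sp r (x, φ))], hu.le _⟩
    have a6 : 0 ≤ (K : ℝ) * r := mul_nonneg K.2 hr
    rw [Real.dist_eq, Real.dist_eq, Real.coe_toNNReal _ (by nlinarith)]
    calc |χ x * u (sp r (x, φ)) - χ y * u (sp r (y, φ))|
        = |(χ x - χ y) * u (sp r (x, φ)) + χ y * (u (sp r (x, φ)) - u (sp r (y, φ)))| := by
          congr 1; ring
      _ ≤ |χ x - χ y| * |u (sp r (x, φ))| + |χ y| * |u (sp r (x, φ)) - u (sp r (y, φ))| := by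
          rw [← abs_mul, ← abs_mul]; exact abs_add_le _ _
      _ ≤ L * |x - y| * 1 + ph y * (K * (2 * r * (|ph x - ph y| + |x - y|))) := by
          gcongr
          · exact ph_nn y
          · exact t.le y hy
      _ ≤ _ := by nlinarith
  have h2 := h1.absolutelyContinuousOnInterval.integral_deriv_eq_sub
  rw [t.zero, t.one, zero_mul, zero_mul, sub_zero, intervalIntegral.integral_of_le zero_le_one,
    integral_Ioc_eq_integral_Ioo] at h2
  refine Eq.trans (integral_congr_ae ?_) h2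
  filter_upwards [hd, ae_restrict_mem measurableSet_Ioo] with x x1 x2
  have a : HasDerivAt (fun y => u (sp r (y, φ))) (fderiv ℝ u (sp r (x, φ)) (D r (x, φ))) x :=
    HasFDerivAt.comp_hasDerivAt (f := fun y => sp r (y, φ)) x x1.hasFDerivAt
      (hasDerivAt_sp r φ x2)
  rw [((t.der x (Ioo_subset_Icc_self x2)).fun_mul a).deriv]
  ring

theorem Om_eq : (volume : Measure (ℝ × ℝ)).restrict Om =
    (volume.restrict (Ioo (0 : ℝ) 1)).prod (volume.restrict (Ioo (-π) π)) := by
  rw [Om, Measure.volume_eq_prod, Measure.prod_restrict]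

theorem int_of_bd {g : ℝ × ℝ → ℝ} (hm : Measurable g) {C : ℝ} (hb : ∀ z ∈ Om, |g z| ≤ C) :
    IntegrableOn g Om :=
  Measure.integrableOn_of_bounded (M := C) (by rw [Om_vol]; exact ENNReal.ofReal_ne_top) hm.aestronglyMeasurable
    ((ae_restrict_iff' Om_meas).2 (ae_of_all _ hb))

theorem sp_cont' (r : ℝ) : Continuous (sp r) := sp_cont.comp (Continuous.prodMk_right r)

theorem app_meas (u : V → ℝ) (r : ℝ) {w : ℝ × ℝ → V} (hw : Measurable w) :
    Measurable fun z => fderiv ℝ u (sp r z) (w z) :=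
  isBoundedBilinearMap_apply.continuous.measurable.comp
    (((measurable_fderiv ℝ u).comp (sp_cont' r).measurable).prodMk hw)

theorem app_le {K : NNReal} (hK : LipschitzWith K u) (p w : V) : |fderiv ℝ u p w| ≤ K * ‖w‖ :=
  ((fderiv ℝ u p).le_opNorm w).trans
    (mul_le_mul_of_nonneg_right (norm_fderiv_le_of_lipschitz ℝ hK) (norm_nonneg _))

theorem int1 (hu : Good u R) (t : Tf χ χ' L) (r : ℝ) :
    IntegrableOn (fun z : ℝ × ℝ => χ z.1 * fderiv ℝ u (sp r z) (D r z)) Om := by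
  obtain ⟨K, hK⟩ := hu.lip
  refine int_of_bd ((t.meas.comp measurable_fst).mul (app_meas u r (D_meas r))) (C := K * |r|)
    fun z hz => ?_
  have a1 : ph z.1 * ‖D r z‖ = |r| := by
    rw [← Real.sqrt_sq_eq_abs, ← norm_D_sq r hz, ← mul_pow,
      Real.sqrt_sq (mul_nonneg (ph_nn _) (norm_nonneg _))]
  rw [abs_mul, ← a1]
  calc |χ z.1| * |fderiv ℝ u (sp r z) (D r z)| ≤ ph z.1 * (K * ‖D r z‖) :=
        mul_le_mul (t.le _ (Om_mem hz)) (app_le hK _ _) (abs_nonneg _) (ph_nn _)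
    _ = _ := by ring

theorem int2 (t : Tf χ χ' L) {g : ℝ × ℝ → ℝ} (hg : Measurable g) (hb : ∀ z, |g z| ≤ 1) :
    IntegrableOn (fun z : ℝ × ℝ => χ' z.1 * g z) Om :=
  int_of_bd ((t.meas'.comp measurable_fst).mul hg) (C := L) fun z hz => by
    rw [abs_mul]
    exact (mul_le_of_le_one_right (abs_nonneg _) (hb z)).trans (t.bd _ (Om_mem hz))

theorem ibp2 (hu : Good u R) (t : Tf χ χ' L) (hr : 0 ≤ r)
    (hd : ∀ᵐ z ∂volume.restrict Om, DifferentiableAt ℝ u (sp r z)) {c : ℝ} (hc : c ∈ Icc (0 : ℝ) 1) :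
    2 * π * χ c - L * ∫ z in Om, |u (sp r z) - if c < z.1 then 1 else 0| ≤
      ∫ z in Om, χ z.1 * fderiv ℝ u (sp r z) (D r z) := by
  have mu : Measurable fun z => u (sp r z) :=
    (hu.lip.choose_spec.continuous.comp (sp_cont' r)).measurable
  have bu : ∀ z, |u (sp r z)| ≤ 1 := fun z => abs_le.2 ⟨by linarith [hu.nn (sp r z)], hu.le _⟩
  have mi : Measurable fun z : ℝ × ℝ => if c < z.1 then (1 : ℝ) else 0 :=
    Measurable.ite (measurableSet_lt measurable_const measurable_fst) measurable_const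
      measurable_const
  have bi : ∀ z : ℝ × ℝ, |if c < z.1 then (1 : ℝ) else 0| ≤ 1 := fun z => by split_ifs <;> simp
  have bd : ∀ z : ℝ × ℝ, |u (sp r z) - if c < z.1 then (1 : ℝ) else 0| ≤ 1 := fun z => by
    have := hu.nn (sp r z)
    have := hu.le (sp r z)
    split_ifs <;> rw [abs_le] <;> constructor <;> linarith
  have i1 := int1 hu t r
  have i2 := int2 t mu bu
  have i3 := int2 t mi bi
  have e1 : ∫ z in Om, (χ z.1 * fderiv ℝ u (sp r z) (D r z) + χ' z.1 * u (sp r z)) = 0 := by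
    have i : IntegrableOn (fun z : ℝ × ℝ => χ z.1 * fderiv ℝ u (sp r z) (D r z) +
      χ' z.1 * u (sp r z)) Om := i1.add i2
    rw [IntegrableOn, Om_eq] at i
    rw [Om_eq] at hd ⊢
    rw [integral_prod_symm _ i]
    refine integral_eq_zero_of_ae ?_
    filter_upwards [Measure.ae_ae_of_ae_prod
      (Measure.measurePreserving_swap.quasiMeasurePreserving.ae hd)] with φ hφ
    exact ibp1 hu t hr hφ
  have e2 : ∫ z in Om, χ' z.1 * (if c < z.1 then (1 : ℝ) else 0) = -(2 * π * χ c) := by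
    rw [Om_eq, integral_fun_fst fun x => χ' x * (if c < x then (1 : ℝ) else 0)]
    have a1 : ∫ x in Ioo (0 : ℝ) 1, χ' x * (if c < x then (1 : ℝ) else 0) = ∫ x in c..1, χ' x := by
      rw [intervalIntegral.integral_of_le hc.2, integral_Ioc_eq_integral_Ioo,
        setIntegral_eq_of_subset_of_forall_sdiff_eq_zero measurableSet_Ioo
          (Ioo_subset_Ioo_left hc.1) fun x hx => by
            rw [if_neg fun h => hx.2 ⟨h, hx.1.2⟩, mul_zero]]
      exact setIntegral_congr_fun measurableSet_Ioo fun x hx => by simp [hx.1]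
    have hsub : uIcc c 1 ⊆ Icc 0 1 := uIcc_subset_Icc hc (by simp)
    rw [a1, intervalIntegral.integral_eq_sub_of_hasDerivAt (fun x hx => t.der x (hsub hx))
      (ii_of_bdd t.meas' fun x hx => t.bd x (hsub hx)), t.one]
    have a2 : (volume.restrict (Ioo (-π) π)).real univ = 2 * π := by
      simp [Measure.real, pi_pos.le, two_mul]
    rw [a2, smul_eq_mul]
    ring
  have e3 : (∫ z in Om, χ' z.1 * u (sp r z)) -
      ∫ z in Om, χ' z.1 * (if c < z.1 then (1 : ℝ) else 0) ≤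
      L * ∫ z in Om, |u (sp r z) - if c < z.1 then 1 else 0| := by
    rw [← integral_sub i2 i3, ← integral_const_mul]
    refine setIntegral_mono_on (i2.sub i3) ((int_of_bd (mu.sub mi).abs (C := 1)
      fun z _ => by rw [abs_abs]; exact bd z).const_mul L) Om_meas fun z hz => ?_
    rw [← mul_sub]
    refine (le_abs_self _).trans ?_
    rw [abs_mul]
    exact mul_le_mul_of_nonneg_right (t.bd _ (Om_mem hz)) (abs_nonneg _)
  rw [integral_add i1 i2] at e1
  linarith

theorem int0 (hu : Good u R) (r : ℝ) :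
    IntegrableOn (fun z : ℝ × ℝ => fderiv ℝ u (sp r z) (sp 1 z)) Om := by
  obtain ⟨K, hK⟩ := hu.lip
  refine int_of_bd (app_meas u r (sp_cont' 1).measurable) (C := K) fun z hz => ?_
  simpa [norm_sp 1 (Om_mem hz)] using app_le hK (sp r z) (sp 1 z)

theorem deriv_av (hu : Good u R)
    (hd : ∀ᵐ z ∂volume.restrict Om, DifferentiableAt ℝ u (sp r z)) :
    2 * π * deriv (av u) r = ∫ z in Om, fderiv ℝ u (sp r z) (sp 1 z) := by
  obtain ⟨K, hK⟩ := hu.lip
  have mu : ∀ s, Measurable fun z => u (sp s z) := fun s =>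
    (hK.continuous.comp (sp_cont' s)).measurable
  have h1 := (hasDerivAt_integral_of_dominated_loc_of_lip (μ := volume.restrict Om)
    (F := fun s z => u (sp s z)) (F' := fun z => fderiv ℝ u (sp r z) (sp 1 z)) (x₀ := r)
    (bound := fun _ => K) (s := univ) univ_mem
    (Eventually.of_forall fun s => (mu s).aestronglyMeasurable)
    (int_of_bd (mu r) (C := 1) fun z _ => abs_le.2 ⟨by linarith [hu.nn (sp r z)], hu.le _⟩)
    (int0 hu r).aestronglyMeasurable ?_
    (int_of_bd measurable_const (C := K) fun _ _ => by simp) ?_).2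
  · have h2 := (h1.div_const (2 * π)).deriv
    change deriv (av u) r = _ at h2
    rw [h2]
    field_simp
  · filter_upwards [ae_restrict_mem Om_meas] with z hz
    refine LipschitzWith.lipschitzOnWith (LipschitzWith.of_dist_le_mul fun x y => ?_)
    refine (hK.dist_le_mul _ _).trans (le_of_eq ?_)
    rw [sp_smul x, sp_smul y, dist_eq_norm, ← sub_smul, norm_smul, norm_sp 1 (Om_mem hz)]
    simp [Real.dist_eq]
  · filter_upwards [hd] with z hz
    have : HasDerivAt (fun s => sp s z) (sp 1 z) r := by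
      have := (hasDerivAt_id r).smul_const (sp 1 z)
      rw [one_smul] at this
      exact this.congr_of_eventuallyEq (Eventually.of_forall fun s => sp_smul s z)
    exact hz.hasFDerivAt.comp_hasDerivAt r this

theorem intN (h : Prof f a0) (hu : Good u R) (r : ℝ) :
    IntegrableOn (fun z : ℝ × ℝ => 2 * r ^ 2 * nrm f (sp r z) (fderiv ℝ u (sp r z))) Om := by
  obtain ⟨K, hK⟩ := hu.lip
  refine (int_of_bd ((nrm_meas h u).comp (sp_cont' r).measurable) (C := K) fun z _ => ?_).const_mul _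
  rw [Function.comp_apply, abs_of_nonneg (nrm_nn ..)]
  refine (nrm_le h _ _).trans ((mul_le_of_le_one_left (norm_nonneg _)
    (psi_le h (norm_nonneg _))).trans (norm_fderiv_le_of_lipschitz ℝ hK))

theorem main (h : Prof f a0) (hu : Good u R) (t : Tf χ χ' L) (hr : 0 < r)
    (hd : ∀ᵐ z ∂volume.restrict Om, DifferentiableAt ℝ u (sp r z)) (h0 : 0 ≤ av u r)
    (h1 : av u r ≤ 1) (h2 : 0 ≤ dl u r) :
    4 * π * Lg f r (av u r) (deriv (av u) r) ≤
      (∫ z in Om, 2 * r ^ 2 * nrm f (sp r z) (fderiv ℝ u (sp r z))) +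
        4 * π * f r * (ph (av u r) - χ (1 - av u r) + L * dl u r) := by
  have hf := h.fpos hr
  have hc : 1 - av u r ∈ Icc (0 : ℝ) 1 := ⟨by linarith, by linarith⟩
  have hL : 0 ≤ L := (abs_nonneg _).trans (t.bd 0 (by simp))
  obtain ⟨α, β, a1, a2, a3, a4⟩ : ∃ α β : ℝ, α ^ 2 + β ^ 2 ≤ 1 ∧ 0 ≤ α ∧ α ≤ 1 ∧
      Lg f r (av u r) (deriv (av u) r) =
        α * (f r * ph (av u r)) + β * (f r ^ 2 * deriv (av u) r) := by
    have e : Lg f r (av u r) (deriv (av u) r) ^ 2 =
        (f r * ph (av u r)) ^ 2 + (f r ^ 2 * deriv (av u) r) ^ 2 := by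
      rw [Lg, Real.sq_sqrt (by have := mul_nonneg h0 (sub_nonneg.2 h1); positivity), mul_pow,
        ph_sq h0 h1]
      ring
    have hA : 0 ≤ f r * ph (av u r) := mul_nonneg hf.le (ph_nn _)
    generalize f r * ph (av u r) = A at e hA
    generalize f r ^ 2 * deriv (av u) r = B at e
    have hG := Lg_nn f r (av u r) (deriv (av u) r)
    generalize Lg f r (av u r) (deriv (av u) r) = G at e hG
    rcases hG.eq_or_lt with rfl | hG
    · exact ⟨0, 0, by simp, le_rfl, zero_le_one, by simp⟩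
    · refine ⟨A / G, B / G, le_of_eq ?_, by positivity, ?_, ?_⟩
      · field_simp; linarith
      · rw [div_le_one hG]; nlinarith [sq_nonneg B]
      · field_simp; linarith
  have b1 := setIntegral_mono_on (((int0 hu r).const_mul (2 * f r ^ 2 * β)).add
    ((int1 hu t r).const_mul (2 * f r * α))) (intN h hu r) Om_meas
    fun z hz => cal h hr hz _ a1 (t.le _ (Om_mem hz))
  simp only [Pi.add_apply] at b1
  rw [integral_add ((int0 hu r).const_mul _) ((int1 hu t r).const_mul _), integral_const_mul,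
    integral_const_mul, ← deriv_av hu hd] at b1
  have b2 := ibp2 hu t hr.le hd hc
  have b3 : ∫ z in Om, |u (sp r z) - if 1 - av u r < z.1 then 1 else 0| = 2 * π * dl u r := by
    unfold dl; field_simp
  rw [b3] at b2
  have b4 := mul_le_mul_of_nonneg_left b2 (by positivity : 0 ≤ 2 * f r * α)
  have b5 : 0 ≤ ph (av u r) - χ (1 - av u r) + L * dl u r := by
    have := (le_abs_self _).trans (t.le _ hc)
    rw [show ph (1 - av u r) = ph (av u r) by simp [ph, mul_comm]] at this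
    nlinarith
  have b6 := mul_le_mul_of_nonneg_left (mul_le_of_le_one_left b5 a3)
    (by positivity : 0 ≤ 4 * π * f r)
  rw [a4]
  nlinarith

theorem tf0 : Tf (fun _ => 0) (fun _ => 0) 0 :=
  ⟨fun x _ => hasDerivAt_const x 0, measurable_const, measurable_const, by simp,
    fun x _ => by simpa using ph_nn x⟩

theorem tf1 {η : ℝ} (hη : 0 < η) : Tf (fun x => √(x * (1 - x) + η ^ 2) - η)
    (fun x => (1 - 2 * x) / (2 * √(x * (1 - x) + η ^ 2))) η⁻¹ := by
  have h1 : ∀ x ∈ Icc (0 : ℝ) 1, η ≤ √(x * (1 - x) + η ^ 2) := fun x hx =>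
    Real.le_sqrt_of_sq_le (by nlinarith [hx.1, hx.2])
  refine ⟨fun x hx => ?_, by fun_prop, by fun_prop, fun x hx => ?_, fun x hx => ?_⟩
  · have := ((((hasDerivAt_id x).mul ((hasDerivAt_id x).const_sub 1)).add_const (η ^ 2)).sqrt
      (by have := mul_nonneg hx.1 (sub_nonneg.2 hx.2); simp only [id, Pi.mul_apply]; positivity)
      ).sub_const η
    refine this.congr_deriv ?_
    simp only [id, Pi.mul_apply]
    ring
  · have := h1 x hx
    rw [abs_div, abs_of_pos (by linarith : 0 < 2 * √(x * (1 - x) + η ^ 2)), inv_eq_one_div,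
      div_le_div_iff₀ (by linarith) hη]
    have : |1 - 2 * x| ≤ 1 := abs_le.2 ⟨by linarith [hx.2], by linarith [hx.1]⟩
    nlinarith
  · rw [abs_of_nonneg (sub_nonneg.2 (h1 x hx)), sub_le_iff_le_add]
    refine Real.sqrt_le_iff.2 ⟨add_nonneg (ph_nn x) hη.le, ?_⟩
    nlinarith [ph_sq hx.1 hx.2, mul_nonneg (ph_nn x) hη.le]

theorem ae_diff (hS : S_Sph) (hu : Good u R) : ∀ᵐ r ∂volume.restrict (Ioi (0 : ℝ)),
    ∀ᵐ z ∂volume.restrict Om, DifferentiableAt ℝ u (sp r z) := by
  have hN : MeasurableSet {p | DifferentiableAt ℝ u p}ᶜ :=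
    (measurableSet_of_differentiableAt ℝ u).compl
  have hm : Measurable ({p | DifferentiableAt ℝ u p}ᶜ.indicator (1 : V → ℝ≥0∞)) :=
    measurable_one.indicator hN
  have h1 := hS _ hm
  have hj : Measurable fun q : ℝ × ℝ × ℝ => ENNReal.ofReal (2 * q.1 ^ 2) *
      {p | DifferentiableAt ℝ u p}ᶜ.indicator (1 : V → ℝ≥0∞) (sp q.1 q.2) :=
    Measurable.mul (by fun_prop) (hm.comp sp_cont.measurable)
  rw [lintegral_indicator_one hN, show volume {p | DifferentiableAt ℝ u p}ᶜ = 0 from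
    hu.lip.choose_spec.ae_differentiableAt, eq_comm,
    lintegral_eq_zero_iff hj.lintegral_prod_right'] at h1
  filter_upwards [h1, ae_restrict_mem measurableSet_Ioi] with r r1 r2
  have r3 : (0 : ℝ) < r := r2
  filter_upwards [(lintegral_eq_zero_iff (hj.comp measurable_prodMk_left)).1 r1] with z hz
  by_contra hn
  rw [Function.comp_apply, indicator_of_mem (by exact hn)] at hz
  simp only [Pi.one_apply, mul_one, Pi.zero_apply, ENNReal.ofReal_eq_zero] at hz
  nlinarith

end Avg1Aux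

open Avg1Aux in
theorem sAvg1 (hS : S_Sph) (hA : S_Avg2) : S_Avg1 := by
  intro f a0 h u R hu η hη
  obtain ⟨hv, -, -, -, hm, hb⟩ := hA f a0 h u R hu
  have hme : Measurable fun r =>
      ENNReal.ofReal (4 * π * f r * min (ph (av u r)) (η + dl u r / η)) := by
    have := h.continuous.measurable
    have := (ph_cont.comp hv.lip.continuous).measurable
    exact Measurable.ennreal_ofReal (Measurable.mul (by fun_prop) (this.min (by fun_prop)))
  rw [GG, hS _ (nrm_meas h u).ennreal_ofReal, ← lintegral_add_right _ hme, FF,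
    ← integral_const_mul, ofReal_integral_eq_lintegral_ofReal ((hv.intF h 0).const_mul _)
      (ae_of_all _ fun r => mul_nonneg (by positivity) (Lg_nn ..))]
  refine lintegral_mono_ae ?_
  filter_upwards [ae_diff hS hu, ae_restrict_mem measurableSet_Ioi] with r hd hr
  have hr' : (0 : ℝ) < r := hr
  have m0 := main h hu tf0 hr' hd (hv.nn r) (hv.le r) (hb r).2.1
  have m1 := main h hu (tf1 hη) hr' hd (hv.nn r) (hv.le r) (hb r).2.1
  have e : ∫⁻ z in Om, ENNReal.ofReal (2 * r ^ 2) *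
      ENNReal.ofReal (nrm f (sp r z) (fderiv ℝ u (sp r z))) =
      ENNReal.ofReal (∫ z in Om, 2 * r ^ 2 * nrm f (sp r z) (fderiv ℝ u (sp r z))) := by
    rw [ofReal_integral_eq_lintegral_ofReal (intN h hu r)
      (ae_of_all _ fun z => mul_nonneg (by positivity) (nrm_nn ..))]
    exact lintegral_congr fun z => (ENNReal.ofReal_mul (by positivity)).symm
  rw [e]
  refine le_trans (ENNReal.ofReal_le_ofReal ?_) ENNReal.ofReal_add_le
  have hf : 0 ≤ 4 * π * f r := by have := h.fpos hr'; positivity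
  rcases le_total (ph (av u r)) (η + dl u r / η) with c | c
  · rw [min_eq_left c]; simpa using m0
  · rw [min_eq_right c]
    refine m1.trans (add_le_add le_rfl (mul_le_mul_of_nonneg_left ?_ hf))
    have : ph (av u r) ≤ √((1 - av u r) * (1 - (1 - av u r)) + η ^ 2) :=
      Real.sqrt_le_sqrt (by nlinarith [sq_nonneg η])
    rw [div_eq_inv_mul]
    linarith

end Pool.Agent.P.MP_ab9b82_gt
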