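import Pool.Agent.P.MP_ab9b82_gt.B2

/-! Spherical averages and the bathtub inequality. -/

namespace Pool.Agent.P.MP_ab9b82_gt

open MeasureTheory Set Filter Topology Real
open scoped ENNReal

namespace Avg2Aux

theorem ptw {a b x y c : ℝ} (a0 : 0 ≤ a) (a1 : a ≤ 1) (b0 : 0 ≤ b) (b1 : b ≤ 1) (hc : 0 ≤ c)
    (x1 : x ≤ 1) :
    (if c < x then (1 - b) * (x - c) else 0) * (if c < y then 0 else a) - min a (1 - a) -
      min b (1 - b) ≤ max ((a - b) * (x - y)) 0 := by
  have ma : 0 ≤ min a (1 - a) := le_min a0 (by linarith)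
  have mb : 0 ≤ min b (1 - b) := le_min b0 (by linarith)
  have m0 := le_max_right ((a - b) * (x - y)) 0
  split_ifs with h1 h2 h2 <;> try linarith
  push Not at h2
  have k : a * (1 - b) - min a (1 - a) - min b (1 - b) ≤ max (a - b) 0 := by
    have := le_max_left (a - b) 0
    have := le_max_right (a - b) 0
    rcases min_choice a (1 - a) with h | h <;> rcases min_choice b (1 - b) with h' | h' <;>
      rw [h, h'] <;> nlinarith
  have k2 : max (a - b) 0 * (x - c) ≤ max ((a - b) * (x - y)) 0 := by
    rcases le_total (a - b) 0 with h | h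
    · rw [max_eq_right h, zero_mul]; exact m0
    · rw [max_eq_left h]
      exact (mul_le_mul_of_nonneg_left (by linarith) h).trans (le_max_left _ _)
  have k3 := mul_le_mul_of_nonneg_right k (sub_pos.2 h1).le
  nlinarith

variable {Ω : Type} [MeasurableSpace Ω] (P : Measure Ω) [IsProbabilityMeasure P]

theorem int1 {g : Ω → ℝ} (hg : Measurable g) (hb : ∀ᵐ z ∂P, 0 ≤ g z ∧ g z ≤ 1) :
    Integrable g P :=
  .of_bound hg.aestronglyMeasurable 1 (hb.mono fun z h => by rw [Real.norm_of_nonneg h.1]; exact h.2)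

theorem le1 {g : Ω → ℝ} (hb : ∀ᵐ z ∂P, 0 ≤ g z ∧ g z ≤ 1) : ∫ z, g z ∂P ≤ 1 := by
  simpa using integral_mono_of_nonneg (hb.mono fun _ h => h.1) (integrable_const (1 : ℝ))
    (hb.mono fun _ h => h.2)

omit [IsProbabilityMeasure P] in
theorem sub3 {a b c : Ω → ℝ} (ha : Integrable a P) (hb : Integrable b P) (hc : Integrable c P) :
    ∫ z, a z - b z - c z ∂P = ∫ z, a z ∂P - ∫ z, b z ∂P - ∫ z, c z ∂P := by
  rw [← integral_sub ha hb]
  exact integral_sub (ha.sub hb) hc

/-- the bathtub inequality -/
theorem bath {X U : Ω → ℝ} (hX : Measurable X) (hU : Measurable U) (U0 : ∀ z, 0 ≤ U z)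
    (U1 : ∀ z, U z ≤ 1) (X1 : ∀ᵐ z ∂P, 0 ≤ X z ∧ X z ≤ 1) {c : ℝ} (hc : 0 ≤ c)
    (hC : P.real {z | c < X z} = ∫ z, U z ∂P)
    (hs : ∀ t ≥ 0, P.real {z | c < X z ∧ X z ≤ c + t} ≤ t) :
    (∫ z, |U z - if c < X z then 1 else 0| ∂P) ^ 3 ≤
      32 * (∫ z, ∫ w, max ((U w - U z) * (X z - X w)) 0 ∂P ∂P + 2 * ∫ z, min (U z) (1 - U z) ∂P) := by
  have mC : MeasurableSet {z | c < X z} := measurableSet_lt measurable_const hX
  have iU : Integrable U P := int1 P hU (.of_forall fun z => ⟨U0 z, U1 z⟩)
  have ih : Integrable (fun w => if c < X w then 0 else U w) P :=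
    int1 P (.ite mC measurable_const hU) (.of_forall fun z => by split_ifs <;> simp [U0, U1])
  have ik : Integrable (fun w => if c < X w then 1 - U w else 0) P :=
    int1 P (.ite mC (measurable_const.sub hU) measurable_const)
      (.of_forall fun z => by split_ifs <;> simp [U0, U1])
  have ig : Integrable (fun z => if c < X z then (1 - U z) * (X z - c) else 0) P :=
    int1 P (.ite mC (by fun_prop) measurable_const) (X1.mono fun z hz => by
      have := U0 z
      have := U1 z
      split_ifs with h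
      · constructor <;> nlinarith [hz.2]
      · simp)
  have im : Integrable (fun z => min (U z) (1 - U z)) P :=
    int1 P (by fun_prop) (.of_forall fun z =>
      ⟨le_min (U0 z) (sub_nonneg.2 (U1 z)), (min_le_left _ _).trans (U1 z)⟩)
  set d := ∫ w, (if c < X w then 0 else U w) ∂P with hd
  have d0 : 0 ≤ d := integral_nonneg fun z => by dsimp only; split_ifs <;> simp [U0]
  have ek : ∫ w, (if c < X w then 1 - U w else 0) ∂P = d := by
    have : (fun w => if c < X w then 1 - U w else 0) = fun w =>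
        {z | c < X z}.indicator 1 w - U w + if c < X w then 0 else U w := by
      funext w
      by_cases h : c < X w <;> simp [h]
    have i1 : Integrable ({z | c < X z}.indicator (1 : Ω → ℝ)) P :=
      (integrable_const (1 : ℝ)).indicator mC
    have i2 : Integrable (fun w => {z | c < X z}.indicator 1 w - U w) P := i1.sub iU
    rw [this, integral_add i2 ih, integral_sub i1 iU, integral_indicator_one mC, hC]
    ring
  have e1 : ∫ z, |U z - if c < X z then 1 else 0| ∂P = 2 * d := by
    rw [two_mul]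
    nth_rewrite 1 [← ek]
    rw [← integral_add ik ih]
    refine integral_congr_ae (.of_forall fun z => ?_)
    dsimp only
    split_ifs
    · rw [abs_sub_comm, abs_of_nonneg (sub_nonneg.2 (U1 z)), add_zero]
    · rw [sub_zero, abs_of_nonneg (U0 z), zero_add]
  set G := ∫ z, (if c < X z then (1 - U z) * (X z - c) else 0) ∂P with hG
  have e2 : d ^ 2 / 4 ≤ G := by
    have mS : MeasurableSet {z | c < X z ∧ X z ≤ c + d / 2} :=
      mC.inter (measurableSet_le hX measurable_const)
    have i1 : Integrable ({z | c < X z ∧ X z ≤ c + d / 2}.indicator (1 : Ω → ℝ)) P :=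
      (integrable_const (1 : ℝ)).indicator mS
    have := integral_mono (((ik.sub i1)).const_mul (d / 2)) ig fun z => by
      have := U0 z
      have := U1 z
      by_cases h : c < X z <;> by_cases h' : X z ≤ c + d / 2 <;> simp [h, h'] <;> nlinarith
    simp only [Pi.sub_apply] at this
    rw [integral_const_mul, integral_sub ik i1, integral_indicator_one mS, ek] at this
    nlinarith [hs (d / 2) (by linarith)]
  have bK : ∀ z, 0 ≤ X z ∧ X z ≤ 1 → ∀ᵐ w ∂P, 0 ≤ max ((U w - U z) * (X z - X w)) 0 ∧
      max ((U w - U z) * (X z - X w)) 0 ≤ 1 := fun z hz => X1.mono fun w hw =>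
    ⟨le_max_right _ _, max_le (by
      have := U0 z
      have := U1 z
      have := U0 w
      have := U1 w
      nlinarith [sq_nonneg (U w - U z - (X z - X w)), abs_le.2 ⟨by linarith, by linarith⟩ |>
        fun h : |U w - U z| ≤ 1 => sq_le_one_iff_abs_le_one _ |>.2 h,
        abs_le.2 ⟨by linarith [hz.1, hw.2], by linarith [hz.2, hw.1]⟩ |>
        fun h : |X z - X w| ≤ 1 => sq_le_one_iff_abs_le_one _ |>.2 h]) zero_le_one⟩
  have mK : Measurable fun q : Ω × Ω => max ((U q.2 - U q.1) * (X q.1 - X q.2)) 0 := by fun_prop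
  have e3 := integral_mono_ae (((ig.mul_const d).sub
      (integrable_const (∫ z, min (U z) (1 - U z) ∂P))).sub im)
    (int1 P (mK.stronglyMeasurable.integral_prod_right' (ν := P)).measurable (X1.mono fun z hz =>
      ⟨integral_nonneg fun w => le_max_right _ _, le1 P (bK z hz)⟩)) (X1.mono fun z hz => by
      have := integral_mono (((ih.const_mul (if c < X z then (1 - U z) * (X z - c) else 0)).sub
        im).sub (integrable_const (min (U z) (1 - U z)))) (int1 P (by fun_prop) (bK z hz))
        fun w => ptw (U0 w) (U1 w) (U0 z) (U1 z) hc hz.2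
      simp only [Pi.sub_apply] at this ⊢
      rw [sub3 P (ih.const_mul _) im (integrable_const _), integral_const_mul] at this
      simpa using this)
  simp only [Pi.sub_apply] at e3
  rw [sub3 P (ig.mul_const d) (integrable_const _) im, integral_mul_const] at e3
  simp only [integral_const, probReal_univ, one_smul] at e3
  rw [e1]
  nlinarith [mul_le_mul_of_nonneg_right e2 d0]

/-- the normalised measure on the sphere -/
noncomputable def PP : Measure (ℝ × ℝ) := (ENNReal.ofReal (2 * π))⁻¹ • volume.restrict Om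

theorem tp : 0 < 2 * π := by positivity

theorem PP_fst {A : Set ℝ} (hA : MeasurableSet A) : PP (Prod.fst ⁻¹' A) = volume (A ∩ Ioo 0 1) := by
  have : Prod.fst ⁻¹' A ∩ Om = (A ∩ Ioo 0 1) ×ˢ Ioo (-π) π := by
    ext z; simp [Om, and_assoc]
  rw [PP, Measure.smul_apply, Measure.restrict_apply (measurable_fst hA), this,
    Measure.volume_eq_prod, Measure.prod_prod, Real.volume_Ioo, sub_neg_eq_add, ← two_mul,
    smul_eq_mul, mul_comm, mul_assoc, ENNReal.mul_inv_cancel (by simpa using pi_pos)
      ENNReal.ofReal_ne_top, mul_one]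

theorem PP_prob : IsProbabilityMeasure PP := ⟨by simpa using PP_fst MeasurableSet.univ⟩

theorem PP_int (g : ℝ × ℝ → ℝ) : (∫ z in Om, g z) / (2 * π) = ∫ z, g z ∂PP := by
  rw [PP, integral_smul_measure, ENNReal.toReal_inv, ENNReal.toReal_ofReal tp.le, smul_eq_mul,
    div_eq_inv_mul]

theorem PP_ae : ∀ᵐ z ∂PP, z ∈ Om := Measure.ae_smul_measure (ae_restrict_mem Om_meas) _

theorem av_eq (h : V → ℝ) (r : ℝ) : av h r = ∫ z, h (sp r z) ∂PP := PP_int _

theorem KK_eq (u : V → ℝ) (r : ℝ) :
    KK u r = ∫ z, ∫ w, max ((u (sp r w) - u (sp r z)) * (z.1 - w.1)) 0 ∂PP ∂PP := by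
  simp only [← PP_int, KK]
  rw [integral_div, div_div, sq]

theorem dl_eq (u : V → ℝ) (r : ℝ) :
    dl u r = ∫ z, |u (sp r z) - if 1 - av u r < z.1 then 1 else 0| ∂PP := PP_int _

end Avg2Aux

open Avg2Aux in
theorem sAvg2 (hS : S_Sph) : S_Avg2 := by
  intro f a0 hf u R hu
  have := PP_prob
  obtain ⟨K, hK⟩ := hu.lip
  have cu : Continuous fun q : ℝ × ℝ × ℝ => u (sp q.1 q.2) := hK.continuous.comp sp_cont
  have mU : ∀ r, Measurable fun z => u (sp r z) := fun r =>
    (cu.comp (Continuous.prodMk_right r)).measurable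
  have bU : ∀ r, ∀ᵐ z ∂PP, 0 ≤ u (sp r z) ∧ u (sp r z) ≤ 1 := fun r =>
    .of_forall fun z => ⟨hu.nn _, hu.le _⟩
  have iU : ∀ r, Integrable (fun z => u (sp r z)) PP := fun r => int1 PP (mU r) (bU r)
  have v0 : ∀ r, 0 ≤ av u r := fun r => av_eq u r ▸ integral_nonneg fun z => hu.nn _
  have v1 : ∀ r, av u r ≤ 1 := fun r => av_eq u r ▸ le1 PP (bU r)
  have vz : ∀ r ≥ R, av u r = 0 := fun r hr => by
    rw [av_eq]
    exact integral_eq_zero_of_ae (PP_ae.mono fun z hz => hu.supp _ (by
      rw [norm_sp r (Om_mem hz)]; exact hr.le.trans (le_abs_self r)))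
  have lv : Lip (av u) := by
    refine Lip.of_abs (K := K) fun r r' => ?_
    rw [av_eq, av_eq, ← integral_sub (iU r) (iU r')]
    have := norm_integral_le_of_norm_le_const (μ := PP)
      (f := fun z => u (sp r z) - u (sp r' z)) (C := K * |r - r'|) (PP_ae.mono fun z hz => by
        have := hK.dist_le_mul (sp r z) (sp r' z)
        rwa [dist_eq_norm, dist_eq_norm, sp_smul r, sp_smul r', ← sub_smul, ← sp_smul, ← sp_smul,
          ← sp_smul, norm_sp _ (Om_mem hz)] at this)
    simpa using this
  refine ⟨⟨lv, v0, v1, R, vz⟩, vz, fun α β hα => ?_, ?_, ?_, fun r => ⟨?_, ?_, ?_, ?_⟩⟩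
  · have mS : MeasurableSet {p : V | α < ‖p‖ ∧ ‖p‖ < β} := measurable_norm measurableSet_Ioo
    have m1 : Measurable fun p => ENNReal.ofReal (u p) := hK.continuous.measurable.ennreal_ofReal
    rw [← lintegral_indicator mS, lint_mu hf (m1.indicator mS),
      hS (fun p => _ * _) ((mu_dens_meas hf).mul (m1.indicator mS)),
      ← inter_eq_self_of_subset_left (show Ioo α β ⊆ Ioi 0 from fun r hr => hα.trans_lt hr.1),
      ← Measure.restrict_restrict measurableSet_Ioo, ← lintegral_indicator measurableSet_Ioo]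
    refine setLIntegral_congr_fun measurableSet_Ioi fun r (hr : 0 < r) => ?_
    have hn : ∀ z ∈ Om, ‖sp r z‖ = r := fun z hz => by rw [norm_sp r (Om_mem hz), abs_of_pos hr]
    by_cases h : r ∈ Ioo α β
    · have i1 : IntegrableOn (fun z => 2 * f r ^ 2 * u (sp r z)) Om := by
        have : IsFiniteMeasure (volume.restrict Om) := ⟨by
          rw [Measure.restrict_apply_univ, Om_vol]; exact ENNReal.ofReal_lt_top⟩
        exact (Integrable.of_bound (mU r).aestronglyMeasurable 1 (.of_forall fun z => by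
          rw [Real.norm_of_nonneg (hu.nn _)]; exact hu.le _)).const_mul _
      have e : 4 * π * (av u r * f r ^ 2) = ∫ z in Om, 2 * f r ^ 2 * u (sp r z) := by
        rw [integral_const_mul, av]; field_simp; ring
      rw [indicator_of_mem h, e, ofReal_integral_eq_lintegral_ofReal i1
        (.of_forall fun z => mul_nonneg (by positivity) (hu.nn _))]
      refine setLIntegral_congr_fun Om_meas fun z hz => ?_
      rw [indicator_of_mem (show sp r z ∈ {p : V | α < ‖p‖ ∧ ‖p‖ < β} by
        rw [mem_ofPred_eq, hn z hz]; exact h), hn z hz, ← ENNReal.ofReal_mul (by positivity),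
        ← ENNReal.ofReal_mul (by positivity), ← psi_mul hf r]
      congr 1; ring
    · rw [indicator_of_notMem h]
      refine (setLIntegral_congr_fun Om_meas fun z hz => ?_).trans lintegral_zero
      rw [indicator_of_notMem (show sp r z ∉ {p : V | α < ‖p‖ ∧ ‖p‖ < β} by
        rw [mem_ofPred_eq, hn z hz]; exact h), mul_zero, mul_zero]
  · rw [funext (KK_eq u)]
    have m1 : Measurable fun q : (ℝ × ℝ × ℝ) × ℝ × ℝ =>
        max ((u (sp q.1.1 q.2) - u (sp q.1.1 q.1.2)) * (q.1.2.1 - q.2.1)) 0 := by
      have a1 := (cu.comp (continuous_fst.fst.prodMk continuous_snd :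
        Continuous fun q : (ℝ × ℝ × ℝ) × ℝ × ℝ => (q.1.1, q.2))).measurable
      have a2 := (cu.comp (continuous_fst : Continuous fun q : (ℝ × ℝ × ℝ) × ℝ × ℝ => q.1)).measurable
      exact ((a1.sub a2).mul (by fun_prop)).max measurable_const
    exact ((m1.stronglyMeasurable.integral_prod_right' (ν := PP)).integral_prod_right'
      (ν := PP)).measurable
  · rw [funext (dl_eq u)]
    have m1 : Measurable fun q : ℝ × ℝ × ℝ =>
        |u (sp q.1 q.2) - if 1 - av u q.1 < q.2.1 then 1 else 0| := by
      have := lv.continuous.measurable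
      exact (cu.measurable.sub (.ite (measurableSet_lt (by fun_prop) (by fun_prop))
        measurable_const measurable_const)).abs
    exact (m1.stronglyMeasurable.integral_prod_right' (ν := PP)).measurable
  · rw [KK_eq]
    exact integral_nonneg fun z => integral_nonneg fun w => le_max_right _ _
  · rw [dl_eq]
    exact integral_nonneg fun z => abs_nonneg _
  · rw [dl_eq]
    refine le1 PP (.of_forall fun z => ⟨abs_nonneg _, abs_le.2 ?_⟩)
    have := hu.nn (sp r z)
    have := hu.le (sp r z)
    split_ifs <;> constructor <;> linarith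
  · rw [dl_eq, KK_eq, mn, av_eq fun p => min (u p) (1 - u p)]
    refine bath PP measurable_fst (mU r) (fun z => hu.nn _) (fun z => hu.le _)
      (PP_ae.mono fun z hz => Om_mem hz) (sub_nonneg.2 (v1 r)) ?_ fun t ht => ?_
    · have : Ioi (1 - av u r) ∩ Ioo 0 1 = Ioo (1 - av u r) 1 := by
        ext x
        exact ⟨fun h => ⟨h.1, h.2.2⟩, fun h => ⟨h.1, (sub_nonneg.2 (v1 r)).trans_lt h.1, h.2⟩⟩
      rw [← av_eq, Measure.real]
      refine (congrArg ENNReal.toReal (PP_fst measurableSet_Ioi)).trans ?_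
      rw [this, Real.volume_Ioo, sub_sub_cancel, ENNReal.toReal_ofReal (v0 r)]
    · refine ENNReal.toReal_le_of_le_ofReal ht ((PP_fst measurableSet_Ioc).trans_le ?_)
      exact (measure_mono inter_subset_left).trans (by simp)

end Pool.Agent.P.MP_ab9b82_gt
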