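import Pool.Agent.P.MP_ab9b82_gt.B2

/-! Boundaries of star shaped sets, lower semicontinuity of the perimeter. -/

namespace Pool.Agent.P.MP_ab9b82_gt

open MeasureTheory Set Filter Topology
open scoped ENNReal

namespace BdAux

variable {f : ℝ → ℝ} {a0 : ℝ}

theorem not_mem_of_sub {g : Met} {E U : Set V} {p : V} (hU : U ∈ 𝓝 p) (h : U ⊆ E) :
    p ∉ bdry g E := fun hp => by
  have := (hp U hU).2
  rw [sdiff_eq_empty.2 h, measure_empty] at this
  exact lt_irrefl _ this

theorem not_mem_of_disj {g : Met} {E U : Set V} {p : V} (hU : U ∈ 𝓝 p) (h : U ∩ E = ∅) :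
    p ∉ bdry g E := fun hp => by
  have := (hp U hU).1
  rw [h, measure_empty] at this
  exact lt_irrefl _ this

theorem graph (h : Prof f a0) (hv : vol (gm f) = mu f) {E N : Set V} {φ : V → ℝ} (hN : IsOpen N)
    (hφ : ContinuousOn φ N) (hE : ∀ q ∈ N, q ∈ E ↔ ‖q‖ < φ q) {p : V} (hp : p ∈ N) (hp0 : p ≠ 0)
    (hs : ∀ t > (0 : ℝ), φ (t • p) = φ p) : p ∈ bdry (gm f) E ↔ ‖p‖ = φ p := by
  have hc : ContinuousOn (fun q => φ q - ‖q‖) N := hφ.sub continuous_norm.continuousOn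
  have o1 : IsOpen (N ∩ (fun q => φ q - ‖q‖) ⁻¹' Ioi 0) := hc.isOpen_inter_preimage hN isOpen_Ioi
  have o2 : IsOpen (N ∩ (fun q => φ q - ‖q‖) ⁻¹' Iio 0) := hc.isOpen_inter_preimage hN isOpen_Iio
  have s1 : N ∩ (fun q => φ q - ‖q‖) ⁻¹' Ioi 0 ⊆ E := fun q hq =>
    (hE q hq.1).2 (sub_pos.1 hq.2)
  have s2 : ∀ q ∈ N ∩ (fun q => φ q - ‖q‖) ⁻¹' Iio 0, q ∉ E := fun q hq hq' =>
    lt_asymm (sub_neg.1 hq.2) ((hE q hq.1).1 hq')
  constructor
  · intro hb
    by_contra hne
    rcases lt_or_gt_of_ne hne with l | l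
    · exact not_mem_of_sub (o1.mem_nhds ⟨hp, sub_pos.2 l⟩) s1 hb
    · exact not_mem_of_disj (o2.mem_nhds ⟨hp, sub_neg.2 l⟩)
        (eq_empty_of_forall_notMem fun q hq => s2 q hq.1 hq.2) hb
  · intro e U hU
    have hn : 0 < ‖p‖ := norm_pos_iff.2 hp0
    have ht : Tendsto (fun t : ℝ => t • p) (𝓝 1) (𝓝 p) := by
      have : Continuous fun t : ℝ => t • p := by fun_prop
      simpa using this.tendsto 1
    have ev : ∀ᶠ t in 𝓝 (1 : ℝ), (t • p ∈ interior U ∧ t • p ∈ N) ∧ 0 < t :=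
      ((ht.eventually (interior_mem_nhds.2 hU)).and (ht.eventually (hN.mem_nhds hp))).and
        (eventually_gt_nhds one_pos)
    rw [hv]
    constructor
    · obtain ⟨t, ⟨⟨t1, t2⟩, t3⟩, t4⟩ :=
        ((ev.filter_mono (nhdsWithin_le_nhds (s := Iio 1))).and self_mem_nhdsWithin).exists
      refine (mu_pos h (isOpen_interior.inter o1) ⟨t • p, t1, t2, ?_⟩).trans_le
        (measure_mono (inter_subset_inter interior_subset s1))
      have t5 : t < 1 := t4
      simp only [mem_preimage, mem_Ioi, hs t t3, ← e, norm_smul, Real.norm_eq_abs, abs_of_pos t3]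
      nlinarith
    · obtain ⟨t, ⟨⟨t1, t2⟩, t3⟩, t4⟩ :=
        ((ev.filter_mono (nhdsWithin_le_nhds (s := Ioi 1))).and self_mem_nhdsWithin).exists
      refine (mu_pos h (isOpen_interior.inter o2) ⟨t • p, t1, t2, ?_⟩).trans_le
        (measure_mono fun q hq => ⟨interior_subset hq.1, s2 q hq.2⟩)
      have t5 : 1 < t := t4
      simp only [mem_preimage, mem_Iio, hs t t3, ← e, norm_smul, Real.norm_eq_abs, abs_of_pos t3]
      nlinarith

theorem enorm_le (a : ℝ) (E F : Set V) (x : V) :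
    ‖a - F.indicator 1 x‖ₑ ≤ ‖a - E.indicator 1 x‖ₑ + (symmDiff E F).indicator 1 x := by
  have : a - F.indicator 1 x = (a - E.indicator 1 x) + (E.indicator 1 x - F.indicator 1 x) := by
    ring
  rw [this]
  refine (enorm_add_le _ _).trans (add_le_add_right ?_ _)
  by_cases h1 : x ∈ E <;> by_cases h2 : x ∈ F <;> simp [h1, h2, mem_symmDiff]

theorem step {E : Set V} {c ε : ℝ≥0∞} (hε : 0 < ε) (hE : per f E < c) {K : Set V}
    (hK : IsCompact K) : ∃ w : V → ℝ, LocallyLipschitz w ∧ GG f w < c ∧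
      ∫⁻ x in K, ‖w x - E.indicator 1 x‖ₑ ∂mu f < ε := by
  simp only [per, iInf_lt_iff] at hE
  obtain ⟨u, h1, h2, h3⟩ := hE
  obtain ⟨i, i1, i2⟩ := ((frequently_lt_of_liminf_lt (by isBoundedDefault) h3).and_eventually
    ((h2 K hK).eventually (eventually_lt_nhds hε))).exists
  exact ⟨u i, h1 i, i1, i2⟩

end BdAux

open BdAux

theorem sBd (hM : S_Met1) : S_Bd := by
  intro f a0 h
  have hv := (hM f a0 h).1
  refine ⟨fun R hR => ?_, fun s v hs hv' => ⟨?_, fun p hp => ?_⟩⟩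
  · ext p
    by_cases hp : p = 0
    · subst hp
      refine iff_of_false (not_mem_of_sub (Metric.ball_mem_nhds 0 hR) Subset.rfl) ?_
      simpa using hR.ne
    · rw [mem_sphere_zero_iff_norm]
      exact graph h hv (φ := fun _ => R) isOpen_univ continuousOn_const
        (fun q _ => mem_ball_zero_iff) (mem_univ p) hp fun _ _ => rfl
  · obtain ⟨c, hc, hcs⟩ := hs.exists_c (by norm_num)
    refine not_mem_of_sub (Metric.ball_mem_nhds 0 hc) fun q hq => Or.inl ?_
    exact (mem_ball_zero_iff.1 hq).trans_le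
      (hcs _ ⟨le_min (xc_mem q).1 (by norm_num), min_le_right _ _⟩)
  · have hp0 : p ≠ 0 := by
      rintro rfl
      rw [xc_zero] at hp
      norm_num at hp
    have hx : ContinuousOn xc {0}ᶜ := fun q hq => (xc_contAt hq).continuousWithinAt
    refine graph h hv (φ := fun q => s (xc q)) (N := {0}ᶜ ∩ xc ⁻¹' Iio (1 / 4))
      (hx.isOpen_inter_preimage isOpen_compl_singleton isOpen_Iio)
      (hs.lip.continuous.comp_continuousOn (hx.mono inter_subset_left)) (fun q hq => ?_)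
      ⟨hp0, hp⟩ hp0 fun t ht => by rw [xc_smul ht]
    have hq2 : xc q < 1 / 4 := hq.2
    simp only [DD, mem_ofPred_eq, min_eq_left hq2.le]
    exact or_iff_left (by linarith [hv' ‖q‖])

theorem sLsc : S_Lsc := by
  intro f a0 _ E F c hE hF h1 h2
  rcases eq_or_ne c ⊤ with rfl | hc
  · exact le_top
  have hε : ∀ j : ℕ, (0 : ℝ≥0∞) < (j : ℝ≥0∞)⁻¹ := fun j =>
    ENNReal.inv_pos.2 (ENNReal.natCast_ne_top j)
  have key : ∀ j : ℕ, ∃ w : V → ℝ, LocallyLipschitz w ∧ GG f w ≤ c + (j : ℝ≥0∞)⁻¹ ∧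
      ∫⁻ x in Metric.closedBall 0 j, ‖w x - F.indicator 1 x‖ₑ ∂mu f ≤
        (j : ℝ≥0∞)⁻¹ + (j : ℝ≥0∞)⁻¹ := fun j => by
    obtain ⟨c', l1, l2⟩ := exists_between (ENNReal.lt_add_right hc (hε j).ne')
    obtain ⟨k, k1, k2⟩ := ((h2 c' l1).and (h1.eventually (eventually_lt_nhds (hε j)))).exists
    obtain ⟨w, w1, w2, w3⟩ := step (hε j) (k1.trans_lt l2) (isCompact_closedBall (0 : V) j)
    refine ⟨w, w1, w2.le, (lintegral_mono fun x => enorm_le (w x) (E k) F x).trans ?_⟩
    have hm : MeasurableSet (symmDiff (E k) F) := (hE k).symmDiff hF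
    rw [lintegral_add_right _ (measurable_one.indicator hm), lintegral_indicator_one hm]
    exact add_le_add w3.le ((Measure.restrict_apply_le _ _).trans k2.le)
  choose w w1 w2 w3 using key
  have t0 := ENNReal.tendsto_inv_nat_nhds_zero
  unfold per
  refine iInf_le_of_le w (iInf_le_of_le w1 (iInf_le_of_le (fun K hK => ?_) ?_))
  · obtain ⟨R, hR⟩ := hK.isBounded.subset_closedBall 0
    have t1 := t0.add t0
    rw [add_zero] at t1
    refine tendsto_of_tendsto_of_tendsto_of_le_of_le' tendsto_const_nhds t1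
      (Eventually.of_forall fun _ => zero_le) ?_
    filter_upwards [tendsto_natCast_atTop_atTop.eventually_ge_atTop R] with j hj
    exact (lintegral_mono_set (hR.trans (Metric.closedBall_subset_closedBall hj))).trans (w3 j)
  · have t1 := (tendsto_const_nhds (x := c)).add t0
    rw [add_zero] at t1
    rw [← t1.liminf_eq]
    exact liminf_le_liminf (Eventually.of_forall w2)

end Pool.Agent.P.MP_ab9b82_gt
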