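import Pool.Agent.P.MP_ab9b82_gt.B2

/-! Lower bounds for intrinsic distances in a rotation cap. -/

namespace Pool.Agent.P.MP_ab9b82_gt

open MeasureTheory Set Filter Topology Real
open scoped ENNReal NNReal

noncomputable section

namespace CapLAux

variable {f s : ℝ → ℝ} {a0 : ℝ} {S : Set V}

/-- the speed of a curve -/
def spd (f : ℝ → ℝ) (γ : ℝ → V) (t : ℝ) : ℝ := √(gm f (γ t) (deriv γ t) (deriv γ t))

theorem calib (γ : ℝ → V) {h : ℝ → ℝ} {K : ℝ≥0} (hl : LipschitzOnWith K h (Icc 0 1))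
    (hb : ∀ᵐ t, t ∈ Ioo (0 : ℝ) 1 → |deriv h t| ≤ spd f γ t) {a b : ℝ} (ha : a ∈ Icc (0 : ℝ) 1)
    (hb' : b ∈ Icc (0 : ℝ) 1) : ENNReal.ofReal |h b - h a| ≤ len (gm f) γ := by
  have hsub : uIcc a b ⊆ Icc 0 1 := uIcc_subset_Icc ha hb'
  rw [← (hl.mono hsub).absolutelyContinuousOnInterval.integral_deriv_eq_sub, ← Real.norm_eq_abs,
    intervalIntegral.norm_integral_eq_norm_integral_uIoc, ofReal_norm]
  refine (enorm_integral_le_lintegral_enorm _).trans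
    ((lintegral_mono_set (uIoc_subset_uIcc.trans hsub)).trans ?_)
  rw [len, ← restrict_Ioo_eq_restrict_Icc]
  refine lintegral_mono_ae ((ae_restrict_iff' measurableSet_Ioo).2 (hb.mono fun t ht h1 => ?_))
  rw [← ofReal_norm]
  exact ENNReal.ofReal_le_ofReal (ht h1)

theorem lip_comp {γ : ℝ → V} {K : ℝ≥0} (hγ : LipschitzWith K γ) {Φ : V → ℝ}
    (hΦ : ∀ t ∈ Icc (0 : ℝ) 1, ContDiffAt ℝ 1 Φ (γ t)) :
    ∃ K', LipschitzOnWith K' (fun t => Φ (γ t)) (Icc 0 1) := by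
  refine LocallyLipschitzOn.exists_lipschitzOnWith_of_compact isCompact_Icc fun t ht => ?_
  obtain ⟨K', U, hU, h⟩ := (hΦ t ht).exists_lipschitzOnWith
  exact ⟨K' * K, γ ⁻¹' U, nhdsWithin_le_nhds (hγ.continuous.continuousAt hU),
    h.comp hγ.lipschitzOnWith (mapsTo_preimage _ _)⟩

theorem tang_cs (x w ξ : V) : (inner ℝ w ξ - inner ℝ x w / ‖x‖ * (inner ℝ x ξ / ‖x‖)) ^ 2 ≤
    (‖w‖ ^ 2 - (inner ℝ x w / ‖x‖) ^ 2) * (‖ξ‖ ^ 2 - (inner ℝ x ξ / ‖x‖) ^ 2) := by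
  have cs := real_inner_mul_inner_self_le (w - (inner ℝ x w / ‖x‖ ^ 2) • x)
    (ξ - (inner ℝ x ξ / ‖x‖ ^ 2) • x)
  rw [tang_inner x w ξ, tang_inner x w w, tang_inner x ξ ξ, real_inner_self_eq_norm_sq,
    real_inner_self_eq_norm_sq] at cs
  nlinarith

theorem xc_cd {p : V} (hp : p ≠ 0) : ContDiffAt ℝ 1 xc p := by
  have h1 : ContDiffAt ℝ 1 (fun q : V => q 2) p :=
    (EuclideanSpace.proj (2 : Fin 3) : V →L[ℝ] ℝ).contDiff.contDiffAt
  exact (contDiffAt_const.add (h1.div (contDiffAt_norm ℝ hp) (norm_ne_zero_iff.2 hp))).div_const 2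

theorem xc_z {p : V} (hp : p ≠ 0) : 4 * (xc p * (1 - xc p)) * ‖p‖ ^ 2 = p 0 ^ 2 + p 1 ^ 2 := by
  have h0 : ‖p‖ ≠ 0 := norm_ne_zero_iff.2 hp
  have h1 := norm_sq_eq p
  have : 4 * (xc p * (1 - xc p)) * ‖p‖ ^ 2 = ‖p‖ ^ 2 - p 2 ^ 2 := by
    unfold xc
    field_simp
    ring
  linarith

theorem dx_sq {p : V} (hp : p ≠ 0) (ξ : V) :
    ‖p‖ ^ 2 * dx p ξ ^ 2 ≤ xc p * (1 - xc p) * (‖ξ‖ ^ 2 - dr p ξ ^ 2) := by
  have h0 : ‖p‖ ≠ 0 := norm_ne_zero_iff.2 hp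
  have h1 := tang_cs p (EuclideanSpace.single 2 1) ξ
  simp only [EuclideanSpace.inner_single_left, EuclideanSpace.inner_single_right, PiLp.norm_single,
    conj_trivial, one_mul, norm_one] at h1
  rw [dr_apply, dx_apply]
  have e1 : ‖p‖ ^ 2 * (ξ 2 / (2 * ‖p‖) - p 2 * inner ℝ p ξ / (2 * ‖p‖ ^ 3)) ^ 2 =
      (ξ 2 - p 2 / ‖p‖ * (inner ℝ p ξ / ‖p‖)) ^ 2 / 4 := by
    field_simp
    ring
  have e2 : xc p * (1 - xc p) = (1 ^ 2 - (p 2 / ‖p‖) ^ 2) / 4 := by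
    unfold xc
    ring
  rw [e1, e2]
  linarith

/-- the length element in the coordinate `x` -/
def EE (f s : ℝ → ℝ) (x : ℝ) : ℝ := √(deriv s x ^ 2 + f (s x) ^ 2 / (x * (1 - x)))

/-- the meridian length in the coordinate `x` -/
def LL (f s : ℝ → ℝ) (x : ℝ) : ℝ := ell f s (arccos (1 - 2 * x))

theorem ell_ii (h : Prof f a0) (hs : Lip s) (α β : ℝ) : IntervalIntegrable
    (fun t => √((deriv s (XX t) * (sin t / 2)) ^ 2 + f (s (XX t)) ^ 2)) volume α β := by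
  obtain ⟨K, -, hK⟩ := hs.bdd
  have h1 := h.continuous
  have h2 := hs.continuous
  have hX : Continuous XX := by unfold XX; fun_prop
  have hc : Continuous fun t => √((K * (sin t / 2)) ^ 2 + f (s (XX t)) ^ 2) := by fun_prop
  obtain ⟨C, hC⟩ := isCompact_uIcc.exists_bound_of_continuousOn (hc.continuousOn (s := uIcc α β))
  have h3 : Measurable fun t => deriv s (XX t) := (measurable_deriv s).comp hX.measurable
  refine ii_of_bdd (C := C) (by fun_prop) fun x hx => ?_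
  rw [abs_of_nonneg (Real.sqrt_nonneg _)]
  refine le_trans (Real.sqrt_le_sqrt ?_) ((le_abs_self _).trans (hC x hx))
  have := sq_le_sq.2 ((hK (XX x)).trans (le_abs_self K))
  rw [mul_pow, mul_pow]
  gcongr

theorem LL_cont (h : Prof f a0) (hs : Lip s) : Continuous (LL f s) :=
  (intervalIntegral.continuous_primitive (ell_ii h hs) 0).comp
    (continuous_arccos.comp (by fun_prop))

theorem LL_zero : LL f s 0 = 0 := by simp [LL, ell]

theorem LL_XX {θ : ℝ} (hθ : θ ∈ Ico 0 (π / 3)) : LL f s (XX θ) = ell f s θ := by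
  have : 1 - 2 * XX θ = cos θ := by unfold XX; ring
  rw [LL, this, arccos_cos hθ.1 (by linarith [hθ.2, pi_pos])]

theorem XX_lt {θ : ℝ} (hθ : θ ∈ Ico 0 (π / 3)) : XX θ < 1 / 4 := by
  have := cos_lt_cos_of_nonneg_of_le_pi hθ.1 (by linarith [pi_pos]) hθ.2
  rw [cos_pi_div_three] at this
  unfold XX
  linarith

theorem XX_pos {θ : ℝ} (hθ : θ ∈ Ioo 0 (π / 3)) : 0 < XX θ := by
  have := cos_lt_cos_of_nonneg_of_le_pi le_rfl (by linarith [pi_pos, hθ.2]) hθ.1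
  rw [cos_zero] at this
  unfold XX
  linarith

theorem LL_deriv (h : Prof f a0) (hs : Lip s) (hc : C1 s (1 / 4)) {x : ℝ} (hx : x ∈ Ioo 0 (1 / 4)) :
    HasDerivAt (LL f s) (EE f s x) x := by
  have hX : Continuous XX := by unfold XX; fun_prop
  have e : XX (arccos (1 - 2 * x)) = x := by
    rw [XX, cos_arccos (by linarith [hx.2]) (by linarith [hx.1])]
    ring
  have h1 := h.continuous
  have h2 := hs.continuous
  have h3 : ContinuousAt (fun t => deriv s (XX t)) (arccos (1 - 2 * x)) :=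
    ContinuousAt.comp (g := deriv s) (by
      rw [e]
      exact hc.cont.continuousAt (Ioo_mem_nhds hx.1 hx.2)) hX.continuousAt
  have h4 : Measurable fun t => deriv s (XX t) := (measurable_deriv s).comp hX.measurable
  have h5 := intervalIntegral.integral_hasDerivAt_right (ell_ii h hs 0 (arccos (1 - 2 * x)))
    (Measurable.stronglyMeasurable (by fun_prop)).stronglyMeasurableAtFilter (by fun_prop)
  have h6 := (hasDerivAt_arccos (x := 1 - 2 * x) (by linarith [hx.2]) (by linarith [hx.1])).comp x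
    (((hasDerivAt_id x).const_mul 2).const_sub 1)
  refine (h5.comp x h6).congr_deriv ?_
  rw [e, sin_arccos]
  have h7 : 0 < 1 - (1 - 2 * x) ^ 2 := by nlinarith [hx.1, hx.2]
  have h8 := Real.sq_sqrt h7.le
  have h9 := Real.sqrt_pos.2 h7
  generalize √(1 - (1 - 2 * x) ^ 2) = σ at h8 h9
  have h10 : x * (1 - x) = σ ^ 2 / 4 := by linarith
  have h11 : -(1 / σ) * -(2 * 1) = √((2 / σ) ^ 2) := by
    rw [Real.sqrt_sq (by positivity)]
    ring
  rw [h11, ← Real.sqrt_mul (by positivity), EE, h10]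
  congr 1
  field_simp
  ring

theorem EE_pos (h : Prof f a0) (hp : Pos s (1 / 4)) {x : ℝ} (hx : x ∈ Ioo 0 (1 / 4)) :
    0 < EE f s x := by
  have h1 := h.fpos (hp.pos x (Ioo_subset_Icc_self hx))
  have h2 := hx.1
  have h3 : 0 < 1 - x := by linarith [hx.2]
  exact Real.sqrt_pos.2 (by positivity)

theorem EE_cont (h : Prof f a0) (hs : Lip s) (hc : C1 s (1 / 4)) :
    ContinuousOn (EE f s) (Ioo 0 (1 / 4)) := by
  have h1 := h.continuous
  have h2 := hs.continuous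
  refine ((hc.cont.pow 2).add (ContinuousOn.div (by fun_prop) (by fun_prop) fun x hx => ?_)).sqrt
  exact mul_ne_zero hx.1.ne' (by linarith [hx.2])

theorem LL_mono (h : Prof f a0) (hp : Pos s (1 / 4)) (hc : C1 s (1 / 4)) :
    StrictMonoOn (LL f s) (Ioo 0 (1 / 4)) :=
  strictMonoOn_of_deriv_pos (convex_Ioo _ _) (LL_cont h hp.lip).continuousOn fun x hx => by
    rw [interior_Ioo] at hx
    rw [(LL_deriv h hp.lip hc hx).deriv]
    exact EE_pos h hp hx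

/-- the meridian part of the length -/
theorem merid (h : Prof f a0) (hS : Cap S s) (hp : Pos s (1 / 4)) (hc : C1 s (1 / 4))
    {γ : ℝ → V} {K : ℝ≥0} (hγ : LipschitzWith K γ) (hin : ∀ t ∈ Icc (0 : ℝ) 1, γ t ∈ S)
    {d e : ℝ} (hd : 0 < d) (hde : d ≤ e) (he : e < 1 / 4) {a b : ℝ} (ha : a ∈ Icc (0 : ℝ) 1)
    (hb : b ∈ Icc (0 : ℝ) 1) : ENNReal.ofReal
      |LL f s (max d (min (xc (γ b)) e)) - LL f s (max d (min (xc (γ a)) e))| ≤ len (gm f) γ := by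
  have hsub : Icc d e ⊆ Ioo 0 (1 / 4) := Icc_subset_Ioo hd he
  have hne : ∀ t ∈ Icc (0 : ℝ) 1, γ t ≠ 0 := fun t ht h0 => hS.zero (h0 ▸ hin t ht)
  have hcl : ∀ y, max d (min y e) ∈ Icc d e := fun y =>
    ⟨le_max_left _ _, max_le hde (min_le_right _ _)⟩
  obtain ⟨K1, hK1⟩ := lip_comp hγ fun t ht => xc_cd (hne t ht)
  obtain ⟨C, hC⟩ := isCompact_Icc.exists_bound_of_continuousOn ((EE_cont h hp.lip hc).mono hsub)
  have hK2 : LipschitzOnWith C.toNNReal (LL f s) (Icc d e) :=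
    (convex_Icc d e).lipschitzOnWith_of_nnnorm_hasDerivWithin_le
      (fun x hx => (LL_deriv h hp.lip hc (hsub hx)).hasDerivWithinAt) fun x hx => by
        rw [← NNReal.coe_le_coe, coe_nnnorm]
        exact (hC x hx).trans (Real.le_coe_toNNReal C)
  have hK3 : LipschitzWith 1 fun y : ℝ => max d (min y e) :=
    (LipschitzWith.id.min_const e).const_max d
  have hK := hK2.comp (hK3.comp_lipschitzOnWith hK1) fun t _ => hcl _
  refine calib γ (h := fun t => LL f s (max d (min (xc (γ t)) e))) hK ?_ ha hb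
  have hm := (LL_mono h hp hc).monotoneOn.mono hsub
  filter_upwards [hγ.ae_differentiableAt_real] with t ht ht1
  have ht1' := Ioo_subset_Icc_self ht1
  rcases le_or_gt (xc (γ t)) d with h1 | h1
  · have : IsLocalMin (fun t => LL f s (max d (min (xc (γ t)) e))) t :=
      Eventually.of_forall fun y => hm (hcl _) (hcl _) (by
        rw [max_eq_left ((min_le_left _ _).trans h1)]
        exact le_max_left _ _)
    rw [this.deriv_eq_zero, abs_zero]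
    exact Real.sqrt_nonneg _
  rcases le_or_gt e (xc (γ t)) with h2 | h2
  · have : IsLocalMax (fun t => LL f s (max d (min (xc (γ t)) e))) t :=
      Eventually.of_forall fun y => hm (hcl _) (hcl _) (by
        rw [min_eq_right h2, max_eq_right hde]
        exact (hcl _).2)
    rw [this.deriv_eq_zero, abs_zero]
    exact Real.sqrt_nonneg _
  have hx : xc (γ t) ∈ Ioo 0 (1 / 4) := hsub ⟨h1.le, h2.le⟩
  have d1 : HasDerivAt (fun t => xc (γ t)) (dx (γ t) (deriv γ t)) t :=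
    (hasFDerivAt_xc (hne t ht1')).comp_hasDerivAt t ht.hasDerivAt
  have d2 : HasDerivAt (fun t => ‖γ t‖) (dr (γ t) (deriv γ t)) t :=
    (hasFDerivAt_nrm (hne t ht1')).comp_hasDerivAt t ht.hasDerivAt
  have ev : ∀ᶠ y in 𝓝 t, xc (γ y) ∈ Ioo d e := d1.continuousAt.eventually (Ioo_mem_nhds h1 h2)
  have ev2 : (fun y => ‖γ y‖) =ᶠ[𝓝 t] fun y => s (xc (γ y)) := by
    filter_upwards [ev, Icc_mem_nhds ht1.1 ht1.2] with y hy hy'
    exact (hS.graph _ (hy.2.trans he)).1 (hin y hy')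
  have d3 := d2.unique (((hc.diff _ hx).hasDerivAt.comp t d1).congr_of_eventuallyEq ev2)
  have d4 : HasDerivAt (fun t => LL f s (max d (min (xc (γ t)) e)))
      (EE f s (xc (γ t)) * dx (γ t) (deriv γ t)) t := by
    refine ((LL_deriv h hp.lip hc hx).comp t d1).congr_of_eventuallyEq ?_
    filter_upwards [ev] with y hy
    simp [min_eq_left hy.2.le, max_eq_right hy.1.le]
  rw [d4.deriv]
  refine Real.abs_le_sqrt ?_
  have h3 := dx_sq (hne t ht1') (deriv γ t)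
  have h4 : 0 < xc (γ t) * (1 - xc (γ t)) := mul_pos hx.1 (by linarith [hx.2])
  have h5 : f (s (xc (γ t))) = psi f ‖γ t‖ * ‖γ t‖ := by
    rw [psi_mul h, (hS.graph _ hx.2).1 (hin t ht1')]
  rw [gm_self, ← dr_apply, mul_pow, EE, Real.sq_sqrt (by positivity), h5, add_mul, ← mul_pow, ← d3]
  refine add_le_add le_rfl ?_
  rw [div_mul_eq_mul_div, div_le_iff₀ h4, mul_pow]
  nlinarith [mul_le_mul_of_nonneg_left h3 (sq_nonneg (psi f ‖γ t‖))]

theorem norm_pt (s : ℝ → ℝ) (θ ϕ : ℝ) : ‖pt s θ ϕ‖ = |s (XX θ)| := by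
  rw [← Real.sqrt_sq (norm_nonneg _), ← Real.sqrt_sq_eq_abs, norm_sq_eq]
  congr 1
  change (s (XX θ) * (sin θ * cos ϕ)) ^ 2 + (s (XX θ) * (sin θ * sin ϕ)) ^ 2 +
    (-(s (XX θ) * cos θ)) ^ 2 = _
  linear_combination s (XX θ) ^ 2 * sin θ ^ 2 * sin_sq_add_cos_sq ϕ +
    s (XX θ) ^ 2 * sin_sq_add_cos_sq θ

theorem s_pos (hp : Pos s (1 / 4)) {θ : ℝ} (hθ : θ ∈ Ico 0 (π / 3)) : 0 < s (XX θ) :=
  hp.pos _ ⟨by unfold XX; linarith [cos_le_one θ], (XX_lt hθ).le⟩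

theorem xc_pt (hp : Pos s (1 / 4)) {θ : ℝ} (hθ : θ ∈ Ico 0 (π / 3)) (ϕ : ℝ) :
    xc (pt s θ ϕ) = XX θ := by
  have h1 := s_pos hp hθ
  rw [xc, norm_pt, abs_of_pos h1]
  change (1 + -(s (XX θ) * cos θ) / s (XX θ)) / 2 = (1 - cos θ) / 2
  field_simp
  ring

theorem from_pole (h : Prof f a0) (hS : Cap S s) (hp : Pos s (1 / 4)) (hc : C1 s (1 / 4)) {θ : ℝ}
    (hθ : θ ∈ Ico 0 (π / 3)) {q : V} (hq : XX θ ≤ xc q) :
    ENNReal.ofReal (ell f s θ) ≤ idist (gm f) S (pt s 0 0) q := by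
  rcases hθ.1.eq_or_lt with rfl | h0
  · simp [ell]
  have h1 := XX_pos ⟨h0, hθ.2⟩
  refine le_iInf fun γ => le_iInf fun ⟨K, hγ⟩ => le_iInf fun g0 => le_iInf fun g1 =>
    le_iInf fun hin => ?_
  have h2 : Tendsto (fun d => ENNReal.ofReal |ell f s θ - LL f s d|) (𝓝[>] 0)
      (𝓝 (ENNReal.ofReal |ell f s θ - LL f s 0|)) := by
    have := LL_cont h hp.lip
    exact (ENNReal.continuous_ofReal.comp (by fun_prop)).continuousWithinAt.tendsto
  rw [LL_zero, sub_zero] at h2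
  refine (ENNReal.ofReal_le_ofReal (le_abs_self _)).trans (le_of_tendsto h2 ?_)
  filter_upwards [Ioo_mem_nhdsGT h1] with d hd
  have h3 := merid h hS hp hc hγ hin hd.1 hd.2.le (XX_lt hθ) (left_mem_Icc.2 zero_le_one)
    (right_mem_Icc.2 zero_le_one)
  have h4 : XX 0 = 0 := by simp [XX]
  rwa [g0, g1, xc_pt hp ⟨le_rfl, by positivity⟩, h4, min_eq_right hq, max_eq_right hd.2.le,
    min_eq_left h1.le, max_eq_left hd.1.le, LL_XX hθ] at h3

/-- the angular test function -/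
def kk (m : ℝ) (p : V) : ℝ := (cos m * p 1 - sin m * p 0) / √(p 0 ^ 2 + p 1 ^ 2)

theorem kk_cd (m : ℝ) {p : V} (hp : 0 < p 0 ^ 2 + p 1 ^ 2) : ContDiffAt ℝ 1 (kk m) p := by
  have h1 : ∀ i, ContDiffAt ℝ 1 (fun q : V => q i) p := fun i =>
    (EuclideanSpace.proj i : V →L[ℝ] ℝ).contDiff.contDiffAt
  exact ((contDiffAt_const.mul (h1 1)).sub (contDiffAt_const.mul (h1 0))).div
    ((((h1 0).pow 2).add ((h1 1).pow 2)).sqrt hp.ne') (Real.sqrt_pos.2 hp).ne'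

theorem kk_deriv (m : ℝ) {γ : ℝ → V} {t : ℝ} (ht : DifferentiableAt ℝ γ t)
    (hp : 0 < γ t 0 ^ 2 + γ t 1 ^ 2) : (γ t 0 ^ 2 + γ t 1 ^ 2) * deriv (fun t => kk m (γ t)) t ^ 2 ≤
      ‖deriv γ t‖ ^ 2 - (inner ℝ (γ t) (deriv γ t) / ‖γ t‖) ^ 2 := by
  have h1 : ∀ i, HasDerivAt (fun t => γ t i) (deriv γ t i) t := fun i =>
    (EuclideanSpace.proj i : V →L[ℝ] ℝ).hasFDerivAt.comp_hasDerivAt t ht.hasDerivAt
  have h2 := (((h1 1).const_mul (cos m)).sub ((h1 0).const_mul (sin m))).div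
    ((((h1 0).pow 2).add ((h1 1).pow 2)).sqrt hp.ne') (Real.sqrt_pos.2 hp).ne'
  have h3 := tang_cs (γ t) !₂[-γ t 1, γ t 0, 0] (deriv γ t)
  have h4 : inner ℝ (γ t) (!₂[-γ t 1, γ t 0, 0] : V) = 0 := by
    rw [inner_eq]
    simp
    ring
  rw [h4, norm_sq_eq !₂[-γ t 1, γ t 0, 0], inner_eq !₂[-γ t 1, γ t 0, 0]] at h3
  have h5 : deriv (fun t => kk m (γ t)) t = _ := h2.deriv
  rw [h5]
  simp only [Pi.pow_apply, Pi.add_apply, Pi.sub_apply] at h3 ⊢
  simp only [Matrix.cons_val_zero, Matrix.cons_val_one, Matrix.cons_val, zero_div, zero_mul,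
    sub_zero, add_zero] at h3
  generalize ‖deriv γ t‖ ^ 2 - (inner ℝ (γ t) (deriv γ t) / ‖γ t‖) ^ 2 = T at h3 ⊢
  generalize γ t 0 = x at *
  generalize γ t 1 = y at *
  generalize deriv γ t 0 = u at *
  generalize deriv γ t 1 = v at *
  have h6 := Real.sq_sqrt hp.le
  have h7 := Real.sqrt_pos.2 hp
  generalize √(x ^ 2 + y ^ 2) = ρ at *
  have h8 : ((cos m * v - sin m * u) * ρ - (cos m * y - sin m * x) *
      ((((2 : ℕ) : ℝ) * x ^ (2 - 1) * u + ((2 : ℕ) : ℝ) * y ^ (2 - 1) * v) / (2 * ρ))) / ρ ^ 2 =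
      (cos m * x + sin m * y) * (-y * u + x * v) / ρ ^ 3 := by
    field_simp
    push_cast
    rw [h6]
    ring
  have h9 : (cos m * x + sin m * y) ^ 2 ≤ ρ ^ 2 := by
    nlinarith [sq_nonneg (cos m * y - sin m * x), sin_sq_add_cos_sq m]
  have h10 : (-y * u + x * v) ^ 2 ≤ ρ ^ 2 * T := by
    rw [h6]
    convert h3 using 2
    ring
  rw [h8, ← h6, div_pow, mul_pow, ← mul_div_assoc, div_le_iff₀ (by positivity)]
  calc _ ≤ ρ ^ 2 * (ρ ^ 2 * (ρ ^ 2 * T)) := by gcongr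
    _ = _ := by ring

theorem kk_pt (hp : Pos s (1 / 4)) {θ : ℝ} (hθ : θ ∈ Ioo 0 (π / 3)) (m ϕ : ℝ) :
    kk m (pt s θ ϕ) = sin (ϕ - m) := by
  have h1 := s_pos hp (Ioo_subset_Ico_self hθ)
  have h2 : 0 < sin θ := sin_pos_of_pos_of_lt_pi hθ.1 (by linarith [hθ.2, pi_pos])
  change (cos m * (s (XX θ) * (sin θ * sin ϕ)) - sin m * (s (XX θ) * (sin θ * cos ϕ))) /
    √((s (XX θ) * (sin θ * cos ϕ)) ^ 2 + (s (XX θ) * (sin θ * sin ϕ)) ^ 2) = _
  have h3 : (s (XX θ) * (sin θ * cos ϕ)) ^ 2 + (s (XX θ) * (sin θ * sin ϕ)) ^ 2 =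
      (s (XX θ) * sin θ) ^ 2 := by
    linear_combination s (XX θ) ^ 2 * sin θ ^ 2 * sin_sq_add_cos_sq ϕ
  rw [h3, Real.sqrt_sq (by positivity), sin_sub]
  field_simp

theorem around (h : Prof f a0) (hS : Cap S s) (hp : Pos s (1 / 4)) (hc : C1 s (1 / 4)) {θ : ℝ}
    (hθ : θ ∈ Ioo 0 (π / 3)) {η : ℝ} (hη : 0 < η) : ∃ l > (0 : ℝ), ∀ ϕ ϕ',
      ENNReal.ofReal (min l ((yy f s θ - η) * (2 * |sin ((ϕ - ϕ') / 2)|))) ≤
        idist (gm f) S (pt s θ ϕ) (pt s θ ϕ') := by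
  have hθ' := Ioo_subset_Ico_self hθ
  have hx : XX θ ∈ Ioo 0 (1 / 4) := ⟨XX_pos hθ, XX_lt hθ'⟩
  have hY : Continuous fun x => f (s x) * (2 * ph x) := by
    have := h.continuous
    have := hp.lip.continuous
    have := ph_cont
    fun_prop
  have hY0 : f (s (XX θ)) * (2 * ph (XX θ)) = yy f s θ := by
    have h2 : 0 < sin θ := sin_pos_of_pos_of_lt_pi hθ.1 (by linarith [hθ.2, pi_pos])
    have h3 : XX θ * (1 - XX θ) = (sin θ / 2) ^ 2 := by
      unfold XX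
      linear_combination (-1 / 4 : ℝ) * sin_sq_add_cos_sq θ
    rw [yy, ph, h3, Real.sqrt_sq (by positivity)]
    ring
  have ev : ∀ᶠ x in 𝓝 (XX θ), x ∈ Ioo 0 (1 / 4) ∧ yy f s θ - η ≤ f (s x) * (2 * ph x) :=
    Eventually.and (Ioo_mem_nhds hx.1 hx.2)
      (hY.continuousAt.eventually (le_mem_nhds (by simp only [hY0]; linarith)))
  obtain ⟨d, e, hde, h1, h2⟩ := exists_Icc_mem_subset_of_mem_nhds ev
  have hde' : XX θ ∈ Ioo d e := by simpa using mem_interior_iff_mem_nhds.2 h1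
  have hd := (h2 (left_mem_Icc.2 (hde.1.trans hde.2))).1
  have he := (h2 (right_mem_Icc.2 (hde.1.trans hde.2))).1
  have hm := LL_mono h hp hc
  refine ⟨min (LL f s e - LL f s (XX θ)) (LL f s (XX θ) - LL f s d),
    lt_min (sub_pos.2 (hm hx he hde'.2)) (sub_pos.2 (hm hd hx hde'.1)), fun ϕ ϕ' => ?_⟩
  refine le_iInf fun γ => le_iInf fun ⟨K, hγ⟩ => le_iInf fun g0 => le_iInf fun g1 =>
    le_iInf fun hin => ?_
  by_cases hband : ∀ t ∈ Icc (0 : ℝ) 1, xc (γ t) ∈ Ioo d e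
  swap
  · push Not at hband
    obtain ⟨t, ht, hb⟩ := hband
    have h3 := merid h hS hp hc hγ hin hd.1 (hde.1.trans hde.2) he.2 (left_mem_Icc.2 zero_le_one) ht
    rw [g0, xc_pt hp hθ', min_eq_left hde.2, max_eq_right hde.1] at h3
    refine (ENNReal.ofReal_le_ofReal ((min_le_left _ _).trans ?_)).trans h3
    rcases le_or_gt (xc (γ t)) d with h4 | h4
    · rw [max_eq_left ((min_le_left _ _).trans h4), abs_sub_comm]
      exact (min_le_right _ _).trans (le_abs_self _)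
    · rw [min_eq_right (not_lt.1 fun h5 => hb ⟨h4, h5⟩), max_eq_right (hde.1.trans hde.2)]
      exact (min_le_left _ _).trans (le_abs_self _)
  refine (ENNReal.ofReal_le_ofReal (min_le_right _ _)).trans ?_
  rcases le_or_gt (yy f s θ - η) 0 with hc0 | hc0
  · rw [ENNReal.ofReal_of_nonpos (mul_nonpos_of_nonpos_of_nonneg hc0 (by positivity))]
    exact zero_le
  have hne : ∀ t ∈ Icc (0 : ℝ) 1, γ t ≠ 0 := fun t ht h0 => hS.zero (h0 ▸ hin t ht)
  have hρ : ∀ t ∈ Icc (0 : ℝ) 1, 0 < γ t 0 ^ 2 + γ t 1 ^ 2 := fun t ht => by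
    have h3 := (h2 (Ioo_subset_Icc_self (hband t ht))).1
    have h4 := norm_pos_iff.2 (hne t ht)
    have h5 := h3.1
    have h6 : 0 < 1 - xc (γ t) := by linarith [h3.2]
    rw [← xc_z (hne t ht)]
    positivity
  obtain ⟨K1, hK1⟩ := lip_comp hγ (Φ := fun p => (yy f s θ - η) * kk ((ϕ + ϕ') / 2) p)
    fun t ht => contDiffAt_const.mul (kk_cd _ (hρ t ht))
  have h3 := calib (f := f) γ hK1 (by
    filter_upwards [hγ.ae_differentiableAt_real] with t ht ht1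
    have ht1' := Ioo_subset_Icc_self ht1
    have h3 := h2 (Ioo_subset_Icc_self (hband t ht1'))
    have h4 := kk_deriv ((ϕ + ϕ') / 2) ht (hρ t ht1')
    have h5 := (hS.graph _ h3.1.2).1 (hin t ht1')
    have h6 := pow_le_pow_left₀ hc0.le h3.2 2
    rw [mul_pow, mul_pow, ph_sq h3.1.1.le (by linarith [h3.1.2]), ← h5, ← psi_mul h ‖γ t‖] at h6
    rw [← xc_z (hne t ht1')] at h4
    rw [deriv_const_mul_field]
    refine Real.abs_le_sqrt ?_
    rw [gm_self, mul_pow]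
    nlinarith [mul_le_mul_of_nonneg_left h4 (sq_nonneg (psi f ‖γ t‖)),
      mul_le_mul_of_nonneg_right h6 (sq_nonneg (deriv (fun t => kk ((ϕ + ϕ') / 2) (γ t)) t)),
      sq_nonneg (inner ℝ (γ t) (deriv γ t) / ‖γ t‖)])
    (right_mem_Icc.2 zero_le_one) (left_mem_Icc.2 zero_le_one)
  rw [g0, g1, kk_pt hp hθ, kk_pt hp hθ, ← mul_sub, abs_mul, abs_of_pos hc0] at h3
  have e1 : ϕ - (ϕ + ϕ') / 2 = (ϕ - ϕ') / 2 := by ring
  have e2 : ϕ' - (ϕ + ϕ') / 2 = -((ϕ - ϕ') / 2) := by ring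
  rwa [e1, e2, sin_neg, sub_neg_eq_add, ← two_mul, abs_mul, abs_two] at h3

end CapLAux

open CapLAux in
theorem sCapL : S_CapL := fun _ _ h _ _ hS hp hc =>
  ⟨fun _ hθ ϕ => from_pole h hS hp hc hθ (xc_pt hp hθ ϕ).ge,
    fun _ hθ _ hq => from_pole h hS hp hc hθ ((XX_lt hθ).le.trans hq),
    fun _ hθ _ hη => around h hS hp hc hθ hη⟩

end

end Pool.Agent.P.MP_ab9b82_gt
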