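import Pool.Agent.P.MP_ab9b82_gt.B2

/-! Upper bounds for intrinsic distances in a cap. -/

namespace Pool.Agent.P.MP_ab9b82_gt

open MeasureTheory Set Filter Topology Real
open scoped ENNReal

namespace CapUAux

variable {f s : ℝ → ℝ} {a0 : ℝ}

/-- the unit vector at angle `θ` from the south pole -/
noncomputable def uu (θ ϕ : ℝ) : V := !₂[sin θ * cos ϕ, sin θ * sin ϕ, -cos θ]

noncomputable def ut (θ ϕ : ℝ) : V := !₂[cos θ * cos ϕ, cos θ * sin ϕ, sin θ]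

noncomputable def up (θ ϕ : ℝ) : V := !₂[-(sin θ * sin ϕ), sin θ * cos ϕ, 0]

theorem pt_eq (s : ℝ → ℝ) (θ ϕ : ℝ) : pt s θ ϕ = s (XX θ) • uu θ ϕ := by
  ext i
  fin_cases i <;> simp [pt, uu]

theorem uu_sq (θ ϕ : ℝ) : ‖uu θ ϕ‖ ^ 2 = 1 := by
  rw [norm_sq_eq]
  simp only [uu, PiLp.toLp_apply, Matrix.cons_val_zero, Matrix.cons_val_one, Matrix.cons_val]
  linear_combination sin θ ^ 2 * sin_sq_add_cos_sq ϕ + sin_sq_add_cos_sq θ

theorem norm_uu (θ ϕ : ℝ) : ‖uu θ ϕ‖ = 1 := by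
  rw [← Real.sqrt_sq (norm_nonneg (uu θ ϕ)), uu_sq, Real.sqrt_one]

theorem ut_sq (θ ϕ : ℝ) : ‖ut θ ϕ‖ ^ 2 = 1 := by
  rw [norm_sq_eq]
  simp only [ut, PiLp.toLp_apply, Matrix.cons_val_zero, Matrix.cons_val_one, Matrix.cons_val]
  linear_combination cos θ ^ 2 * sin_sq_add_cos_sq ϕ + sin_sq_add_cos_sq θ

theorem norm_ut (θ ϕ : ℝ) : ‖ut θ ϕ‖ = 1 := by
  rw [← Real.sqrt_sq (norm_nonneg (ut θ ϕ)), ut_sq, Real.sqrt_one]

theorem up_sq (θ ϕ : ℝ) : ‖up θ ϕ‖ ^ 2 = sin θ ^ 2 := by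
  rw [norm_sq_eq]
  simp only [up, PiLp.toLp_apply, Matrix.cons_val_zero, Matrix.cons_val_one, Matrix.cons_val]
  linear_combination sin θ ^ 2 * sin_sq_add_cos_sq ϕ

theorem norm_up (θ ϕ : ℝ) : ‖up θ ϕ‖ = |sin θ| := by
  rw [← Real.sqrt_sq (norm_nonneg (up θ ϕ)), up_sq, Real.sqrt_sq_eq_abs]

theorem uu_ut (θ ϕ : ℝ) : inner ℝ (uu θ ϕ) (ut θ ϕ) = 0 := by
  rw [inner_eq]
  simp only [uu, ut, PiLp.toLp_apply, Matrix.cons_val_zero, Matrix.cons_val_one, Matrix.cons_val]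
  linear_combination sin θ * cos θ * sin_sq_add_cos_sq ϕ

theorem uu_up (θ ϕ : ℝ) : inner ℝ (uu θ ϕ) (up θ ϕ) = 0 := by
  rw [inner_eq]
  simp only [uu, up, PiLp.toLp_apply, Matrix.cons_val_zero, Matrix.cons_val_one, Matrix.cons_val]
  ring

theorem uu_dt (θ ϕ : ℝ) : HasDerivAt (fun t => uu t ϕ) (ut θ ϕ) θ := by
  have e : (fun t => uu t ϕ) = fun t => sin t • (!₂[cos ϕ, sin ϕ, 0] : V) +
      cos t • (!₂[0, 0, -1] : V) := by
    funext t; ext i; fin_cases i <;> simp [uu]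
  rw [e]
  refine (((hasDerivAt_sin θ).smul_const _).add ((hasDerivAt_cos θ).smul_const _)).congr_deriv ?_
  ext i; fin_cases i <;> simp [ut]

theorem uu_dp (θ ϕ : ℝ) : HasDerivAt (fun t => uu θ t) (up θ ϕ) ϕ := by
  have e : (fun t => uu θ t) = fun t => cos t • (!₂[sin θ, 0, 0] : V) +
      sin t • (!₂[0, sin θ, 0] : V) + (!₂[0, 0, -cos θ] : V) := by
    funext t; ext i; fin_cases i <;> simp [uu, mul_comm]
  rw [e]
  refine ((((hasDerivAt_cos ϕ).smul_const _).add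
    ((hasDerivAt_sin ϕ).smul_const _)).add_const _).congr_deriv ?_
  ext i; fin_cases i <;> simp [up, mul_comm]

theorem XX_mem (θ : ℝ) : XX θ ∈ Icc (0 : ℝ) 1 := by
  unfold XX
  constructor <;> linarith [cos_le_one θ, neg_one_le_cos θ]

theorem XX_le {θ : ℝ} (h : θ ∈ Icc 0 (π / 3)) : XX θ ∈ Icc (0 : ℝ) (1 / 4) := by
  refine ⟨(XX_mem θ).1, ?_⟩
  have := cos_le_cos_of_nonneg_of_le_pi h.1 (by linarith [pi_pos]) h.2
  rw [cos_pi_div_three] at this
  unfold XX; linarith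

theorem XX_lt {θ : ℝ} (h : θ ∈ Ico 0 (π / 3)) : XX θ < 1 / 4 := by
  have := cos_lt_cos_of_nonneg_of_le_pi h.1 (by linarith [pi_pos]) h.2
  rw [cos_pi_div_three] at this
  unfold XX; linarith

theorem XX_pos {θ : ℝ} (h : θ ∈ Ioo 0 (π / 3)) : 0 < XX θ := by
  have := cos_lt_cos_of_nonneg_of_le_pi le_rfl (by linarith [pi_pos, h.2]) h.1
  rw [cos_zero] at this
  unfold XX; linarith

theorem XX_d (θ : ℝ) : HasDerivAt XX (sin θ / 2) θ := by
  refine (((hasDerivAt_cos θ).const_sub 1).div_const 2).congr_deriv ?_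
  ring

theorem XX_cont : Continuous XX := by unfold XX; fun_prop

theorem XX_lip : LipschitzWith 1 XX := by
  refine lipschitzWith_of_nnnorm_deriv_le (fun x => (XX_d x).differentiableAt) fun x => ?_
  rw [(XX_d x).deriv, ← NNReal.coe_le_coe, coe_nnnorm, Real.norm_eq_abs, abs_div, abs_two]
  have := abs_sin_le_one x
  simp only [NNReal.coe_one]
  linarith

theorem xc_uu (θ ϕ : ℝ) : xc (uu θ ϕ) = XX θ := by
  rw [xc, norm_uu]
  simp [uu, XX, sub_eq_add_neg]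

theorem pt_mem {S : Set V} (hS : Cap S s) (hs : Pos s (1 / 4)) {θ : ℝ} (h : θ ∈ Ico 0 (π / 3))
    (ϕ : ℝ) : pt s θ ϕ ∈ S := by
  have h0 := hs.pos _ (XX_le (Ico_subset_Icc_self h))
  have h1 : xc (pt s θ ϕ) = XX θ := by rw [pt_eq, xc_smul h0, xc_uu]
  rw [hS.graph _ (by rw [h1]; exact XX_lt h), h1, pt_eq, norm_smul, norm_uu, mul_one,
    Real.norm_eq_abs, abs_of_pos h0]

theorem exists_pt {S : Set V} (hS : Cap S s) {q : V} (hq : q ∈ S) (hx : xc q < 1 / 4) :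
    ∃ θ ∈ Ico 0 (π / 3), ∃ ϕ ∈ Icc (-π) π, q = pt s θ ϕ := by
  have hq0 : 0 < ‖q‖ := norm_pos_iff.2 fun h => hS.zero (h ▸ hq)
  have hn := (hS.graph q hx).1 hq
  have hm := xc_mem q
  have hc : cos (arccos (1 - 2 * xc q)) = 1 - 2 * xc q :=
    cos_arccos (by linarith [hm.2]) (by linarith [hm.1])
  set θ := arccos (1 - 2 * xc q) with hθ
  have h0 : 0 ≤ θ := arccos_nonneg _
  have hπ : θ ≤ π := arccos_le_pi _
  have hX : XX θ = xc q := by rw [XX, hc]; ring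
  have h2 : q 2 = -(‖q‖ * cos θ) := by rw [hc, xc]; field_simp; ring
  have hlt : θ < π / 3 := by
    by_contra hh
    have := cos_le_cos_of_nonneg_of_le_pi (by positivity) hπ (not_lt.1 hh)
    rw [cos_pi_div_three, hc] at this
    linarith
  set z : ℂ := ⟨q 0, q 1⟩ with hz
  have hz1 : ‖z‖ = ‖q‖ * sin θ := by
    have hs0 : 0 ≤ sin θ := sin_nonneg_of_nonneg_of_le_pi h0 hπ
    rw [← Real.sqrt_sq (norm_nonneg z), ← Real.sqrt_sq (mul_nonneg hq0.le hs0)]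
    congr 1
    have e := norm_sq_eq q
    rw [h2] at e
    rw [Complex.sq_norm, Complex.normSq_apply]
    linear_combination (-1 : ℝ) * e - ‖q‖ ^ 2 * sin_sq_add_cos_sq θ
  refine ⟨θ, ⟨h0, hlt⟩, z.arg, ⟨(Complex.neg_pi_lt_arg z).le, Complex.arg_le_pi z⟩, ?_⟩
  have e0 := Complex.norm_mul_cos_arg z
  have e1 := Complex.norm_mul_sin_arg z
  rw [hz1] at e0 e1
  ext i
  fin_cases i
  · simp only [pt, hX, ← hn]
    simpa [mul_assoc] using e0.symm
  · simp only [pt, hX, ← hn]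
    simpa [mul_assoc] using e1.symm
  · simp only [pt, hX, ← hn]
    simpa using h2

/-- the integrand of `ell` -/
noncomputable def gg (f s : ℝ → ℝ) (t : ℝ) : ℝ :=
  √((deriv s (XX t) * (sin t / 2)) ^ 2 + f (s (XX t)) ^ 2)

theorem gg_ii (h : Prof f a0) (hs : Lip s) (α β : ℝ) : IntervalIntegrable (gg f s) volume α β := by
  obtain ⟨K, hK0, hK⟩ := hs.bdd
  have hc : Continuous fun t => f (s (XX t)) := h.continuous.comp (hs.continuous.comp XX_cont)
  have hm : Measurable (gg f s) := by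
    have h1 : Measurable fun t => deriv s (XX t) := (measurable_deriv s).comp XX_cont.measurable
    exact (((h1.mul (measurable_sin.div_const 2)).pow_const 2).add
      (hc.measurable.pow_const 2)).sqrt
  refine IntervalIntegrable.mono_fun' (g := fun t => K + |f (s (XX t))|)
    ((continuous_const.add hc.abs).intervalIntegrable _ _) hm.aestronglyMeasurable
    (ae_of_all _ fun t => ?_)
  simp only [gg, Real.norm_eq_abs, abs_of_nonneg (Real.sqrt_nonneg _)]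
  refine Real.sqrt_le_iff.2 ⟨by positivity, ?_⟩
  have h1 : |deriv s (XX t) * (sin t / 2)| ≤ K := by
    rw [abs_mul, abs_div, abs_two]
    have := abs_sin_le_one t
    nlinarith [hK (XX t), abs_nonneg (deriv s (XX t)), abs_nonneg (sin t)]
  have h2 := pow_le_pow_left₀ (abs_nonneg _) h1 2
  rw [sq_abs] at h2
  nlinarith [sq_abs (f (s (XX t))), abs_nonneg (f (s (XX t)))]

theorem ell_mono (h : Prof f a0) (hs : Pos s (1 / 4)) :
    StrictMonoOn (ell f s) (Icc 0 (π / 3)) := by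
  intro a ha b hb hab
  have e : ell f s b - ell f s a = ∫ t in a..b, gg f s t :=
    intervalIntegral.integral_interval_sub_left (gg_ii h hs.lip _ _) (gg_ii h hs.lip _ _)
  have : 0 < ∫ t in a..b, gg f s t := by
    refine intervalIntegral.intervalIntegral_pos_of_pos_on (gg_ii h hs.lip _ _) (fun t ht => ?_) hab
    have := h.fpos (hs.pos _ (XX_le ⟨ha.1.trans ht.1.le, ht.2.le.trans hb.2⟩))
    exact Real.sqrt_pos.2 (by positivity)
  linarith

theorem gm_rad (h : Prof f a0) {r : ℝ} (hr : 0 < r) {u w : V} (hu : ‖u‖ = 1)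
    (huw : inner ℝ u w = 0) (a : ℝ) :
    gm f (r • u) (a • u + r • w) (a • u + r • w) = a ^ 2 + f r ^ 2 * ‖w‖ ^ 2 := by
  have hn : ‖r • u‖ = r := by rw [norm_smul, hu, mul_one, Real.norm_eq_abs, abs_of_pos hr]
  rw [gm_self, hn, norm_add_sq_real, ← psi_mul h r]
  simp only [inner_add_right, real_inner_smul_left, real_inner_smul_right,
    real_inner_self_eq_norm_sq, huw, norm_smul, hu, mul_pow, Real.norm_eq_abs, sq_abs]
  field_simp
  ring

theorem lip_smul {a : ℝ → ℝ} {u : ℝ → V} {K L : NNReal} {C : ℝ} (ha : LipschitzWith K a)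
    (hC : ∀ t, |a t| ≤ C) (hu : LipschitzWith L u) (h1 : ∀ t, ‖u t‖ = 1) :
    ∃ M, LipschitzWith M fun t => a t • u t := by
  have hC0 : 0 ≤ C := (abs_nonneg _).trans (hC 0)
  lift C to NNReal using hC0
  refine ⟨K + C * L, LipschitzWith.of_dist_le_mul fun x y => ?_⟩
  have e : a x • u x - a y • u y = (a x - a y) • u x + a y • (u x - u y) := by module
  have k1 := ha.dist_le_mul x y
  have k2 := hu.dist_le_mul x y
  rw [dist_eq_norm] at k1 k2 ⊢
  rw [e]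
  refine (norm_add_le _ _).trans ?_
  rw [norm_smul, norm_smul, h1, mul_one, Real.norm_eq_abs (a y)]
  have k3 : |a y| * ‖u x - u y‖ ≤ C * (L * dist x y) :=
    mul_le_mul (hC y) k2 (norm_nonneg _) C.2
  push_cast
  linarith

theorem idist_le (g : Met) (S : Set V) (γ : ℝ → V) (h1 : ∃ K, LipschitzWith K γ)
    (h2 : ∀ τ ∈ Icc (0 : ℝ) 1, γ τ ∈ S) : idist g S (γ 0) (γ 1) ≤ len g γ :=
  iInf_le_of_le γ (iInf_le_of_le h1 (iInf_le_of_le rfl (iInf_le_of_le rfl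
    (iInf_le_of_le h2 le_rfl))))

theorem len_eq (g : Met) (γ : ℝ → V) {k : ℝ → ℝ} (hk : IntervalIntegrable k volume 0 1)
    (h : ∀ τ ∈ Ioo (0 : ℝ) 1, √(g (γ τ) (deriv γ τ) (deriv γ τ)) = k τ) :
    len g γ = ENNReal.ofReal (∫ t in (0 : ℝ)..1, k t) := by
  rw [len, ← setLIntegral_congr Ioo_ae_eq_Icc, intervalIntegral.integral_of_le zero_le_one,
    integral_Ioc_eq_integral_Ioo,
    ofReal_integral_eq_lintegral_ofReal (hk.1.mono_set Ioo_subset_Ioc_self)]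
  · exact setLIntegral_congr_fun measurableSet_Ioo fun τ hτ => by rw [← h τ hτ]
  · refine (ae_restrict_iff' measurableSet_Ioo).2 (ae_of_all _ fun τ hτ => ?_)
    rw [← h τ hτ]
    exact Real.sqrt_nonneg _

theorem merid (h : Prof f a0) {S : Set V} (hS : Cap S s) (hs : Pos s (1 / 4)) (hc : C1 s (1 / 4))
    {θ : ℝ} (hθ : θ ∈ Ico 0 (π / 3)) (ϕ : ℝ) :
    idist (gm f) S (pt s 0 0) (pt s θ ϕ) ≤ ENNReal.ofReal (ell f s θ) := by
  obtain ⟨K, hK⟩ := hs.lip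
  have hm : ∀ τ ∈ Icc (0 : ℝ) 1, θ * τ ∈ Ico 0 (π / 3) := fun τ hτ =>
    ⟨mul_nonneg hθ.1 hτ.1, (mul_le_of_le_one_right hθ.1 hτ.2).trans_lt hθ.2⟩
  have hl : ∀ τ, HasDerivAt (fun t => θ * t) θ τ := fun τ => by
    simpa using (hasDerivAt_id τ).const_mul θ
  have hu : ∀ τ, HasDerivAt (fun t => uu (θ * t) ϕ) (θ • ut (θ * τ) ϕ) τ := fun τ =>
    (uu_dt (θ * τ) ϕ).scomp τ (hl τ)
  have hlip : LipschitzWith ‖θ‖₊ fun t => θ * t :=
    lipschitzWith_of_nnnorm_deriv_le (fun x => (hl x).differentiableAt) fun x => by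
      rw [(hl x).deriv]
  have hulip : LipschitzWith ‖θ‖₊ fun t => uu (θ * t) ϕ :=
    lipschitzWith_of_nnnorm_deriv_le (fun x => (hu x).differentiableAt) fun x => by
      rw [(hu x).deriv, ← NNReal.coe_le_coe, coe_nnnorm, coe_nnnorm, norm_smul, norm_ut, mul_one]
  have hb : ∀ t, |s (XX (θ * t))| ≤ |s 0| + K := fun t => by
    have k := hK.dist_le_mul (XX (θ * t)) 0
    rw [Real.dist_eq, Real.dist_eq, sub_zero, abs_of_nonneg (XX_mem _).1] at k
    have k2 : (K : ℝ) * XX (θ * t) ≤ K := mul_le_of_le_one_right K.2 (XX_mem _).2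
    linarith [abs_sub_abs_le_abs_sub (s (XX (θ * t))) (s 0)]
  have key := idist_le (gm f) S (fun t => s (XX (θ * t)) • uu (θ * t) ϕ)
    (lip_smul (hK.comp (XX_lip.comp hlip)) hb hulip fun t => norm_uu _ _)
    (fun τ hτ => by rw [← pt_eq]; exact pt_mem hS hs (hm τ hτ) ϕ)
  have e0 : pt s 0 ϕ = pt s 0 0 := by simp [pt]
  simp only [mul_zero, mul_one, ← pt_eq, e0] at key
  refine key.trans (le_of_eq ?_)
  simp only [pt_eq]
  rw [len_eq (k := fun t => θ * gg f s (θ * t))]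
  · congr 1
    rw [intervalIntegral.integral_const_mul, ← smul_eq_mul,
      intervalIntegral.smul_integral_comp_mul_left, mul_zero, mul_one]
    rfl
  · refine IntervalIntegrable.const_mul ?_ θ
    rcases eq_or_ne θ 0 with h0 | h0
    · simp [h0]
    · have := (gg_ii h hs.lip 0 θ).comp_mul_left (c := θ)
      simpa [h0] using this
  · intro τ hτ
    have hmτ := hm τ (Ioo_subset_Icc_self hτ)
    have ha : HasDerivAt (fun t => s (XX (θ * t)))
        (deriv s (XX (θ * τ)) * (sin (θ * τ) / 2 * θ)) τ := by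
      rcases hθ.1.eq_or_lt with h0 | h0
      · simpa [← h0] using hasDerivAt_const τ (s (XX 0))
      · exact (hc.diff _ ⟨XX_pos ⟨mul_pos h0 hτ.1, hmτ.2⟩, XX_lt hmτ⟩).hasDerivAt.comp τ
          ((XX_d (θ * τ)).comp τ (hl τ))
    have hr := hs.pos _ (XX_le (Ico_subset_Icc_self hmτ))
    have hd := (ha.smul (hu τ)).deriv
    rw [show (deriv (fun t => s (XX (θ * t)) • uu (θ * t) ϕ) τ) = _ from hd, add_comm,
      gm_rad h hr (norm_uu _ _) (by rw [real_inner_smul_right, uu_ut, mul_zero]), norm_smul,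
      norm_ut, gg, ← Real.sqrt_sq hθ.1, ← Real.sqrt_mul (sq_nonneg θ), Real.sqrt_sq hθ.1]
    congr 1
    rw [mul_one, Real.norm_eq_abs, sq_abs]
    ring

theorem parall (h : Prof f a0) {S : Set V} (hS : Cap S s) (hs : Pos s (1 / 4))
    {θ : ℝ} (hθ : θ ∈ Ico 0 (π / 3)) (ϕ ϕ' : ℝ) :
    idist (gm f) S (pt s θ ϕ) (pt s θ ϕ') ≤ ENNReal.ofReal (yy f s θ * |ϕ - ϕ'|) := by
  have hl : ∀ τ, HasDerivAt (fun t => ϕ + (ϕ' - ϕ) * t) (ϕ' - ϕ) τ := fun τ => by
    simpa using ((hasDerivAt_id τ).const_mul (ϕ' - ϕ)).const_add ϕ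
  have hu : ∀ τ, HasDerivAt (fun t => uu θ (ϕ + (ϕ' - ϕ) * t))
      ((ϕ' - ϕ) • up θ (ϕ + (ϕ' - ϕ) * τ)) τ := fun τ => (uu_dp θ _).scomp τ (hl τ)
  have hulip : LipschitzWith ‖ϕ' - ϕ‖₊ fun t => uu θ (ϕ + (ϕ' - ϕ) * t) :=
    lipschitzWith_of_nnnorm_deriv_le (fun x => (hu x).differentiableAt) fun x => by
      rw [(hu x).deriv, ← NNReal.coe_le_coe, coe_nnnorm, coe_nnnorm, norm_smul, norm_up]
      exact mul_le_of_le_one_right (norm_nonneg _) (abs_sin_le_one θ)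
  have key := idist_le (gm f) S (fun t => s (XX θ) • uu θ (ϕ + (ϕ' - ϕ) * t))
    (lip_smul (LipschitzWith.const (s (XX θ))) (fun _ => le_rfl) hulip fun t => norm_uu _ _)
    (fun τ _ => by rw [← pt_eq]; exact pt_mem hS hs hθ _)
  simp only [mul_zero, mul_one, add_zero, add_sub_cancel, ← pt_eq] at key
  refine key.trans (le_of_eq ?_)
  simp only [pt_eq]
  have hr := hs.pos _ (XX_le (Ico_subset_Icc_self hθ))
  have hsin : 0 ≤ sin θ := sin_nonneg_of_nonneg_of_le_pi hθ.1 (by linarith [pi_pos, hθ.2])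
  rw [len_eq (k := fun _ => yy f s θ * |ϕ - ϕ'|) _ _ intervalIntegrable_const]
  · simp
  · intro τ _
    have hd := ((hu τ).const_smul (s (XX θ))).deriv
    have k := gm_rad h hr (norm_uu θ (ϕ + (ϕ' - ϕ) * τ))
      (w := (ϕ' - ϕ) • up θ (ϕ + (ϕ' - ϕ) * τ)) (by rw [real_inner_smul_right, uu_up, mul_zero]) 0
    rw [zero_smul, zero_add] at k
    rw [show (deriv (fun t => s (XX θ) • uu θ (ϕ + (ϕ' - ϕ) * t)) τ) = _ from hd, k,
      ← Real.sqrt_sq (mul_nonneg (mul_nonneg (h.fpos hr).le hsin) (abs_nonneg (ϕ - ϕ')) :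
        0 ≤ yy f s θ * |ϕ - ϕ'|)]
    congr 1
    rw [norm_smul, mul_pow, up_sq, mul_pow, sq_abs, Real.norm_eq_abs, sq_abs, yy]
    ring

end CapUAux

open CapUAux in
theorem sCapU : S_CapU := fun _ _ h _ _ hS hs hc =>
  ⟨fun _ hθ ϕ => pt_mem hS hs hθ ϕ, fun _ hq hx => exists_pt hS hq hx, ell_mono h hs,
    intervalIntegral.continuous_primitive (gg_ii h hs.lip) 0, fun _ hθ ϕ => merid h hS hs hc hθ ϕ,
    fun _ hθ ϕ ϕ' => parall h hS hs hθ ϕ ϕ'⟩

end Pool.Agent.P.MP_ab9b82_gt
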