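import Pool.Agent.P.MP_ab9b82_gt.B1

/-! Package Conv: from a growing profile to a graph over the sphere. -/

namespace Pool.Agent.P.MP_ab9b82_gt

open MeasureTheory Set Filter Topology Real

namespace ConvAux

variable {w : ℝ → ℝ} {r0 ρ L : ℝ}

/-- the generalised inverse -/
noncomputable def inv (w : ℝ → ℝ) (r0 ρ x : ℝ) : ℝ := sSup (Icc r0 ρ ∩ {r | w r ≤ max x 0})

theorem inv_mem (h : Gro w r0 ρ L) (hr : r0 ≤ ρ) (x : ℝ) :
    inv w r0 ρ x ∈ Icc r0 ρ ∧ w (inv w r0 ρ x) ≤ max x 0 :=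
  (isCompact_Icc.inter_right (isClosed_le h.lip.continuous continuous_const)).sSup_mem
    ⟨r0, ⟨le_rfl, hr⟩, by simp [h.zero r0 le_rfl]⟩

theorem le_inv {x r : ℝ} (h1 : r ∈ Icc r0 ρ) (h2 : w r ≤ max x 0) : r ≤ inv w r0 ρ x :=
  le_csSup (bddAbove_Icc.mono inter_subset_left) ⟨h1, h2⟩

theorem inv_mono (h : Gro w r0 ρ L) (hr : r0 ≤ ρ) : Monotone (inv w r0 ρ) := fun x _ hxy =>
  le_inv (inv_mem h hr x).1 ((inv_mem h hr x).2.trans (max_le_max_right 0 hxy))

theorem inv_sub (h : Gro w r0 ρ L) (hr : r0 ≤ ρ) (hL : 0 < L) {x y : ℝ} (hxy : x ≤ y) :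
    inv w r0 ρ y - inv w r0 ρ x ≤ L * (y - x) := by
  obtain ⟨k1, -⟩ := inv_mem h hr x
  obtain ⟨k2, k3⟩ := inv_mem h hr y
  have k4 : max y 0 - max x 0 ≤ y - x := by
    rcases le_total y 0 with h1 | h1
    · rw [max_eq_right h1, max_eq_right (hxy.trans h1)]; linarith
    · rw [max_eq_left h1]; linarith [le_max_left x 0]
  rw [sub_le_comm]
  refine le_of_forall_gt_imp_ge_of_dense fun r hr' => ?_
  rcases le_or_gt r (inv w r0 ρ y) with h1 | h1
  · have k5 : max x 0 < w r := lt_of_not_ge fun h2 =>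
      hr'.not_ge (le_inv ⟨k1.1.trans hr'.le, h1.trans k2.2⟩ h2)
    have k6 := h.gro r _ h1 k2.2 ((le_max_right x 0).trans_lt k5)
    rw [div_le_iff₀ hL] at k6
    nlinarith
  · nlinarith

theorem w_inv (h : Gro w r0 ρ L) (hr : r0 ≤ ρ) {x : ℝ} (h0 : 0 ≤ x) (h1 : x ≤ w ρ) :
    w (inv w r0 ρ x) = x := by
  obtain ⟨k1, k2⟩ := inv_mem h hr x
  rw [max_eq_left h0] at k2
  obtain ⟨r, k3, k4⟩ := intermediate_value_Icc k1.2 h.lip.continuous.continuousOn ⟨k2, h1⟩
  have k5 : r ≤ inv w r0 ρ x := le_inv ⟨k1.1.trans k3.1, k3.2⟩ (k4.le.trans (le_max_left _ _))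
  rw [← le_antisymm k5 k3.1, k4]

theorem inv_w (h : Gro w r0 ρ L) (hr : r0 ≤ ρ) (hL : 0 < L) {r : ℝ} (h0 : 0 < w r) (h1 : r ≤ ρ) :
    inv w r0 ρ (w r) = r := by
  obtain ⟨k1, k2⟩ := inv_mem h hr (w r)
  rw [max_eq_left h0.le] at k2
  have k3 : r0 ≤ r := le_of_not_ge fun h2 => h0.ne' (h.zero r h2)
  have k4 : r ≤ inv w r0 ρ (w r) := le_inv ⟨k3, h1⟩ (le_max_left _ _)
  have k5 := h.gro r _ k4 k1.2 h0
  rw [div_le_iff₀ hL] at k5
  nlinarith

theorem Lh_eq {f : ℝ → ℝ} {x r p : ℝ} (hf : 0 ≤ f r) (hp : p ≠ 0) :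
    |p| • Lg f r x p⁻¹ = Lh f x r p := by
  rw [Lg, Lh, smul_eq_mul, ← Real.sqrt_sq_eq_abs, ← Real.sqrt_mul (sq_nonneg _)]
  conv_rhs => rw [← Real.sqrt_sq hf, ← Real.sqrt_mul (sq_nonneg _), Real.sqrt_sq hf]
  congr 1
  field_simp

end ConvAux

open ConvAux in
theorem sConv : S_Conv := by
  intro f a0 hf w r0 ρ L x0 h hr0 hL hx0 _ hr hw
  set s := inv w r0 ρ with hs
  have hlip : ∀ x y, |s x - s y| ≤ L * |x - y| := fun x y => by
    rcases le_total x y with hxy | hxy
    · rw [abs_sub_comm, abs_of_nonneg (sub_nonneg.2 (inv_mono h hr hxy)), abs_sub_comm,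
        abs_of_nonneg (sub_nonneg.2 hxy)]
      exact inv_sub h hr hL hxy
    · rw [abs_of_nonneg (sub_nonneg.2 (inv_mono h hr hxy)), abs_of_nonneg (sub_nonneg.2 hxy)]
      exact inv_sub h hr hL hxy
  have hsl : Lip s := Lip.of_abs hlip
  have hm : ∀ x, s x ∈ Icc r0 ρ := fun x => (inv_mem h hr x).1
  have hws : ∀ x ∈ Ioo 0 x0, w (s x) = x := fun x hx => w_inv h hr hx.1.le (hw ▸ hx.2.le)
  have hρ : 0 ≤ ρ := hr0.le.trans hr
  refine ⟨s, inv_mono h hr, hlip, hm, hw ▸ inv_w h hr hL (hw ▸ hx0) le_rfl, ?_, ?_⟩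
  · let D : Set ℝ := Ioo 0 x0 ∩ {x | DifferentiableAt ℝ s x}
    have hD : MeasurableSet D := measurableSet_Ioo.inter (measurableSet_of_differentiableAt ℝ s)
    have e1 : FI f s x0 = ∫ x in D, Lh f x (s x) (deriv s x) := by
      rw [FI, intervalIntegral.integral_of_le hx0.le, integral_Ioc_eq_integral_Ioo]
      refine setIntegral_congr_set ?_
      filter_upwards [hsl.ae_diff] with x hx
      exact propext ⟨fun h1 => ⟨h1, hx⟩, fun h1 => h1.1⟩
    have e2 := integral_image_eq_integral_abs_deriv_smul (f := s) (f' := deriv s) hD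
      (fun x hx => hx.2.hasDerivAt.hasDerivWithinAt)
      (fun x hx y hy e => by rw [← hws x hx.1, e, hws y hy.1])
      (fun r => Lg f r (w r) (deriv w r))
    have e3 : ∀ x ∈ D, |deriv s x| • Lg f (s x) (w (s x)) (deriv w (s x)) =
        Lh f x (s x) (deriv s x) := by
      intro x hx
      obtain ⟨K, hK⟩ := h.lip
      have k1 : deriv s x ≠ 0 := by
        have k2 : (1 : ℝ) ≤ K * |deriv s x| := by
          refine ge_of_tendsto
            ((hasDerivAt_iff_tendsto_slope.1 hx.2.hasDerivAt).abs.const_mul (K : ℝ)) ?_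
          filter_upwards [self_mem_nhdsWithin,
            nhdsWithin_le_nhds (Ioo_mem_nhds hx.1.1 hx.1.2)] with y hy hy'
          have k3 := hK.dist_le_mul (s y) (s x)
          rw [hws y hy', hws x hx.1, Real.dist_eq, Real.dist_eq] at k3
          rw [slope_def_field, abs_div, ← mul_div_assoc,
            one_le_div (abs_pos.2 (sub_ne_zero.2 hy))]
          exact k3
        intro k3
        rw [k3, abs_zero, mul_zero] at k2
        exact absurd k2 (by norm_num)
      have k4 : s x < ρ := lt_of_le_of_ne (hm x).2 fun e => hx.1.2.ne (by rw [← hws x hx.1, e, hw])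
      have k5 : HasDerivAt w (deriv s x)⁻¹ (s x) := by
        refine HasDerivAt.of_local_left_inverse (f := s) hK.continuous.continuousAt
          (by rw [hws x hx.1]; exact hx.2.hasDerivAt) k1 ?_
        filter_upwards [Iio_mem_nhds k4, hK.continuous.continuousAt.eventually
          (lt_mem_nhds (show 0 < w (s x) by rw [hws x hx.1]; exact hx.1.1))] with y h1 h2
        exact inv_w h hr hL h2 (le_of_lt h1)
      rw [k5.deriv, hws x hx.1]
      exact Lh_eq (hf.fnn (hr0.le.trans (hm x).1)) k1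
    rw [e1, ← setIntegral_congr_fun hD e3, ← e2, intervalIntegral.integral_of_le hρ]
    refine setIntegral_mono_set (Lg_ii hf h.lip 0 ρ).1 (Eventually.of_forall fun _ => Lg_nn ..)
      (Eventually.of_forall ?_)
    rintro _ ⟨x, -, rfl⟩
    exact ⟨hr0.trans_le (hm x).1, (hm x).2⟩
  · have hc : Continuous fun y => Wf f (s y) := hf.Wf_cont.comp hsl.continuous
    have hΦ : ∀ x, HasDerivAt (fun x => ∫ y in (0 : ℝ)..x, Wf f (s y)) (Wf f (s x)) x := fun x =>
      (hc.integral_hasStrictDerivAt 0 x).hasDerivAt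
    have hΦl : LipschitzWith (Wf f ρ).toNNReal fun x => ∫ y in (0 : ℝ)..x, Wf f (s y) := by
      refine lipschitzWith_of_nnnorm_deriv_le (fun x => (hΦ x).differentiableAt) fun x => ?_
      rw [(hΦ x).deriv, ← NNReal.coe_le_coe, coe_nnnorm,
        Real.norm_of_nonneg (hf.Wf_pos (hr0.trans_le (hm x).1)).le]
      exact (hf.Wf_mono (hm x).2).trans (Real.le_coe_toNNReal _)
    obtain ⟨K, hK⟩ := h.lip
    have e1 := Lip.ftc ⟨_, hΦl.comp hK⟩ 0 ρ
    have e2 : ∫ r in (0 : ℝ)..ρ, deriv ((fun x => ∫ y in (0 : ℝ)..x, Wf f (s y)) ∘ w) r =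
        ∫ r in (0 : ℝ)..ρ, Wf f r * deriv w r := by
      refine intervalIntegral.integral_congr_ae ?_
      filter_upwards [h.lip.ae_diff] with r h1 h2
      rw [uIoc_of_le hρ] at h2
      rw [((hΦ (w r)).comp r h1.hasDerivAt).deriv]
      rcases (h.nn r).eq_or_lt with h3 | h3
      · have : IsLocalMin w r := Eventually.of_forall fun y => by rw [← h3]; exact h.nn y
        rw [this.deriv_eq_zero, mul_zero, mul_zero]
      · rw [hs, inv_w h hr hL h3 h2.2]
    have e3 := h.lip.ibp (α := 0) (β := ρ) (fun x _ => hf.Wf_deriv x)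
      (hf.continuous.pow 2).continuousOn
    have e4 : ∫ r in (0 : ℝ)..ρ, (x0 - w r) * f r ^ 2 =
        x0 * Wf f ρ - ∫ r in (0 : ℝ)..ρ, f r ^ 2 * w r := by
      have c1 : Continuous fun r => x0 * f r ^ 2 := continuous_const.mul (hf.continuous.pow 2)
      have c2 : Continuous fun r => f r ^ 2 * w r := (hf.continuous.pow 2).mul hK.continuous
      rw [Wf, ← intervalIntegral.integral_const_mul, ← intervalIntegral.integral_sub
        (c1.intervalIntegrable _ _) (c2.intervalIntegrable _ _)]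
      exact intervalIntegral.integral_congr fun r _ => by ring
    rw [e2, e3, Function.comp, Function.comp, hw, h.zero 0 hr0.le,
      intervalIntegral.integral_same] at e1
    rw [e4, VI]
    linarith

end Pool.Agent.P.MP_ab9b82_gt
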