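import Pool.Agent.P.MP_ab9b82_gt.B2

/-! The warped product metric is smooth; its Christoffel symbols and its curvature. -/

namespace Pool.Agent.P.MP_ab9b82_gt

open Set Filter Topology
open scoped ContDiff

noncomputable section

namespace CurvAux

variable {f : ℝ → ℝ} {a0 : ℝ}

def Qf (f : ℝ → ℝ) (r : ℝ) : ℝ := (deriv f r / f r - 1 / r) / r

def Pf (f : ℝ → ℝ) (r : ℝ) : ℝ := 1 / r ^ 2 - f r * deriv f r / r ^ 3

def Sf (f : ℝ → ℝ) (r : ℝ) : ℝ := -(2 * Qf f r + Pf f r) / r ^ 2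

def Gam (f : ℝ → ℝ) (x u v : V) : V :=
  Qf f ‖x‖ • (inner ℝ x u • v + inner ℝ x v • u) +
    (Pf f ‖x‖ * inner ℝ u v + Sf f ‖x‖ * (inner ℝ x u * inner ℝ x v)) • x

/-! ### the flat part -/

theorem deriv_flat (hn : Nice f) {r : ℝ} (hr : r < 1) : deriv f r = 1 := by
  have : f =ᶠ[𝓝 r] id := (eventually_lt_nhds hr).mono fun t ht => hn.flat t ht.le
  rw [this.deriv_eq, deriv_id]

theorem psi_flat (hn : Nice f) {r : ℝ} (hr : r < 1) : psi f r = 1 := by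
  unfold psi
  split_ifs with h0
  · rfl
  · rw [hn.flat r hr.le, div_self h0]

theorem gm_flat (hn : Nice f) {x : V} (hx : ‖x‖ < 1) (u v : V) : gm f x u v = inner ℝ u v := by
  simp [gm_apply, psi_flat hn hx]

theorem Qf_flat (hn : Nice f) {r : ℝ} (hr : r < 1) : Qf f r = 0 := by
  simp [Qf, deriv_flat hn hr, hn.flat r hr.le]

theorem Pf_flat (hn : Nice f) {r : ℝ} (hr : r < 1) : Pf f r = 0 := by
  rw [Pf, deriv_flat hn hr, hn.flat r hr.le]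
  rcases eq_or_ne r 0 with h | h
  · simp [h]
  · field_simp; ring

theorem Gam_flat (hn : Nice f) {x : V} (hx : ‖x‖ < 1) (u v : V) : Gam f x u v = 0 := by
  simp [Gam, Sf, Qf_flat hn hx, Pf_flat hn hx]

theorem ev_ball {x : V} (hx : ‖x‖ < 1) : ∀ᶠ y in 𝓝 x, ‖y‖ < 1 :=
  continuous_norm.continuousAt.eventually_lt_const hx

theorem riem_flat (hn : Nice f) {x : V} (hx : ‖x‖ < 1) (u v w : V) :
    riem (Gam f) x u v w = 0 := by
  have h : ∀ v w, fderiv ℝ (fun y => Gam f y v w) x = 0 := fun v w => by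
    have : (fun y => Gam f y v w) =ᶠ[𝓝 x] fun _ => 0 :=
      (ev_ball hx).mono fun y hy => Gam_flat hn hy v w
    rw [this.fderiv_eq]; simp
  simp [riem, h, Gam_flat hn hx]

theorem fd_gm_flat (hn : Nice f) {x : V} (hx : ‖x‖ < 1) (v w : V) :
    fderiv ℝ (fun y => gm f y v w) x = 0 := by
  have : (fun y => gm f y v w) =ᶠ[𝓝 x] fun _ => inner ℝ v w :=
    (ev_ball hx).mono fun y hy => gm_flat hn hy v w
  rw [this.fderiv_eq]; simp

/-! ### smoothness -/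

theorem ev_ne {x : V} (hx : x ≠ 0) : ∀ᶠ y in 𝓝 x, ‖y‖ ≠ 0 :=
  continuous_norm.continuousAt.eventually_ne (norm_ne_zero_iff.2 hx)

theorem gm_smooth (hn : Nice f) : ContDiff ℝ ∞ (gm f) := by
  refine contDiff_clm_apply_iff.2 fun u => contDiff_clm_apply_iff.2 fun v => ?_
  refine contDiff_iff_contDiffAt.2 fun x => ?_
  rcases eq_or_ne x 0 with rfl | hx
  · have : (fun y => gm f y u v) =ᶠ[𝓝 0] fun _ => inner ℝ u v :=
      (ev_ball (by simp)).mono fun y hy => gm_flat hn hy u v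
    exact contDiffAt_const.congr_of_eventuallyEq this
  have h0 : ‖x‖ ≠ 0 := norm_ne_zero_iff.2 hx
  have hN : ContDiffAt ℝ ∞ (fun y : V => ‖y‖) x := contDiffAt_norm ℝ hx
  have h1 : ContDiffAt ℝ ∞ (fun y : V => f ‖y‖ / ‖y‖) x :=
    (hn.smooth.contDiffAt.comp x hN).div hN h0
  have h2 : ContDiffAt ℝ ∞ (fun y : V => psi f ‖y‖) x :=
    h1.congr_of_eventuallyEq ((ev_ne hx).mono fun y hy => by simp [psi, hy])
  have h3 : ∀ u : V, ContDiffAt ℝ ∞ (fun y : V => inner ℝ y u) x := fun u =>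
    contDiffAt_id.inner ℝ contDiffAt_const
  simp only [gm_apply]
  exact ((h2.pow 2).mul contDiffAt_const).add
    (((contDiffAt_const.sub (h2.pow 2)).div (hN.pow 2) (pow_ne_zero 2 h0)).mul
      ((h3 u).mul (h3 v)))

theorem isMetric (h : Prof f a0) (hn : Nice f) : IsMetric (gm f) where
  smooth := gm_smooth hn
  symm := gm_symm f
  pos x u hu := (mul_pos (pow_pos h.pos 2) (pow_pos (norm_pos_iff.2 hu) 2)).trans_le (gm_ge h x u)

/-! ### derivatives away from the origin -/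

theorem hd_rad {c : ℝ → ℝ} {c' : ℝ} {x : V} (hx : x ≠ 0) (h : HasDerivAt c c' ‖x‖) :
    HasFDerivAt (fun y : V => c ‖y‖) (c' • dr x) x := h.comp_hasFDerivAt x (hasFDerivAt_nrm hx)

theorem hd_inn (v x : V) : HasFDerivAt (fun y : V => inner ℝ y v) (ip v) x :=
  (ip v).hasFDerivAt.congr_of_eventuallyEq (.of_forall fun y => real_inner_comm v y)

theorem fd_gm (h : Prof f a0) {x : V} (hx : x ≠ 0) (u v w : V) :
    fderiv ℝ (fun y => gm f y v w) x u =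
      2 * (f ‖x‖ * deriv f ‖x‖ / ‖x‖ ^ 3 - f ‖x‖ ^ 2 / ‖x‖ ^ 4) * inner ℝ x u * inner ℝ v w +
      (-2 / ‖x‖ ^ 4 - 2 * f ‖x‖ * deriv f ‖x‖ / ‖x‖ ^ 5 + 4 * f ‖x‖ ^ 2 / ‖x‖ ^ 6) *
        inner ℝ x u * (inner ℝ x v * inner ℝ x w) +
      (1 / ‖x‖ ^ 2 - f ‖x‖ ^ 2 / ‖x‖ ^ 4) *
        (inner ℝ u v * inner ℝ x w + inner ℝ x v * inner ℝ u w) := by
  have h0 : ‖x‖ ≠ 0 := norm_ne_zero_iff.2 hx
  have hA : HasDerivAt (fun r => (f r / r) ^ 2)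
      (2 * (f ‖x‖ * deriv f ‖x‖ / ‖x‖ ^ 2 - f ‖x‖ ^ 2 / ‖x‖ ^ 3)) ‖x‖ :=
    (((h.diff _).hasDerivAt.div (hasDerivAt_id _) h0).pow 2).congr_deriv
      (by simp; field_simp)
  have hB : HasDerivAt (fun r => (1 - (f r / r) ^ 2) / r ^ 2)
      (-2 / ‖x‖ ^ 3 - 2 * f ‖x‖ * deriv f ‖x‖ / ‖x‖ ^ 4 + 4 * f ‖x‖ ^ 2 / ‖x‖ ^ 5) ‖x‖ :=
    ((hA.const_sub 1).div (hasDerivAt_pow 2 _) (pow_ne_zero 2 h0)).congr_deriv
      (by field_simp; ring)
  have h1 := ((hd_rad hx hA).mul_const (inner ℝ v w)).add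
    ((hd_rad hx hB).mul ((hd_inn v x).mul (hd_inn w x)))
  have h2 : HasFDerivAt (fun y => gm f y v w) _ x :=
    h1.congr_of_eventuallyEq ((ev_ne hx).mono fun y hy => by simp [gm_apply, psi, hy])
  rw [h2.fderiv]
  simp [dr_apply, ip_apply, real_inner_comm]
  field_simp
  ring

theorem isChr (h : Prof f a0) (hn : Nice f) : IsChristoffel (gm f) (Gam f) := by
  intro x u v w
  rcases eq_or_ne x 0 with rfl | hx
  · have : ‖(0 : V)‖ < 1 := by simp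
    simp [fd_gm_flat hn this, Gam_flat hn this]
  have h0 : ‖x‖ ≠ 0 := norm_ne_zero_iff.2 hx
  have hf : f ‖x‖ ≠ 0 := (h.fpos (norm_pos_iff.2 hx)).ne'
  rw [fd_gm h hx, fd_gm h hx, fd_gm h hx, gm_apply]
  simp only [Gam, inner_add_left, inner_add_right, real_inner_smul_left, real_inner_smul_right,
    real_inner_self_eq_norm_sq, psi, if_neg h0, Sf, Qf, Pf, real_inner_comm u v,
    real_inner_comm u w, real_inner_comm v w]
  field_simp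
  ring

theorem fd_gam {x : V} (hx : x ≠ 0) {Q' P' S' : ℝ} (hQ : HasDerivAt (Qf f) Q' ‖x‖)
    (hP : HasDerivAt (Pf f) P' ‖x‖) (hS : HasDerivAt (Sf f) S' ‖x‖) (u v w : V) :
    fderiv ℝ (fun y => Gam f y v w) x u =
      (Q' * (inner ℝ x u / ‖x‖)) • (inner ℝ x v • w + inner ℝ x w • v) +
      Qf f ‖x‖ • (inner ℝ u v • w + inner ℝ u w • v) +
      (P' * (inner ℝ x u / ‖x‖) * inner ℝ v w +
        S' * (inner ℝ x u / ‖x‖) * (inner ℝ x v * inner ℝ x w) +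
        Sf f ‖x‖ * (inner ℝ u v * inner ℝ x w + inner ℝ x v * inner ℝ u w)) • x +
      (Pf f ‖x‖ * inner ℝ v w + Sf f ‖x‖ * (inner ℝ x v * inner ℝ x w)) • u := by
  have h1 := ((hd_rad hx hQ).smul (((hd_inn v x).smul_const w).add
    ((hd_inn w x).smul_const v))).add ((((hd_rad hx hP).mul_const (inner ℝ v w)).add
      ((hd_rad hx hS).mul ((hd_inn v x).mul (hd_inn w x)))).smul (hasFDerivAt_id x))
  have h2 : HasFDerivAt (fun y => Gam f y v w) _ x := h1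
  rw [h2.fderiv]
  simp [dr_apply, ip_apply, real_inner_comm]
  module

theorem riem_abc {x : V} (hx : x ≠ 0) {Q' P' S' : ℝ} (hQ : HasDerivAt (Qf f) Q' ‖x‖)
    (hP : HasDerivAt (Pf f) P' ‖x‖) (hS : HasDerivAt (Sf f) S' ‖x‖) (u v w : V) {a b c : ℝ}
    (ha : a = Pf f ‖x‖ - Qf f ‖x‖ + Qf f ‖x‖ * Pf f ‖x‖ * ‖x‖ ^ 2)
    (hb : b = -Q' / ‖x‖ + Sf f ‖x‖ + Qf f ‖x‖ ^ 2 + Qf f ‖x‖ * Sf f ‖x‖ * ‖x‖ ^ 2)
    (hc : c = P' / ‖x‖ - Sf f ‖x‖ + Pf f ‖x‖ ^ 2 + Sf f ‖x‖ * Pf f ‖x‖ * ‖x‖ ^ 2) :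
    riem (Gam f) x u v w =
      (a * inner ℝ v w + b * (inner ℝ x v * inner ℝ x w)) • u -
      (a * inner ℝ u w + b * (inner ℝ x u * inner ℝ x w)) • v +
      (c * (inner ℝ x u * inner ℝ v w - inner ℝ x v * inner ℝ u w)) • x := by
  rw [riem, fd_gam hx hQ hP hS, fd_gam hx hQ hP hS, ha, hb, hc]
  simp only [Gam, inner_add_right, real_inner_smul_right,
    real_inner_self_eq_norm_sq, real_inner_comm u v, real_inner_comm x u, real_inner_comm x v]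
  match_scalars <;> ring

/-- tangential and radial curvature -/
def Kt (f : ℝ → ℝ) (r : ℝ) : ℝ := (1 - deriv f r ^ 2) / f r ^ 2

def Kr (f : ℝ → ℝ) (r : ℝ) : ℝ := -deriv (deriv f) r / f r

theorem riem_eq (h : Prof f a0) (hn : Nice f) {x : V} (hx : x ≠ 0) (u v w : V) :
    riem (Gam f) x u v w =
      (Kt f ‖x‖ * gm f x v w +
        (Kr f ‖x‖ - Kt f ‖x‖) * (inner ℝ x v / ‖x‖ * (inner ℝ x w / ‖x‖))) • u -
      (Kt f ‖x‖ * gm f x u w +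
        (Kr f ‖x‖ - Kt f ‖x‖) * (inner ℝ x u / ‖x‖ * (inner ℝ x w / ‖x‖))) • v +
      ((Kr f ‖x‖ - Kt f ‖x‖) *
        (gm f x v w * (inner ℝ x u / ‖x‖) - gm f x u w * (inner ℝ x v / ‖x‖)) / ‖x‖) • x := by
  have h0 : ‖x‖ ≠ 0 := norm_ne_zero_iff.2 hx
  have hf : f ‖x‖ ≠ 0 := (h.fpos (norm_pos_iff.2 hx)).ne'
  have d1 : HasDerivAt f (deriv f ‖x‖) ‖x‖ := (h.diff _).hasDerivAt
  have d2 : HasDerivAt (deriv f) (deriv (deriv f) ‖x‖) ‖x‖ :=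
    ((contDiff_infty_iff_deriv.1 hn.smooth).2.differentiable (by simp) _).hasDerivAt
  have hi := hasDerivAt_id' ‖x‖
  have hQ : HasDerivAt (Qf f) _ ‖x‖ :=
    (((d2.div d1 hf).sub ((hasDerivAt_const _ (1 : ℝ)).div hi h0)).div hi h0 :)
  have hP : HasDerivAt (Pf f) _ ‖x‖ :=
    (((hasDerivAt_const _ (1 : ℝ)).div (hasDerivAt_pow 2 _) (pow_ne_zero 2 h0)).sub
      ((d1.mul d2).div (hasDerivAt_pow 3 _) (pow_ne_zero 3 h0)) :)
  have hS : HasDerivAt (Sf f) _ ‖x‖ :=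
    (((hQ.const_mul 2).add hP).neg.div (hasDerivAt_pow 2 _) (pow_ne_zero 2 h0) :)
  rw [riem_abc hx hQ hP hS u v w (a := Kt f ‖x‖ * (f ‖x‖ / ‖x‖) ^ 2)
    (b := Kt f ‖x‖ * ((1 - (f ‖x‖ / ‖x‖) ^ 2) / ‖x‖ ^ 2) + (Kr f ‖x‖ - Kt f ‖x‖) / ‖x‖ ^ 2)
    (c := (Kr f ‖x‖ - Kt f ‖x‖) * (f ‖x‖ / ‖x‖) ^ 2 / ‖x‖ ^ 2)]
  · simp only [gm_apply, psi, if_neg h0]
    match_scalars <;> field_simp <;> ring
  · simp only [Kt, Pf, Qf]; field_simp; ring
  · simp [Kt, Kr, Pf, Qf, Sf]; field_simp; ring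
  · simp [Kt, Kr, Pf, Qf, Sf]; field_simp; ring

theorem gm_rad {x : V} (hx : x ≠ 0) (v : V) : gm f x x v = inner ℝ x v := by
  have h0 : ‖x‖ ≠ 0 := norm_ne_zero_iff.2 hx
  rw [gm_apply, real_inner_self_eq_norm_sq]
  field_simp
  ring

theorem sum_single (x y v : V) : gm f x (EuclideanSpace.single 0 1) v * y 0 +
    gm f x (EuclideanSpace.single 1 1) v * y 1 + gm f x (EuclideanSpace.single 2 1) v * y 2 =
      gm f x y v := by
  simp [gm_apply, inner_eq]; ring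

theorem ric_eq (h : Prof f a0) (hn : Nice f) {x : V} (hx : x ≠ 0) (v : V) :
    ric (Gam f) x v v = Kt f ‖x‖ * (gm f x v v - (inner ℝ x v / ‖x‖) ^ 2) +
      Kr f ‖x‖ * (gm f x v v + (inner ℝ x v / ‖x‖) ^ 2) := by
  have h0 : ‖x‖ ≠ 0 := norm_ne_zero_iff.2 hx
  have e1 := sum_single (f := f) x v v
  have e2 := sum_single (f := f) x x v
  rw [gm_rad hx] at e2
  have e3 := inner_eq x v
  have e4 : (x 0 ^ 2 + x 1 ^ 2 + x 2 ^ 2) / ‖x‖ ^ 2 = 1 := by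
    rw [← norm_sq_eq, div_self (pow_ne_zero 2 h0)]
  have e5 : ∀ i, inner ℝ x (EuclideanSpace.single i (1 : ℝ)) = x i := fun i => by
    simp [EuclideanSpace.inner_single_right]
  simp only [ric, Fin.sum_univ_three, riem_eq h hn hx, e5, PiLp.add_apply, PiLp.sub_apply,
    PiLp.smul_apply, smul_eq_mul, PiLp.single_apply, if_true]
  linear_combination (-Kt f ‖x‖) * e1 -
    (Kr f ‖x‖ - Kt f ‖x‖) * (inner ℝ x v / ‖x‖ / ‖x‖) * e2 +
    (Kr f ‖x‖ - Kt f ‖x‖) * (inner ℝ x v / ‖x‖ / ‖x‖) * e3 +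
    (Kr f ‖x‖ - Kt f ‖x‖) * gm f x v v * e4

theorem Kt_nn (h : Prof f a0) (r : ℝ) : 0 ≤ Kt f r :=
  div_nonneg (sub_nonneg.2 (pow_le_one₀ (h.dpos r).le (h.hi r))) (sq_nonneg _)

theorem Kr_nn (h : Prof f a0) {r : ℝ} (hr : 0 ≤ r) : 0 ≤ Kr f r :=
  div_nonneg (neg_nonneg.2 h.anti.deriv_nonpos) (h.fnn hr)

theorem rad_le (x u : V) : (inner ℝ x u / ‖x‖) ^ 2 ≤ gm f x u u := by
  rw [gm_self]
  have := sub_nonneg.2 (rad_sq_le x u)
  exact le_add_of_nonneg_right (by positivity)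

theorem ric_nn (h : Prof f a0) (hn : Nice f) (x v : V) : 0 ≤ ric (Gam f) x v v := by
  rcases eq_or_ne x 0 with rfl | hx
  · simp [ric, riem_flat hn (x := 0) (by simp)]
  rw [ric_eq h hn hx]
  exact add_nonneg (mul_nonneg (Kt_nn h _) (sub_nonneg.2 (rad_le x v)))
    (mul_nonneg (Kr_nn h (norm_nonneg x)) (add_nonneg (gm_nn f x v) (sq_nonneg _)))

theorem gm_abs {x u v : V} (hu : gm f x u u ≤ 1) (hv : gm f x v v ≤ 1) : |gm f x u v| ≤ 1 := by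
  have h1 := gm_nn f x (u + v)
  have h2 := gm_nn f x (u - v)
  simp only [map_add, map_sub, add_apply, sub_apply, gm_symm f x v u] at h1 h2
  exact abs_le.2 ⟨by linarith, by linarith⟩

theorem rad_abs {x u : V} (hu : gm f x u u ≤ 1) : |inner ℝ x u / ‖x‖| ≤ 1 :=
  sq_le_one_iff_abs_le_one _ |>.1 ((rad_le x u).trans hu)

theorem abs_mul_one {s t : ℝ} (hs : |s| ≤ 1) (ht : |t| ≤ 1) : |s * t| ≤ 1 := by
  rw [abs_mul]; exact mul_le_one₀ hs (abs_nonneg t) ht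

theorem riem_le (h : Prof f a0) (hn : Nice f) {x : V} (hx : x ≠ 0) {u v w z : V}
    (hu : gm f x u u ≤ 1) (hv : gm f x v v ≤ 1) (hw : gm f x w w ≤ 1) (hz : gm f x z z ≤ 1) :
    |gm f x (riem (Gam f) x u v w) z| ≤ 6 * Kt f ‖x‖ + 4 * Kr f ‖x‖ := by
  have e : gm f x (riem (Gam f) x u v w) z =
      Kt f ‖x‖ * (gm f x v w * gm f x u z - gm f x u w * gm f x v z) +
      (Kr f ‖x‖ - Kt f ‖x‖) * (inner ℝ x v / ‖x‖ * (inner ℝ x w / ‖x‖) * gm f x u z -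
        inner ℝ x u / ‖x‖ * (inner ℝ x w / ‖x‖) * gm f x v z +
        gm f x v w * (inner ℝ x u / ‖x‖) * (inner ℝ x z / ‖x‖) -
        gm f x u w * (inner ℝ x v / ‖x‖) * (inner ℝ x z / ‖x‖)) := by
    rw [riem_eq h hn hx]
    simp only [map_add, map_sub, map_smul, add_apply, sub_apply, smul_apply, smul_eq_mul,
      gm_rad hx]
    ring
  have a1 := abs_le.1 (abs_mul_one (gm_abs hv hw) (gm_abs hu hz))
  have a2 := abs_le.1 (abs_mul_one (gm_abs hu hw) (gm_abs hv hz))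
  have a3 := abs_le.1 (abs_mul_one (abs_mul_one (rad_abs hv) (rad_abs hw)) (gm_abs hu hz))
  have a4 := abs_le.1 (abs_mul_one (abs_mul_one (rad_abs hu) (rad_abs hw)) (gm_abs hv hz))
  have a5 := abs_le.1 (abs_mul_one (abs_mul_one (gm_abs hv hw) (rad_abs hu)) (rad_abs hz))
  have a6 := abs_le.1 (abs_mul_one (abs_mul_one (gm_abs hu hw) (rad_abs hv)) (rad_abs hz))
  have k1 := Kt_nn h ‖x‖
  have k2 := Kr_nn h (norm_nonneg x)
  have key : ∀ A B : ℝ, |A| ≤ 2 → |B| ≤ 4 →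
      |Kt f ‖x‖ * A + (Kr f ‖x‖ - Kt f ‖x‖) * B| ≤ 6 * Kt f ‖x‖ + 4 * Kr f ‖x‖ := by
    intro A B hA hB
    rw [abs_le] at hA hB ⊢
    constructor <;> nlinarith [mul_nonneg k1 (sub_nonneg.2 hA.1), mul_nonneg k1 (sub_nonneg.2 hA.2),
      mul_nonneg k1 (sub_nonneg.2 hB.1), mul_nonneg k1 (sub_nonneg.2 hB.2),
      mul_nonneg k2 (sub_nonneg.2 hB.1), mul_nonneg k2 (sub_nonneg.2 hB.2)]
  rw [e]
  exact key _ _ (abs_le.2 ⟨by linarith, by linarith⟩) (abs_le.2 ⟨by linarith, by linarith⟩)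

theorem K_le (h : Prof f a0) {C : ℝ} (hC : ∀ r ≥ 0, |r * deriv (deriv f) r| ≤ C) {r : ℝ}
    (hr : 1 ≤ r) : 6 * Kt f r + 4 * Kr f r ≤ 4 * (6 / a0 ^ 2 + 4 * C / a0) / (1 + r) ^ 2 := by
  have hr0 : 0 < r := one_pos.trans_le hr
  have ha := h.pos
  have hf := h.ge hr0.le
  have hC0 : 0 ≤ C := (abs_nonneg _).trans (hC 0 le_rfl)
  have h1 : Kt f r ≤ 1 / (a0 * r) ^ 2 :=
    div_le_div₀ zero_le_one (sub_le_self _ (sq_nonneg _)) (by positivity) (by gcongr)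
  have h2 : Kr f r ≤ C / r / (a0 * r) := by
    refine div_le_div₀ (by positivity) ?_ (by positivity) hf
    rw [le_div_iff₀ hr0]
    linarith [neg_le_of_abs_le (hC r hr0.le)]
  have h3 : 1 / r ^ 2 ≤ 4 / (1 + r) ^ 2 := by
    rw [div_le_div_iff₀ (by positivity) (by positivity)]
    nlinarith
  calc 6 * Kt f r + 4 * Kr f r ≤ 6 * (1 / (a0 * r) ^ 2) + 4 * (C / r / (a0 * r)) := by gcongr
    _ = (6 / a0 ^ 2 + 4 * C / a0) * (1 / r ^ 2) := by field_simp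
    _ ≤ (6 / a0 ^ 2 + 4 * C / a0) * (4 / (1 + r) ^ 2) := by gcongr
    _ = _ := by ring

end CurvAux

open CurvAux in
theorem sCurv : S_Curv := by
  intro f a0 h hn
  obtain ⟨C, hC⟩ := hn.dec
  have ha := h.pos
  have hC0 : 0 ≤ C := (abs_nonneg _).trans (hC 0 le_rfl)
  refine ⟨isMetric h hn, Gam f, isChr h hn, ric_nn h hn, 4 * (6 / a0 ^ 2 + 4 * C / a0),
    by positivity, fun x u v w z hu hv hw hz => ?_⟩
  rcases lt_or_ge ‖x‖ 1 with hx | hx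
  · rw [riem_flat hn hx, map_zero, zero_apply, abs_zero]
    positivity
  · exact (riem_le h hn (norm_pos_iff.1 (one_pos.trans_le hx)) hu hv hw hz).trans (K_le h hC hx)

end

end Pool.Agent.P.MP_ab9b82_gt
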