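import Pool.Agent.P.MP_ab9b82_gt.B1

/-! Dilations in the one-dimensional problem. -/

namespace Pool.Agent.P.MP_ab9b82_gt

open MeasureTheory Set Filter Topology Real

namespace DilAux

variable {f v : ℝ → ℝ} {a0 k : ℝ}

theorem adm (hv : Adm v) (hk : 0 < k) : Adm fun r => v (k⁻¹ * r) := by
  obtain ⟨K, hK⟩ := hv.lip
  obtain ⟨b, hb⟩ := hv.fin
  refine ⟨Lip.of_abs (K := K * k⁻¹) fun x y => ?_, fun r => hv.nn _, fun r => hv.le _,
    k * b, fun r hr => hb _ ?_⟩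
  · have := hK.dist_le_mul (k⁻¹ * x) (k⁻¹ * y)
    rwa [Real.dist_eq, Real.dist_eq, ← mul_sub, abs_mul, abs_of_pos (inv_pos.2 hk),
      ← mul_assoc] at this
  · rw [ge_iff_le, le_inv_mul_iff₀ hk]
    exact hr

theorem int_dil (g : ℝ → ℝ) (hk : 0 < k) :
    ∫ r in Ioi (0 : ℝ), g r = k * ∫ s in Ioi (0 : ℝ), g (k * s) := by
  rw [integral_comp_mul_left_Ioi g 0 hk, mul_zero, smul_eq_mul, ← mul_assoc,
    mul_inv_cancel₀ hk.ne', one_mul]

theorem FF_le (h : Prof f a0) (hv : Adm v) (hk : 0 < k) {D : ℝ} (hD : 0 ≤ D)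
    (h1 : ∀ s > 0, k * f (k * s) ≤ D * f s) (h2 : ∀ s > 0, f (k * s) ^ 2 ≤ D * f s ^ 2) :
    FF f (fun r => v (k⁻¹ * r)) 0 ≤ D * FF f v 0 := by
  unfold FF
  rw [int_dil _ hk, ← integral_const_mul, ← integral_const_mul]
  refine integral_mono_of_nonneg (ae_of_all _ fun s => mul_nonneg hk.le (Lg_nn ..))
    ((hv.intF h 0).const_mul D) ((ae_restrict_iff' measurableSet_Ioi).2 (ae_of_all _ fun s hs => ?_))
  simp only
  rw [deriv_comp_mul_left, ← mul_assoc, inv_mul_cancel₀ hk.ne', one_mul, smul_eq_mul]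
  unfold Lg
  rw [← Real.sqrt_sq hk.le, ← Real.sqrt_mul (sq_nonneg _), Real.sqrt_sq hk.le, ← Real.sqrt_sq hD,
    ← Real.sqrt_mul (sq_nonneg _)]
  refine Real.sqrt_le_sqrt ?_
  have t0 : 0 ≤ v s * (1 - v s) := mul_nonneg (hv.nn s) (sub_nonneg.2 (hv.le s))
  have f0 : 0 ≤ f (k * s) := h.fnn (mul_pos hk hs).le
  have a1 : (k * f (k * s)) ^ 2 ≤ (D * f s) ^ 2 := pow_le_pow_left₀ (by positivity) (h1 s hs) 2
  have a2 : (f (k * s) ^ 2) ^ 2 ≤ (D * f s ^ 2) ^ 2 := pow_le_pow_left₀ (by positivity) (h2 s hs) 2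
  calc k ^ 2 * (f (k * s) ^ 2 * (v s * (1 - v s)) + f (k * s) ^ 4 * (k⁻¹ * deriv v s) ^ 2)
      = (k * f (k * s)) ^ 2 * (v s * (1 - v s)) + (f (k * s) ^ 2) ^ 2 * deriv v s ^ 2 := by
        field_simp
    _ ≤ (D * f s) ^ 2 * (v s * (1 - v s)) + (D * f s ^ 2) ^ 2 * deriv v s ^ 2 := by gcongr
    _ = _ := by ring

/-- the volume of the dilates -/
theorem exists_Phi (h : Prof f a0) (hv : Adm v) : ∃ Φ : ℝ → ℝ, Continuous Φ ∧ Φ 0 = 0 ∧
    Φ 1 = VV f v 0 ∧ (∀ k > 0, VV f (fun r => v (k⁻¹ * r)) 0 = Φ k) ∧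
    ∀ k > 0, ∀ c ≥ 0, (∀ s ≥ 0, c * f s ≤ f (k * s)) → k * (c ^ 2 * VV f v 0) ≤ Φ k := by
  obtain ⟨b, hb, hz⟩ := hv.exists_b 0
  have c1 := h.continuous
  have c2 := hv.lip.continuous
  refine ⟨fun k => k * ∫ s in (0 : ℝ)..b, v s * f (k * s) ^ 2, continuous_id.mul ?_, by simp,
    by simp [VV_eq hz hb], fun k hk => ?_, fun k hk c hc hcf => ?_⟩
  · refine intervalIntegral.continuous_parametric_intervalIntegral_of_continuous' ?_ 0 b
    unfold Function.uncurry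
    fun_prop
  · unfold VV
    rw [int_dil _ hk]
    simp only [← mul_assoc, inv_mul_cancel₀ hk.ne', one_mul]
    rw [int_Ioi hb fun r hr => by simp [hz r hr.le]]
  · refine mul_le_mul_of_nonneg_left ?_ hk.le
    rw [VV_eq hz hb, ← intervalIntegral.integral_const_mul]
    refine intervalIntegral.integral_mono_on hb (Continuous.intervalIntegrable (by fun_prop) _ _)
      (Continuous.intervalIntegrable (by fun_prop) _ _) fun s hs => ?_
    have a1 : (c * f s) ^ 2 ≤ f (k * s) ^ 2 :=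
      pow_le_pow_left₀ (mul_nonneg hc (h.fnn hs.1)) (hcf s hs.1) 2
    have a2 := hv.nn s
    calc c ^ 2 * (v s * f s ^ 2) = v s * (c * f s) ^ 2 := by ring
      _ ≤ _ := by gcongr

theorem up (h : Prof f a0) (hk : 1 ≤ k) {s : ℝ} (hs : 0 ≤ s) : 1 * f s ≤ f (k * s) := by
  rw [one_mul]
  exact h.mono.monotone (le_mul_of_one_le_left hs hk)

theorem exists_vol (h : Prof f a0) {W : ℝ} (hW : 0 < W) : ∃ v, Adm v ∧ VV f v 0 = W := by
  have hv : Adm fun r => max 0 (min 1 (2 - r)) := by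
    refine ⟨⟨_, (((LipschitzWith.const' (2 : ℝ) (K := 0)).sub LipschitzWith.id).const_min 1).const_max 0⟩, fun r => le_max_left _ _,
      fun r => max_le zero_le_one (min_le_left _ _), 2, fun r hr => max_eq_left ?_⟩
    exact (min_le_right _ _).trans (by linarith)
  have h0 : 0 < VV f (fun r => max 0 (min 1 (2 - r))) 0 := by
    rw [hv.VV_split h zero_le_one]
    refine add_pos_of_pos_of_nonneg ((h.Wf_pos one_pos).trans_eq ?_) (hv.VV_nn _)
    refine intervalIntegral.integral_congr fun t ht => ?_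
    rw [uIcc_of_le zero_le_one] at ht
    rw [min_eq_left (by linarith [ht.2]), max_eq_right zero_le_one, one_mul]
  obtain ⟨Φ, hc, e0, -, e2, e3⟩ := exists_Phi h hv
  set V0 := VV f (fun r => max 0 (min 1 (2 - r))) 0
  have hK : (0 : ℝ) < max 1 (W / V0) := lt_max_of_lt_left one_pos
  have h1 := e3 _ hK 1 zero_le_one fun s hs => up h (le_max_left _ _) hs
  have h2 : W ≤ max 1 (W / V0) * (1 ^ 2 * V0) := by
    rw [one_pow, one_mul, ← div_le_iff₀ h0]
    exact le_max_right _ _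
  obtain ⟨k, hk, hk'⟩ := intermediate_value_Icc hK.le hc.continuousOn
    (show W ∈ Icc (Φ 0) (Φ (max 1 (W / V0))) from ⟨e0.trans_le hW.le, h2.trans h1⟩)
  have hk0 : 0 < k := lt_of_le_of_ne hk.1 fun e => by
    rw [← e, e0] at hk'
    exact hW.ne hk'
  exact ⟨_, adm hv hk0, (e2 k hk0).trans hk'⟩

theorem le_mm (h : Prof f a0) {W D c : ℝ} (hW : 0 < W) (hD : 0 < D)
    (hc : ∀ v, Adm v → VV f v 0 = W → c ≤ D * FF f v 0) : c ≤ D * mm f W := by
  rw [← div_le_iff₀' hD]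
  obtain ⟨v, hv, e⟩ := exists_vol h hW
  refine le_csInf ⟨_, v, hv, e, rfl⟩ ?_
  rintro _ ⟨w, hw, e', rfl⟩
  rw [div_le_iff₀' hD]
  exact hc w hw e'

end DilAux

open DilAux in
theorem sDil : S_Dil := by
  intro f a0 h
  refine ⟨fun W hW => exists_vol h hW, fun W1 W2 h1 h12 => ⟨?_, ?_⟩⟩
  · have hq : 1 ≤ W2 / W1 := (one_le_div h1).2 h12
    refine le_mm h h1 (by positivity) fun v hv e => ?_
    obtain ⟨Φ, hc, -, e1, e2, e3⟩ := exists_Phi h hv
    have h3 := e3 (W2 / W1) (by linarith) 1 zero_le_one fun s hs => up h hq hs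
    rw [e, one_pow, one_mul, div_mul_cancel₀ _ h1.ne'] at h3
    obtain ⟨k, hk, hk'⟩ := intermediate_value_Icc hq hc.continuousOn
      (show W2 ∈ Icc (Φ 1) (Φ (W2 / W1)) from ⟨by rw [e1, e]; exact h12, h3⟩)
    have hk0 : 0 < k := by linarith [hk.1]
    have hd : ∀ s, f (k * s) ≤ k * f s := fun s => by
      have := h.dil (κ := k⁻¹) (r := k * s) (by positivity) (inv_le_one_of_one_le₀ hk.1)
      rwa [← mul_assoc, inv_mul_cancel₀ hk0.ne', one_mul, inv_mul_le_iff₀ hk0] at this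
    have h4 := (adm hv hk0).mm_le (f := f)
    rw [e2 k hk0, hk'] at h4
    refine h4.trans ((FF_le h hv hk0 (sq_nonneg k) (fun s _ => ?_) fun s hs => ?_).trans ?_)
    · rw [sq, mul_assoc]
      exact mul_le_mul_of_nonneg_left (hd s) hk0.le
    · rw [← mul_pow]
      exact pow_le_pow_left₀ (h.fnn (mul_pos hk0 hs).le) (hd s) 2
    · exact mul_le_mul_of_nonneg_right (pow_le_pow_left₀ hk0.le hk.2 2) (FF_nn ..)
  · have h2 : 0 < W2 := h1.trans_le h12
    have hq : 0 < W1 / W2 := by positivity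
    have ha := h.a0le
    have ha0 := h.pos
    refine le_mm h h2 (by nlinarith) fun v hv e => ?_
    obtain ⟨Φ, hc, e0, e1, e2, e3⟩ := exists_Phi h hv
    obtain ⟨k, hk, hk'⟩ := intermediate_value_Icc zero_le_one hc.continuousOn
      (show W1 ∈ Icc (Φ 0) (Φ 1) from ⟨e0.trans_le h1.le, by rw [e1, e]; exact h12⟩)
    have hk0 : 0 < k := lt_of_le_of_ne hk.1 fun e => by
      rw [← e, e0] at hk'
      exact h1.ne hk'
    have hk1 := hk.2
    have h3 := e3 k hk0 k hk0.le fun s _ => h.dil hk0.le hk1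
    rw [e, hk'] at h3
    have h5 : k ^ 3 ≤ W1 / W2 := by rw [le_div_iff₀ h2]; linarith
    have hc0 : 0 ≤ 1 - a0 * (1 - k) := by nlinarith
    have hc1 : 1 - a0 * (1 - k) ≤ 1 := by nlinarith
    have hd : ∀ s > 0, f (k * s) ≤ (1 - a0 * (1 - k)) * f s := fun s hs => by
      have a1 := h.le_sub (r := k * s) (r' := s) (mul_le_of_le_one_left hs.le hk1) fun t _ => h.lo t
      have a2 : a0 * (1 - k) * f s ≤ a0 * (1 - k) * s :=
        mul_le_mul_of_nonneg_left (h.le hs.le) (mul_nonneg ha0.le (by linarith))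
      linarith
    have h4 := (adm hv hk0).mm_le (f := f)
    rw [e2 k hk0, hk'] at h4
    refine h4.trans ((FF_le h hv hk0 hc0 (fun s hs => ?_) fun s hs => ?_).trans ?_)
    · exact (mul_le_of_le_one_left (h.fnn (mul_pos hk0 hs).le) hk1).trans (hd s hs)
    · refine (pow_le_pow_left₀ (h.fnn (mul_pos hk0 hs).le) (hd s hs) 2).trans ?_
      rw [mul_pow]
      exact mul_le_mul_of_nonneg_right (by nlinarith) (sq_nonneg _)
    · refine mul_le_mul_of_nonneg_right ?_ (FF_nn ..)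
      have a1 : (1 - W1 / W2) / 3 ≤ 1 - k := by
        have : 0 ≤ (1 - k) ^ 2 * (k + 2) := by positivity
        nlinarith
      have := mul_le_mul_of_nonneg_left a1 ha0.le
      linarith

end Pool.Agent.P.MP_ab9b82_gt
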