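import Pool.Agent.P.MP_ab9b82_gt.B1

/-! Package P20: the Euler-Lagrange equation and `C¹` regularity. -/

namespace Pool.Agent.P.MP_ab9b82_gt

open MeasureTheory Set Filter Topology Real
open scoped ENNReal

namespace ELAux

/-- bounded and measurable -/
def BM (g : ℝ → ℝ) : Prop := Measurable g ∧ ∃ K, ∀ x, |g x| ≤ K

theorem BM.ii {g : ℝ → ℝ} (h : BM g) (α β : ℝ) : IntervalIntegrable g volume α β :=
  ii_of_bdd h.1 fun x _ => h.2.choose_spec x

theorem BM.mul {g k : ℝ → ℝ} (h : BM g) (h' : BM k) : BM fun x => g x * k x := by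
  obtain ⟨K, hK⟩ := h.2
  obtain ⟨K', hK'⟩ := h'.2
  exact ⟨h.1.mul h'.1, K * K', fun x => by
    rw [abs_mul]
    exact mul_le_mul (hK x) (hK' x) (abs_nonneg _) ((abs_nonneg _).trans (hK x))⟩

theorem BM.sub {g k : ℝ → ℝ} (h : BM g) (h' : BM k) : BM fun x => g x - k x := by
  obtain ⟨K, hK⟩ := h.2
  obtain ⟨K', hK'⟩ := h'.2
  exact ⟨h.1.sub h'.1, K + K', fun x => (abs_sub _ _).trans (add_le_add (hK x) (hK' x))⟩

theorem BM.const (c : ℝ) : BM fun _ => c := ⟨measurable_const, |c|, fun _ => le_rfl⟩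

theorem BM.ind {g : ℝ → ℝ} {α β K : ℝ} (hm : Measurable g) (hb : ∀ x ∈ Icc α β, |g x| ≤ K) :
    BM ((Icc α β).indicator g) := by
  refine ⟨hm.indicator measurableSet_Icc, |K|, fun x => ?_⟩
  by_cases hx : x ∈ Icc α β
  · rw [indicator_of_mem hx]; exact (hb x hx).trans (le_abs_self K)
  · rw [indicator_of_notMem hx]; simp

theorem BM.ind_cont {g : ℝ → ℝ} (α β : ℝ) (hc : Continuous g) : BM ((Icc α β).indicator g) := by
  obtain ⟨K, hK⟩ := (isCompact_Icc (a := α) (b := β)).exists_bound_of_continuousOn hc.continuousOn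
  exact BM.ind hc.measurable hK

theorem BM.lip {g : ℝ → ℝ} (h : BM g) (c : ℝ) : Lip fun x => ∫ t in c..x, g t := by
  obtain ⟨K, hK⟩ := h.2
  refine Lip.of_abs (K := K) fun x y => ?_
  rw [intervalIntegral.integral_interval_sub_left (h.ii _ _) (h.ii _ _)]
  exact intervalIntegral.norm_integral_le_of_norm_le_const (f := g) fun t _ => hK t

theorem BM.ae {g : ℝ → ℝ} (h : BM g) (c : ℝ) :
    ∀ᵐ x, HasDerivAt (fun x => ∫ t in c..x, g t) (g x) x := by
  have hl : LocallyIntegrable g volume := fun x =>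
    ⟨Ioc (x - 1) (x + 1), Ioc_mem_nhds (by linarith) (by linarith), (h.ii _ _).1⟩
  filter_upwards [LocallyIntegrable.ae_hasDerivAt_integral hl] with x hx using hx c

theorem ibp {g k : ℝ → ℝ} (h : BM g) (h' : BM k) (x0 : ℝ) :
    ∫ x in (0 : ℝ)..x0, g x * ∫ t in x0..x, k t = -∫ x in (0 : ℝ)..x0, (∫ t in (0 : ℝ)..x, g t) * k x := by
  have e := ((h.lip 0).ac 0 x0).integral_mul_deriv_eq_deriv_mul ((h'.lip x0).ac 0 x0)
  simp only [intervalIntegral.integral_same, mul_zero, zero_mul, sub_zero, zero_sub] at e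
  have e1 : ∫ x in (0 : ℝ)..x0, (∫ t in (0 : ℝ)..x, g t) * deriv (fun x => ∫ t in x0..x, k t) x
      = ∫ x in (0 : ℝ)..x0, (∫ t in (0 : ℝ)..x, g t) * k x :=
    intervalIntegral.integral_congr_ae (by
      filter_upwards [h'.ae x0] with x hx _ using by rw [hx.deriv])
  have e2 : ∫ x in (0 : ℝ)..x0, deriv (fun x => ∫ t in (0 : ℝ)..x, g t) x * ∫ t in x0..x, k t
      = ∫ x in (0 : ℝ)..x0, g x * ∫ t in x0..x, k t :=
    intervalIntegral.integral_congr_ae (by
      filter_upwards [h.ae 0] with x hx _ using by rw [hx.deriv])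
  rw [e1, e2] at e
  linarith

theorem sq_zero {k : ℝ → ℝ} (h : BM k) {x0 : ℝ} (h0 : 0 ≤ x0)
    (e : ∫ x in (0 : ℝ)..x0, k x * k x = 0) : ∀ᵐ x, x ∈ Ioc 0 x0 → k x = 0 := by
  have := (intervalIntegral.integral_eq_zero_iff_of_le_of_nonneg_ae h0
    (ae_of_all _ fun x => mul_self_nonneg (k x)) ((h.mul h).ii _ _)).1 e
  filter_upwards [(ae_restrict_iff' measurableSet_Ioc).1 this] with x hx hx'
  exact mul_self_eq_zero.1 (hx hx')

/-- the multiplier rule -/
theorem mult {U B : ℝ → ℝ} (hU : BM U) (hB : BM B) {x0 : ℝ} (h0 : 0 ≤ x0)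
    (h : ∀ k, BM k → ∫ x in (0 : ℝ)..x0, B x * k x = 0 → ∫ x in (0 : ℝ)..x0, U x * k x = 0) :
    ∃ H : ℝ, ∀ᵐ x, x ∈ Ioc 0 x0 → U x = H * B x := by
  obtain ⟨H, hH⟩ : ∃ H : ℝ, ∫ x in (0 : ℝ)..x0, B x * U x = H * ∫ x in (0 : ℝ)..x0, B x * B x := by
    by_cases hz : ∫ x in (0 : ℝ)..x0, B x * B x = 0
    · refine ⟨0, ?_⟩
      rw [zero_mul]
      refine intervalIntegral.integral_zero_ae ?_
      filter_upwards [sq_zero hB h0 hz] with x hx hx'
      rw [uIoc_of_le h0] at hx'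
      rw [hx hx', zero_mul]
    · exact ⟨_, (div_mul_cancel₀ _ hz).symm⟩
  have hk : BM fun x => U x - H * B x := hU.sub ((BM.const H).mul hB)
  have e1 : ∫ x in (0 : ℝ)..x0, B x * (U x - H * B x) = 0 := by
    have : ∀ x, B x * (U x - H * B x) = B x * U x - H * (B x * B x) := fun x => by ring
    simp only [this]
    rw [intervalIntegral.integral_sub ((hB.mul hU).ii _ _) (((hB.mul hB).ii _ _).const_mul _),
      intervalIntegral.integral_const_mul, hH, sub_self]
  have e2 := h _ hk e1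
  refine ⟨H, ?_⟩
  have e3 : ∫ x in (0 : ℝ)..x0, (U x - H * B x) * (U x - H * B x) = 0 := by
    have : ∀ x, (U x - H * B x) * (U x - H * B x)
        = U x * (U x - H * B x) - H * (B x * (U x - H * B x)) := fun x => by ring
    simp only [this]
    rw [intervalIntegral.integral_sub ((hU.mul hk).ii _ _) (((hB.mul hk).ii _ _).const_mul _),
      intervalIntegral.integral_const_mul, e1, e2, mul_zero, sub_self]
  filter_upwards [sq_zero hk h0 e3] with x hx hx' using sub_eq_zero.1 (hx hx')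

variable {f : ℝ → ℝ} {a0 : ℝ}

theorem rad_pos (h : Prof f a0) {x r : ℝ} (hx : x ∈ Icc (0 : ℝ) 1) (hr : 0 < r) (p : ℝ) :
    0 < x * (1 - x) * p ^ 2 + f r ^ 2 :=
  add_pos_of_nonneg_of_pos (mul_nonneg (mul_nonneg hx.1 (sub_nonneg.2 hx.2)) (sq_nonneg _))
    (pow_pos (h.fpos hr) 2)

theorem le_rad {x r : ℝ} (hx : x ∈ Icc (0 : ℝ) 1) (p : ℝ) :
    f r ≤ √(x * (1 - x) * p ^ 2 + f r ^ 2) :=
  Real.le_sqrt_of_sq_le (le_add_of_nonneg_left
    (mul_nonneg (mul_nonneg hx.1 (sub_nonneg.2 hx.2)) (sq_nonneg _)))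

theorem Lp_le (h : Prof f a0) {x r : ℝ} (hx : x ∈ Icc (0 : ℝ) 1) (hr : 0 < r) (p : ℝ) :
    |Lp f x r p| ≤ |p| := by
  have h1 := Real.sqrt_pos.2 (rad_pos h hx hr p)
  have h2 := le_rad (f := f) (r := r) hx p
  have h3 := h.fpos hr
  have h4 : 0 ≤ x * (1 - x) := mul_nonneg hx.1 (sub_nonneg.2 hx.2)
  have h5 : x * (1 - x) ≤ 1 := by nlinarith [hx.1, hx.2]
  rw [Lp, abs_div, abs_of_pos h1, div_le_iff₀ h1, abs_mul, abs_mul, abs_of_pos h3, abs_of_nonneg h4]
  have h6 : x * (1 - x) * |p| ≤ |p| := mul_le_of_le_one_left (abs_nonneg _) h5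
  calc f r * (x * (1 - x) * |p|) ≤ f r * |p| := mul_le_mul_of_nonneg_left h6 h3.le
    _ ≤ _ := by rw [mul_comm]; exact mul_le_mul_of_nonneg_left h2 (abs_nonneg _)

theorem Ls_le (h : Prof f a0) {x r : ℝ} (hx : x ∈ Icc (0 : ℝ) 1) (hr : 0 < r) (p : ℝ) :
    |Ls f x r p| ≤ |p| + 2 * r := by
  have h1 := Real.sqrt_pos.2 (rad_pos h hx hr p)
  have h2 := le_rad (f := f) (r := r) hx p
  have h3 := h.fpos hr
  have h5 : x * (1 - x) ≤ 1 := by nlinarith [hx.1, hx.2]
  have h6 : √(x * (1 - x) * p ^ 2 + f r ^ 2) ≤ |p| + f r := by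
    refine Real.sqrt_le_iff.2 ⟨by positivity, ?_⟩
    have := mul_le_of_le_one_left (sq_nonneg p) h5
    nlinarith [sq_abs p, mul_nonneg (abs_nonneg p) h3.le]
  have h7 : f r ^ 2 / √(x * (1 - x) * p ^ 2 + f r ^ 2) ≤ f r := by
    rw [div_le_iff₀ h1]
    exact (sq (f r)).le.trans (mul_le_mul_of_nonneg_left h2 h3.le)
  have h8 := h.le hr.le
  rw [Ls, abs_mul, abs_of_pos (h.dpos r), abs_of_pos (by positivity)]
  refine (mul_le_of_le_one_left (by positivity) (h.hi r)).trans ?_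
  linarith

theorem hasDerivAt_Lh (h : Prof f a0) {x r p a b τ : ℝ} (hx : x ∈ Icc (0 : ℝ) 1)
    (hr : 0 < r + τ * a) :
    HasDerivAt (fun t => Lh f x (r + t * a) (p + t * b))
      (Ls f x (r + τ * a) (p + τ * b) * a + Lp f x (r + τ * a) (p + τ * b) * b) τ := by
  have h0 := rad_pos h hx hr (p + τ * b)
  have h1 := Real.sqrt_pos.2 h0
  have d1 : HasDerivAt (fun t => f (r + t * a)) (deriv f (r + τ * a) * a) τ :=
    (h.diff _).hasDerivAt.comp τ ((hasDerivAt_mul_const a).const_add r)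
  have d2 : HasDerivAt (fun t => p + t * b) b τ := (hasDerivAt_mul_const b).const_add p
  have d3 := d1.mul ((((d2.pow 2).const_mul (x * (1 - x))).add (d1.pow 2)).sqrt h0.ne')
  refine HasDerivAt.congr_deriv d3 ?_
  simp only [Ls, Lp, Pi.add_apply, Pi.pow_apply, Nat.cast_ofNat, Nat.add_one_sub_one, pow_one]
  field_simp
  ring

theorem meas_Ls (h : Prof f a0) {u v : ℝ → ℝ} (hu : Measurable u) (hv : Measurable v) :
    Measurable fun x => Ls f x (u x) (v x) := by
  have h1 := h.continuous.measurable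
  have h2 := h.cont.measurable
  unfold Ls
  fun_prop

theorem meas_Lp (h : Prof f a0) {u v : ℝ → ℝ} (hu : Measurable u) (hv : Measurable v) :
    Measurable fun x => Lp f x (u x) (v x) := by
  have h1 := h.continuous.measurable
  unfold Lp
  fun_prop

theorem meas_Lh (h : Prof f a0) {u v : ℝ → ℝ} (hu : Measurable u) (hv : Measurable v) :
    Measurable fun x => Lh f x (u x) (v x) := by
  have h1 := h.continuous.measurable
  unfold Lh
  fun_prop

theorem lip_add {s u : ℝ → ℝ} (hs : Lip s) (hu : Lip u) (τ : ℝ) : Lip fun x => s x + τ * u x := by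
  obtain ⟨K, hK⟩ := hs
  obtain ⟨K', hK'⟩ := hu
  refine Lip.of_abs (K := K + |τ| * K') fun x y => ?_
  have h1 : |s x - s y| ≤ K * |x - y| := hK.dist_le_mul x y
  have h2 : |u x - u y| ≤ K' * |x - y| := hK'.dist_le_mul x y
  have h3 : s x + τ * u x - (s y + τ * u y) = (s x - s y) + τ * (u x - u y) := by ring
  rw [h3]
  refine (abs_add_le _ _).trans ?_
  rw [abs_mul]
  nlinarith [mul_le_mul_of_nonneg_left h2 (abs_nonneg τ)]

/-- the first variation vanishes on volume preserving variations -/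
theorem var (h : Prof f a0) {s u k : ℝ → ℝ} {x0 : ℝ} (h0 : 0 < x0) (h1 : x0 < 1) (hs : Pos s x0)
    (hm : PenMin f s x0) (hu : Lip u) (hu0 : u x0 = 0) (hk : BM k)
    (hd : ∀ᵐ x, HasDerivAt u (k x) x) (hE : ∫ x in (0 : ℝ)..x0, f (s x) ^ 2 * u x = 0) :
    ∫ x in (0 : ℝ)..x0, (Ls f x (s x) (deriv s x) * u x + Lp f x (s x) (deriv s x) * k x) = 0 := by
  obtain ⟨c, hc0, hc⟩ := hs.exists_c h0.le
  obtain ⟨K1, -, hK1⟩ := hs.lip.bdd
  obtain ⟨K2, hK2⟩ := hk.2
  obtain ⟨K3, hK3⟩ := (isCompact_Icc (a := (0 : ℝ)) (b := x0)).exists_bound_of_continuousOn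
    hu.continuous.continuousOn
  obtain ⟨K4, hK4⟩ := (isCompact_Icc (a := (0 : ℝ)) (b := x0)).exists_bound_of_continuousOn
    hs.lip.continuous.continuousOn
  obtain ⟨K, hK0, b1, b2, b3, b4⟩ : ∃ K : ℝ, 0 < K ∧ (∀ x, |deriv s x| ≤ K) ∧ (∀ x, |k x| ≤ K) ∧
      (∀ x ∈ Icc 0 x0, |u x| ≤ K) ∧ ∀ x ∈ Icc 0 x0, s x ≤ K := by
    have p1 := abs_nonneg K1
    have p2 := abs_nonneg K2
    have p3 := abs_nonneg K3
    have p4 := abs_nonneg K4
    refine ⟨|K1| + |K2| + |K3| + |K4| + 1, by positivity, fun x => ?_, fun x => ?_, fun x hx => ?_,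
      fun x hx => ?_⟩
    · linarith [hK1 x, le_abs_self K1]
    · linarith [hK2 x, le_abs_self K2]
    · have : |u x| ≤ K3 := hK3 x hx
      linarith [le_abs_self K3]
    · have : |s x| ≤ K4 := hK4 x hx
      linarith [le_abs_self K4, le_abs_self (s x)]
  have small : ∀ τ ∈ Metric.ball (0 : ℝ) (c / (2 * K)), ∀ t : ℝ, |t| ≤ K → |τ * t| ≤ c / 2 := by
    intro τ hτ t ht
    rw [mem_ball_zero_iff, Real.norm_eq_abs, lt_div_iff₀ (by positivity)] at hτ
    rw [abs_mul]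
    nlinarith [abs_nonneg τ, abs_nonneg t]
  have hcK : c ≤ K := (hc 0 ⟨le_rfl, h0.le⟩).trans (b4 0 ⟨le_rfl, h0.le⟩)
  have hb : Metric.ball (0 : ℝ) (c / (2 * K)) ∈ 𝓝 (0 : ℝ) := Metric.ball_mem_nhds _ (by positivity)
  have hI : ∀ x ∈ uIoc (0 : ℝ) x0, x ∈ Icc 0 x0 := fun x hx => by
    rw [uIoc_of_le h0.le] at hx; exact Ioc_subset_Icc_self hx
  have hI1 : ∀ x ∈ Icc (0 : ℝ) x0, x ∈ Icc (0 : ℝ) 1 := fun x hx => ⟨hx.1, hx.2.trans h1.le⟩
  have hpos : ∀ τ ∈ Metric.ball (0 : ℝ) (c / (2 * K)), ∀ x ∈ Icc 0 x0,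
      0 < s x + τ * u x ∧ s x + τ * u x ≤ 2 * K := fun τ hτ x hx => by
    have := abs_le.1 (small τ hτ _ (b3 x hx))
    exact ⟨by linarith [hc x hx], by linarith [b4 x hx]⟩
  have ms := hs.lip.continuous.measurable
  have mu := hu.continuous.measurable
  have mk := hk.1
  have md := measurable_deriv s
  have dF := (intervalIntegral.hasDerivAt_integral_of_dominated_loc_of_deriv_le
    (μ := volume) (a := 0) (b := x0) (x₀ := (0 : ℝ))
    (F := fun τ x => Lh f x (s x + τ * u x) (deriv s x + τ * k x))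
    (F' := fun τ x => Ls f x (s x + τ * u x) (deriv s x + τ * k x) * u x +
      Lp f x (s x + τ * u x) (deriv s x + τ * k x) * k x)
    (bound := fun _ => 8 * K * K) hb
    (Eventually.of_forall fun τ => (meas_Lh h (by fun_prop) (by fun_prop)).aestronglyMeasurable)
    (by simpa using Lh_ii h hs.lip 0 x0)
    (((meas_Ls h (by fun_prop) (by fun_prop)).mul mu).add
      ((meas_Lp h (by fun_prop) (by fun_prop)).mul mk)).aestronglyMeasurable
    (ae_of_all _ fun x hx τ hτ => by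
      have hx' := hI x hx
      obtain ⟨q1, q2⟩ := hpos τ hτ x hx'
      have q3 : |deriv s x + τ * k x| ≤ 2 * K := by
        linarith [abs_add_le (deriv s x) (τ * k x), b1 x, small τ hτ _ (b2 x)]
      have q4 := Ls_le h (hI1 x hx') q1 (deriv s x + τ * k x)
      have q5 := Lp_le h (hI1 x hx') q1 (deriv s x + τ * k x)
      refine (abs_add_le _ _).trans ?_
      rw [abs_mul, abs_mul]
      have q6 := mul_le_mul (show _ ≤ 6 * K by linarith) (b3 x hx') (abs_nonneg _) (by positivity)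
        (a := |Ls f x (s x + τ * u x) (deriv s x + τ * k x)|)
      have q7 := mul_le_mul (q5.trans q3) (b2 x) (abs_nonneg _) (by positivity)
      linarith)
    intervalIntegrable_const
    (ae_of_all _ fun x hx τ hτ => hasDerivAt_Lh h (hI1 x (hI x hx)) (hpos τ hτ x (hI x hx)).1)).2
  have cW := h.Wf_cont
  have cf := h.continuous
  have cs := hs.lip.continuous
  have cu := hu.continuous
  have dV := (intervalIntegral.hasDerivAt_integral_of_dominated_loc_of_deriv_le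
    (μ := volume) (a := 0) (b := x0) (x₀ := (0 : ℝ))
    (F := fun τ x => Wf f (s x + τ * u x))
    (F' := fun τ x => f (s x + τ * u x) ^ 2 * u x)
    (bound := fun _ => (2 * K) ^ 2 * K) hb
    (Eventually.of_forall fun τ => Continuous.aestronglyMeasurable (by fun_prop))
    (Continuous.intervalIntegrable (by fun_prop) _ _)
    (Continuous.aestronglyMeasurable (by fun_prop))
    (ae_of_all _ fun x hx τ hτ => by
      have hx' := hI x hx
      obtain ⟨q1, q2⟩ := hpos τ hτ x hx'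
      rw [Real.norm_eq_abs, abs_mul, abs_of_nonneg (sq_nonneg _)]
      exact mul_le_mul (pow_le_pow_left₀ (h.fnn q1.le) ((h.le q1.le).trans q2) 2) (b3 x hx')
        (abs_nonneg _) (by positivity))
    intervalIntegrable_const
    (ae_of_all _ fun x _ τ _ =>
      (h.Wf_deriv _).comp τ ((hasDerivAt_mul_const (u x)).const_add (s x)))).2
  simp only [zero_mul, add_zero] at dF dV
  rw [hE] at dV
  obtain ⟨C, hC⟩ := hm
  have eF : ∀ τ : ℝ, FI f (fun x => s x + τ * u x) x0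
      = ∫ x in (0 : ℝ)..x0, Lh f x (s x + τ * u x) (deriv s x + τ * k x) := fun τ =>
    intervalIntegral.integral_congr_ae (by
      filter_upwards [hs.lip.ae_diff, hd] with x q1 q2 _
      rw [show deriv (fun x => s x + τ * u x) x = deriv s x + τ * k x from
        (q1.hasDerivAt.add (q2.const_mul τ)).deriv])
  have dA : HasDerivAt (fun τ : ℝ => |VI f (fun x => s x + τ * u x) x0 - VI f s x0|) 0 0 := by
    rw [hasDerivAt_iff_isLittleO] at dV ⊢
    simpa [VI] using dV.abs_left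
  have hmin : IsLocalMin (fun τ : ℝ =>
      (∫ x in (0 : ℝ)..x0, Lh f x (s x + τ * u x) (deriv s x + τ * k x)) +
        C * |VI f (fun x => s x + τ * u x) x0 - VI f s x0|) 0 := by
    filter_upwards [hb] with τ hτ
    have := hC (fun x => s x + τ * u x) ⟨lip_add hs.lip hu τ, fun x hx => (hpos τ hτ x hx).1⟩
      (by simp [hu0])
    rw [eF] at this
    simpa [FI] using this
  simpa using hmin.hasDerivAt_eq_zero (dF.add (dA.const_mul C))

theorem ae_eq (h : Prof f a0) {s : ℝ → ℝ} {x0 : ℝ} (h0 : 0 < x0) (h1 : x0 < 1) (hs : Pos s x0)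
    (hm : PenMin f s x0) : ∃ (H : ℝ) (Λ : ℝ → ℝ), Continuous Λ ∧
      (∀ x ∈ Icc 0 x0, Λ x = ∫ y in (0 : ℝ)..x, (Ls f y (s y) (deriv s y) - H * f (s y) ^ 2)) ∧
      ∀ᵐ x, x ∈ Ioc 0 x0 → Lp f x (s x) (deriv s x) = Λ x := by
  obtain ⟨K1, -, hK1⟩ := hs.lip.bdd
  obtain ⟨K4, hK4⟩ := (isCompact_Icc (a := (0 : ℝ)) (b := x0)).exists_bound_of_continuousOn
    hs.lip.continuous.continuousOn
  have hI1 : ∀ x ∈ Icc (0 : ℝ) x0, x ∈ Icc (0 : ℝ) 1 := fun x hx => ⟨hx.1, hx.2.trans h1.le⟩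
  have ms := hs.lip.continuous.measurable
  have md := measurable_deriv s
  have bS : BM ((Icc 0 x0).indicator fun y => Ls f y (s y) (deriv s y)) :=
    BM.ind (K := K1 + 2 * K4) (meas_Ls h ms md) fun x hx => by
      have : |s x| ≤ K4 := hK4 x hx
      linarith [Ls_le h (hI1 x hx) (hs.pos x hx) (deriv s x), hK1 x, le_abs_self (s x)]
  have bP : BM ((Icc 0 x0).indicator fun y => Lp f y (s y) (deriv s y)) :=
    BM.ind (K := K1) (meas_Lp h ms md) fun x hx =>
      (Lp_le h (hI1 x hx) (hs.pos x hx) (deriv s x)).trans (hK1 x)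
  have bF : BM ((Icc 0 x0).indicator fun y => f (s y) ^ 2) :=
    BM.ind_cont _ _ ((h.continuous.comp hs.lip.continuous).pow 2)
  generalize hgS : ((Icc 0 x0).indicator fun y => Ls f y (s y) (deriv s y)) = gS at bS
  generalize hgP : ((Icc 0 x0).indicator fun y => Lp f y (s y) (deriv s y)) = gP at bP
  generalize hgF : ((Icc 0 x0).indicator fun y => f (s y) ^ 2) = gF at bF
  have eS : ∀ x ∈ Icc 0 x0, gS x = Ls f x (s x) (deriv s x) := fun x hx => by
    rw [← hgS, indicator_of_mem hx]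
  have eP : ∀ x ∈ Icc 0 x0, gP x = Lp f x (s x) (deriv s x) := fun x hx => by
    rw [← hgP, indicator_of_mem hx]
  have eF : ∀ x ∈ Icc 0 x0, gF x = f (s x) ^ 2 := fun x hx => by rw [← hgF, indicator_of_mem hx]
  have cA := (bS.lip 0).continuous
  have cB := (bF.lip 0).continuous
  have bA := BM.ind_cont 0 x0 cA
  have bB := BM.ind_cont 0 x0 cB
  have hU : uIcc (0 : ℝ) x0 = Icc 0 x0 := uIcc_of_le h0.le
  obtain ⟨H, hH⟩ := mult (bP.sub bA) bB h0.le fun k hk hk0 => by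
    have e1 : ∫ x in (0 : ℝ)..x0, f (s x) ^ 2 * ∫ t in x0..x, k t = 0 := by
      have := ibp bF hk x0
      rw [intervalIntegral.integral_congr (g := fun x => f (s x) ^ 2 * ∫ t in x0..x, k t)
        fun x hx => by simp only [eF x (hU ▸ hx)]] at this
      rw [this, neg_eq_zero]
      exact (intervalIntegral.integral_congr fun x hx => by
        simp only [indicator_of_mem (hU ▸ hx : x ∈ Icc 0 x0)]).trans hk0
    have e2 := var h h0 h1 hs hm (hk.lip x0) (by simp) hk (hk.ae x0) e1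
    rw [intervalIntegral.integral_congr (g := fun x => (gS x * ∫ t in x0..x, k t) + gP x * k x)
        fun x hx => by simp only [eS x (hU ▸ hx), eP x (hU ▸ hx)],
      intervalIntegral.integral_add
        ((bS.ii _ _).mul_continuousOn (hk.lip x0).continuous.continuousOn) ((bP.mul hk).ii _ _),
      ibp bS hk x0] at e2
    rw [intervalIntegral.integral_congr
        (g := fun x => gP x * k x - (∫ t in (0 : ℝ)..x, gS t) * k x) fun x hx => by
          simp only [indicator_of_mem (hU ▸ hx : x ∈ Icc 0 x0)]; ring,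
      intervalIntegral.integral_sub ((bP.mul hk).ii _ _)
        ((hk.ii _ _).continuousOn_mul cA.continuousOn)]
    linarith
  refine ⟨-H, fun x => (∫ t in (0 : ℝ)..x, gS t) + H * ∫ t in (0 : ℝ)..x, gF t,
    cA.add (cB.const_mul H), fun x hx => ?_, ?_⟩
  · simp only []
    rw [← intervalIntegral.integral_const_mul,
      ← intervalIntegral.integral_add (bS.ii _ _) ((bF.ii _ _).const_mul _)]
    refine intervalIntegral.integral_congr fun y hy => ?_
    rw [uIcc_of_le hx.1] at hy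
    have hy' : y ∈ Icc 0 x0 := ⟨hy.1, hy.2.trans hx.2⟩
    simp only [eS y hy', eF y hy']
    ring
  · filter_upwards [hH] with x hx hx'
    have h2 := hx hx'
    have h3 := Ioc_subset_Icc_self hx'
    simp only [indicator_of_mem h3, eP x h3] at h2
    linarith

theorem alg1 {F z p K Λ : ℝ} (hF : 0 < F) (hz : 0 < z) (hz1 : z ≤ 1) (hp : |p| ≤ K)
    (e : F * (z * p) / √(z * p ^ 2 + F ^ 2) = Λ) : Λ ^ 2 * (K ^ 2 + F ^ 2) ≤ F ^ 2 * z * K ^ 2 := by
  have h0 : 0 < z * p ^ 2 + F ^ 2 := by positivity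
  have h1 : Λ ^ 2 = F ^ 2 * z * (z * p ^ 2) / (z * p ^ 2 + F ^ 2) := by
    rw [← e, div_pow, Real.sq_sqrt h0.le]; ring
  have h2 : z * p ^ 2 ≤ K ^ 2 :=
    (mul_le_of_le_one_left (sq_nonneg p) hz1).trans
      (sq_le_sq' (neg_le_of_abs_le hp) (le_of_abs_le hp))
  rw [h1, div_mul_eq_mul_div, div_le_iff₀ h0]
  have h3 : 0 ≤ F ^ 2 * z * F ^ 2 * (K ^ 2 - z * p ^ 2) :=
    mul_nonneg (by positivity) (sub_nonneg.2 h2)
  nlinarith

theorem alg2 {F z p Λ : ℝ} (hF : 0 < F) (hz : 0 < z)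
    (e : F * (z * p) / √(z * p ^ 2 + F ^ 2) = Λ) : p = Λ * F / √(z * (F ^ 2 * z - Λ ^ 2)) := by
  have h0 : 0 < z * p ^ 2 + F ^ 2 := by positivity
  have h1 := Real.sqrt_pos.2 h0
  have h2 := Real.sq_sqrt h0.le
  generalize √(z * p ^ 2 + F ^ 2) = N at e h1 h2
  have h3 : z * (F ^ 2 * z - Λ ^ 2) = (F ^ 2 * z / N) ^ 2 := by
    rw [← e]
    field_simp
    linear_combination h2
  rw [h3, Real.sqrt_sq (by positivity), ← e]
  field_simp

end ELAux

open ELAux in
theorem sEL : S_EL := by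
  intro f a0 h s x0 h0 h1 hs hm
  obtain ⟨H, Λ, cΛ, eΛ, hae⟩ := ae_eq h h0 h1 hs hm
  obtain ⟨K, -, hK⟩ := hs.lip.bdd
  have cf := h.continuous
  have cs := hs.lip.continuous
  have hF : ∀ x ∈ Ioo 0 x0, 0 < f (s x) := fun x hx => h.fpos (hs.pos x (Ioo_subset_Icc_self hx))
  have hz : ∀ x ∈ Ioo 0 x0, 0 < x * (1 - x) := fun x hx => mul_pos hx.1 (by linarith [hx.2])
  have hz1 : ∀ x ∈ Ioo 0 x0, x * (1 - x) ≤ 1 := fun x hx => by nlinarith [hx.1, hx.2]
  have hlt : ∀ x ∈ Ioo 0 x0, 0 < f (s x) ^ 2 * (x * (1 - x)) - Λ x ^ 2 := by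
    have e := Measure.eqOn_Ioo_of_ae_eq volume (a := 0) (b := x0)
      (f := fun x => max (Λ x ^ 2 * (K ^ 2 + f (s x) ^ 2)) (f (s x) ^ 2 * (x * (1 - x)) * K ^ 2))
      (g := fun x => f (s x) ^ 2 * (x * (1 - x)) * K ^ 2)
      ((ae_restrict_iff' measurableSet_Ioo).2 (by
        filter_upwards [hae] with x hx hx'
        exact max_eq_right (alg1 (hF x hx') (hz x hx') (hz1 x hx') (hK x)
          (hx (Ioo_subset_Ioc_self hx')))))
      (Continuous.continuousOn (by fun_prop)) (Continuous.continuousOn (by fun_prop))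
    intro x hx
    have e1 : Λ x ^ 2 * (K ^ 2 + f (s x) ^ 2) ≤ f (s x) ^ 2 * (x * (1 - x)) * K ^ 2 :=
      max_eq_right_iff.1 (e hx)
    have e2 : 0 < f (s x) ^ 2 := pow_pos (hF x hx) 2
    have e3 : 0 < f (s x) ^ 2 * (x * (1 - x)) * f (s x) ^ 2 := mul_pos (mul_pos e2 (hz x hx)) e2
    have e4 : 0 < K ^ 2 + f (s x) ^ 2 := by positivity
    by_contra hn
    have := mul_le_mul_of_nonneg_right (sub_nonpos.1 (not_lt.1 hn)) e4.le
    nlinarith
  obtain ⟨P, hP⟩ : ∃ P : ℝ → ℝ, P = fun x =>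
      Λ x * f (s x) / √(x * (1 - x) * (f (s x) ^ 2 * (x * (1 - x)) - Λ x ^ 2)) := ⟨_, rfl⟩
  have cP : ContinuousOn P (Ioo 0 x0) := by
    rw [hP]
    exact ContinuousOn.div (Continuous.continuousOn (by fun_prop))
      (Continuous.continuousOn (by fun_prop))
      fun x hx => (Real.sqrt_pos.2 (mul_pos (hz x hx) (hlt x hx))).ne'
  have aP : ∀ᵐ x, x ∈ Ioo 0 x0 → deriv s x = P x := by
    filter_upwards [hae] with x hx hx'
    rw [hP]
    exact alg2 (hF x hx') (hz x hx') (hx (Ioo_subset_Ioc_self hx'))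
  have dP : ∀ x ∈ Ioo 0 x0, HasDerivAt s (P x) x := fun x hx => by
    have d1 : HasDerivAt (fun y => ∫ t in x..y, P t) (P x) x :=
      intervalIntegral.integral_hasDerivAt_right (by simp)
        (cP.stronglyMeasurableAtFilter isOpen_Ioo x hx) (cP.continuousAt (Ioo_mem_nhds hx.1 hx.2))
    refine (d1.const_add (s x)).congr_of_eventuallyEq ?_
    filter_upwards [Ioo_mem_nhds hx.1 hx.2] with y hy
    have e : ∫ t in x..y, P t = ∫ t in x..y, deriv s t := intervalIntegral.integral_congr_ae (by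
      filter_upwards [aP] with t ht ht'
      exact (ht (ordConnected_Ioo.uIcc_subset hx hy (uIoc_subset_uIcc ht'))).symm)
    rw [e, hs.lip.ftc]
    ring
  have cD : ContinuousOn (deriv s) (Ioo 0 x0) := cP.congr fun x hx => (dP x hx).deriv
  refine ⟨⟨fun x hx => (dP x hx).differentiableAt, cD⟩, H, fun x hx => ?_⟩
  rw [← eΛ x (Ioo_subset_Icc_self hx)]
  have cF : ContinuousOn (fun x => f (s x)) (Ioo 0 x0) := (cf.comp cs).continuousOn
  have cz : ContinuousOn (fun x : ℝ => x * (1 - x)) (Ioo 0 x0) :=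
    Continuous.continuousOn (by fun_prop)
  refine Measure.eqOn_Ioo_of_ae_eq volume (a := 0) (b := x0)
    (f := fun x => Lp f x (s x) (deriv s x)) (g := Λ)
    ((ae_restrict_iff' measurableSet_Ioo).2 (by
      filter_upwards [hae] with x hx hx' using hx (Ioo_subset_Ioc_self hx'))) ?_ cΛ.continuousOn hx
  refine ContinuousOn.div (cF.mul (cz.mul cD)) ((cz.mul (cD.pow 2)).add (cF.pow 2)).sqrt
    fun y hy => (Real.sqrt_pos.2 ?_).ne'
  have := hF y hy
  have := hz y hy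
  positivity

end Pool.Agent.P.MP_ab9b82_gt
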