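import Pool.Agent.P.MP_ab9b82_gt.B1

/-! Helly selection theorem and lower semicontinuity of the one-dimensional functional. -/

namespace Pool.Agent.P.MP_ab9b82_gt

open MeasureTheory Set Filter Topology Real
open scoped ENNReal

namespace HellyAux

/-- diagonal extraction on a countable index set -/
theorem extract {ι : Type} [Countable ι] (g : ℕ → ι → ℝ) (C : ℝ) (hb : ∀ k i, |g k i| ≤ C) :
    ∃ φ : ℕ → ℕ, StrictMono φ ∧ ∃ w : ι → ℝ,
      ∀ i, Tendsto (fun k => g (φ k) i) atTop (𝓝 (w i)) := by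
  have hc : IsCompact (Set.pi univ fun _ : ι => Icc (-C) C) :=
    isCompact_univ_pi fun _ => isCompact_Icc
  obtain ⟨w, -, φ, hφ, hw⟩ := hc.tendsto_subseq (x := g) fun k i _ => abs_le.1 (hb k i)
  exact ⟨φ, hφ, w, fun i => tendsto_pi_nhds.1 hw i⟩

/-- Helly selection for monotone functions -/
theorem mono (m : ℕ → ℝ → ℝ) (C : ℝ) (hm : ∀ k, Monotone (m k)) (hb : ∀ k x, |m k x| ≤ C) :
    ∃ φ : ℕ → ℕ, StrictMono φ ∧ ∃ w : ℝ → ℝ,
      ∀ x, Tendsto (fun k => m (φ k) x) atTop (𝓝 (w x)) := by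
  obtain ⟨φ, hφ, w, hw⟩ := extract (fun k (q : ℚ) => m k q) C fun k q => hb k q
  set W : ℝ → ℝ := fun x => limsup (fun k => m (φ k) x) atTop with hW
  have hWm : Monotone W := fun x y hxy =>
    limsup_le_limsup (Eventually.of_forall fun k => hm (φ k) hxy)
      (isCoboundedUnder_le_of_le atTop fun k => (abs_le.1 (hb (φ k) x)).1)
      (isBoundedUnder_of ⟨C, fun k => (abs_le.1 (hb (φ k) y)).2⟩)
  have hWq : ∀ q : ℚ, W q = w q := fun q => (hw q).limsup_eq
  have hcont : ∀ x, ContinuousAt W x → Tendsto (fun k => m (φ k) x) atTop (𝓝 (W x)) := by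
    intro x hx
    refine tendsto_order.2 ⟨fun a ha => ?_, fun a ha => ?_⟩
    · obtain ⟨l, u, hlu, hs⟩ := mem_nhds_iff_exists_Ioo_subset.1 (hx.eventually (lt_mem_nhds ha))
      obtain ⟨q, hq1, hq2⟩ := exists_rat_btwn hlu.1
      have h1 : a < w q := hWq q ▸ hs ⟨hq1, hq2.trans hlu.2⟩
      filter_upwards [(hw q).eventually (lt_mem_nhds h1)] with k hk
      exact hk.trans_le (hm _ hq2.le)
    · obtain ⟨l, u, hlu, hs⟩ := mem_nhds_iff_exists_Ioo_subset.1 (hx.eventually (gt_mem_nhds ha))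
      obtain ⟨q, hq1, hq2⟩ := exists_rat_btwn hlu.2
      have h1 : w q < a := hWq q ▸ hs ⟨hlu.1.trans hq1, hq2⟩
      filter_upwards [(hw q).eventually (gt_mem_nhds h1)] with k hk
      exact (hm _ hq1.le).trans_lt hk
  have hD := hWm.countable_not_continuousAt.to_subtype
  obtain ⟨ψ, hψ, w2, hw2⟩ := extract (fun k (x : {x | ¬ContinuousAt W x}) => m (φ k) x) C
    fun k x => hb _ _
  have : ∀ x, ∃ l, Tendsto (fun k => m (φ (ψ k)) x) atTop (𝓝 l) := by
    intro x
    by_cases hx : ContinuousAt W x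
    · exact ⟨_, (hcont x hx).comp hψ.tendsto_atTop⟩
    · exact ⟨_, hw2 ⟨x, hx⟩⟩
  choose w3 hw3 using this
  exact ⟨φ ∘ ψ, hφ.comp hψ, w3, hw3⟩

theorem sqrt_lip {A F G : ℝ} (hA : 0 ≤ A) : √(A + F ^ 2) ≤ √(A + G ^ 2) + |F - G| := by
  have h1 : |G| ≤ √(A + G ^ 2) := Real.abs_le_sqrt (by linarith)
  have h2 : √(A + G ^ 2) ^ 2 = A + G ^ 2 := Real.sq_sqrt (by positivity)
  have h3 : |F| ≤ |G| + |F - G| := by
    have := abs_add_le G (F - G)
    simpa using this
  have h4 : |F| ^ 2 ≤ (|G| + |F - G|) ^ 2 := pow_le_pow_left₀ (abs_nonneg _) h3 2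
  refine Real.sqrt_le_iff.2 ⟨by positivity, ?_⟩
  rw [sq_abs] at h4
  nlinarith [sq_abs G, mul_le_mul_of_nonneg_right h1 (abs_nonneg (F - G))]

variable {f : ℝ → ℝ} {a0 : ℝ}

theorem f_abs (h : Prof f a0) (r r' : ℝ) : |f r - f r'| ≤ |r - r'| := by
  simpa [Real.dist_eq] using h.lip.dist_le_mul r r'

theorem f_le (h : Prof f a0) (r : ℝ) : |f r| ≤ |r| := by simpa [h.zero] using f_abs h r 0

/-- `Lh` is Lipschitz in the radius on bounded sets -/
theorem Lh_lip (h : Prof f a0) {x r r' p K R : ℝ} (h0 : 0 ≤ x) (h1 : x ≤ 1) (hp : |p| ≤ K)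
    (hr : |r| ≤ R) (hr' : |r'| ≤ R) :
    |Lh f x r p - Lh f x r' p| ≤ (K + 2 * R) * |r - r'| := by
  have hz : 0 ≤ x * (1 - x) := mul_nonneg h0 (by linarith)
  have hz1 : x * (1 - x) ≤ 1 := by nlinarith
  have hA : 0 ≤ x * (1 - x) * p ^ 2 := by positivity
  have hK : 0 ≤ K := (abs_nonneg _).trans hp
  have hR : 0 ≤ R := (abs_nonneg _).trans hr
  have hF := (f_le h r).trans hr
  have hG := (f_le h r').trans hr'
  have hd := f_abs h r r'
  have e1 := sqrt_lip (F := f r) (G := f r') hA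
  have e2 := sqrt_lip (F := f r') (G := f r) hA
  rw [abs_sub_comm] at e2
  have e3 : |√(x * (1 - x) * p ^ 2 + f r ^ 2) - √(x * (1 - x) * p ^ 2 + f r' ^ 2)| ≤ |r - r'| :=
    abs_le.2 ⟨by linarith, by linarith⟩
  have e4 : √(x * (1 - x) * p ^ 2 + f r ^ 2) ≤ K + R := by
    refine Real.sqrt_le_iff.2 ⟨by positivity, ?_⟩
    have p2 : p ^ 2 ≤ K ^ 2 := sq_le_sq' (abs_le.1 hp).1 (abs_le.1 hp).2
    have f2 : f r ^ 2 ≤ R ^ 2 := sq_le_sq' (abs_le.1 hF).1 (abs_le.1 hF).2
    nlinarith [mul_le_mul_of_nonneg_right hz1 (sq_nonneg p), mul_nonneg hK hR]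
  have e5 : Lh f x r p - Lh f x r' p = (f r - f r') * √(x * (1 - x) * p ^ 2 + f r ^ 2) +
      f r' * (√(x * (1 - x) * p ^ 2 + f r ^ 2) - √(x * (1 - x) * p ^ 2 + f r' ^ 2)) := by
    unfold Lh; ring
  rw [e5]
  refine (abs_add_le _ _).trans ?_
  rw [abs_mul, abs_mul, abs_of_nonneg (Real.sqrt_nonneg _)]
  have e6 := mul_le_mul hd e4 (Real.sqrt_nonneg _) (abs_nonneg _)
  have e7 := mul_le_mul hG e3 (abs_nonneg _) hR
  nlinarith

/-- convexity of `Lh` in the slope -/
theorem Lh_conv {x r p q : ℝ} (h0 : 0 ≤ x) (h1 : x ≤ 1) (hf : 0 < f r) :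
    Lh f x r p + Lp f x r p * (q - p) ≤ Lh f x r q := by
  have hz : 0 ≤ x * (1 - x) := mul_nonneg h0 (by linarith)
  unfold Lh Lp
  set z := x * (1 - x)
  set N := √(z * p ^ 2 + f r ^ 2) with hN
  have hN0 : 0 < N := Real.sqrt_pos.2 (by positivity)
  have hN2 : N ^ 2 = z * p ^ 2 + f r ^ 2 := Real.sq_sqrt (by positivity)
  have h2 : (z * p * q + f r ^ 2) / N ≤ √(z * q ^ 2 + f r ^ 2) := by
    refine Real.le_sqrt_of_sq_le ?_
    rw [div_pow, div_le_iff₀ (by positivity), hN2]
    nlinarith [mul_nonneg (mul_nonneg hz (sq_nonneg (f r))) (sq_nonneg (p - q))]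
  have h3 : f r * N + f r * (z * p) / N * (q - p) = f r * ((z * p * q + f r ^ 2) / N) := by
    field_simp
    linear_combination hN2
  rw [h3]
  exact mul_le_mul_of_nonneg_left h2 hf.le

theorem Lp_le {x r p : ℝ} (h0 : 0 ≤ x) (h1 : x ≤ 1) : |Lp f x r p| ≤ |f r| := by
  have hz : 0 ≤ x * (1 - x) := mul_nonneg h0 (by linarith)
  have hz1 : x * (1 - x) ≤ 1 := by nlinarith
  unfold Lp
  set z := x * (1 - x)
  rw [mul_div_assoc, abs_mul]
  refine mul_le_of_le_one_right (abs_nonneg _) ?_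
  rw [abs_div, abs_of_nonneg (Real.sqrt_nonneg _)]
  refine div_le_one_of_le₀ (Real.abs_le_sqrt ?_) (Real.sqrt_nonneg _)
  nlinarith [mul_le_mul_of_nonneg_right hz1 (mul_nonneg hz (sq_nonneg p)), sq_nonneg (f r)]

/-- dominated convergence for continuous functions with a uniform bound -/
theorem dom {F : ℕ → ℝ → ℝ} {G : ℝ → ℝ} {b C : ℝ} (hb : 0 ≤ b) (hF : ∀ k, Continuous (F k))
    (hC : ∀ k, ∀ x ∈ Icc 0 b, |F k x| ≤ C) (hl : ∀ x, Tendsto (fun k => F k x) atTop (𝓝 (G x))) :
    Tendsto (fun k => ∫ x in (0 : ℝ)..b, F k x) atTop (𝓝 (∫ x in (0 : ℝ)..b, G x)) :=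
  intervalIntegral.tendsto_integral_filter_of_dominated_convergence (fun _ => C)
    (Eventually.of_forall fun k => (hF k).aestronglyMeasurable)
    (Eventually.of_forall fun k => ae_of_all _ fun x hx => hC k x (by
      rw [uIoc_of_le hb] at hx; exact Ioc_subset_Icc_self hx))
    intervalIntegrable_const (ae_of_all _ fun x _ => hl x)

theorem mul_ii {ψ u : ℝ → ℝ} {b K : ℝ} (hψ : IntervalIntegrable ψ volume 0 b)
    (hK : ∀ x, |deriv u x| ≤ K) : IntervalIntegrable (fun x => ψ x * deriv u x) volume 0 b := by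
  rw [intervalIntegrable_iff] at hψ ⊢
  exact Integrable.mul_bdd (c := K) hψ (measurable_deriv u).aestronglyMeasurable
    (ae_of_all _ fun x => hK x)

theorem mul_diff {ψ g u : ℝ → ℝ} {b K : ℝ} (hb : 0 ≤ b) (hψ : IntervalIntegrable ψ volume 0 b)
    (hg : IntervalIntegrable g volume 0 b) (hK : ∀ x, |deriv u x| ≤ K) :
    |(∫ x in (0 : ℝ)..b, ψ x * deriv u x) - ∫ x in (0 : ℝ)..b, g x * deriv u x| ≤
      K * ∫ x in (0 : ℝ)..b, |ψ x - g x| := by
  rw [← intervalIntegral.integral_sub (mul_ii hψ hK) (mul_ii hg hK),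
    ← intervalIntegral.integral_const_mul]
  refine (intervalIntegral.abs_integral_le_integral_abs hb).trans ?_
  refine intervalIntegral.integral_mono_on hb ((mul_ii hψ hK).sub (mul_ii hg hK)).abs
    ((hψ.sub hg).abs.const_mul _) fun x _ => ?_
  rw [← sub_mul, abs_mul, mul_comm]
  exact mul_le_mul_of_nonneg_right (hK x) (abs_nonneg _)

theorem approx {ψ : ℝ → ℝ} {b ε : ℝ} (hb : 0 ≤ b) (hψ : IntervalIntegrable ψ volume 0 b)
    (hε : 0 < ε) : ∃ g : ℝ → ℝ, ContDiff ℝ 1 g ∧ ∫ x in (0 : ℝ)..b, |ψ x - g x| ≤ ε := by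
  have h1 : MemLp ψ 1 (volume.restrict (Ioc 0 b)) := memLp_one_iff_integrable.2 hψ.1
  obtain ⟨g, -, hg, hle⟩ := h1.exist_eLpNorm_sub_le (by simp) le_rfl hε
  refine ⟨g, hg.of_le (by simp), ?_⟩
  have h2 : Integrable (ψ - g) (volume.restrict (Ioc 0 b)) :=
    (hψ.sub (hg.continuous.intervalIntegrable 0 b)).1
  rw [eLpNorm_one_eq_lintegral_enorm, ← ofReal_integral_norm_eq_lintegral_enorm h2,
    ENNReal.ofReal_le_ofReal_iff hε.le] at hle
  rw [intervalIntegral.integral_of_le hb]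
  exact hle

/-- weak convergence of the derivatives -/
theorem weak {s : ℕ → ℝ → ℝ} {t ψ : ℝ → ℝ} {K : NNReal} {b R : ℝ} (hb : 0 ≤ b)
    (hs : ∀ k, LipschitzWith K (s k)) (ht : Lip t) (hR : ∀ k, ∀ x ∈ Icc 0 b, |s k x| ≤ R)
    (hl : ∀ x, Tendsto (fun k => s k x) atTop (𝓝 (t x))) (hψ : IntervalIntegrable ψ volume 0 b) :
    Tendsto (fun k => ∫ x in (0 : ℝ)..b, ψ x * deriv (s k) x) atTop
      (𝓝 (∫ x in (0 : ℝ)..b, ψ x * deriv t x)) := by
  obtain ⟨K', hK'0, hK'⟩ := ht.bdd
  have hK : ∀ k x, |deriv (s k) x| ≤ K := fun k _ => norm_deriv_le_of_lipschitz (hs k)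
  rw [Metric.tendsto_atTop]
  intro ε hε
  have hK0 : (0 : ℝ) ≤ K := K.2
  obtain ⟨g, hg, hgε⟩ := approx hb hψ (ε := ε / (2 * (K + K' + 1))) (by positivity)
  have hgd : ∀ x ∈ uIcc 0 b, HasDerivAt g (deriv g x) x := fun x _ =>
    (hg.differentiable one_ne_zero x).hasDerivAt
  have hgc : Continuous (deriv g) := hg.continuous_deriv le_rfl
  obtain ⟨M, hM⟩ := isCompact_Icc.exists_bound_of_continuousOn (hgc.continuousOn (s := Icc 0 b))
  have h1 : Tendsto (fun k => ∫ x in (0 : ℝ)..b, g x * deriv (s k) x) atTop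
      (𝓝 (∫ x in (0 : ℝ)..b, g x * deriv t x)) := by
    rw [ht.ibp hgd hgc.continuousOn]
    simp only [fun k => Lip.ibp ⟨K, hs k⟩ hgd hgc.continuousOn]
    refine (((hl b).const_mul _).sub ((hl 0).const_mul _)).sub ?_
    refine dom (C := M * R) hb (fun k => hgc.mul (hs k).continuous) (fun k x hx => ?_)
      fun x => (hl x).const_mul _
    rw [abs_mul]
    exact mul_le_mul (hM x hx) (hR k x hx) (abs_nonneg _) ((norm_nonneg _).trans (hM x hx))
  obtain ⟨N, hN⟩ := Metric.tendsto_atTop.1 h1 (ε / 2) (half_pos hε)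
  refine ⟨N, fun k hk => ?_⟩
  have hgi := hg.continuous.intervalIntegrable (μ := volume) 0 b
  have e1 := abs_le.1 (mul_diff hb hψ hgi (hK k))
  have e2 := abs_le.1 (mul_diff hb hψ hgi hK')
  have e3 := hN k hk
  rw [Real.dist_eq, abs_lt] at e3 ⊢
  have e0 : 0 ≤ ∫ x in (0 : ℝ)..b, |ψ x - g x| :=
    intervalIntegral.integral_nonneg hb fun _ _ => abs_nonneg _
  have e4 : (K + K' + 1) * ∫ x in (0 : ℝ)..b, |ψ x - g x| ≤ ε / 2 := by
    refine (mul_le_mul_of_nonneg_left hgε (by positivity)).trans (le_of_eq ?_)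
    field_simp
  constructor <;> nlinarith [e1.1, e1.2, e2.1, e2.2, e3.1, e3.2]

end HellyAux

open HellyAux

theorem sHelly : S_Helly := by
  intro u C hu hb hv
  have hi : ∀ k α β, IntervalIntegrable (fun x => |deriv (u k) x|) volume α β :=
    fun k α β => ((hu k).ii α β).abs
  set p : ℕ → ℝ → ℝ := fun k x => ∫ t in (0 : ℝ)..x, |deriv (u k) t| with hp
  have hsub : ∀ k x y, p k y - p k x = ∫ t in x..y, |deriv (u k) t| := fun k x y =>
    intervalIntegral.integral_interval_sub_left (hi k _ _) (hi k _ _)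
  have hnn : ∀ k x y, x ≤ y → 0 ≤ ∫ t in x..y, |deriv (u k) t| := fun k x y h =>
    intervalIntegral.integral_nonneg h fun _ _ => abs_nonneg _
  have hpm : ∀ k, Monotone (p k) := fun k x y h => by linarith [hsub k x y, hnn k x y h]
  have hpb : ∀ k x, |p k x| ≤ C := by
    intro k x
    rcases le_total 0 x with h | h
    · rw [abs_of_nonneg (hnn k 0 x h)]
      exact hv k 0 x h
    · have : p k x = -∫ t in x..0, |deriv (u k) t| := intervalIntegral.integral_symm _ _
      rw [this, abs_neg, abs_of_nonneg (hnn k x 0 h)]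
      exact hv k x 0 h
  have hqm : ∀ k, Monotone fun x => p k x - u k x := by
    intro k x y h
    have h1 := intervalIntegral.abs_integral_le_integral_abs (f := deriv (u k)) (μ := volume) h
    rw [(hu k).ftc] at h1
    have := le_abs_self (u k y - u k x)
    linarith [hsub k x y]
  obtain ⟨φ, hφ, w, hw⟩ := mono p C hpm hpb
  obtain ⟨ψ, hψ, w', hw'⟩ := mono (fun k x => p (φ k) x - u (φ k) x) (C + C) (fun k => hqm _)
    fun k x => (abs_sub _ _).trans (add_le_add (hpb _ _) (hb _ _))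
  refine ⟨φ ∘ ψ, hφ.comp hψ, fun x => w x - w' x, fun x => ?_⟩
  simpa using ((hw x).comp hψ.tendsto_atTop).sub (hw' x)

theorem sLsc1 : S_Lsc1 := by
  intro f a0 h x0 h0 h1
  refine ⟨fun s t K hs ht hl => ?_, fun t ht => ?_⟩
  · obtain ⟨B, hB⟩ := (Metric.isBounded_range_of_tendsto _ (hl 0)).exists_norm_le
    have hK0 : (0 : ℝ) ≤ K := K.2
    have hR : ∀ k, ∀ x ∈ Icc 0 x0, |s k x| ≤ B + K := by
      intro k x hx
      have e1 : |s k 0| ≤ B := hB _ ⟨k, rfl⟩
      have e2 : |s k x - s k 0| ≤ K * |x - 0| := (hs k).dist_le_mul x 0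
      have e3 : K * |x - 0| ≤ K := mul_le_of_le_one_right hK0 (by
        rw [sub_zero, abs_of_nonneg hx.1]; exact hx.2.trans h1)
      have := abs_add_le (s k x - s k 0) (s k 0)
      rw [sub_add_cancel] at this
      linarith
    have hRt : ∀ x ∈ Icc 0 x0, |t x| ≤ B + K := fun x hx =>
      le_of_tendsto' (hl x).abs fun k => hR k x hx
    have hK : ∀ k x, |deriv (s k) x| ≤ K := fun k _ => norm_deriv_le_of_lipschitz (hs k)
    obtain ⟨K', -, hK'⟩ := ht.lip.bdd
    refine ⟨fun ε hε => ?_, ?_⟩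
    · set ψ : ℝ → ℝ := fun x => Lp f x (t x) (deriv t x) with hψ
      have hψm : Measurable ψ := by
        have e1 := h.continuous.measurable
        have e2 := ht.lip.continuous.measurable
        have e3 := measurable_deriv t
        simp only [hψ, Lp]
        fun_prop
      have hψi : IntervalIntegrable ψ volume 0 x0 := by
        refine ii_of_bdd (C := B + K) hψm fun x hx => ?_
        rw [uIcc_of_le h0.le] at hx
        exact (Lp_le hx.1 (hx.2.trans h1)).trans ((f_le h _).trans (hRt x hx))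
      have hw := weak h0.le hs ht.lip hR hl hψi
      have hd : Tendsto (fun k => ∫ x in (0 : ℝ)..x0, |s k x - t x|) atTop
          (𝓝 (∫ x in (0 : ℝ)..x0, (0 : ℝ))) :=
        dom (C := B + K + (B + K)) h0.le (fun k => ((hs k).continuous.sub ht.lip.continuous).abs)
          (fun k x hx => by
            rw [abs_abs]
            exact (abs_sub _ _).trans (add_le_add (hR k x hx) (hRt x hx)))
          fun x => by simpa using ((hl x).sub_const (t x)).abs
      have hlim := ((hw.sub_const (∫ x in (0 : ℝ)..x0, ψ x * deriv t x)).sub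
        (hd.const_mul (K + 2 * (B + K)))).const_add (FI f t x0)
      simp only [sub_self, intervalIntegral.integral_zero, mul_zero, add_zero] at hlim
      filter_upwards [hlim.eventually (lt_mem_nhds (sub_lt_self _ hε))] with k hk
      refine hk.le.trans ?_
      have i1 := Lh_ii h ht.lip 0 x0
      have i2 := mul_ii hψi (hK k)
      have i3 := mul_ii hψi hK'
      have i4 : IntervalIntegrable (fun x => (K + 2 * (B + K)) * |s k x - t x|) volume 0 x0 :=
        ((((hs k).continuous.sub ht.lip.continuous).abs).intervalIntegrable 0 x0).const_mul _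
      unfold FI
      rw [← intervalIntegral.integral_const_mul, ← intervalIntegral.integral_sub i2 i3,
        ← intervalIntegral.integral_sub (i2.sub i3) i4,
        ← intervalIntegral.integral_add i1 ((i2.sub i3).sub i4)]
      refine intervalIntegral.integral_mono_on h0.le (i1.add ((i2.sub i3).sub i4))
        (Lh_ii h ⟨K, hs k⟩ 0 x0) fun x hx => ?_
      have e1 := Lh_conv (f := f) (p := deriv t x) (q := deriv (s k) x) hx.1 (hx.2.trans h1)
        (h.fpos (ht.pos x hx))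
      have e2 := (abs_le.1 (Lh_lip h hx.1 (hx.2.trans h1) (hK k x) (hR k x hx) (hRt x hx))).1
      simp only [hψ]
      linarith
    · obtain ⟨M, hM⟩ := isCompact_Icc.exists_bound_of_continuousOn
        (h.Wf_cont.continuousOn (s := Icc (-(B + K)) (B + K)))
      exact dom (C := M) h0.le (fun k => h.Wf_cont.comp (hs k).continuous)
        (fun k x hx => hM _ (abs_le.1 (hR k x hx)))
        fun x => (h.Wf_cont.tendsto _).comp (hl x)
  · obtain ⟨K, hK0, hK⟩ := ht.bdd
    obtain ⟨M, hM⟩ := isCompact_Icc.exists_bound_of_continuousOn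
      (ht.continuous.continuousOn (s := Icc 0 x0))
    have hlip : ∀ c, Lip fun x => t x + c := fun c => by
      obtain ⟨L, hL⟩ := ht
      exact ⟨L, LipschitzWith.of_dist_le_mul fun x y => by
        rw [dist_add_right]; exact hL.dist_le_mul x y⟩
    refine continuous_iff_continuousAt.2 fun c => ?_
    have key : ∀ c', |c' - c| ≤ 1 → |FI f (fun x => t x + c') x0 - FI f (fun x => t x + c) x0| ≤
        (K + 2 * (M + |c| + 1)) * |c' - c| * |x0 - 0| := by
      intro c' hc'
      unfold FI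
      rw [← intervalIntegral.integral_sub (Lh_ii h (hlip c') 0 x0) (Lh_ii h (hlip c) 0 x0)]
      rw [← Real.norm_eq_abs]
      refine intervalIntegral.norm_integral_le_of_norm_le_const fun x hx => ?_
      rw [uIoc_of_le h0.le] at hx
      have hx' := Ioc_subset_Icc_self hx
      have e1 : |t x| ≤ M := hM x hx'
      have e2 : |t x + c| ≤ M + |c| + 1 := by linarith [abs_add_le (t x) c]
      have e3 : |t x + c'| ≤ M + |c| + 1 := by
        have := abs_add_le (t x + c) (c' - c)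
        rw [show t x + c + (c' - c) = t x + c' by ring] at this
        linarith [abs_add_le (t x) c]
      have := Lh_lip h hx'.1 (hx'.2.trans h1) (hK x) e3 e2
      simpa only [deriv_add_const', deriv_add_const, add_sub_add_left_eq_sub, Real.norm_eq_abs]
        using this
    rw [ContinuousAt, tendsto_iff_dist_tendsto_zero]
    refine squeeze_zero' (Eventually.of_forall fun _ => dist_nonneg)
      (g := fun c' => (K + 2 * (M + |c| + 1)) * |c' - c| * |x0 - 0|) ?_ ?_
    · filter_upwards [Metric.closedBall_mem_nhds c one_pos] with c' hc' using key c' hc'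
    · have : Continuous fun c' => (K + 2 * (M + |c| + 1)) * |c' - c| * |x0 - 0| := by fun_prop
      simpa using this.tendsto c

end Pool.Agent.P.MP_ab9b82_gt
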