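import Pool.Agent.P.MP_ab9b82_gt.B2

/-! An isometry with the round sphere forces an ODE. -/

namespace Pool.Agent.P.MP_ab9b82_gt

open MeasureTheory Set Filter Topology Real
open scoped ENNReal

namespace IsoAux

variable {f : ℝ → ℝ} {a0 : ℝ}

theorem idist_le (f : ℝ → ℝ) (A : V ≃ₗᵢ[ℝ] V) {S T : Set V} (h : MapsTo A S T) (p q : V) :
    idist (gm f) T (A p) (A q) ≤ idist (gm f) S p q := by
  refine le_iInf fun γ => le_iInf fun ⟨K, hK⟩ => le_iInf fun h0 => le_iInf fun h1 =>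
    le_iInf fun hS => ?_
  refine iInf_le_of_le (A ∘ γ) (iInf_le_of_le ⟨_, A.lipschitz.comp hK⟩ (iInf_le_of_le (congrArg A h0)
    (iInf_le_of_le (congrArg A h1) (iInf_le_of_le (fun τ hτ => h (hS τ hτ)) (le_of_eq ?_)))))
  refine lintegral_congr fun τ => ?_
  have : deriv (A ∘ γ) τ = A (deriv γ τ) := by
    rw [deriv, A.comp_fderiv]; rfl
  rw [this, Function.comp_apply, gm_iso]

theorem maps (A : V ≃ₗᵢ[ℝ] V) (R : ℝ) : MapsTo A (Metric.sphere 0 R) (Metric.sphere 0 R) :=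
  fun p hp => by simpa using hp

theorem idist_eq (f : ℝ → ℝ) (A : V ≃ₗᵢ[ℝ] V) (R : ℝ) (p q : V) :
    idist (gm f) (Metric.sphere 0 R) (A p) (A q) = idist (gm f) (Metric.sphere 0 R) p q :=
  le_antisymm (idist_le f A (maps A R) p q)
    (by simpa using idist_le f A.symm (maps A.symm R) (A p) (A q))

theorem sin_le {a t : ℝ} (h0 : 0 ≤ a) (h1 : a ≤ t) (h2 : t ≤ π - a) : sin a ≤ sin t := by
  rcases le_total t (π / 2) with h | h
  · exact sin_le_sin_of_le_of_le_pi_div_two (by linarith [pi_pos]) h h1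
  · rw [← sin_pi_sub t]
    exact sin_le_sin_of_le_of_le_pi_div_two (by linarith [pi_pos]) (by linarith) (by linarith)

theorem pigeon (g : ℝ → ℝ) (hg : ∀ ϕ, g ϕ ∈ Icc (-π) π) {n : ℕ} (hn : 0 < n) :
    ∃ ϕ ϕ', sin (π / (n + 2)) ≤ |sin ((ϕ - ϕ') / 2)| ∧ |g ϕ - g ϕ'| ≤ 2 * π / n := by
  have hp := pi_pos
  have hn' : (0 : ℝ) < n := Nat.cast_pos.2 hn
  let b : ℕ → ℝ := fun j => (g (2 * π * j / (n + 2)) + π) * n / (2 * π)
  have b0 : ∀ j, 0 ≤ b j := fun j =>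
    div_nonneg (mul_nonneg (by linarith [(hg (2 * π * j / (n + 2))).1]) hn'.le) (by positivity)
  obtain ⟨j, hj, k, hk, hlt, he⟩ : ∃ j ∈ Finset.range (n + 2), ∃ k ∈ Finset.range (n + 2),
      j < k ∧ ⌊b j⌋₊ = ⌊b k⌋₊ := by
    obtain ⟨j, hj, k, hk, hne, he⟩ := Finset.exists_ne_map_eq_of_card_lt_of_maps_to
      (s := Finset.range (n + 2)) (t := Finset.range (n + 1)) (by simp) (f := fun j => ⌊b j⌋₊)
      fun j _ => by
        refine Finset.mem_coe.2 (Finset.mem_range.2 (Nat.lt_succ_of_le (Nat.floor_le_of_le ?_)))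
        rw [div_le_iff₀ (by positivity)]
        nlinarith [(hg (2 * π * j / (n + 2))).2]
    rcases hne.lt_or_gt with h | h
    · exact ⟨j, hj, k, hk, h, he⟩
    · exact ⟨k, hk, j, hj, h, he.symm⟩
  refine ⟨2 * π * k / (n + 2), 2 * π * j / (n + 2), le_trans (sin_le (by positivity) ?_ ?_)
    (le_abs_self _), ?_⟩
  · have : (j : ℝ) + 1 ≤ k := by exact_mod_cast hlt
    rw [← sub_div, div_div, div_le_div_iff₀ (by positivity) (by positivity)]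
    nlinarith [mul_pos hp (by positivity : (0 : ℝ) < n + 2)]
  · have h1 : (k : ℝ) + 1 ≤ n + 2 := by exact_mod_cast Finset.mem_range.1 hk
    have h2 : (0 : ℝ) ≤ j := Nat.cast_nonneg j
    rw [le_sub_iff_add_le, ← sub_div, div_right_comm, ← add_div, div_le_iff₀ (by positivity)]
    nlinarith
  · have h1 := Nat.floor_le (b0 j)
    have h2 := Nat.floor_le (b0 k)
    have h3 := Nat.lt_floor_add_one (b j)
    have h4 := Nat.lt_floor_add_one (b k)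
    rw [he] at h1 h3
    have h5 : g (2 * π * k / (n + 2)) - g (2 * π * j / (n + 2)) = 2 * π / n * (b k - b j) := by
      simp only [b]; field_simp; ring
    rw [h5, abs_mul, abs_of_pos (by positivity)]
    exact mul_le_of_le_one_right (by positivity) (abs_le.2 ⟨by linarith, by linarith⟩)

theorem le_of_pigeon {Y y l : ℝ} (hl : 0 < l) (hy : 0 ≤ y) (g : ℝ → ℝ) (hg : ∀ ϕ, g ϕ ∈ Icc (-π) π)
    (h : ∀ ϕ ϕ', min l (Y * (2 * |sin ((ϕ - ϕ') / 2)|)) ≤ y * |g ϕ - g ϕ'|) : Y ≤ y := by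
  by_contra! hlt
  have hp := pi_pos
  have t0 : Tendsto (fun n : ℕ => (n : ℝ)⁻¹) atTop (𝓝 0) := tendsto_inv_atTop_nhds_zero_nat
  have t1 : Tendsto (fun n : ℕ => π / ((n : ℝ) + 2)) atTop (𝓝 0) :=
    tendsto_const_nhds.div_atTop (tendsto_atTop_add_const_right _ _ tendsto_natCast_atTop_atTop)
  have e1 : ∀ᶠ n : ℕ in atTop, y * (2 * π * (n : ℝ)⁻¹) < l :=
    ((t0.const_mul _).const_mul y).eventually_lt_const (by simpa using hl)
  have e2 : ∀ᶠ n : ℕ in atTop, y * (1 + 2 * (n : ℝ)⁻¹) < Y * (1 - (π / ((n : ℝ) + 2)) ^ 2 / 6) :=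
    (((t0.const_mul 2).const_add 1).const_mul y).eventually_lt
      ((((t1.pow 2).div_const 6).const_sub 1).const_mul Y) (by simpa using hlt)
  obtain ⟨n, ⟨h1, h2⟩, hn⟩ := ((e1.and e2).and (eventually_gt_atTop 0)).exists
  have hn' : (0 : ℝ) < n := Nat.cast_pos.2 hn
  obtain ⟨ϕ, ϕ', s1, s2⟩ := pigeon g hg hn
  have ha : 0 < π / ((n : ℝ) + 2) := by positivity
  have s3 := (sin_gt_sub_cube ha).le.trans s1
  have h4 := (h ϕ ϕ').trans (mul_le_mul_of_nonneg_left s2 hy)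
  rw [div_eq_mul_inv _ (n : ℝ)] at h4
  have h5 := (min_le_iff.1 h4).resolve_left (not_le.2 h1)
  have h6 : 2 * π * (n : ℝ)⁻¹ = 2 * (π / (n + 2)) * (1 + 2 * (n : ℝ)⁻¹) := by field_simp
  rw [h6] at h5
  have h7 := mul_le_mul_of_nonneg_left s3 (hy.trans hlt.le)
  nlinarith [mul_lt_mul_of_pos_left h2 ha]

theorem XX_mem {θ : ℝ} (h : θ ∈ Ioc 0 (π / 3)) : 0 < XX θ ∧ XX θ ≤ 1 / 4 := by
  have h1 := cos_lt_cos_of_nonneg_of_le_pi le_rfl (by linarith [h.2, pi_pos]) h.1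
  have h2 := cos_le_cos_of_nonneg_of_le_pi h.1.le (by linarith [pi_pos]) h.2
  rw [cos_zero] at h1
  rw [cos_pi_div_three] at h2
  unfold XX
  constructor <;> linarith

theorem ell_zero (f s : ℝ → ℝ) : ell f s 0 = 0 := intervalIntegral.integral_same

theorem cmp (hU : S_CapU) (hL : S_CapL) (h : Prof f a0) {S S' : Set V} {s s' : ℝ → ℝ}
    (c1 : Cap S s) (c2 : Pos s (1 / 4)) (c3 : C1 s (1 / 4))
    (d1 : Cap S' s') (d2 : Pos s' (1 / 4)) (d3 : C1 s' (1 / 4)) (Ψ : S → S')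
    (h0 : ∀ p : S, p = pt s 0 0 → (Ψ p : V) = pt s' 0 0)
    (hΨ : ∀ p q : S, idist (gm f) S' (Ψ p) (Ψ q) = idist (gm f) S p q) {θ θ' : ℝ}
    (hθ : θ ∈ Ioo 0 (π / 3)) (hθ' : θ' ∈ Ioo 0 (π / 3)) (he : ell f s θ = ell f s' θ') :
    yy f s θ ≤ yy f s' θ' := by
  obtain ⟨u1, -, -, -, u5, -⟩ := hU f a0 h S s c1 c2 c3
  obtain ⟨-, v2, v3, -, v5, v6⟩ := hU f a0 h S' s' d1 d2 d3
  obtain ⟨l1, -, l3⟩ := hL f a0 h S s c1 c2 c3
  obtain ⟨m1, m2, -⟩ := hL f a0 h S' s' d1 d2 d3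
  have hp : 0 < π / 3 := by positivity
  have i0 : θ ∈ Ico 0 (π / 3) := Ioo_subset_Ico_self hθ
  have i1 : θ' ∈ Ico 0 (π / 3) := Ioo_subset_Ico_self hθ'
  have nn : ∀ t ∈ Icc 0 (π / 3), 0 ≤ ell f s' t := fun t ht => by
    simpa [ell_zero] using v3.monotoneOn ⟨le_rfl, hp.le⟩ ht ht.1
  have key : ∀ ϕ, ∃ ϕ' ∈ Icc (-π) π, (Ψ ⟨_, u1 θ i0 ϕ⟩ : V) = pt s' θ' ϕ' := by
    intro ϕ
    have e := hΨ ⟨_, u1 0 ⟨le_rfl, hp⟩ 0⟩ ⟨_, u1 θ i0 ϕ⟩
    rw [h0 _ rfl, le_antisymm (u5 θ i0 ϕ) (l1 θ i0 ϕ), he] at e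
    have hx : xc (Ψ ⟨_, u1 θ i0 ϕ⟩) < 1 / 4 := by
      by_contra! hx
      obtain ⟨t, t1, t2⟩ := exists_between hθ'.2
      have := m2 t ⟨hθ'.1.le.trans t1.le, t2⟩ _ hx
      rw [e, ENNReal.ofReal_le_ofReal_iff (nn _ (Ico_subset_Icc_self i1))] at this
      exact absurd (v3 (Ico_subset_Icc_self i1) ⟨hθ'.1.le.trans t1.le, t2.le⟩ t1) (not_lt.2 this)
    obtain ⟨t, ht, ϕ', hϕ', hq⟩ := v2 _ (Ψ _).2 hx
    refine ⟨ϕ', hϕ', ?_⟩
    rw [hq, le_antisymm (v5 t ht ϕ') (m1 t ht ϕ'), ENNReal.ofReal_eq_ofReal_iff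
      (nn _ (Ico_subset_Icc_self ht)) (nn _ (Ico_subset_Icc_self i1))] at e
    rw [hq, v3.injOn (Ico_subset_Icc_self ht) (Ico_subset_Icc_self i1) e]
  choose g hg hg' using key
  have hy : 0 ≤ yy f s' θ' := by
    have := XX_mem (Ioo_subset_Ioc_self hθ')
    exact mul_nonneg (h.fnn (d2.pos _ ⟨this.1.le, this.2⟩).le)
      (sin_nonneg_of_nonneg_of_le_pi hθ'.1.le (by linarith [hθ'.2]))
  refine le_of_forall_pos_le_add fun η hη => sub_le_iff_le_add.1 ?_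
  obtain ⟨l, hl, hl'⟩ := l3 θ hθ η hη
  refine le_of_pigeon hl hy g hg fun ϕ ϕ' => ?_
  have e := hΨ ⟨_, u1 θ i0 ϕ⟩ ⟨_, u1 θ i0 ϕ'⟩
  rw [hg', hg'] at e
  exact (ENNReal.ofReal_le_ofReal_iff (mul_nonneg hy (abs_nonneg _))).1
    ((hl' ϕ ϕ').trans (e.ge.trans (v6 θ' i1 _ _)))

theorem XX_deriv (θ : ℝ) : HasDerivAt XX (sin θ / 2) θ := by
  have := ((hasDerivAt_cos θ).const_sub 1).div_const 2
  rw [neg_neg] at this
  exact this

theorem XX_cont : Continuous XX := by unfold XX; fun_prop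

theorem ell_deriv (h : Prof f a0) {s : ℝ → ℝ} (c2 : Pos s (1 / 4)) (c3 : C1 s (1 / 4)) {θ : ℝ}
    (hθ : XX θ ∈ Ioo 0 (1 / 4)) :
    HasDerivAt (ell f s) √((deriv s (XX θ) * (sin θ / 2)) ^ 2 + f (s (XX θ)) ^ 2) θ := by
  have k1 : Continuous fun t => f (s (XX t)) := h.continuous.comp (c2.lip.continuous.comp XX_cont)
  have k2 : Measurable fun t => √((deriv s (XX t) * (sin t / 2)) ^ 2 + f (s (XX t)) ^ 2) := by
    have := (measurable_deriv s).comp XX_cont.measurable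
    exact (((this.mul (by fun_prop)).pow_const 2).add (k1.measurable.pow_const 2)).sqrt
  obtain ⟨K, hK0, hK⟩ := c2.lip.bdd
  refine intervalIntegral.integral_hasDerivAt_right ?_ k2.stronglyMeasurable.stronglyMeasurableAtFilter ?_
  · refine ((continuous_const (y := K)).add k1.abs).intervalIntegrable 0 θ |>.mono_fun'
      k2.aestronglyMeasurable (Eventually.of_forall fun t => ?_)
    have h1 : |deriv s (XX t) * (sin t / 2)| ≤ K := by
      rw [abs_mul, abs_div, abs_two]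
      nlinarith [hK (XX t), abs_sin_le_one t, abs_nonneg (deriv s (XX t)), abs_nonneg (sin t)]
    simp only [Real.norm_eq_abs, abs_of_nonneg (sqrt_nonneg _), Pi.add_apply]
    refine sqrt_le_iff.2 ⟨by positivity, ?_⟩
    rw [← sq_abs (_ * _), ← sq_abs (f _)]
    nlinarith [abs_nonneg (deriv s (XX t) * (sin t / 2)), abs_nonneg (f (s (XX t)))]
  · have := (c3.cont.continuousAt (isOpen_Ioo.mem_nhds hθ)).comp XX_cont.continuousAt
    exact (((this.mul (by fun_prop)).pow 2).add (k1.continuousAt.pow 2)).sqrt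

end IsoAux

open IsoAux

theorem sIso (hU : S_CapU) (hL : S_CapL) : S_Iso := by
  rintro f a0 h S s R c1 c2 c3 hR ⟨Φ, hΦ⟩
  have hρ := h.fpos hR
  have hp : 0 < π / 3 := by positivity
  have d1 : Cap (Metric.sphere 0 R) fun _ => R :=
    ⟨by simpa using hR.ne, fun p _ => mem_sphere_zero_iff_norm⟩
  have d2 : Pos (fun _ => R) (1 / 4) := ⟨⟨0, LipschitzWith.const R⟩, fun _ _ => hR⟩
  have d3 : C1 (fun _ => R) (1 / 4) := ⟨fun _ _ => differentiableAt_const R, by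
    simpa using continuousOn_const⟩
  have e0 : ∀ θ, ell f (fun _ => R) θ = f R * θ := fun θ => by
    simp [ell, sqrt_sq hρ.le, mul_comm]
  obtain ⟨u1, -, u3, u4, -⟩ := hU f a0 h S s c1 c2 c3
  have a1 := u1 0 ⟨le_rfl, hp⟩ 0
  have a2 := (hU f a0 h _ _ d1 d2 d3).1 0 ⟨le_rfl, hp⟩ 0
  obtain ⟨A, hA⟩ : ∃ A : V ≃ₗᵢ[ℝ] V, A (pt (fun _ => R) 0 0) = Φ.symm ⟨_, a1⟩ :=
    ⟨_, Submodule.reflection_sub ((mem_sphere_zero_iff_norm.1 a2).trans
      (mem_sphere_zero_iff_norm.1 (Φ.symm ⟨_, a1⟩).2).symm)⟩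
  obtain ⟨δ, hδ, hδ'⟩ : ∃ δ > 0, ∀ θ, dist θ 0 < δ → ell f s θ < f R * (π / 3) :=
    Metric.eventually_nhds_iff.1 (u4.continuousAt.eventually_lt continuousAt_const
      (by rw [ell_zero]; positivity))
  have key : ∀ θ ∈ Ioo 0 (min δ (π / 3)), yy f s θ = f R * sin (ell f s θ / f R) := by
    intro θ hθ
    have i0 : θ ∈ Ioo 0 (π / 3) := ⟨hθ.1, hθ.2.trans_le (min_le_right _ _)⟩
    have i1 : ell f s θ / f R ∈ Ioo 0 (π / 3) := by
      refine ⟨div_pos ?_ hρ, ?_⟩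
      · simpa [ell_zero] using u3 ⟨le_rfl, hp.le⟩ (Ioo_subset_Icc_self i0) hθ.1
      · rw [div_lt_iff₀' hρ]
        exact hδ' θ (by simpa [abs_of_pos hθ.1] using hθ.2.trans_le (min_le_left _ _))
    have he : ell f s θ = ell f (fun _ => R) (ell f s θ / f R) := by
      rw [e0, mul_div_cancel₀ _ hρ.ne']
    refine le_antisymm (cmp hU hL h c1 c2 c3 d1 d2 d3
      (fun p => ⟨A.symm (Φ.symm p), maps _ R (Φ.symm p).2⟩) (fun p hp => ?_) (fun p q => ?_)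
      i0 i1 he) (cmp hU hL h d1 d2 d3 c1 c2 c3 (fun p => Φ ⟨A p, maps _ R p.2⟩) (fun p hp => ?_)
      (fun p q => ?_) i1 i0 he.symm)
    · obtain rfl : p = ⟨_, a1⟩ := Subtype.ext hp
      simp only [← hA, LinearIsometryEquiv.symm_apply_apply]
    · rw [idist_eq, ← hΦ]; simp
    · have : (⟨A p, maps _ R p.2⟩ : Metric.sphere (0 : V) R) = Φ.symm ⟨_, a1⟩ :=
        Subtype.ext (by rw [← hA, ← hp])
      rw [this, Equiv.apply_symm_apply]
    · rw [hΦ, idist_eq]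
  have hm := XX_mem (θ := min δ (π / 3)) ⟨lt_min hδ hp, min_le_right _ _⟩
  refine ⟨_, hm.1, hm.2, fun x hx => ?_⟩
  obtain ⟨θ, hθ, rfl⟩ := intermediate_value_Ioo (lt_min hδ hp).le XX_cont.continuousOn
    (show x ∈ Ioo (XX 0) _ by simpa [XX] using hx)
  have hx' : XX θ ∈ Ioo 0 (1 / 4) := ⟨hx.1, hx.2.trans_le hm.2⟩
  have k1 : HasDerivAt (yy f s) (deriv f (s (XX θ)) * (deriv s (XX θ) * (sin θ / 2)) * sin θ +
      f (s (XX θ)) * cos θ) θ :=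
    ((h.diff _).hasDerivAt.comp θ ((c3.diff _ hx').hasDerivAt.comp θ (XX_deriv θ))).mul
      (hasDerivAt_sin θ)
  have k2 := (((ell_deriv h c2 c3 hx').div_const (f R)).sin).const_mul (f R)
  have k3 := k1.unique (k2.congr_of_eventuallyEq
    (eventually_of_mem (isOpen_Ioo.mem_nhds hθ) key))
  have k4 := key θ hθ
  have k5 : cos θ = 1 - 2 * XX θ := by unfold XX; ring
  have k6 : sin θ ^ 2 = 4 * (XX θ * (1 - XX θ)) := by rw [sin_sq, k5]; ring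
  have k7 := sq_sqrt (by positivity : 0 ≤ (deriv s (XX θ) * (sin θ / 2)) ^ 2 + f (s (XX θ)) ^ 2)
  have k8 : cos (ell f s θ / f R) ^ 2 = 1 - 4 * f (s (XX θ)) ^ 2 * (XX θ * (1 - XX θ)) / f R ^ 2 := by
    have : sin (ell f s θ / f R) = f (s (XX θ)) * sin θ / f R := by
      rw [eq_div_iff hρ.ne', mul_comm, ← k4, yy]
    rw [cos_sq', this, div_pow, mul_pow, k6]; ring
  rw [mul_left_comm (f R), mul_div_cancel₀ _ hρ.ne'] at k3
  have k9 : 2 * (deriv f (s (XX θ)) * deriv s (XX θ)) * (XX θ * (1 - XX θ)) +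
      f (s (XX θ)) * (1 - 2 * XX θ) = _ := Eq.trans (by
        rw [k5]; linear_combination -(deriv f (s (XX θ)) * deriv s (XX θ)) / 2 * k6) k3
  rw [k9, mul_pow, k8, k7]
  congr 1
  linear_combination deriv s (XX θ) ^ 2 / 4 * k6

end Pool.Agent.P.MP_ab9b82_gt
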