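import Pool.Agent.P.MP_ab9b82_gt.B2

/-! Assembly of the symmetrization inequality. -/

namespace Pool.Agent.P.MP_ab9b82_gt

open MeasureTheory Set Filter Topology Real
open scoped ENNReal

namespace LBAux

variable {f : ℝ → ℝ} {a0 : ℝ}

/-- the open spherical shell -/
def sh (α β : ℝ) : Set V := {p : V | α < ‖p‖ ∧ ‖p‖ < β}

theorem sh_meas (α β : ℝ) : MeasurableSet (sh α β) :=
  (measurableSet_Ioo (a := α) (b := β)).preimage measurable_norm

theorem good_meas {u : V → ℝ} {R : ℝ} (h : Good u R) : Measurable u :=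
  h.lip.choose_spec.continuous.measurable

theorem good_min {u : V → ℝ} {R : ℝ} (h : Good u R) : Good (fun p => min (u p) (1 - u p)) R := by
  obtain ⟨K, hK⟩ := h.lip
  refine ⟨⟨_, hK.min ((LipschitzWith.const (1 : ℝ)).sub hK)⟩, fun p => ?_, fun p => ?_,
    fun p hp => ?_⟩
  · exact le_min (h.nn p) (sub_nonneg.2 (h.le p))
  · exact (min_le_left _ _).trans (h.le p)
  · simp [h.supp p hp]

theorem shell_eq (h : Prof f a0) {u : V → ℝ} (hu : Measurable u) {φ : ℝ → ℝ≥0∞}
    (hφ : Measurable φ) (α β : ℝ) :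
    ∫⁻ p in sh α β, φ (u p) ∂mu f = ∫⁻ p : V, (fun q : ℝ × ℝ => ENNReal.ofReal (psi f q.1 ^ 2) *
      ((Ioo α β).indicator 1 q.1 * φ q.2)) (‖p‖, u p) := by
  have hm : Measurable ((sh α β).indicator fun p => φ (u p)) :=
    (hφ.comp hu).indicator (sh_meas α β)
  rw [← lintegral_indicator (sh_meas α β), lint_mu h hm]
  refine lintegral_congr fun p => ?_
  by_cases hp : p ∈ sh α β
  · have hp' : ‖p‖ ∈ Ioo α β := hp
    simp [indicator_of_mem hp, indicator_of_mem hp']
  · have hp' : ‖p‖ ∉ Ioo α β := hp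
    simp [indicator_of_notMem hp, indicator_of_notMem hp']

theorem equi_shell (h : Prof f a0) {u u' : V → ℝ} (hu : Measurable u) (hu' : Measurable u')
    (he : Equi u u') {φ : ℝ → ℝ≥0∞} (hφ : Measurable φ) (α β : ℝ) :
    ∫⁻ p in sh α β, φ (u' p) ∂mu f = ∫⁻ p in sh α β, φ (u p) ∂mu f := by
  rw [shell_eq h hu hφ, shell_eq h hu' hφ]
  refine he (fun q : ℝ × ℝ => ENNReal.ofReal (psi f q.1 ^ 2) *
    ((Ioo α β).indicator 1 q.1 * φ q.2)) ?_
  refine ((((psi_meas h).comp measurable_fst).pow_const 2).ennreal_ofReal).mul ?_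
  exact ((measurable_one.indicator measurableSet_Ioo).comp measurable_fst).mul
    (hφ.comp measurable_snd)

theorem err_meas {u : V → ℝ} (hu : Measurable u) {E : Set V} (hE : MeasurableSet E) :
    Measurable fun p => ‖u p - E.indicator 1 p‖ₑ :=
  (hu.sub (measurable_one.indicator hE)).enorm

theorem ofReal_le_err (t s : ℝ) : ENNReal.ofReal t ≤ ‖t - s‖ₑ + ENNReal.ofReal s := by
  rw [← ofReal_norm]
  refine le_trans (ENNReal.ofReal_le_ofReal ?_) ENNReal.ofReal_add_le
  rw [Real.norm_eq_abs]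
  linarith [le_abs_self (t - s)]

/-- integral of `u` over a set `S` in terms of the error and the part of `E` in `S` -/
theorem up_le {μ : Measure V} {u : V → ℝ} (hu : Measurable u) {E S T : Set V}
    (hE : MeasurableSet E) (hS : MeasurableSet S) (hT : MeasurableSet T) (hsub : E ∩ S ⊆ T) :
    ∫⁻ p in S, ENNReal.ofReal (u p) ∂μ ≤ ∫⁻ p, ‖u p - E.indicator 1 p‖ₑ ∂μ + μ T := by
  rw [← lintegral_indicator hS, ← lintegral_indicator_one hT,
    ← lintegral_add_left (err_meas hu hE)]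
  refine lintegral_mono fun p => ?_
  by_cases hp : p ∈ S
  · rw [indicator_of_mem hp]
    refine (ofReal_le_err (u p) (E.indicator 1 p)).trans (add_le_add le_rfl ?_)
    by_cases hpE : p ∈ E
    · simp [indicator_of_mem hpE, indicator_of_mem (hsub ⟨hpE, hp⟩)]
    · simp [indicator_of_notMem hpE]
  · rw [indicator_of_notMem hp]
    exact zero_le

theorem vol_le (h : Prof f a0) {u : V → ℝ} {R : ℝ} (hu : Good u R) {E : Set V}
    (hE : MeasurableSet E) :
    mu f E ≤ ∫⁻ p, ‖u p - E.indicator 1 p‖ₑ ∂mu f + ∫⁻ p in sh 0 R, ENNReal.ofReal (u p) ∂mu f := by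
  rw [← lintegral_indicator (sh_meas 0 R), ← lintegral_indicator_one hE,
    ← lintegral_add_left (err_meas (good_meas hu) hE)]
  refine lintegral_mono_ae ?_
  have h0 : ∀ᵐ p ∂mu f, p ≠ 0 := by
    rw [ae_iff]
    refine le_antisymm ((Measure.le_iff'.1 (mu_le h) _).trans (le_of_eq ?_)) zero_le
    simp
  filter_upwards [h0] with p hp
  by_cases hpE : p ∈ E
  swap
  · simp [indicator_of_notMem hpE]
  have e : (sh 0 R).indicator (fun p => ENNReal.ofReal (u p)) p = ENNReal.ofReal (u p) := by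
    by_cases hs : p ∈ sh 0 R
    · exact indicator_of_mem hs _
    · rw [indicator_of_notMem hs, hu.supp p, ENNReal.ofReal_zero]
      exact not_lt.1 fun hlt => hs ⟨norm_pos_iff.2 hp, hlt⟩
  rw [e, indicator_of_mem hpE, indicator_of_mem hpE, enorm_sub_rev]
  simpa using ofReal_le_err 1 (u p)

theorem min_le_err {μ : Measure V} {u : V → ℝ} {R : ℝ} (E : Set V) :
    ∫⁻ p in sh 0 R, ENNReal.ofReal (min (u p) (1 - u p)) ∂μ ≤
      ∫⁻ p in Metric.ball 0 R, ‖u p - E.indicator 1 p‖ₑ ∂μ := by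
  refine le_trans (lintegral_mono fun p => ?_)
    (lintegral_mono_set fun p hp => mem_ball_zero_iff.2 hp.2)
  rw [← ofReal_norm, Real.norm_eq_abs]
  refine ENNReal.ofReal_le_ofReal ?_
  by_cases hpE : p ∈ E
  · rw [indicator_of_mem hpE, Pi.one_apply, abs_sub_comm]
    exact (min_le_right _ _).trans (le_abs_self _)
  · rw [indicator_of_notMem hpE, sub_zero]
    exact (min_le_left _ _).trans (le_abs_self _)

theorem vv_eq (h : Prof f a0) {v : ℝ → ℝ} (hv : Adm v) {R : ℝ} (hR : 0 ≤ R)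
    (hz : ∀ r ≥ R, v r = 0) :
    ∫⁻ r in Ioo 0 R, ENNReal.ofReal (4 * π * (v r * f r ^ 2)) =
      ENNReal.ofReal (4 * π * VV f v 0) := by
  have hc : Continuous fun r => 4 * π * (v r * f r ^ 2) :=
    continuous_const.mul (hv.lip.continuous.mul (h.continuous.pow 2))
  rw [VV_eq hz hR, ← intervalIntegral.integral_const_mul, intervalIntegral.integral_of_le hR,
    integral_Ioc_eq_integral_Ioo, ofReal_integral_eq_lintegral_ofReal]
  · exact (hc.integrableOn_Icc (a := 0) (b := R)).mono_set Ioo_subset_Icc_self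
  · exact ae_of_all _ fun r => mul_nonneg (by positivity) (mul_nonneg (hv.nn r) (sq_nonneg _))

theorem split3 {g : ℝ → ℝ≥0∞} {R : ℝ} (hz : ∀ r ≥ R, g r = 0) :
    ∫⁻ r in Ioi (0 : ℝ), g r ≤ (∫⁻ r in Ioo 0 (R - 1), g r) + ∫⁻ r in Ioo (R - 1) R, g r := by
  have hsub : Ioi (0 : ℝ) ⊆ (Ioo 0 (R - 1) ∪ Ioo (R - 1) R) ∪ ({R - 1} ∪ Ici R) := by
    intro r hr
    rcases lt_trichotomy r (R - 1) with h | h | h
    · exact Or.inl (Or.inl ⟨hr, h⟩)
    · exact Or.inr (Or.inl h)
    · rcases lt_or_ge r R with h' | h'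
      · exact Or.inl (Or.inr ⟨h, h'⟩)
      · exact Or.inr (Or.inr h')
  refine (lintegral_mono_set hsub).trans ((lintegral_union_le _ _ _).trans ?_)
  have h1 : ∫⁻ r in ({R - 1} : Set ℝ), g r = 0 := setLIntegral_measure_zero _ _ (by simp)
  have h2 : ∫⁻ r in Ici R, g r = 0 := by
    rw [setLIntegral_congr_fun measurableSet_Ici (g := fun _ => 0) fun r hr => hz r hr]
    simp
  have h3 : ∫⁻ r in {R - 1} ∪ Ici R, g r = 0 :=
    le_antisymm ((lintegral_union_le _ _ _).trans (by rw [h1, h2, add_zero])) zero_le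
  rw [h3, add_zero]
  exact lintegral_union_le _ _ _

/-- the error integrand in the outer shell -/
theorem pt_out {F v m δ : ℝ} (hF : 0 ≤ F) (h0 : 0 ≤ v) (h1 : v ≤ 1) (hδ : 0 < δ) :
    4 * π * F * min (ph v) m ≤ 2 * π * δ + 1 / (2 * δ) * (4 * π * (v * F ^ 2)) := by
  have hp := pi_pos
  have h2 : F * min (ph v) m ≤ F * ph v := mul_le_mul_of_nonneg_left (min_le_left _ _) hF
  have h3 : ph v ^ 2 ≤ v := by rw [ph_sq h0 h1]; nlinarith
  have h4 : 2 * δ * (F * ph v) ≤ δ ^ 2 + v * F ^ 2 := by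
    nlinarith [sq_nonneg (δ - F * ph v), mul_le_mul_of_nonneg_right h3 (sq_nonneg F)]
  have h5 : F * ph v ≤ δ / 2 + 1 / (2 * δ) * (v * F ^ 2) := by
    have e : δ / 2 + 1 / (2 * δ) * (v * F ^ 2) = (δ ^ 2 + v * F ^ 2) / (2 * δ) := by
      field_simp
    rw [e, le_div_iff₀ (by positivity)]
    linarith
  nlinarith

/-- the error integrand inside -/
theorem pt_in {F r R κ a v d K m : ℝ} (hκ : 0 < κ) (ha : 0 < a) (hr : 0 < r) (hR : 1 ≤ R)
    (hrR : r ≤ R) (hF1 : a * r ≤ F) (hF2 : F ≤ r) (hd : 0 ≤ d) (hK : 0 ≤ K) (hm : 0 ≤ m)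
    (hd3 : d ^ 3 ≤ 32 * (K + 2 * m)) :
    4 * π * F * min (ph v) (κ + d / κ) ≤ 10 * π * R * κ + 128 * π * R / κ ^ 8 * (r ^ 3 * K) +
      64 * R / (a ^ 2 * κ ^ 7) * (4 * π * (m * F ^ 2)) := by
  have hp := pi_pos
  have hF : 0 < F := (mul_pos ha hr).trans_le hF1
  have hR0 : 0 < R := by linarith
  have p1 : 0 ≤ 128 * π * R / κ ^ 8 * (r ^ 3 * K) := by positivity
  have p2 : 0 ≤ 64 * R / (a ^ 2 * κ ^ 7) * (4 * π * (m * F ^ 2)) := by positivity
  rcases le_or_gt r κ with hrκ | hrκ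
  · have h1 : F * min (ph v) (κ + d / κ) ≤ κ * (1 / 2) :=
      (mul_le_mul_of_nonneg_left ((min_le_left _ _).trans (ph_le v)) hF.le).trans
        (mul_le_mul_of_nonneg_right (hF2.trans hrκ) (by norm_num))
    have h2 : κ ≤ R * κ := le_mul_of_one_le_left hκ.le hR
    have h3 : π * (F * min (ph v) (κ + d / κ)) ≤ π * (R * κ * (1 / 2)) :=
      mul_le_mul_of_nonneg_left (by linarith) hp.le
    have h4 : 0 ≤ π * (R * κ) := by positivity
    nlinarith
  · have h1 : d ≤ κ ^ 2 + d ^ 3 / κ ^ 4 := by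
      rcases le_or_gt d (κ ^ 2) with h | h
      · exact h.trans (le_add_of_nonneg_right (by positivity))
      · refine le_trans ?_ (le_add_of_nonneg_left (by positivity))
        rw [le_div_iff₀ (by positivity)]
        have : κ ^ 4 ≤ d ^ 2 := by
          have := pow_le_pow_left₀ (sq_nonneg κ) h.le 2
          linarith [show (κ ^ 2) ^ 2 = κ ^ 4 by ring]
        nlinarith
    have h2 : K ≤ r ^ 3 * K / κ ^ 3 := by
      rw [le_div_iff₀ (by positivity), mul_comm]
      exact mul_le_mul_of_nonneg_right (pow_le_pow_left₀ hκ.le hrκ.le 3) hK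
    have h3 : m ≤ m * F ^ 2 / (a ^ 2 * κ ^ 2) := by
      rw [le_div_iff₀ (by positivity), ← mul_pow]
      refine mul_le_mul_of_nonneg_left (pow_le_pow_left₀ (by positivity) ?_ 2) hm
      exact (mul_le_mul_of_nonneg_left hrκ.le ha.le).trans hF1
    have h4 : d ≤ κ ^ 2 + 32 * (r ^ 3 * K / κ ^ 3 + 2 * (m * F ^ 2 / (a ^ 2 * κ ^ 2))) / κ ^ 4 :=
      h1.trans (add_le_add le_rfl (div_le_div_of_nonneg_right (by linarith) (by positivity)))
    have h5 : F * min (ph v) (κ + d / κ) ≤ R * (κ + (κ ^ 2 + 32 * (r ^ 3 * K / κ ^ 3 +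
        2 * (m * F ^ 2 / (a ^ 2 * κ ^ 2))) / κ ^ 4) / κ) :=
      (mul_le_mul_of_nonneg_left (min_le_right _ _) hF.le).trans
        (mul_le_mul (hF2.trans hrR) (add_le_add le_rfl (div_le_div_of_nonneg_right h4 hκ.le))
          (by positivity) hR0.le)
    have e : 4 * π * (R * (κ + (κ ^ 2 + 32 * (r ^ 3 * K / κ ^ 3 +
        2 * (m * F ^ 2 / (a ^ 2 * κ ^ 2))) / κ ^ 4) / κ)) = 8 * π * R * κ +
        128 * π * R / κ ^ 8 * (r ^ 3 * K) + 64 * R / (a ^ 2 * κ ^ 7) * (4 * π * (m * F ^ 2)) := by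
      field_simp
      ring
    have h6 := mul_le_mul_of_nonneg_left h5 (by positivity : 0 ≤ 4 * π)
    have h7 : 0 ≤ π * R * κ := by positivity
    rw [e] at h6
    nlinarith

theorem ofReal_lin {x a b y : ℝ} (hb : 0 ≤ b) (h : x ≤ a + b * y) :
    ENNReal.ofReal x ≤ ENNReal.ofReal a + ENNReal.ofReal b * ENNReal.ofReal y := by
  rw [← ENNReal.ofReal_mul hb]
  exact (ENNReal.ofReal_le_ofReal h).trans ENNReal.ofReal_add_le

theorem ofReal_lin2 {x a b y c z : ℝ} (hb : 0 ≤ b) (hc : 0 ≤ c) (h : x ≤ a + b * y + c * z) :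
    ENNReal.ofReal x ≤ ENNReal.ofReal a + ENNReal.ofReal b * ENNReal.ofReal y +
      ENNReal.ofReal c * ENNReal.ofReal z :=
  (ofReal_lin hc h).trans (add_le_add (ofReal_lin hb le_rfl) le_rfl)

/-- the error term of the averaging inequality -/
theorem err_le (hA2 : S_Avg2) (h : Prof f a0) {u : V → ℝ} {R δ κ ε' : ℝ} (hu : Good u R)
    (hR : 2 ≤ R) (hδ : 0 < δ) (hκ : 0 < κ) (hε : 0 ≤ ε')
    (h1 : ∫⁻ p in sh (R - 1) R, ENNReal.ofReal (u p) ∂mu f ≤ ENNReal.ofReal (2 * δ ^ 2))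
    (h2 : ∫⁻ r in Ioi (0 : ℝ), ENNReal.ofReal (r ^ 3 * KK u r) ≤ ENNReal.ofReal ε')
    (h3 : ∫⁻ p in sh 0 (R - 1), ENNReal.ofReal (min (u p) (1 - u p)) ∂mu f ≤ ENNReal.ofReal ε') :
    ∫⁻ r in Ioi (0 : ℝ), ENNReal.ofReal (4 * π * f r * min (ph (av u r)) (κ + dl u r / κ)) ≤
      ENNReal.ofReal (10 * π * R * κ * R + 128 * π * R / κ ^ 8 * ε' +
        64 * R / (a0 ^ 2 * κ ^ 7) * ε' + (2 * π * δ + δ)) := by
  have hp := pi_pos
  have ha := h.pos
  have hR0 : 0 < R := by linarith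
  obtain ⟨hv, hz, hs, mK, -, hb⟩ := hA2 f a0 h u R hu
  obtain ⟨hw, -, hs', -⟩ := hA2 f a0 h _ R (good_min hu)
  have e1 := hs (R - 1) R (by linarith)
  have e3 := hs' 0 (R - 1) le_rfl
  change ∫⁻ p in sh (R - 1) R, _ ∂mu f = _ at e1
  change ∫⁻ p in sh 0 (R - 1), _ ∂mu f =
    ∫⁻ r in Ioo 0 (R - 1), ENNReal.ofReal (4 * π * (mn u r * f r ^ 2)) at e3
  rw [e1] at h1
  rw [e3] at h3
  have hmn : ∀ r, 0 ≤ mn u r := hw.nn
  have m1 : Measurable fun r => ENNReal.ofReal (4 * π * (av u r * f r ^ 2)) :=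
    (continuous_const.mul (hv.lip.continuous.mul (h.continuous.pow 2))).measurable.ennreal_ofReal
  have m2 : Measurable fun r : ℝ => ENNReal.ofReal (r ^ 3 * KK u r) :=
    ((measurable_id.pow_const 3).mul mK).ennreal_ofReal
  have m3 : Measurable fun r => ENNReal.ofReal (4 * π * (mn u r * f r ^ 2)) :=
    (continuous_const.mul (hw.lip.continuous.mul (h.continuous.pow 2))).measurable.ennreal_ofReal
  refine (split3 (R := R) fun r hr => ?_).trans ?_
  · rw [ENNReal.ofReal_eq_zero, hz r hr]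
    refine mul_nonpos_of_nonneg_of_nonpos ?_ ((min_le_left _ _).trans (by simp [ph]))
    have := h.fnn (hR0.le.trans hr)
    positivity
  have i1 : ∫⁻ r in Ioo 0 (R - 1),
      ENNReal.ofReal (4 * π * f r * min (ph (av u r)) (κ + dl u r / κ)) ≤
      ENNReal.ofReal (10 * π * R * κ * R + 128 * π * R / κ ^ 8 * ε' +
        64 * R / (a0 ^ 2 * κ ^ 7) * ε') := by
    refine (setLIntegral_mono' measurableSet_Ioo fun r hr => ofReal_lin2 (by positivity)
      (by positivity) (pt_in (R := R) hκ ha hr.1 (by linarith) (by linarith [hr.2])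
        (h.ge hr.1.le) (h.le hr.1.le) (hb r).2.1 (hb r).1 (hmn r) (hb r).2.2.2)).trans ?_
    rw [lintegral_add_right _ (m3.const_mul _), lintegral_add_left measurable_const,
      lintegral_const_mul _ m2, lintegral_const_mul _ m3, setLIntegral_const,
      ENNReal.ofReal_add (by positivity) (by positivity),
      ENNReal.ofReal_add (by positivity) (by positivity),
      ENNReal.ofReal_mul (q := R) (by positivity), ENNReal.ofReal_mul (q := ε') (by positivity),
      ENNReal.ofReal_mul (q := ε') (by positivity), Real.volume_Ioo]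
    refine add_le_add (add_le_add ?_ ?_) ?_
    · exact mul_le_mul_right (ENNReal.ofReal_le_ofReal (by linarith)) _
    · exact mul_le_mul_right ((lintegral_mono_set Ioo_subset_Ioi_self).trans h2) _
    · exact mul_le_mul_right h3 _
  have i2 : ∫⁻ r in Ioo (R - 1) R,
      ENNReal.ofReal (4 * π * f r * min (ph (av u r)) (κ + dl u r / κ)) ≤
      ENNReal.ofReal (2 * π * δ + δ) := by
    refine (setLIntegral_mono' measurableSet_Ioo fun r hr => ofReal_lin (by positivity)
      (pt_out (h.fnn (by linarith [hr.1])) (hv.nn r) (hv.le r) hδ)).trans ?_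
    rw [lintegral_add_left measurable_const, lintegral_const_mul _ m1, setLIntegral_const,
      ENNReal.ofReal_add (by positivity) (by positivity), Real.volume_Ioo]
    refine add_le_add (le_of_eq (by simp)) ((mul_le_mul_right h1 _).trans (le_of_eq ?_))
    rw [← ENNReal.ofReal_mul (by positivity)]
    congr 1
    field_simp
  rw [ENNReal.ofReal_add (by positivity) (by positivity)]
  exact add_le_add i1 i2

/-- an admissible profile with almost the right volume and almost the right cost -/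
theorem key (hRed : S_Red) (hPol : S_Pol) (hA1 : S_Avg1) (hA2 : S_Avg2) (h : Prof f a0)
    {E : Set V} {W c δ : ℝ} (hE : MeasurableSet E)
    (hv : mu f E = ENNReal.ofReal (4 * π * W)) (hc : per f E < ENNReal.ofReal c) (hδ : 0 < δ) :
    ∃ v, Adm v ∧ 4 * π * FF f v 0 ≤ c + δ ^ 2 + (12 * π + 2) * δ ∧
      4 * π * W ≤ δ ^ 2 + 4 * π * VV f v 0 := by
  have hp := pi_pos
  have ha := h.pos
  have hc0 : 0 < c := ENNReal.ofReal_pos.1 (lt_of_le_of_lt zero_le hc)
  obtain ⟨R, hR, H⟩ := hRed f a0 h E c hE (by rw [hv]; exact ENNReal.ofReal_ne_top) hc (δ ^ 2)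
    (by positivity)
  have hR0 : 0 < R := by linarith
  obtain ⟨κ, hκ⟩ : ∃ κ, κ = δ / R ^ 2 := ⟨_, rfl⟩
  have hκ0 : 0 < κ := by rw [hκ]; positivity
  obtain ⟨B, hB⟩ : ∃ B, B = 128 * π * R / κ ^ 8 + 64 * R / (a0 ^ 2 * κ ^ 7) := ⟨_, rfl⟩
  have hB0 : 0 < B := by rw [hB]; positivity
  have hε : 0 < δ / B := by positivity
  obtain ⟨u, hu, g1, g2, g3, g4⟩ := H _ hε
  obtain ⟨u', hu', k1, k2, k3⟩ := hPol f a0 h u R hu _ hε
  obtain ⟨hadm, hz, hs, -⟩ := hA2 f a0 h u' R hu'
  have mu := good_meas hu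
  have mu' := good_meas hu'
  refine ⟨av u', hadm, ?_, ?_⟩
  · have h1 : ∫⁻ p in sh (R - 1) R, ENNReal.ofReal (u' p) ∂Pool.Agent.P.MP_ab9b82_gt.mu f ≤
        ENNReal.ofReal (2 * δ ^ 2) := by
      rw [equi_shell h mu mu' k2 ENNReal.measurable_ofReal, two_mul,
        ENNReal.ofReal_add (by positivity) (by positivity)]
      refine (up_le mu hE (sh_meas _ _) (hE.diff Metric.isOpen_ball.measurableSet) ?_).trans
        (add_le_add g3 g4)
      rintro p ⟨hp1, hp2⟩
      exact ⟨hp1, fun hb => lt_asymm (mem_ball_zero_iff.1 hb) hp2.1⟩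
    have h3 : ∫⁻ p in sh 0 (R - 1), ENNReal.ofReal (min (u' p) (1 - u' p))
        ∂Pool.Agent.P.MP_ab9b82_gt.mu f ≤ ENNReal.ofReal (δ / B) := by
      have mφ : Measurable fun t : ℝ => ENNReal.ofReal (min t (1 - t)) := by fun_prop
      rw [equi_shell h mu mu' k2 mφ]
      exact (min_le_err E).trans g2
    have h4 := (hA1 f a0 h u' R hu' κ hκ0).trans
      (add_le_add (k1.trans g1) (err_le hA2 h hu' hR hδ hκ0 hε.le h1 k3 h3))
    rw [← ENNReal.ofReal_add (by positivity) (by positivity),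
      ENNReal.ofReal_le_ofReal_iff (by positivity)] at h4
    have e1 : 10 * π * R * κ * R = 10 * π * δ := by rw [hκ]; field_simp
    have e2 : 128 * π * R / κ ^ 8 * (δ / B) + 64 * R / (a0 ^ 2 * κ ^ 7) * (δ / B) = δ := by
      rw [← add_mul, ← hB]; field_simp
    linarith
  · have e := hs 0 R le_rfl
    change ∫⁻ p in sh 0 R, _ ∂Pool.Agent.P.MP_ab9b82_gt.mu f = _ at e
    rw [vv_eq h hadm hR0.le hz, equi_shell h mu mu' k2 ENNReal.measurable_ofReal] at e
    have h5 := (vol_le h hu hE).trans (add_le_add g3 e.le)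
    have hV := hadm.VV_nn (f := f) 0
    rwa [hv, ← ENNReal.ofReal_add (by positivity) (by positivity),
      ENNReal.ofReal_le_ofReal_iff (by positivity)] at h5

end LBAux

open LBAux in
theorem sLB : S_Red → S_Pol → S_Avg1 → S_Avg2 → S_Dil → S_LB := by
  intro hRed hPol hA1 hA2 hDil f a0 h E W hE hW hv
  have hp := pi_pos
  have main : ∀ c, per f E < ENNReal.ofReal c → 4 * π * mm f W ≤ c := by
    intro c hc
    have step : ∀ δ > 0, δ ^ 2 / (4 * π) < W → (W - δ ^ 2 / (4 * π)) ^ 2 * (4 * π * mm f W) ≤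
        W ^ 2 * (c + δ ^ 2 + (12 * π + 2) * δ) := by
      intro δ hδ hδW
      obtain ⟨v, hadm, h1, h2⟩ := key hRed hPol hA1 hA2 h hE hv hc hδ
      have h3 : W - δ ^ 2 / (4 * π) ≤ VV f v 0 := by
        rw [sub_le_iff_le_add, ← sub_le_iff_le_add', le_div_iff₀ (by positivity)]
        linarith
      have h4 : mm f (VV f v 0) ≤ FF f v 0 := hadm.mm_le
      have h5 := mm_nn f W
      have h6 := mm_nn f (VV f v 0)
      have h0 : 0 < W - δ ^ 2 / (4 * π) := sub_pos.2 hδW
      have h7 : (W - δ ^ 2 / (4 * π)) ^ 2 * mm f W ≤ W ^ 2 * mm f (VV f v 0) := by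
        generalize VV f v 0 = U at *
        have hU : 0 < U := h0.trans_le h3
        rcases le_total W U with hle | hle
        · have h8 := ((hDil f a0 h).2 W U hW hle).2
          have h9 : 0 ≤ a0 * (1 - W / U) / 3 * mm f U := by
            have := sub_nonneg.2 ((div_le_one hU).2 hle)
            have := h.pos
            positivity
          refine mul_le_mul (pow_le_pow_left₀ h0.le ?_ 2) (by linarith) h5 (sq_nonneg _)
          exact sub_le_self _ (by positivity)
        · have h8 := ((hDil f a0 h).2 U W hU hle).1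
          rw [div_pow, div_mul_eq_mul_div, le_div_iff₀ (by positivity)] at h8
          refine le_trans ?_ h8
          rw [mul_comm (mm f W)]
          exact mul_le_mul_of_nonneg_right (pow_le_pow_left₀ h0.le h3 2) h5
      have h10 : 4 * π * mm f (VV f v 0) ≤ c + δ ^ 2 + (12 * π + 2) * δ :=
        (mul_le_mul_of_nonneg_left h4 (by positivity)).trans h1
      calc _ = 4 * π * ((W - δ ^ 2 / (4 * π)) ^ 2 * mm f W) := by ring
        _ ≤ 4 * π * (W ^ 2 * mm f (VV f v 0)) := mul_le_mul_of_nonneg_left h7 (by positivity)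
        _ = W ^ 2 * (4 * π * mm f (VV f v 0)) := by ring
        _ ≤ _ := mul_le_mul_of_nonneg_left h10 (sq_nonneg _)
    have c1 : Continuous fun δ : ℝ => (W - δ ^ 2 / (4 * π)) ^ 2 * (4 * π * mm f W) := by fun_prop
    have c2 : Continuous fun δ : ℝ => W ^ 2 * (c + δ ^ 2 + (12 * π + 2) * δ) := by fun_prop
    have c3 : Continuous fun δ : ℝ => δ ^ 2 / (4 * π) := by fun_prop
    have ev : ∀ᶠ δ in 𝓝[>] (0 : ℝ), δ ^ 2 / (4 * π) < W :=
      ((c3.tendsto 0).eventually (gt_mem_nhds (by simpa using hW))).filter_mono nhdsWithin_le_nhds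
    have lim := le_of_tendsto_of_tendsto ((c1.tendsto 0).mono_left (nhdsWithin_le_nhds (s := Ioi 0)))
      ((c2.tendsto 0).mono_left nhdsWithin_le_nhds)
      (by filter_upwards [ev, self_mem_nhdsWithin] with δ h1 h2 using step δ h2 h1)
    simp only [ne_eq, OfNat.ofNat_ne_zero, not_false_eq_true, zero_pow, zero_div, sub_zero,
      add_zero, mul_zero] at lim
    exact le_of_mul_le_mul_left lim (by positivity)
  rcases eq_or_ne (per f E) ⊤ with ht | ht
  · rw [ht]; exact le_top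
  rw [← ENNReal.ofReal_toReal ht]
  refine ENNReal.ofReal_le_ofReal (le_of_forall_pos_le_add fun η hη => main _ ?_)
  rw [ENNReal.lt_ofReal_iff_toReal_lt ht]
  linarith

end Pool.Agent.P.MP_ab9b82_gt
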