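import Pool.Agent.P.MP_ab9b82_gt.B1

/-! The calibration inequality on a conical stretch. -/

namespace Pool.Agent.P.MP_ab9b82_gt

open MeasureTheory Set Filter Topology Real

namespace MIAux

variable {f : ℝ → ℝ} {a0 a Ra Rb ε : ℝ}

theorem piece {G g u k k' : ℝ → ℝ} {α β : ℝ} (hab : α ≤ β) (hu : Lip u)
    (hG : IntervalIntegrable G volume α β) (hg : Continuous g)
    (hk : ∀ x, HasDerivAt k (k' x) x) (hc : Continuous k')
    (h : ∀ᵐ r, r ∈ Icc α β → g r + (k r * deriv u r + k' r * u r) ≤ G r) :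
    (∫ r in α..β, g r) + (k β * u β - k α * u α) ≤ ∫ r in α..β, G r := by
  have kc : Continuous k := continuous_iff_continuousAt.2 fun x => (hk x).continuousAt
  have i1 : IntervalIntegrable (fun r => k r * deriv u r) volume α β :=
    (hu.ii α β).continuousOn_mul kc.continuousOn
  have i2 : IntervalIntegrable (fun r => k' r * u r) volume α β :=
    (hc.mul hu.continuous).intervalIntegrable _ _
  have i3 := hg.intervalIntegrable (μ := volume) α β
  have h1 := hu.ibp (k := k) (k' := k') (α := α) (β := β) (fun x _ => hk x) hc.continuousOn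
  have h2 := intervalIntegral.integral_mono_ae_restrict hab (i3.add (i1.add i2)) hG
    ((ae_restrict_iff' measurableSet_Icc).2 h)
  rw [intervalIntegral.integral_add i3 (i1.add i2), intervalIntegral.integral_add i1 i2, h1] at h2
  linarith

theorem exists_rho {v : ℝ → ℝ} (hv : Adm v) {b : ℝ} (hb : 0 ≤ b) (hz : ∀ r ≥ b, v r = 0) :
    ∃ ρ ∈ Icc 0 b, (∀ r ≥ ρ, ρ < r → v r ≤ 1 / 2) ∧ (ρ = 0 ∨ v ρ = 1 / 2) := by
  have hc := hv.lip.continuous
  by_cases hne : (Icc 0 b ∩ {r | 1 / 2 ≤ v r}).Nonempty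
  · obtain ⟨ρ, h1, h2⟩ :=
      (isCompact_Icc.inter_right (isClosed_le continuous_const hc)).exists_isGreatest hne
    have h3 : ∀ r, ρ < r → v r ≤ 1 / 2 := fun r hr => by
      rcases le_total r b with h | h
      · by_contra hn
        exact absurd (h2 ⟨⟨h1.1.1.trans hr.le, h⟩, (not_le.1 hn).le⟩) (not_le.2 hr)
      · rw [hz r h]; norm_num
    refine ⟨ρ, h1.1, fun r _ hr => h3 r hr, Or.inr (le_antisymm ?_ h1.2)⟩
    exact le_of_tendsto ((hc.tendsto ρ).mono_left (nhdsWithin_le_nhds (s := Ioi ρ)))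
      (eventually_nhdsWithin_of_forall h3)
  · refine ⟨0, ⟨le_rfl, hb⟩, fun r hr _ => ?_, Or.inl rfl⟩
    rcases le_total r b with h | h
    · by_contra hn
      exact hne ⟨r, ⟨hr, h⟩, (not_le.1 hn).le⟩
    · rw [hz r h]; norm_num

theorem lip_mu {v : ℝ → ℝ} (hv : Lip v) : Lip fun r => min (v r) (1 - v r) := by
  obtain ⟨K, hK⟩ := hv
  exact ⟨_, hK.min ((LipschitzWith.const (1 : ℝ)).sub hK)⟩

theorem cal {v : ℝ → ℝ} (hv : Adm v) : ∀ᵐ r, ∀ σ β : ℝ, 0 ≤ σ → 0 ≤ f r → σ ^ 2 + β ^ 2 ≤ 1 →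
    σ * (f r * min (v r) (1 - v r)) + β * (f r ^ 2 * deriv (fun r => min (v r) (1 - v r)) r) ≤
      Lg f r (v r) (deriv v r) := by
  filter_upwards [hv.lip.ae_diff, (lip_mu hv.lip).ae_diff] with r d1 d2 σ β hσ hf h
  have n0 := hv.nn r
  have n1 := hv.le r
  have m0 : 0 ≤ min (v r) (1 - v r) := le_min n0 (by linarith)
  have m1 : min (v r) (1 - v r) ≤ 1 / 2 := by
    rcases le_total (v r) (1 / 2) with h | h
    · exact (min_le_left _ _).trans h
    · exact (min_le_right _ _).trans (by linarith)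
  have e : min (v r) (1 - v r) * (1 - min (v r) (1 - v r)) ≤ v r * (1 - v r) ∧
      |deriv (fun r => min (v r) (1 - v r)) r| ≤ |deriv v r| := by
    rcases le_total (v r) (1 - v r) with h | h
    · rw [touch1 (u := fun r => min (v r) (1 - v r)) (w := v)
        (Eventually.of_forall fun y => min_le_left _ _) (min_eq_left h) d2 d1, min_eq_left h]
      exact ⟨le_rfl, le_rfl⟩
    · rw [touch1 (u := fun r => min (v r) (1 - v r)) (w := fun r => 1 - v r)
        (Eventually.of_forall fun y => min_le_right _ _) (min_eq_right h) d2 (d1.const_sub 1), min_eq_right h, deriv_const_sub, abs_neg]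
      exact ⟨le_of_eq (by ring), le_rfl⟩
  have p : min (v r) (1 - v r) ≤ ph (min (v r) (1 - v r)) :=
    Real.le_sqrt_of_sq_le (by nlinarith)
  refine le_trans ?_ ((Lg_cal (f := f) (r := r) m0 (by linarith) h).trans (Lg_mono e.1 e.2))
  gcongr

theorem caseB (h : Prof f a0) (s : Str f a Ra Rb ε) {v : ℝ → ℝ} (hv : Adm v)
    (hz : ∀ r ≥ Rb, v r = 0) {ρ : ℝ} (h2 : ρ ≤ Rb) (h3 : Ra ≤ ρ - 4 * f ρ) (hP : 0 < f ρ)
    (h4 : f Rb ≤ 4 * f ρ) (hv1 : v ρ = 1 / 2) (hv2 : ∀ r ≥ ρ, ρ < r → v r ≤ 1 / 2) :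
    f ρ ^ 2 + 2 * a / f ρ * (VV f v 0 - Wf f ρ) ≤ FF f v 0 := by
  set P := f ρ with hPd
  set μ : ℝ → ℝ := fun r => min (v r) (1 - v r) with hμ
  set lam := 2 * a / P with hlam
  set G : ℝ → ℝ := fun r => Lg f r (v r) (deriv v r) with hG
  have ha := s.apos
  have ha' := s.ale
  have hRa := s.rpos
  have lμ : Lip μ := lip_mu hv.lip
  have cμ := lμ.continuous
  have cf := h.continuous
  have cf' := h.cont
  have cv := hv.lip.continuous
  have m0 : ∀ r, 0 ≤ μ r := fun r => le_min (hv.nn r) (by linarith [hv.le r])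
  have mρ : μ ρ = 1 / 2 := by simp only [hμ, hv1]; norm_num
  have l0 : 0 ≤ lam := by positivity
  have iG : ∀ α β, IntervalIntegrable G volume α β := Lg_ii h hv.lip
  have hρ : ρ ∈ Icc Ra Rb := ⟨by linarith, h2⟩
  set z : ℝ → ℝ := fun r => (r - ρ) / (4 * P) with hzd
  set k : ℝ → ℝ := fun r => (1 - z r ^ 2) * f r ^ 2 with hk
  set k' : ℝ → ℝ := fun r =>
    -(2 * z r / (4 * P)) * f r ^ 2 + (1 - z r ^ 2) * (2 * f r * deriv f r) with hk'
  have cz : Continuous z := by fun_prop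
  have dk : ∀ x, HasDerivAt k (k' x) x := fun x => by
    have d1 : HasDerivAt z (1 / (4 * P)) x := ((hasDerivAt_id x).sub_const ρ).div_const _
    refine (((d1.pow 2).const_sub 1).mul ((h.diff x).hasDerivAt.pow 2)).congr_deriv ?_
    simp only [hk', Pi.pow_apply]
    push_cast
    ring
  have ck : Continuous k' := by fun_prop
  have cg : Continuous fun r => lam * (μ r * f r ^ 2) := by fun_prop
  have kρ : k ρ = P ^ 2 := by simp [hk, hzd, hPd]
  have ff : ∀ r ∈ Icc Ra Rb, f r = P * (1 + 4 * a * z r) := fun r hr => by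
    rw [s.eq h hρ hr]; simp only [hzd]; field_simp; ring
  have id1 : ∀ r ∈ Icc Ra Rb, k' r - lam * f r ^ 2 =
      -(f r * z r * (1 / 2 + 4 * a * z r + 8 * a ^ 2)) := fun r hr => by
    simp only [hk', hlam]
    rw [s.lin r hr, ff r hr]
    field_simp
    ring
  set b := min (ρ + 4 * P) Rb with hb
  have b1 : ρ ≤ b := le_min (by linarith) h2
  have b2 : b ≤ Rb := min_le_right _ _
  have kb : k b * μ b = 0 := by
    rcases le_total (ρ + 4 * P) Rb with h' | h'
    · have : z b = 1 := by rw [hb, min_eq_left h']; simp only [hzd]; field_simp; ring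
      simp [hk, this]
    · rw [hb, min_eq_right h']; simp [hμ, hz Rb le_rfl]
  have kc : k (ρ - 4 * P) = 0 := by
    have : z (ρ - 4 * P) = -1 := by simp only [hzd]; field_simp; ring
    simp [hk, this]
  have p1 : (∫ r in (0 : ℝ)..ρ - 4 * P, -(lam * (μ r * f r ^ 2))) ≤
      ∫ r in (0 : ℝ)..ρ - 4 * P, G r :=
    intervalIntegral.integral_mono_on (by linarith) (cg.neg.intervalIntegrable _ _) (iG _ _)
      fun r _ => le_trans (neg_nonpos.2 (mul_nonneg l0 (mul_nonneg (m0 r) (sq_nonneg _))))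
        (Lg_nn _ _ _ _)
  have p2 := piece (α := ρ - 4 * P) (β := ρ) (by linarith) lμ (iG _ _) cg.neg dk ck (by
    filter_upwards [cal (f := f) hv] with r hr hI
    have hI' : r ∈ Icc Ra Rb := ⟨by linarith [hI.1], by linarith [hI.2]⟩
    have z1 : z r ≤ 0 := div_nonpos_of_nonpos_of_nonneg (by linarith [hI.2]) (by positivity)
    have z2 : -1 ≤ z r := by
      simp only [hzd]; rw [le_div_iff₀ (by positivity)]; linarith [hI.1]
    have f0 : 0 ≤ f r := h.fnn (by linarith [hI'.1])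
    have zz : z r ^ 2 ≤ 1 := by nlinarith
    refine le_trans ?_ (hr (-z r) (1 - z r ^ 2) (by linarith) f0 (by nlinarith [sq_nonneg (z r)]))
    have e1 := id1 r hI'
    have e2 : 0 ≤ f r * (-z r) * μ r * (1 / 2 - 4 * a * z r - 8 * a ^ 2) :=
      mul_nonneg (mul_nonneg (mul_nonneg f0 (by linarith)) (m0 r)) (by nlinarith)
    have e3 : k' r * μ r = (lam * f r ^ 2 - f r * z r * (1 / 2 + 4 * a * z r + 8 * a ^ 2)) * μ r := by
      rw [show k' r = _ from sub_eq_iff_eq_add.1 e1]; ring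
    change -(lam * (μ r * f r ^ 2)) + (k r * deriv μ r + k' r * μ r) ≤
      -z r * (f r * μ r) + (1 - z r ^ 2) * (f r ^ 2 * deriv μ r)
    rw [e3]
    simp only [hk]
    nlinarith)
  have p3 := piece (α := ρ) (β := b) b1 lμ (iG _ _) cg (fun x => (dk x).neg) ck.neg (by
    filter_upwards [cal (f := f) hv] with r hr hI
    have hI' : r ∈ Icc Ra Rb := ⟨by linarith [hI.1], by linarith [hI.2]⟩
    have z1 : 0 ≤ z r := div_nonneg (by linarith [hI.1]) (by positivity)
    have z2 : z r ≤ 1 := by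
      simp only [hzd]; rw [div_le_iff₀ (by positivity)]
      linarith [hI.2, min_le_left (ρ + 4 * P) Rb]
    have f0 : 0 ≤ f r := h.fnn (by linarith [hI'.1])
    have zz : z r ^ 2 ≤ 1 := by nlinarith
    refine le_trans ?_ (hr (z r) (-(1 - z r ^ 2)) z1 f0 (by nlinarith [sq_nonneg (z r)]))
    have e1 := id1 r hI'
    have e2 : 0 ≤ f r * z r * μ r * (1 / 2 - 4 * a * z r - 8 * a ^ 2) :=
      mul_nonneg (mul_nonneg (mul_nonneg f0 z1) (m0 r)) (by nlinarith)
    have e3 : k' r * μ r = (lam * f r ^ 2 - f r * z r * (1 / 2 + 4 * a * z r + 8 * a ^ 2)) * μ r := by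
      rw [show k' r = _ from sub_eq_iff_eq_add.1 e1]; ring
    change lam * (μ r * f r ^ 2) + (-k r * deriv μ r + -k' r * μ r) ≤
      z r * (f r * μ r) + -(1 - z r ^ 2) * (f r ^ 2 * deriv μ r)
    rw [neg_mul (k' r), e3]
    simp only [hk]
    nlinarith)
  have p4 : (∫ r in b..Rb, lam * (μ r * f r ^ 2)) ≤ ∫ r in b..Rb, G r := by
    refine intervalIntegral.integral_mono_ae_restrict b2 (cg.intervalIntegrable _ _) (iG _ _)
      ((ae_restrict_iff' measurableSet_Icc).2 ?_)
    filter_upwards [cal (f := f) hv] with r hr hI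
    have f0 : 0 ≤ f r := h.fnn (by linarith [hI.1, hρ.1])
    refine le_trans ?_ (hr 1 0 zero_le_one f0 (by norm_num))
    have f1 : f r ≤ 4 * P := (h.mono.monotone hI.2).trans h4
    have f2 : lam * f r ≤ 1 := by
      rw [hlam, div_mul_eq_mul_div, div_le_one hP]; nlinarith
    change lam * (μ r * f r ^ 2) ≤ 1 * (f r * μ r) + 0 * (f r ^ 2 * deriv μ r)
    nlinarith [mul_le_mul_of_nonneg_right f2 (mul_nonneg f0 (m0 r))]
  have ρ0 : 0 ≤ ρ := by linarith [hρ.1]
  have ig : ∀ α β, IntervalIntegrable (fun r => lam * (μ r * f r ^ 2)) volume α β :=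
    fun α β => cg.intervalIntegrable _ _
  have iv : ∀ α β, IntervalIntegrable (fun r => v r * f r ^ 2) volume α β :=
    fun α β => (by fun_prop : Continuous fun r => v r * f r ^ 2).intervalIntegrable _ _
  have s1 := intervalIntegral.integral_add_adjacent_intervals (iG 0 (ρ - 4 * P)) (iG _ ρ)
  have s2 := intervalIntegral.integral_add_adjacent_intervals (iG ρ b) (iG b Rb)
  have s3 := intervalIntegral.integral_add_adjacent_intervals (iG 0 ρ) (iG ρ Rb)
  have s4 := intervalIntegral.integral_add_adjacent_intervals (ig 0 (ρ - 4 * P)) (ig _ ρ)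
  have s5 := intervalIntegral.integral_add_adjacent_intervals (ig ρ b) (ig b Rb)
  have s6 := intervalIntegral.integral_add_adjacent_intervals (iv 0 ρ) (iv ρ Rb)
  have t1 : (∫ r in ρ..Rb, lam * (μ r * f r ^ 2)) = lam * ∫ r in ρ..Rb, v r * f r ^ 2 := by
    rw [← intervalIntegral.integral_const_mul]
    refine intervalIntegral.integral_congr fun r hr => ?_
    rw [uIcc_of_le h2] at hr
    have : v r ≤ 1 / 2 := by
      rcases hr.1.eq_or_lt with h' | h'
      · rw [← h', hv1]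
      · exact hv2 r hr.1 h'
    simp only [hμ]
    rw [min_eq_left (by linarith)]
  have t2 : (∫ r in (0 : ℝ)..ρ, lam * (μ r * f r ^ 2)) ≤
      lam * (Wf f ρ - ∫ r in (0 : ℝ)..ρ, v r * f r ^ 2) := by
    rw [Wf, ← intervalIntegral.integral_sub ((by fun_prop : Continuous fun r => f r ^ 2).intervalIntegrable _ _) (iv _ _),
      ← intervalIntegral.integral_const_mul]
    refine intervalIntegral.integral_mono_on ρ0 (ig _ _)
      ((by fun_prop : Continuous fun r => lam * (f r ^ 2 - v r * f r ^ 2)).intervalIntegrable _ _)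
      fun r _ => mul_le_mul_of_nonneg_left ?_ l0
    nlinarith [mul_le_mul_of_nonneg_right (min_le_right (v r) (1 - v r)) (sq_nonneg (f r))]
  rw [FF_eq hz (ρ0.trans h2), VV_eq hz (ρ0.trans h2), ← s6]
  simp only [Pi.neg_apply, intervalIntegral.integral_neg] at p1 p2 p3
  rw [neg_mul, kb, kρ, mρ] at p3
  rw [kc, kρ, mρ] at p2
  change _ ≤ ∫ r in (0 : ℝ)..Rb, G r
  linarith

end MIAux

open MIAux

theorem sMI : S_MI := by
  intro f a0 a Ra Rb ε h s R hR hF v hv hz
  have ha := s.apos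
  have ha' := s.ale
  have hRa := s.rpos
  have fa := h.fpos hRa
  have big := s.big
  set F := f R with hFd
  have F0 : 0 < F := by linarith
  have hR' : R ∈ Icc Ra Rb := ⟨(h.mono.lt_iff_lt.1 (by linarith : f Ra < f R)).le, hR⟩
  have hRa' : Ra ∈ Icc Ra Rb := ⟨le_rfl, s.lt.le⟩
  have FRb : F ≤ f Rb := h.mono.monotone hR
  obtain ⟨ρ, ⟨ρ0, ρ1⟩, ρ2, ρ3⟩ := exists_rho hv (hRa.trans s.lt).le hz
  have G0 := FF_nn f v 0
  have mx := le_max_left (Wf f R - VV f v 0) 0
  have mx0 := le_max_right (Wf f R - VV f v 0) 0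
  rcases lt_or_ge (f ρ) (F / 2) with hc | hc
  · have e1 := s.eq h hRa' hR'
    have r1 : R - F / (2 * a) ∈ Icc Ra Rb := by
      constructor
      · have : F / (2 * a) ≤ R - Ra := by rw [div_le_iff₀ (by positivity)]; linarith
        linarith
      · have : 0 ≤ F / (2 * a) := by positivity
        linarith
    have e2 : f (R - F / (2 * a)) = F / 2 := by
      rw [s.eq h hR' r1]; field_simp; ring
    have e3 := s.Wf_eq h r1 hR'
    have e4 : Wf f ρ ≤ Wf f (R - F / (2 * a)) :=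
      h.Wf_mono (h.mono.lt_iff_lt.1 (by rw [e2]; exact hc)).le
    have e5 := hv.thin h (α := ρ) (B := 2 * F) ρ0 (fun r hr => by linarith [ρ2 r hr.le hr])
      (by positivity) fun r hr => hz r (h.mono.lt_iff_lt.1 (by linarith : f Rb < f r)).le
    have e6 := hv.FF_anti h ρ0
    have e7 := hv.VV_split h ρ0
    have cf := h.continuous
    have cv := hv.lip.continuous
    have e8 : (∫ r in (0 : ℝ)..ρ, v r * f r ^ 2) ≤ Wf f ρ :=
      intervalIntegral.integral_mono_on ρ0
        ((by fun_prop : Continuous fun r => v r * f r ^ 2).intervalIntegrable _ _)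
        ((by fun_prop : Continuous fun r => f r ^ 2).intervalIntegrable _ _) fun r _ => mul_le_of_le_one_left (sq_nonneg _) (hv.le r)
    rw [e2, ← hFd] at e3
    have e9 : 7 * F ^ 3 / 24 - 4 * a * F * FF f v 0 ≤ a * max (Wf f R - VV f v 0) 0 := by
      have : VV f v ρ ≤ 4 * F * FF f v 0 := by nlinarith
      nlinarith
    have e10 : 7 * F ^ 2 / 6 - 16 * a * FF f v 0 ≤ 4 * a / F * max (Wf f R - VV f v 0) 0 := by
      rw [div_mul_eq_mul_div, le_div_iff₀ F0]; nlinarith
    nlinarith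
  · have P0 : 0 < f ρ := by linarith
    have hρ : ρ ∈ Icc Ra Rb := ⟨(h.mono.lt_iff_lt.1 (by linarith : f Ra < f ρ)).le, ρ1⟩
    have v1 : v ρ = 1 / 2 := ρ3.resolve_left fun h0 => by linarith [hρ.1]
    have e1 := s.eq h hRa' hρ
    have e2 : Ra ≤ ρ - 4 * f ρ := by nlinarith [hρ.1]
    have e3 := caseB h s hv hz ρ1 e2 P0 (by linarith) v1 ρ2
    have e4 := s.Wf_eq h hρ hR'
    rw [← hFd] at e4
    have e5 : F ^ 2 - f ρ ^ 2 ≤ 2 * a / f ρ * (Wf f R - Wf f ρ) := by
      rw [div_mul_eq_mul_div, le_div_iff₀ P0]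
      nlinarith [mul_nonneg (sq_nonneg (F - f ρ)) (show 0 ≤ 2 * F + f ρ by positivity)]
    have e6 : 2 * a / f ρ ≤ 4 * a / F := by
      rw [div_le_div_iff₀ P0 F0]; nlinarith
    have e7 : 0 ≤ 2 * a / f ρ := by positivity
    nlinarith [mul_le_mul_of_nonneg_right e6 mx0, mul_le_mul_of_nonneg_left mx e7]

end Pool.Agent.P.MP_ab9b82_gt
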