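import Pool.Agent.P.MP_ab9b82_gt.B2

/-! Package P3: volume, perimeter, distance and completeness of the warped metric. -/

namespace Pool.Agent.P.MP_ab9b82_gt

open MeasureTheory Set Filter Topology Real
open scoped ENNReal

namespace MetAux

variable {f : ℝ → ℝ} {a0 : ℝ}

theorem gram_det (f : ℝ → ℝ) (x : V) : Matrix.det (Matrix.of fun i j : Fin 3 =>
    gm f x (EuclideanSpace.single i 1) (EuclideanSpace.single j 1)) = (psi f ‖x‖ ^ 2) ^ 2 := by
  have h1 : (1 - psi f ‖x‖ ^ 2) / ‖x‖ ^ 2 * (x 0 ^ 2 + x 1 ^ 2 + x 2 ^ 2) =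
      1 - psi f ‖x‖ ^ 2 := by
    rw [← norm_sq_eq]
    rcases eq_or_ne ‖x‖ 0 with h | h
    · simp [h, psi]
    · field_simp
  rw [Matrix.det_fin_three]
  simp only [Matrix.of_apply, gm_apply, inner_eq]
  generalize (1 - psi f ‖x‖ ^ 2) / ‖x‖ ^ 2 = c at h1 ⊢
  simp
  linear_combination (psi f ‖x‖ ^ 2) ^ 2 * h1

theorem vol_eq (f : ℝ → ℝ) : vol (gm f) = mu f := by
  unfold vol mu
  congr 1
  funext x
  rw [gram_det, Real.sqrt_sq (sq_nonneg _)]

theorem conorm_eq (h : Prof f a0) (x : V) (l : V →L[ℝ] ℝ) :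
    conorm (gm f) x l = ENNReal.ofReal (nrm f x l / psi f ‖x‖ ^ 2) := by
  have h0 : 0 < psi f ‖x‖ ^ 2 := pow_pos (psi_pos h (norm_nonneg x)) 2
  refine le_antisymm (iSup₂_le fun ξ hξ => ENNReal.ofReal_le_ofReal ?_) ?_
  · rw [le_div_iff₀ h0, mul_comm]
    exact nrm_ge f x l hξ
  · obtain ⟨ξ, h1, h2⟩ := nrm_att f x l
    refine le_iSup₂_of_le ξ h1 (le_of_eq ?_)
    rw [← h2, mul_div_cancel_left₀ _ h0.ne']

theorem lint_conorm (h : Prof f a0) (u : V → ℝ) :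
    ∫⁻ x, conorm (gm f) x (fderiv ℝ u x) ∂mu f = GG f u := by
  simp only [conorm_eq h]
  refine (lint_mu h ((nrm_meas h u).div
    (((psi_meas h).comp measurable_norm).pow_const 2)).ennreal_ofReal).trans
    (lintegral_congr fun x => ?_)
  change ENNReal.ofReal _ * ENNReal.ofReal (nrm f x (fderiv ℝ u x) / psi f ‖x‖ ^ 2) = _
  have h0 : 0 < psi f ‖x‖ ^ 2 := pow_pos (psi_pos h (norm_nonneg x)) 2
  rw [← ENNReal.ofReal_mul h0.le]
  congr 1
  exact mul_div_cancel₀ _ h0.ne'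

theorem idist_le (h : Prof f a0) (x : V) : idist (gm f) univ 0 x ≤ ENNReal.ofReal ‖x‖ := by
  have hl : ∃ K, LipschitzWith K fun t : ℝ => t • x :=
    ⟨_, ((ContinuousLinearMap.id ℝ ℝ).smulRight x).lipschitz⟩
  refine iInf_le_of_le (fun t : ℝ => t • x) (iInf_le_of_le hl (iInf_le_of_le (zero_smul _ _)
    (iInf_le_of_le (one_smul _ _) (iInf_le_of_le (fun _ _ => mem_univ _) ?_))))
  have hd : ∀ t : ℝ, deriv (fun t : ℝ => t • x) t = x := fun t => by
    simpa using ((hasDerivAt_id t).smul_const x).deriv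
  calc len (gm f) (fun t : ℝ => t • x) ≤ ∫⁻ _ in Icc (0 : ℝ) 1, ENNReal.ofReal ‖x‖ := by
        refine lintegral_mono fun t => ENNReal.ofReal_le_ofReal ?_
        rw [hd]
        exact Real.sqrt_le_iff.2 ⟨norm_nonneg _, gm_le h _ _⟩
    _ = _ := by simp

theorem le_len (h : Prof f a0) {γ : ℝ → V} (hγ : ∃ K, LipschitzWith K γ) :
    ENNReal.ofReal (a0 * ‖γ 1 - γ 0‖) ≤ len (gm f) γ := by
  obtain ⟨K, hK⟩ := hγ
  obtain ⟨g, g1, g2⟩ := exists_dual_vector'' ℝ (γ 1 - γ 0)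
  have hu : Lip fun t => (a0 • g) (γ t) := ⟨_, (a0 • g).lipschitz.comp hK⟩
  have h1 := hu.ftc 0 1
  have h2 : a0 * ‖γ 1 - γ 0‖ = (a0 • g) (γ 1) - (a0 • g) (γ 0) := by
    rw [← map_sub, smul_apply, g2]
    simp
  rw [h2, ← h1, intervalIntegral.integral_of_le zero_le_one]
  refine (Real.ofReal_le_enorm _).trans ((enorm_integral_le_lintegral_enorm _).trans ?_)
  rw [len, ← setLIntegral_congr Ioc_ae_eq_Icc]
  refine lintegral_mono_ae (ae_restrict_of_ae ?_)
  filter_upwards [hK.ae_differentiableAt (μ := volume)] with t ht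
  have h3 : deriv (fun t => (a0 • g) (γ t)) t = (a0 • g) (deriv γ t) :=
    ((a0 • g).hasFDerivAt.comp_hasDerivAt t ht.hasDerivAt).deriv
  rw [h3, ← ofReal_norm]
  refine ENNReal.ofReal_le_ofReal (Real.le_sqrt_of_sq_le (le_trans ?_ (gm_ge h _ _)))
  rw [← mul_pow, smul_apply, norm_smul, Real.norm_of_nonneg h.pos.le]
  have h4 : ‖g (deriv γ t)‖ ≤ ‖deriv γ t‖ :=
    (g.le_opNorm _).trans (mul_le_of_le_one_left (norm_nonneg _) g1)
  have := h.pos
  gcongr

theorem le_idist (h : Prof f a0) (S : Set V) (p q : V) :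
    ENNReal.ofReal (a0 * ‖q - p‖) ≤ idist (gm f) S p q := by
  refine le_iInf fun γ => le_iInf fun h1 => le_iInf fun h2 => le_iInf fun h3 => le_iInf fun _ => ?_
  rw [← h2, ← h3]
  exact le_len h h1

theorem complete (h : Prof f a0) : IsCompleteMet (gm f) := by
  intro x hx
  refine cauchySeq_tendsto_of_complete (Metric.cauchySeq_iff.2 fun ε hε => ?_)
  have h0 := mul_pos h.pos hε
  obtain ⟨N, hN⟩ := hx (ENNReal.ofReal (a0 * ε)) (ENNReal.ofReal_pos.2 h0)
  refine ⟨N, fun m hm n hn => ?_⟩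
  have := (ENNReal.ofReal_lt_ofReal_iff h0).1 ((le_idist h _ _ _).trans_lt (hN n hn m hm))
  rw [dist_eq_norm]
  exact lt_of_mul_lt_mul_left this h.pos.le

theorem growth (h : Prof f a0) : ∃ c > (0 : ℝ), ∀ r > (0 : ℝ),
    ENNReal.ofReal (c * r ^ 3) ≤ mu f {x | idist (gm f) univ 0 x < ENNReal.ofReal r} := by
  have h1 : volume (Metric.ball (0 : V) 1) ≠ ⊤ := measure_ball_lt_top.ne
  have h2 : 0 < (volume (Metric.ball (0 : V) 1)).toReal :=
    ENNReal.toReal_pos (Metric.measure_ball_pos _ _ one_pos).ne' h1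
  refine ⟨a0 ^ 2 * (volume (Metric.ball (0 : V) 1)).toReal, mul_pos (pow_pos h.pos 2) h2,
    fun r hr => ?_⟩
  have h3 : Metric.ball (0 : V) r ⊆ {x | idist (gm f) univ 0 x < ENNReal.ofReal r} := fun x hx =>
    (idist_le h x).trans_lt ((ENNReal.ofReal_lt_ofReal_iff hr).2 (by simpa using hx))
  refine le_trans ?_ ((Measure.le_iff'.1 (le_mu h) _).trans (measure_mono h3))
  rw [Measure.smul_apply, smul_eq_mul, Measure.addHaar_ball _ _ hr.le, finrank_euclideanSpace_fin,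
    mul_assoc, ENNReal.ofReal_mul (sq_nonneg _), mul_comm _ (r ^ 3),
    ENNReal.ofReal_mul (pow_pos hr 3).le, ENNReal.ofReal_toReal h1]

end MetAux

open MetAux

theorem sMet1 : S_Met1 := fun f _ h =>
  ⟨vol_eq f, fun E => by simp only [perim, per, vol_eq, lint_conorm h]⟩

theorem sMet2 : S_Met2 := fun _ _ h => ⟨idist_le h, complete h, growth h⟩

end Pool.Agent.P.MP_ab9b82_gt
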