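import Pool.Agent.P.MP_ab9b82_gt.B2

/-! Polarization of a Lipschitz function. -/

namespace Pool.Agent.P.MP_ab9b82_gt

open MeasureTheory Set Filter Topology Real
open scoped ENNReal

namespace Pol1Aux

theorem rf_apply (n p : V) : rf n p = p - (2 * (inner ℝ n p / ‖n‖ ^ 2)) • n := by
  unfold rf
  rw [Submodule.reflection_orthogonal_apply, Submodule.reflection_singleton_apply]
  simp [two_mul, add_smul, two_smul]

theorem rf_rf (n p : V) : rf n (rf n p) = p := Submodule.reflection_reflection _ p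

theorem exists_e {n : V} (hn : n ≠ 0) :
    ∃ e : V, ‖e‖ = 1 ∧ 0 ≤ e 2 ∧ ∀ p, rf n p = p - (2 * inner ℝ e p) • e := by
  have h0 : 0 < ‖n‖ := norm_pos_iff.2 hn
  have key : ∀ s : ℝ, s ^ 2 = 1 → 0 ≤ s * n 2 →
      ∃ e : V, ‖e‖ = 1 ∧ 0 ≤ e 2 ∧ ∀ p, rf n p = p - (2 * inner ℝ e p) • e := by
    intro s hs hs'
    refine ⟨(s / ‖n‖) • n, ?_, ?_, fun p => ?_⟩
    · rw [norm_smul, norm_div, norm_norm, Real.norm_eq_abs, (pow_eq_one_iff_of_nonneg (abs_nonneg s)
        two_ne_zero).1 (by rw [sq_abs, hs])]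
      field_simp
    · rw [PiLp.smul_apply, smul_eq_mul, div_mul_eq_mul_div]
      exact div_nonneg hs' h0.le
    · rw [rf_apply, real_inner_smul_left, smul_smul]
      congr 2
      field_simp
      rw [hs, mul_one]
  rcases le_total 0 (n 2) with h | h
  · exact key 1 (by norm_num) (by linarith)
  · exact key (-1) (by norm_num) (by linarith)

theorem lint_symm (σ : V ≃ₗᵢ[ℝ] V) {F G : V → ℝ≥0∞} (hF : Measurable F) (hG : Measurable G)
    (h : ∀ᵐ p, F p + F (σ p) = G p + G (σ p)) : ∫⁻ p, F p = ∫⁻ p, G p := by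
  have h1 := lintegral_congr_ae h
  rw [lintegral_add_left hF, lintegral_add_left hG, σ.measurePreserving.lintegral_comp hF,
    σ.measurePreserving.lintegral_comp hG, ← two_mul, ← two_mul] at h1
  exact (ENNReal.mul_right_inj two_ne_zero ENNReal.ofNat_ne_top).1 h1

theorem int_symm (σ : V ≃ₗᵢ[ℝ] V) {F G H : V → ℝ} (hF : Integrable F) (hG : Integrable G)
    (h : ∀ p, F p + F (σ p) = G p + G (σ p) + H p) : ∫ p, F p = (∫ p, G p) + (∫ p, H p) / 2 := by
  have hm := σ.measurePreserving
  have he := σ.toHomeomorph.measurableEmbedding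
  have hF' : Integrable fun p => F (σ p) := (hm.integrable_comp_emb he).2 hF
  have hG' : Integrable fun p => G (σ p) := (hm.integrable_comp_emb he).2 hG
  have h1 : H = fun p => (F p + F (σ p)) - (G p + G (σ p)) := by
    ext p
    linarith [h p]
  have h2 := integral_sub (hF.add hF') (hG.add hG')
  simp only [Pi.add_apply] at h2
  rw [h1, h2, integral_add hF hF', integral_add hG hG', hm.integral_comp he F,
    hm.integral_comp he G]
  ring

theorem int_JJ {u : V → ℝ} {R : ℝ} (h : Good u R) : Integrable fun p : V => u p * p 2 := by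
  obtain ⟨K, hK⟩ := h.lip
  refine Continuous.integrable_of_hasCompactSupport (hK.continuous.mul (by fun_prop)) ?_
  refine HasCompactSupport.intro (isCompact_closedBall (0 : V) R) fun p hp => ?_
  rw [h.supp p (le_of_lt (by simpa using hp)), zero_mul]

theorem nrm_comp (f : ℝ → ℝ) (σ : V ≃ₗᵢ[ℝ] V) (u : V → ℝ) (p : V) :
    nrm f p (fderiv ℝ (u ∘ σ) p) = nrm f (σ p) (fderiv ℝ u (σ p)) := by
  have := σ.toContinuousLinearEquiv.comp_right_fderiv (f := u) (x := p)
  rw [← nrm_iso]
  exact congrArg _ this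

theorem grad (f : ℝ → ℝ) (σ : V ≃ₗᵢ[ℝ] V) (hσ : ∀ p, σ (σ p) = p) {u w t : V → ℝ}
    (ht : Continuous t) (hts : ∀ p, t (σ p) = -t p)
    (hp : ∀ p, 0 ≤ t p → w p = max (u p) (u (σ p)))
    (hm : ∀ p, t p ≤ 0 → w p = min (u p) (u (σ p))) {p : V} (h0 : 0 < t p)
    (d1 : DifferentiableAt ℝ u p) (d2 : DifferentiableAt ℝ u (σ p))
    (d3 : DifferentiableAt ℝ w p) (d4 : DifferentiableAt ℝ w (σ p)) :
    ENNReal.ofReal (nrm f p (fderiv ℝ w p)) + ENNReal.ofReal (nrm f (σ p) (fderiv ℝ w (σ p))) =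
      ENNReal.ofReal (nrm f p (fderiv ℝ u p)) +
        ENNReal.ofReal (nrm f (σ p) (fderiv ℝ u (σ p))) := by
  have h1 : t (σ p) < 0 := by rw [hts]; linarith
  have e1 : ∀ᶠ q in 𝓝 p, w q = max (u q) (u (σ q)) :=
    (ht.continuousAt.eventually (lt_mem_nhds h0)).mono fun q hq => hp q hq.le
  have e2 : ∀ᶠ q in 𝓝 (σ p), w q = min (u q) (u (σ q)) :=
    (ht.continuousAt.eventually (gt_mem_nhds h1)).mono fun q hq => hm q hq.le
  have v1 := hp p h0.le
  have v2 := hm _ h1.le
  rw [hσ] at v2
  rcases le_total (u (σ p)) (u p) with h | h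
  · rw [← touch (e1.mono fun q hq => hq ▸ le_max_left _ _) (by rw [v1, max_eq_left h]) d1 d3,
      touch (e2.mono fun q hq => hq ▸ min_le_left _ _) (by rw [v2, min_eq_left h]) d4 d2]
  · have c1 : DifferentiableAt ℝ (u ∘ σ) p := d2.comp p σ.differentiableAt
    have c2 : DifferentiableAt ℝ (u ∘ σ) (σ p) :=
      DifferentiableAt.comp _ (by rwa [hσ]) σ.differentiableAt
    rw [← touch (u := u ∘ σ) (e1.mono fun q hq => hq ▸ le_max_right _ _)
        (by rw [v1, max_eq_right h]; rfl) c1 d3,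
      touch (w := u ∘ σ) (e2.mono fun q hq => hq ▸ min_le_right _ _)
        (by rw [v2, min_eq_right h, Function.comp, hσ]) d4 c2, nrm_comp, nrm_comp, hσ, add_comm]

end Pol1Aux

open Pol1Aux in
theorem sPol1 : S_Pol1 := by
  intro f a0 hf u R n hu hn
  obtain ⟨e, he, he2, hr⟩ := exists_e hn
  obtain ⟨K, hK⟩ := hu.lip
  have hσ := rf_rf n
  generalize rf n = σ at hr hσ ⊢
  set t : V → ℝ := fun p => inner ℝ e p with htd
  have ht : Continuous t := by fun_prop
  have hts : ∀ p, t (σ p) = -t p := by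
    intro p
    simp only [htd]
    rw [hr, inner_sub_right, real_inner_smul_right, real_inner_self_eq_norm_sq, he]
    ring
  have hd : ∀ p, |u p - u (σ p)| ≤ 2 * K * |t p| := by
    intro p
    have := hK.dist_le_mul p (σ p)
    rw [Real.dist_eq, dist_eq_norm, hr p, sub_sub_cancel, norm_smul, he, ← hr p, Real.norm_eq_abs,
      abs_mul, abs_two] at this
    linarith
  set w : V → ℝ := fun p => max (min (u p) (u (σ p)))
    (min (max (u p) (u (σ p))) (min (u p) (u (σ p)) + 2 * K * t p)) with hw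
  have hp : ∀ p, 0 ≤ t p → w p = max (u p) (u (σ p)) := by
    intro p h
    have h1 := hd p
    rw [abs_of_nonneg h, ← max_sub_min_eq_abs'] at h1
    simp only [hw]
    rw [min_eq_left (b := _ + _) (by linarith), max_eq_right min_le_max]
  have hm : ∀ p, t p ≤ 0 → w p = min (u p) (u (σ p)) := by
    intro p h
    have h1 : 2 * (K : ℝ) * t p ≤ 0 := mul_nonpos_of_nonneg_of_nonpos (by positivity) h
    exact max_eq_left ((min_le_right _ _).trans (by linarith))
  have pair : ∀ p, (w p = u p ∧ w (σ p) = u (σ p)) ∨ (w p = u (σ p) ∧ w (σ p) = u p) := by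
    intro p
    rcases le_total 0 (t p) with h | h
    · rw [hp p h, hm _ (by rw [hts]; linarith), hσ]
      rcases le_total (u p) (u (σ p)) with h' | h' <;> simp [h']
    · rw [hm p h, hp _ (by rw [hts]; linarith), hσ]
      rcases le_total (u p) (u (σ p)) with h' | h' <;> simp [h']
  have lw : ∃ K', LipschitzWith K' w := by
    have l1 : LipschitzWith _ fun p => u (σ p) := hK.comp σ.lipschitz
    have l2 : LipschitzWith _ fun p => 2 * K * t p := ((2 * K : ℝ) • innerSL ℝ e).lipschitz
    exact ⟨_, (hK.min l1).max ((hK.max l1).min ((hK.min l1).add l2))⟩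
  have gw : Good w R := by
    refine ⟨lw, fun p => ?_, fun p => ?_, fun p h => ?_⟩
    · rcases pair p with h | h <;> rw [h.1] <;> exact hu.nn _
    · rcases pair p with h | h <;> rw [h.1] <;> exact hu.le _
    · rcases pair p with h' | h' <;> rw [h'.1]
      · exact hu.supp _ h
      · exact hu.supp _ (by rwa [σ.norm_map])
  obtain ⟨K', hK'⟩ := lw
  refine ⟨w, gw, le_of_eq ?_, fun Φ hΦ => ?_, ?_⟩
  · refine lint_symm σ (nrm_meas hf w).ennreal_ofReal (nrm_meas hf u).ennreal_ofReal ?_
    have a1 : ∀ᵐ p : V, DifferentiableAt ℝ u p := hK.ae_differentiableAt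
    have a2 : ∀ᵐ p : V, DifferentiableAt ℝ w p := hK'.ae_differentiableAt
    have a3 : ∀ᵐ p : V, p ∉ (ℝ ∙ e)ᗮ := by
      refine measure_eq_zero_iff_ae_notMem.1 (Measure.addHaar_submodule volume _ fun h => ?_)
      have : e ∈ (ℝ ∙ e)ᗮ := h ▸ Submodule.mem_top
      rw [Submodule.mem_orthogonal_singleton_iff_inner_right, real_inner_self_eq_norm_sq, he] at this
      norm_num at this
    have q := σ.measurePreserving.quasiMeasurePreserving
    filter_upwards [a1, q.ae a1, a2, q.ae a2, a3] with p d1 d2 d3 d4 h0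
    rw [Submodule.mem_orthogonal_singleton_iff_inner_right] at h0
    rcases lt_or_gt_of_ne h0 with h | h
    · have := grad f σ hσ ht hts hp hm (p := σ p) (by rw [hts]; exact neg_pos.2 h) d2
        (by rwa [hσ]) d4 (by rwa [hσ])
      rw [hσ] at this
      rw [add_comm, this, add_comm]
    · exact grad f σ hσ ht hts hp hm h d1 d2 d3 d4
  · refine lint_symm σ (hΦ.comp (measurable_norm.prodMk hK'.continuous.measurable))
      (hΦ.comp (measurable_norm.prodMk hK.continuous.measurable)) (Eventually.of_forall fun p => ?_)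
    rw [σ.norm_map]
    rcases pair p with h | h <;> rw [h.1, h.2]
    exact add_comm _ _
  · refine int_symm σ (int_JJ gw) (int_JJ hu) fun p => ?_
    have h2 : p 2 - σ p 2 = 2 * t p * e 2 := by rw [hr]; simp [htd]
    unfold Ps
    rcases le_total 0 (t p) with h | h
    · have h3 : 0 ≤ p 2 - σ p 2 := by rw [h2]; positivity
      rw [hp p h, hm _ (by rw [hts]; linarith), hσ]
      rcases le_total (u p) (u (σ p)) with h' | h'
      · rw [max_eq_right h', min_eq_right h', max_eq_left (mul_nonneg (sub_nonneg.2 h') h3)]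
        ring
      · rw [max_eq_left h', min_eq_left h',
          max_eq_right (mul_nonpos_of_nonpos_of_nonneg (sub_nonpos.2 h') h3)]
        ring
    · have h3 : p 2 - σ p 2 ≤ 0 := by rw [h2]; nlinarith
      rw [hm p h, hp _ (by rw [hts]; linarith), hσ]
      rcases le_total (u p) (u (σ p)) with h' | h'
      · rw [min_eq_left h', max_eq_left h',
          max_eq_right (mul_nonpos_of_nonneg_of_nonpos (sub_nonneg.2 h') h3)]
        ring
      · rw [min_eq_right h', max_eq_right h',
          max_eq_left (mul_nonneg_of_nonpos_of_nonpos (sub_nonpos.2 h') h3)]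
        ring

end Pool.Agent.P.MP_ab9b82_gt
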