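import Pool.Agent.P.MP_ab9b82_gt.B2

/-! Averaging over reflections. -/

namespace Pool.Agent.P.MP_ab9b82_gt

open MeasureTheory Set Filter Topology Real
open scoped ENNReal

namespace Pol2Aux

theorem rf_apply (n p : V) : rf n p = p - (2 * (inner ℝ n p / ‖n‖ ^ 2)) • n := by
  unfold rf
  rw [Submodule.reflection_orthogonal_apply, Submodule.reflection_singleton_apply, neg_sub,
    two_smul, two_mul, add_smul]
  rfl

theorem rf_meas : Measurable fun q : V × V => rf q.2 q.1 := by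
  simp only [rf_apply]
  fun_prop

theorem rf_smul {c : ℝ} (hc : c ≠ 0) (n p : V) : rf (c • n) p = rf n p := by
  rw [rf_apply, rf_apply, smul_smul, real_inner_smul_left, norm_smul, mul_pow, Real.norm_eq_abs,
    sq_abs]
  congr 2
  by_cases h : ‖n‖ = 0
  · simp [h]
  · field_simp

/-- the reflection of `ξ` in the plane orthogonal to `n`, rescaled to the length of `n` -/
noncomputable def T (ξ n : V) : V := ‖n‖ • rf n ξ

theorem T_eq (ξ n : V) : T ξ n = ‖n‖ • ξ - (2 * inner ℝ n ξ) • (‖n‖⁻¹ • n) := by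
  rw [T, rf_apply, smul_sub, smul_smul, smul_smul]
  congr 2
  by_cases h : ‖n‖ = 0
  · simp [h]
  · field_simp

theorem norm_T {ξ : V} (hξ : ‖ξ‖ = 1) (n : V) : ‖T ξ n‖ = ‖n‖ := by
  rw [T, norm_smul, LinearIsometryEquiv.norm_map, hξ, norm_norm, mul_one]

theorem norm_unit_le (a : V) : ‖‖a‖⁻¹ • a‖ ≤ 1 := by
  rw [norm_smul, norm_inv, norm_norm]
  exact inv_mul_le_one_of_le₀ le_rfl (norm_nonneg _)

theorem unit_diff (a b : V) : ‖b‖ * ‖‖a‖⁻¹ • a - ‖b‖⁻¹ • b‖ ≤ 2 * ‖a - b‖ := by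
  by_cases hb : b = 0
  · simp [hb]
  have hb' : ‖b‖ ≠ 0 := norm_ne_zero_iff.2 hb
  by_cases ha : a = 0
  · simp only [ha, smul_zero, zero_sub, norm_neg]
    nlinarith [norm_unit_le b, norm_nonneg b]
  have ha' : ‖a‖ ≠ 0 := norm_ne_zero_iff.2 ha
  have e : ‖b‖ • (‖a‖⁻¹ • a - ‖b‖⁻¹ • b) = (‖b‖ - ‖a‖) • (‖a‖⁻¹ • a) + (a - b) := by
    rw [smul_sub, sub_smul, smul_smul ‖b‖ ‖b‖⁻¹, smul_smul ‖a‖ ‖a‖⁻¹, mul_inv_cancel₀ hb',
      mul_inv_cancel₀ ha', one_smul, one_smul]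
    abel
  have h1 := norm_add_le ((‖b‖ - ‖a‖) • (‖a‖⁻¹ • a)) (a - b)
  rw [← e, norm_smul, norm_norm, norm_smul (‖b‖ - ‖a‖), Real.norm_eq_abs] at h1
  have h2 := abs_norm_sub_norm_le b a
  rw [norm_sub_rev] at h2
  nlinarith [norm_unit_le a, abs_nonneg (‖b‖ - ‖a‖)]

theorem T_lip {ξ : V} (hξ : ‖ξ‖ = 1) : LipschitzWith 7 (T ξ) := by
  refine LipschitzWith.of_dist_le_mul fun a b => ?_
  rw [dist_eq_norm, dist_eq_norm, T_eq, T_eq]
  have e : ‖a‖ • ξ - (2 * inner ℝ a ξ) • (‖a‖⁻¹ • a) - (‖b‖ • ξ - (2 * inner ℝ b ξ) • (‖b‖⁻¹ • b)) =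
      (‖a‖ - ‖b‖) • ξ - (2 * inner ℝ (a - b) ξ) • (‖a‖⁻¹ • a) -
        (2 * inner ℝ b ξ) • (‖a‖⁻¹ • a - ‖b‖⁻¹ • b) := by
    rw [inner_sub_left]
    module
  rw [e]
  refine (norm_sub_le _ _).trans ((add_le_add_left (norm_sub_le _ _) _).trans ?_)
  rw [norm_smul, norm_smul (2 * inner ℝ (a - b) ξ), norm_smul (2 * inner ℝ b ξ), hξ]
  simp only [Real.norm_eq_abs, abs_mul, abs_two, mul_one, NNReal.coe_ofNat]
  have h1 := abs_norm_sub_norm_le a b
  have h2 := abs_real_inner_le_norm (a - b) ξ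
  have h3 := abs_real_inner_le_norm b ξ
  rw [hξ, mul_one] at h2 h3
  have h4 := unit_diff a b
  have h5 := mul_le_mul_of_nonneg_right h3 (norm_nonneg (‖a‖⁻¹ • a - ‖b‖⁻¹ • b))
  have h6 := mul_le_mul h2 (norm_unit_le a) (norm_nonneg _) (norm_nonneg _)
  linarith

theorem T_surj {ξ : V} (hξ : ‖ξ‖ = 1) {m : V} (hm : m ∉ (ℝ ∙ ξ : Submodule ℝ V)) :
    ∃ n, T ξ n = m := by
  have hm0 : m ≠ 0 := by rintro rfl; exact hm (Submodule.zero_mem _)
  have hm1 : ‖m‖ ≠ 0 := norm_ne_zero_iff.2 hm0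
  set η : V := ‖m‖⁻¹ • m with hη
  have hη1 : ‖η‖ = 1 := by rw [hη, norm_smul, norm_inv, norm_norm, inv_mul_cancel₀ hm1]
  have hmη : ‖m‖ • η = m := by rw [hη, smul_smul, mul_inv_cancel₀ hm1, one_smul]
  have hne : ‖ξ - η‖ ≠ 0 := by
    rw [norm_ne_zero_iff, sub_ne_zero]
    intro h
    exact hm (Submodule.mem_span_singleton.2 ⟨‖m‖, by rw [h, hmη]⟩)
  refine ⟨(‖m‖ / ‖ξ - η‖) • (ξ - η), ?_⟩
  rw [T, rf_smul (div_ne_zero hm1 hne), norm_smul, norm_div, norm_norm, norm_norm,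
    div_mul_cancel₀ _ hne]
  unfold rf
  rw [Submodule.reflection_sub (hξ.trans hη1.symm), hmη]

theorem vol_image {g : V → V} (hg : LipschitzWith 7 g) (s : Set V) :
    volume (g '' s) ≤ 343 * volume s := by
  have h := hg.hausdorffMeasure_image_le (d := ((3 : ℕ) : ℝ)) (by positivity) s
  rw [Measure.isAddLeftInvariant_eq_smul (volume : Measure V) μH[((3 : ℕ) : ℝ)],
    Measure.smul_apply, Measure.smul_apply, ENNReal.smul_def, ENNReal.smul_def, smul_eq_mul,
    smul_eq_mul, mul_left_comm]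
  gcongr
  refine h.trans (le_of_eq ?_)
  rw [ENNReal.rpow_natCast]
  norm_num

theorem lint_T {ξ : V} (hξ : ‖ξ‖ = 1) {h : V → ℝ≥0∞} (hh : Measurable h) :
    ∫⁻ m in Metric.ball (0 : V) 2, h m ≤ 343 * ∫⁻ n in Metric.ball (0 : V) 2, h (T ξ n) := by
  have hT := (T_lip hξ).continuous.measurable
  have h0 : volume ((ℝ ∙ ξ : Submodule ℝ V) : Set V) = 0 := by
    refine Measure.addHaar_submodule _ _ fun h => ?_
    have h1 := finrank_span_singleton (K := ℝ) (v := ξ) (by rintro rfl; simp at hξ)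
    rw [h, finrank_top] at h1
    simp at h1
  rw [← lintegral_map hh hT, ← smul_eq_mul, ← lintegral_smul_measure]
  refine lintegral_mono' (Measure.le_iff.2 fun A hA => ?_) le_rfl
  rw [Measure.smul_apply, Measure.map_apply hT hA, Measure.restrict_apply hA,
    Measure.restrict_apply (hT hA), smul_eq_mul]
  refine le_trans (measure_mono (t := T ξ '' (T ξ ⁻¹' A ∩ Metric.ball 0 2) ∪
    ((ℝ ∙ ξ : Submodule ℝ V) : Set V)) fun m hm => ?_) ((measure_union_le _ _).trans ?_)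
  · by_cases h : m ∈ (ℝ ∙ ξ : Submodule ℝ V)
    · exact Or.inr h
    · obtain ⟨n, rfl⟩ := T_surj hξ h
      refine Or.inl ⟨n, ⟨hm.1, ?_⟩, rfl⟩
      simpa [norm_T hξ] using hm.2
  · rw [h0, add_zero]
    exact vol_image (T_lip hξ) _

theorem Ps_cont {u : V → ℝ} (hu : Continuous u) : Continuous fun q : V × V => Ps u q.1 q.2 := by
  unfold Ps
  fun_prop

theorem Ps_nn (u : V → ℝ) (p q : V) : 0 ≤ Ps u p q := le_max_right _ _

theorem Om_meas : MeasurableSet Om := measurableSet_Ioo.prod measurableSet_Ioo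

/-- the inner average, for a fixed point -/
theorem inner_le (hS : S_Sph) {u : V → ℝ} (hu : Continuous u) {p : V} (hp : p ≠ 0) :
    ∫⁻ w in Om, ENNReal.ofReal (Ps u p (sp ‖p‖ w)) ≤
      343 * ∫⁻ n in Metric.ball (0 : V) 2, ENNReal.ofReal (Ps u p (rf n p)) := by
  have hp1 : ‖p‖ ≠ 0 := norm_ne_zero_iff.2 hp
  have hξ : ‖‖p‖⁻¹ • p‖ = 1 := by rw [norm_smul, norm_inv, norm_norm, inv_mul_cancel₀ hp1]
  have hh : Measurable fun m : V => ENNReal.ofReal (Ps u p ((‖p‖ / ‖m‖) • m)) :=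
    ENNReal.measurable_ofReal.comp ((Ps_cont hu).measurable.comp
      (f := fun m : V => (p, (‖p‖ / ‖m‖) • m)) (by fun_prop))
  refine le_trans ?_ ((lint_T hξ hh).trans (le_of_eq ?_))
  · rw [← lintegral_indicator Metric.isOpen_ball.measurableSet,
      hS _ (hh.indicator Metric.isOpen_ball.measurableSet)]
    refine le_trans ?_ (lintegral_mono_set (s := Ioo (1 : ℝ) 2) fun r hr => lt_trans one_pos hr.1)
    refine le_trans (le_of_eq ?_) (setLIntegral_mono' (f := fun _ =>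
      ∫⁻ w in Om, ENNReal.ofReal (Ps u p (sp ‖p‖ w))) measurableSet_Ioo fun r hr => ?_)
    · rw [setLIntegral_const, Real.volume_Ioo]
      norm_num
    · refine setLIntegral_mono' Om_meas fun w hw => ?_
      have hr0 : 0 < r := lt_trans one_pos hr.1
      have hn : ‖sp r w‖ = r := by rw [norm_sp r (Ioo_subset_Icc_self hw.1), abs_of_pos hr0]
      rw [indicator_of_mem (by simpa [hn] using hr.2), hn, sp_smul r, smul_smul,
        div_mul_cancel₀ _ hr0.ne', ← sp_smul]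
      refine le_mul_of_one_le_left' ?_
      rw [← ENNReal.ofReal_one]
      exact ENNReal.ofReal_le_ofReal (by nlinarith [hr.1])
  · congr 1
    refine lintegral_congr_ae (ae_restrict_of_ae ?_)
    filter_upwards [compl_mem_ae_iff.2 (measure_singleton (0 : V))] with n hn
    have hn1 : ‖n‖ ≠ 0 := norm_ne_zero_iff.2 hn
    rw [norm_T hξ, T, smul_smul, div_mul_cancel₀ _ hn1, map_smul, smul_smul, mul_inv_cancel₀ hp1,
      one_smul]

theorem Ps_int {u : V → ℝ} {R : ℝ} (hu : Good u R) (n : V) :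
    Integrable fun p => Ps u p (rf n p) := by
  refine Continuous.integrable_of_hasCompactSupport ((Ps_cont hu.lip.choose_spec.continuous).comp
    (f := fun p : V => (p, rf n p)) (by fun_prop)) ?_
  refine HasCompactSupport.intro (isCompact_closedBall 0 R) fun p hp => ?_
  have h : R ≤ ‖p‖ := le_of_lt (by simpa using hp)
  simp [Ps, hu.supp p h, hu.supp (rf n p) (by simpa using h)]

theorem KK_le (u : V → ℝ) {r : ℝ} (hr : 0 < r) :
    ENNReal.ofReal (r ^ 3 * KK u r) ≤ ∫⁻ z in Om, ENNReal.ofReal (2 * r ^ 2) *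
      ∫⁻ w in Om, ENNReal.ofReal (Ps u (sp r z) (sp ‖sp r z‖ w)) := by
  have h1 : ENNReal.ofReal (KK u r) ≤ ∫⁻ z in Om, ∫⁻ w in Om,
      ENNReal.ofReal (max ((u (sp r w) - u (sp r z)) * (z.1 - w.1)) 0) := by
    refine le_trans (ENNReal.ofReal_le_ofReal (div_le_self (integral_nonneg fun z =>
      integral_nonneg fun w => le_max_right _ _) (by nlinarith [pi_gt_three]))) ?_
    refine (Real.ofReal_le_enorm _).trans ((enorm_integral_le_lintegral_enorm _).trans
      (lintegral_mono fun z => (enorm_integral_le_lintegral_enorm _).trans (le_of_eq ?_)))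
    exact lintegral_congr fun w => Real.enorm_eq_ofReal (le_max_right _ _)
  rw [ENNReal.ofReal_mul (by positivity)]
  refine (mul_le_mul_right h1 _).trans ?_
  rw [← lintegral_const_mul' _ _ ENNReal.ofReal_ne_top]
  refine setLIntegral_mono' Om_meas fun z hz => ?_
  rw [norm_sp r (Ioo_subset_Icc_self hz.1), abs_of_pos hr,
    ← lintegral_const_mul' _ _ ENNReal.ofReal_ne_top,
    ← lintegral_const_mul' _ _ ENNReal.ofReal_ne_top]
  refine lintegral_mono fun w => ?_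
  rw [← ENNReal.ofReal_mul (by positivity), ← ENNReal.ofReal_mul (by positivity)]
  refine ENNReal.ofReal_le_ofReal ?_
  have e : Ps u (sp r z) (sp r w) = 2 * r * max ((u (sp r w) - u (sp r z)) * (z.1 - w.1)) 0 := by
    rw [Ps, sp_two, sp_two, mul_max_of_nonneg _ _ (by positivity), mul_zero]
    congr 1
    ring
  rw [e]
  have := mul_nonneg (pow_pos hr 3).le (le_max_right ((u (sp r w) - u (sp r z)) * (z.1 - w.1)) 0)
  nlinarith

theorem JJ_le {u : V → ℝ} {R : ℝ} (hu : Good u R) :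
    JJ u ≤ ∫ p, (Metric.ball (0 : V) R).indicator (fun _ => R) p := by
  unfold JJ
  refine (Real.le_norm_self _).trans (norm_integral_le_of_norm_le
    ((integrableOn_const measure_ball_lt_top.ne).integrable_indicator measurableSet_ball)
    (Eventually.of_forall fun p => ?_))
  by_cases h : ‖p‖ < R
  · rw [indicator_of_mem (by simpa using h), norm_mul, Real.norm_eq_abs, Real.norm_eq_abs,
      abs_of_nonneg (hu.nn p)]
    nlinarith [hu.nn p, hu.le p, abs_two_le p, abs_nonneg (p 2)]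
  · rw [indicator_of_notMem (by simpa using h), hu.supp p (not_lt.1 h)]
    simp

end Pol2Aux

open Pol2Aux

theorem sPol2 (hS : S_Sph) : S_Pol2 := by
  refine ⟨343 * (volume (Metric.ball (0 : V) 2)).toReal, fun u R ε hu h => ?_⟩
  have hc := hu.lip.choose_spec.continuous
  have hH : Measurable fun p : V => ∫⁻ w in Om, ENNReal.ofReal (Ps u p (sp ‖p‖ w)) := by
    refine Measurable.lintegral_prod_right' (f := fun q : V × ℝ × ℝ =>
      ENNReal.ofReal (Ps u q.1 (sp ‖q.1‖ q.2))) (ENNReal.measurable_ofReal.comp ?_)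
    exact ((Ps_cont hc).comp (f := fun q : V × ℝ × ℝ => (q.1, sp ‖q.1‖ q.2)) (continuous_fst.prodMk
      (sp_cont.comp (f := fun q : V × ℝ × ℝ => (‖q.1‖, q.2)) (by fun_prop)))).measurable
  have hP : Measurable fun q : V × V => ENNReal.ofReal (Ps u q.1 (rf q.2 q.1)) :=
    ENNReal.measurable_ofReal.comp ((Ps_cont hc).measurable.comp
      (f := fun q : V × V => (q.1, rf q.2 q.1)) (measurable_fst.prodMk rf_meas))
  calc ∫⁻ r in Ioi (0 : ℝ), ENNReal.ofReal (r ^ 3 * KK u r)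
      ≤ ∫⁻ p, ∫⁻ w in Om, ENNReal.ofReal (Ps u p (sp ‖p‖ w)) := by
        rw [hS _ hH]
        exact setLIntegral_mono' measurableSet_Ioi fun r hr => KK_le u hr
    _ ≤ ∫⁻ p, 343 * ∫⁻ n in Metric.ball (0 : V) 2, ENNReal.ofReal (Ps u p (rf n p)) := by
        refine lintegral_mono_ae ?_
        filter_upwards [compl_mem_ae_iff.2 (measure_singleton (0 : V))] with p hp
        exact inner_le hS hc hp
    _ = 343 * ∫⁻ n in Metric.ball (0 : V) 2, ∫⁻ p, ENNReal.ofReal (Ps u p (rf n p)) := by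
        rw [lintegral_const_mul' _ _ (by norm_num), lintegral_lintegral_swap hP.aemeasurable]
    _ ≤ 343 * ∫⁻ _ in Metric.ball (0 : V) 2, ENNReal.ofReal ε := by
        refine mul_le_mul_right (lintegral_mono_ae (ae_restrict_of_ae ?_)) _
        filter_upwards [compl_mem_ae_iff.2 (measure_singleton (0 : V))] with n hn
        rw [← ofReal_integral_eq_lintegral_ofReal (Ps_int hu n)
          (Eventually.of_forall fun p => Ps_nn ..)]
        exact ENNReal.ofReal_le_ofReal (h n hn)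
    _ = _ := by
        rw [setLIntegral_const, ENNReal.ofReal_mul (by positivity),
          ENNReal.ofReal_mul (by positivity), ENNReal.ofReal_toReal measure_ball_lt_top.ne,
          mul_assoc, mul_comm (ENNReal.ofReal ε)]
        norm_num

theorem sPol (h1 : S_Pol1) (h2 : S_Pol2) : S_Pol := by
  intro f a0 hf u R hu ε hε
  obtain ⟨C, hC⟩ := h2
  set A : Set ℝ := {c | ∃ u', (Good u' R ∧ GG f u' ≤ GG f u ∧ Equi u u') ∧ JJ u' = c} with hA
  have hb : BddAbove A := ⟨_, by rintro c ⟨u', h, rfl⟩; exact JJ_le h.1⟩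
  have hne : A.Nonempty := ⟨_, u, ⟨hu, le_rfl, fun _ _ => rfl⟩, rfl⟩
  have hδ : 0 < ε / (2 * (|C| + 1)) := by positivity
  obtain ⟨_, ⟨u', hu', rfl⟩, hlt⟩ := exists_lt_of_lt_csSup hne (sub_lt_self (sSup A) hδ)
  refine ⟨u', hu'.1, hu'.2.1, hu'.2.2, (hC u' R (ε / (|C| + 1)) hu'.1 fun n hn => ?_).trans
    (ENNReal.ofReal_le_ofReal ?_)⟩
  · obtain ⟨w, g1, g2, g3, g4⟩ := h1 f a0 hf u' R n hu'.1 hn
    have := le_csSup hb ⟨w, ⟨g1, g2.trans hu'.2.1,
      fun Φ hΦ => (g3 Φ hΦ).trans (hu'.2.2 Φ hΦ)⟩, rfl⟩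
    have e : ε / (|C| + 1) = 2 * (ε / (2 * (|C| + 1))) := by field_simp
    linarith
  · rw [← mul_div_assoc, div_le_iff₀ (by positivity)]
    nlinarith [le_abs_self C]

end Pool.Agent.P.MP_ab9b82_gt
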