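import Pool.Agent.P.MP_ab9b82_gt.B1

/-! Package P1: construction of the profile. -/

namespace Pool.Agent.P.MP_ab9b82_gt

open MeasureTheory Set Filter Topology Real
open scoped ContDiff

noncomputable section

namespace ProfAux

/-- sizes of the drops -/
def dd (i : ℕ) : ℝ := 1 / 1000 / 2 ^ (i + 2)

/-- positions of the drops -/
def RR (i : ℕ) : ℝ := 400000 ^ (i + 1)

/-- widths of the drops -/
def ww (i : ℕ) : ℝ := dd i * RR i / 64000

/-- one drop -/
def TT (i : ℕ) (r : ℝ) : ℝ := dd i * smoothTransition ((r - RR i) / ww i)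

/-- finite approximations of the slope -/
def hn (n : ℕ) (r : ℝ) : ℝ :=
  1 - (1 - 1 / 1000) * smoothTransition (r - 1) - ∑ i ∈ Finset.range n, TT i r

/-- the slope -/
def hh (r : ℝ) : ℝ := 1 - (1 - 1 / 1000) * smoothTransition (r - 1) - ∑' i, TT i r

/-- the profile -/
def ff (r : ℝ) : ℝ := ∫ t in (0 : ℝ)..r, hh t

theorem dd_pos (i : ℕ) : 0 < dd i := by unfold dd; positivity

theorem dd_le (i : ℕ) : dd i ≤ 1 := by
  unfold dd
  rw [div_le_one (by positivity)]
  exact le_trans (by norm_num) (one_le_pow₀ (by norm_num : (1 : ℝ) ≤ 2))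

theorem sum_dd (n : ℕ) : ∑ i ∈ Finset.range n, dd i = 1 / 2000 - 1 / 1000 / 2 ^ (n + 1) := by
  induction n with
  | zero => norm_num
  | succ n ih =>
    rw [Finset.sum_range_succ, ih, dd]
    field_simp
    ring

theorem sum_dd_le (n : ℕ) : ∑ i ∈ Finset.range n, dd i ≤ 1 / 2000 := by
  rw [sum_dd]
  have : (0 : ℝ) < 1 / 1000 / 2 ^ (n + 1) := by positivity
  linarith

theorem RR_pos (i : ℕ) : 0 < RR i := by unfold RR; positivity

theorem RR_succ (i : ℕ) : RR (i + 1) = 400000 * RR i := by unfold RR; ring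

theorem RR_mono : Monotone RR :=
  monotone_nat_of_le_succ fun i => by rw [RR_succ]; linarith [RR_pos i]

theorem RR_ge (i : ℕ) : (i : ℝ) + 1 ≤ RR i := by
  induction i with
  | zero => norm_num [RR]
  | succ n ih =>
    rw [RR_succ]
    push_cast
    have : (0 : ℝ) ≤ n := Nat.cast_nonneg n
    linarith

theorem RR_two {i j : ℕ} (h : i < j) : 2 * RR i ≤ RR j := by
  have := RR_mono (Nat.succ_le_of_lt h)
  rw [Nat.succ_eq_add_one, RR_succ] at this
  linarith [RR_pos i]

theorem ww_pos (i : ℕ) : 0 < ww i := by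
  unfold ww
  exact div_pos (mul_pos (dd_pos i) (RR_pos i)) (by norm_num)

theorem ww_le (i : ℕ) : ww i ≤ RR i / 8 := by
  unfold ww
  nlinarith [dd_le i, RR_pos i, dd_pos i]

theorem exists_lt (r : ℝ) : ∃ n, r < RR n := by
  obtain ⟨n, hn⟩ := exists_nat_gt r
  exact ⟨n, by linarith [RR_ge n]⟩

theorem TT_zero {i : ℕ} {r : ℝ} (h : r ≤ RR i) : TT i r = 0 := by
  rw [TT, smoothTransition.zero_of_nonpos
    (div_nonpos_of_nonpos_of_nonneg (by linarith) (ww_pos i).le), mul_zero]

theorem TT_one {i : ℕ} {r : ℝ} (h : RR i + ww i ≤ r) : TT i r = dd i := by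
  rw [TT, smoothTransition.one_of_one_le (by rw [le_div_iff₀ (ww_pos i)]; linarith), mul_one]

theorem TT_mono (i : ℕ) : Monotone (TT i) := fun a b hab =>
  mul_le_mul_of_nonneg_left (smoothTransition.monotone
    (div_le_div_of_nonneg_right (by linarith) (ww_pos i).le)) (dd_pos i).le

theorem TT_nonneg (i : ℕ) (r : ℝ) : 0 ≤ TT i r :=
  mul_nonneg (dd_pos i).le (smoothTransition.nonneg _)

theorem TT_le (i : ℕ) (r : ℝ) : TT i r ≤ dd i :=
  mul_le_of_le_one_right (dd_pos i).le (smoothTransition.le_one _)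

theorem hh_eq {n : ℕ} {r : ℝ} (h : r ≤ RR n) : hh r = hn n r := by
  unfold hh hn
  rw [tsum_eq_sum (s := Finset.range n) fun i hi =>
    TT_zero (h.trans (RR_mono (not_lt.mp (Finset.mem_range.not.mp hi))))]

theorem hh_ev {n : ℕ} {r : ℝ} (h : r < RR n) : hh =ᶠ[𝓝 r] hn n := by
  filter_upwards [Iio_mem_nhds h] with t ht using hh_eq ht.le

theorem st_smooth : ContDiff ℝ ∞ smoothTransition := smoothTransition.contDiff

theorem hn_smooth (n : ℕ) : ContDiff ℝ ∞ (hn n) := by
  unfold hn TT
  refine (contDiff_const.sub (contDiff_const.mul (st_smooth.comp (by fun_prop)))).sub ?_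
  exact ContDiff.sum fun i _ => contDiff_const.mul (st_smooth.comp (by fun_prop))

theorem hh_smooth : ContDiff ℝ ∞ hh := by
  refine contDiff_iff_contDiffAt.mpr fun r => ?_
  obtain ⟨n, hn'⟩ := exists_lt r
  exact (hn_smooth n).contDiffAt.congr_of_eventuallyEq (hh_ev hn')

theorem hh_anti : Antitone hh := by
  intro a b hab
  obtain ⟨n, hn'⟩ := exists_lt b
  rw [hh_eq hn'.le, hh_eq (hab.trans hn'.le)]
  unfold hn
  have h1 : smoothTransition (a - 1) ≤ smoothTransition (b - 1) :=
    smoothTransition.monotone (by linarith)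
  have h2 : ∑ i ∈ Finset.range n, TT i a ≤ ∑ i ∈ Finset.range n, TT i b :=
    Finset.sum_le_sum fun i _ => TT_mono i hab
  linarith

theorem hh_lo (r : ℝ) : 1 / 2000 ≤ hh r := by
  obtain ⟨n, hn'⟩ := exists_lt r
  rw [hh_eq hn'.le]
  unfold hn
  have h1 := smoothTransition.le_one (r - 1)
  have h2 : ∑ i ∈ Finset.range n, TT i r ≤ ∑ i ∈ Finset.range n, dd i :=
    Finset.sum_le_sum fun i _ => TT_le i r
  linarith [sum_dd_le n]

theorem hh_hi (r : ℝ) : hh r ≤ 1 := by
  obtain ⟨n, hn'⟩ := exists_lt r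
  rw [hh_eq hn'.le]
  unfold hn
  have h1 := smoothTransition.nonneg (r - 1)
  have h2 : 0 ≤ ∑ i ∈ Finset.range n, TT i r := Finset.sum_nonneg fun i _ => TT_nonneg i r
  linarith

theorem hh_flat {r : ℝ} (h : r ≤ 1) : hh r = 1 := by
  rw [hh_eq (n := 0) (by linarith [RR_ge 0, (Nat.cast_nonneg 0 : (0 : ℝ) ≤ (0 : ℕ))])]
  simp [hn, smoothTransition.zero_of_nonpos (by linarith : r - 1 ≤ 0)]

theorem hh_val {n : ℕ} {r : ℝ} (h2 : 2 ≤ r) (h1 : ∀ j < n, RR j + ww j ≤ r) (h : r ≤ RR n) :
    hh r = 1 / 1000 - ∑ i ∈ Finset.range n, dd i := by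
  rw [hh_eq h]
  unfold hn
  rw [smoothTransition.one_of_one_le (by linarith),
    Finset.sum_congr rfl fun j hj => TT_one (h1 j (Finset.mem_range.mp hj))]
  ring

theorem ff_deriv (r : ℝ) : HasDerivAt ff (hh r) r :=
  intervalIntegral.integral_hasDerivAt_right (hh_smooth.continuous.intervalIntegrable _ _)
    (hh_smooth.continuous.stronglyMeasurableAtFilter _ _) hh_smooth.continuous.continuousAt

theorem deriv_ff : deriv ff = hh := funext fun r => (ff_deriv r).deriv

theorem ff_prof : Prof ff (1 / 2000) where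
  zero := by simp [ff]
  diff := fun r => (ff_deriv r).differentiableAt
  cont := by rw [deriv_ff]; exact hh_smooth.continuous
  anti := by rw [deriv_ff]; exact hh_anti
  pos := by norm_num
  lo := by rw [deriv_ff]; exact hh_lo
  hi := by rw [deriv_ff]; exact hh_hi

theorem st_deriv_zero {x : ℝ} (h : x ≤ 0 ∨ 1 ≤ x) : deriv smoothTransition x = 0 := by
  rcases h with h | h
  · refine IsLocalMin.deriv_eq_zero (Eventually.of_forall fun y => ?_)
    rw [smoothTransition.zero_of_nonpos h]
    exact smoothTransition.nonneg y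
  · refine IsLocalMax.deriv_eq_zero (Eventually.of_forall fun y => ?_)
    rw [smoothTransition.one_of_one_le h]
    exact smoothTransition.le_one y

theorem st_deriv_bdd : ∃ M : ℝ, 0 ≤ M ∧ ∀ x, |deriv smoothTransition x| ≤ M := by
  have hc : Continuous (deriv smoothTransition) := st_smooth.continuous_deriv (by simp)
  obtain ⟨M, hM⟩ := isCompact_Icc.exists_bound_of_continuousOn (s := Icc (0 : ℝ) 1) hc.continuousOn
  refine ⟨max M 0, le_max_right _ _, fun x => ?_⟩
  by_cases hx : x ≤ 0 ∨ 1 ≤ x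
  · rw [st_deriv_zero hx, abs_zero]
    exact le_max_right _ _
  · push Not at hx
    exact (hM x ⟨hx.1.le, hx.2.le⟩).trans (le_max_left _ _)

theorem st_has (x : ℝ) : HasDerivAt smoothTransition (deriv smoothTransition x) x :=
  (st_smooth.differentiable (by simp) x).hasDerivAt

/-- derivative of one drop -/
def TD (i : ℕ) (r : ℝ) : ℝ := dd i * (deriv smoothTransition ((r - RR i) / ww i) * (1 / ww i))

theorem TT_has (i : ℕ) (r : ℝ) : HasDerivAt (TT i) (TD i r) r :=
  ((st_has _).comp r (((hasDerivAt_id r).sub_const (RR i)).div_const (ww i))).const_mul (dd i)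

theorem TD_zero {i : ℕ} {r : ℝ} (h : r ≤ RR i ∨ 2 * RR i ≤ r) : TD i r = 0 := by
  rw [TD, st_deriv_zero, zero_mul, mul_zero]
  rcases h with h | h
  · exact Or.inl (div_nonpos_of_nonpos_of_nonneg (by linarith) (ww_pos i).le)
  · right
    rw [le_div_iff₀ (ww_pos i)]
    linarith [ww_le i, RR_pos i]

theorem hh_has {n : ℕ} {r : ℝ} (h : r < RR n) : HasDerivAt hh
    (-((1 - 1 / 1000) * deriv smoothTransition (r - 1)) - ∑ i ∈ Finset.range n, TD i r) r := by
  refine HasDerivAt.congr_of_eventuallyEq ?_ (hh_ev h)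
  have h1 : HasDerivAt (fun t => smoothTransition (t - 1)) (deriv smoothTransition (r - 1)) r :=
    (st_has (r - 1)).comp_sub_const r 1
  exact ((h1.const_mul _).const_sub 1).sub (HasDerivAt.fun_sum fun i _ => TT_has i r)

theorem ff_nice : Nice ff where
  smooth := contDiff_infty_iff_deriv.mpr ⟨ff_prof.diff, by rw [deriv_ff]; exact hh_smooth⟩
  flat := fun r hr => by
    unfold ff
    rw [intervalIntegral.integral_congr (g := fun _ => (1 : ℝ)) fun t ht =>
      hh_flat (ht.2.trans (max_le zero_le_one hr))]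
    simp
  dec := by
    obtain ⟨M, hM0, hM⟩ := st_deriv_bdd
    refine ⟨2 * M + 128000 * M, fun r hr => ?_⟩
    obtain ⟨n, hn'⟩ := exists_lt r
    rw [deriv_ff, (hh_has hn').deriv, mul_sub]
    refine (abs_sub _ _).trans (add_le_add ?_ ?_)
    · by_cases h2 : 2 ≤ r
      · rw [st_deriv_zero (Or.inr (by linarith))]
        simp only [mul_zero, neg_zero, abs_zero]
        positivity
      · rw [abs_mul, abs_neg, abs_mul, abs_of_nonneg hr, abs_of_pos (by norm_num)]
        have := hM (r - 1)
        have := abs_nonneg (deriv smoothTransition (r - 1))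
        nlinarith
    · by_cases hw : ∃ i, RR i < r ∧ r < 2 * RR i
      · obtain ⟨i, h1, h2⟩ := hw
        rw [Finset.sum_eq_single i]
        · have hw0 := ww_pos i
          have e : r * TD i r = 64000 * (r / RR i) * deriv smoothTransition ((r - RR i) / ww i) := by
            have := (dd_pos i).ne'
            have := (RR_pos i).ne'
            rw [TD]
            generalize deriv smoothTransition ((r - RR i) / ww i) = x
            unfold ww
            field_simp
          have h3 : r / RR i ≤ 2 := by rw [div_le_iff₀ (RR_pos i)]; exact h2.le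
          have h4 : 0 ≤ r / RR i := div_nonneg hr (RR_pos i).le
          rw [e, abs_mul, abs_of_nonneg (by positivity)]
          have := hM ((r - RR i) / ww i)
          have := abs_nonneg (deriv smoothTransition ((r - RR i) / ww i))
          nlinarith
        · intro j _ hj
          rcases lt_or_gt_of_ne hj with h | h
          · exact TD_zero (Or.inr (by linarith [RR_two h]))
          · exact TD_zero (Or.inl (by linarith [RR_two h]))
        · intro hi
          exact TD_zero (Or.inl (hn'.le.trans (RR_mono (not_lt.mp (Finset.mem_range.not.mp hi)))))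
      · push Not at hw
        rw [Finset.sum_eq_zero fun i _ => TD_zero (by
          by_cases h : RR i < r
          · exact Or.inr (hw i h)
          · exact Or.inl (not_lt.mp h))]
        simp only [mul_zero, abs_zero]
        positivity

theorem ff_str (i : ℕ) : Str ff (1 / 1000 - ∑ j ∈ Finset.range (i + 1), dd j) (2 * RR i)
    (RR (i + 1)) (4 * ww (i + 1)) := by
  have hR := RR_pos i
  have hR1 : 1 ≤ RR i := by linarith [RR_ge i, (Nat.cast_nonneg i : (0 : ℝ) ≤ i)]
  have hs := RR_succ i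
  have hw := ww_pos (i + 1)
  have hw' := ww_le (i + 1)
  have hd := dd_pos (i + 1)
  have hpast : ∀ r, 2 * RR i ≤ r → ∀ j < i + 1, RR j + ww j ≤ r := fun r hr j hj => by
    have := RR_mono (Nat.lt_succ_iff.mp hj)
    linarith [ww_le j, RR_pos j]
  have hlin : ∀ r ∈ Icc (2 * RR i) (RR (i + 1)),
      deriv ff r = 1 / 1000 - ∑ j ∈ Finset.range (i + 1), dd j := fun r hr => by
    rw [deriv_ff]
    exact hh_val (by linarith [hr.1]) (hpast r hr.1) hr.2
  have hb : 1 / 2000 * RR (i + 1) ≤ ff (RR (i + 1)) := ff_prof.ge (RR_pos _).le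
  refine ⟨by linarith [sum_dd_le (i + 1)], ?_, by linarith, hlin, ?_, by linarith, by linarith, ?_⟩
  · have : 0 ≤ ∑ j ∈ Finset.range (i + 1), dd j := Finset.sum_nonneg fun j _ => (dd_pos j).le
    linarith
  · have := ff_prof.le (r := 2 * RR i) (by linarith)
    linarith
  · set a := 1 / 1000 - ∑ j ∈ Finset.range (i + 1), dd j with ha
    have v1 : deriv ff (RR (i + 1)) = a := hlin _ ⟨by linarith, le_rfl⟩
    have v2 : deriv ff (RR (i + 1) + ww (i + 1)) = a - dd (i + 1) := by
      rw [deriv_ff, hh_val (n := i + 2) (by linarith) ?_ (by rw [RR_succ (i + 1)]; linarith),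
        Finset.sum_range_succ, ha]
      · ring
      · intro j hj
        rcases Nat.lt_succ_iff_lt_or_eq.mp hj with h | h
        · exact hpast _ (by linarith) j h
        · rw [h]
    have s1 := ff_prof.sub_le (r := RR (i + 1)) (r' := RR (i + 1) + ww (i + 1)) (c := a)
      (by linarith) fun t ht => v1 ▸ ff_prof.anti ht.1
    have s2 := ff_prof.sub_le (r := RR (i + 1) + ww (i + 1)) (r' := RR (i + 1) + 4 * ww (i + 1) / 2)
      (c := a - dd (i + 1)) (by linarith) fun t ht => v2 ▸ ff_prof.anti ht.1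
    have g : dd (i + 1) * ww (i + 1) ≤ ff (RR (i + 1)) + a * (4 * ww (i + 1)) / 2 -
        ff (RR (i + 1) + 4 * ww (i + 1) / 2) := by nlinarith
    have e : 2 * (4 * ww (i + 1)) ^ 2 = 1 / 2000 * RR (i + 1) * (dd (i + 1) * ww (i + 1)) := by
      rw [show 2 * (4 * ww (i + 1)) ^ 2 = 32 * ww (i + 1) * ww (i + 1) by ring]
      conv_lhs => rw [show 32 * ww (i + 1) = 1 / 2000 * RR (i + 1) * dd (i + 1) by unfold ww; ring]
      ring
    rw [e]
    exact mul_le_mul hb g (by positivity) (ff_prof.fnn (RR_pos _).le)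

end ProfAux

open ProfAux in
theorem sProf : S_Prof :=
  ⟨ff, 1 / 2000, ff_prof, ff_nice, fun i => ⟨_, _, _, _, ff_str i, by
    linarith [RR_ge i, RR_pos i]⟩⟩

end

end Pool.Agent.P.MP_ab9b82_gt
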