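import Pool.Agent.P.MP_ab9b82_gt.B2

/-! Cutoff and clamp: reduction to compactly supported Lipschitz functions. -/

namespace Pool.Agent.P.MP_ab9b82_gt

open MeasureTheory Set Filter Topology Real
open scoped ENNReal

namespace RedAux

variable {f : ℝ → ℝ} {a0 : ℝ}

/-- clamp to the unit interval -/
noncomputable def cl (t : ℝ) : ℝ := max 0 (min t 1)

theorem cl_nn (t : ℝ) : 0 ≤ cl t := le_max_left _ _

theorem cl_le (t : ℝ) : cl t ≤ 1 := max_le zero_le_one (min_le_right _ _)

theorem cl_of_mem {t : ℝ} (h0 : 0 ≤ t) (h1 : t ≤ 1) : cl t = t := by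
  rw [cl, min_eq_left h1, max_eq_right h0]

theorem cl_of_le {t : ℝ} (h0 : t ≤ 0) : cl t = 0 := max_eq_left ((min_le_left _ _).trans h0)

theorem cl_of_ge {t : ℝ} (h1 : 1 ≤ t) : cl t = 1 := by
  rw [cl, min_eq_right h1, max_eq_right zero_le_one]

theorem cl_sub (s t : ℝ) : |cl s - cl t| ≤ |s - t| := by
  unfold cl
  rw [max_comm 0, max_comm 0]
  refine (abs_max_sub_max_le_abs _ _ _).trans ?_
  simpa using abs_min_sub_min_le_max s 1 t 1

theorem cl_cont : Continuous cl := by unfold cl; fun_prop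

theorem cl_ind (E : Set V) (t : ℝ) (p : V) :
    |cl t - E.indicator 1 p| ≤ |t - E.indicator 1 p| := by
  have : cl (E.indicator 1 p) = E.indicator 1 p := by
    by_cases h : p ∈ E <;> simp [h, cl]
  simpa [this] using cl_sub t (E.indicator 1 p)

theorem nrm_cl (f : ℝ → ℝ) {w : V → ℝ} (hw : Continuous w) (p : V) :
    nrm f p (fderiv ℝ (fun q => cl (w q)) p) ≤ nrm f p (fderiv ℝ w p) := by
  by_cases h0 : w p ≤ 0
  · have : IsLocalMin (fun q => cl (w q)) p :=
      .of_forall fun q => (cl_of_le h0).trans_le (cl_nn _)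
    rw [this.fderiv_eq_zero, nrm_zero]
    exact nrm_nn ..
  by_cases h1 : 1 ≤ w p
  · have : IsLocalMax (fun q => cl (w q)) p :=
      .of_forall fun q => (cl_le _).trans_eq (cl_of_ge h1).symm
    rw [this.fderiv_eq_zero, nrm_zero]
    exact nrm_nn ..
  have : (fun q => cl (w q)) =ᶠ[𝓝 p] w := by
    filter_upwards [hw.continuousAt.eventually (Ioo_mem_nhds (not_le.1 h0) (not_le.1 h1))]
      with q hq using cl_of_mem hq.1.le hq.2.le
  rw [this.fderiv_eq]

theorem nrm_dr (h : Prof f a0) {p : V} (hp : p ≠ 0) : nrm f p (dr p) = psi f ‖p‖ ^ 2 := by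
  have h1 := nrm_dd h hp 1 0
  have h0 : ‖p‖ ≠ 0 := norm_ne_zero_iff.2 hp
  rw [one_smul, zero_smul, add_zero] at h1
  have h2 : f ‖p‖ ^ 4 * 1 ^ 2 + f ‖p‖ ^ 2 * (0 ^ 2 * (xc p * (1 - xc p))) = (f ‖p‖ ^ 2) ^ 2 := by
    ring
  rw [h2, Real.sqrt_sq (sq_nonneg _), ← psi_mul h ‖p‖] at h1
  refine mul_left_cancel₀ (pow_ne_zero 2 h0) (h1.trans ?_)
  ring

/-- the gradient of the cutoff product -/
theorem nrm_cut (h : Prof f a0) {b : V → ℝ} (hb0 : ∀ p, 0 ≤ b p) {R : ℝ} (hR : 2 ≤ R) {p : V}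
    (h1 : ‖p‖ ≠ R) (h2 : ‖p‖ ≠ R - 1) :
    nrm f p (fderiv ℝ (fun q => cl (R - ‖q‖) * b q) p) ≤ nrm f p (fderiv ℝ b p) +
      psi f ‖p‖ ^ 2 * (Metric.closedBall 0 R \ Metric.ball 0 (R - 1)).indicator b p := by
  have hi : 0 ≤ psi f ‖p‖ ^ 2 * (Metric.closedBall 0 R \ Metric.ball 0 (R - 1)).indicator b p :=
    mul_nonneg (sq_nonneg _) (indicator_nonneg (fun q _ => hb0 q) _)
  rcases h1.lt_or_gt with h1 | h1
  swap
  · have : (fun q => cl (R - ‖q‖) * b q) =ᶠ[𝓝 p] fun _ => 0 := by
      filter_upwards [continuous_norm.continuousAt.eventually (lt_mem_nhds h1)] with q hq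
      rw [cl_of_le (sub_nonpos.2 hq.le), zero_mul]
    rw [this.fderiv_eq, fderiv_fun_const, Pi.zero_apply, nrm_zero]
    exact add_nonneg (nrm_nn ..) hi
  rcases h2.lt_or_gt with h2 | h2
  · have : (fun q => cl (R - ‖q‖) * b q) =ᶠ[𝓝 p] b := by
      filter_upwards [continuous_norm.continuousAt.eventually (gt_mem_nhds h2)] with q hq
      rw [cl_of_ge (by linarith), one_mul]
    rw [this.fderiv_eq]
    exact le_add_of_nonneg_right hi
  have hp : p ≠ 0 := by
    rintro rfl
    rw [norm_zero] at h2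
    linarith
  have hev : ∀ᶠ q in 𝓝 p, ‖q‖ ∈ Ioo (R - 1) R :=
    continuous_norm.continuousAt.eventually (Ioo_mem_nhds h2 h1)
  have he : (fun q => cl (R - ‖q‖) * b q) =ᶠ[𝓝 p] fun q => (R - ‖q‖) * b q := by
    filter_upwards [hev] with q hq
    rw [cl_of_mem (by linarith [hq.2]) (by linarith [hq.1])]
  have hz : HasFDerivAt (fun q : V => R - ‖q‖) (-dr p) p := (hasFDerivAt_nrm hp).const_sub R
  rw [he.fderiv_eq]
  by_cases hd : DifferentiableAt ℝ b p
  · rw [(hz.fun_mul hd.hasFDerivAt).fderiv, indicator_of_mem (by simp [h1.le, h2.le])]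
    refine (nrm_add_le ..).trans (add_le_add ?_ ?_)
    · rw [nrm_smul, abs_of_nonneg (by linarith)]
      exact mul_le_of_le_one_left (nrm_nn ..) (by linarith)
    · rw [smul_neg, ← neg_smul, nrm_smul, nrm_dr h hp, abs_neg, abs_of_nonneg (hb0 p), mul_comm]
  · have : ¬DifferentiableAt ℝ (fun q => (R - ‖q‖) * b q) p := by
      intro hu
      apply hd
      refine (hu.fun_mul (hz.differentiableAt.fun_inv (by linarith))).congr_of_eventuallyEq ?_
      filter_upwards [hev] with q hq
      have : R - ‖q‖ ≠ 0 := by linarith [hq.2]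
      field_simp
    rw [fderiv_zero_of_not_differentiableAt this, nrm_zero]
    exact add_nonneg (nrm_nn ..) hi

theorem good {w : V → ℝ} (hw : LocallyLipschitz w) (R : ℝ) :
    Good (fun q => cl (R - ‖q‖) * cl (w q)) R := by
  refine ⟨?_, fun p => mul_nonneg (cl_nn _) (cl_nn _),
    fun p => mul_le_one₀ (cl_le _) (cl_nn _) (cl_le _),
    fun p hp => by rw [cl_of_le (sub_nonpos.2 hp), zero_mul]⟩
  obtain ⟨K, hK⟩ := LocallyLipschitzOn.exists_lipschitzOnWith_of_compact
    (isCompact_closedBall (0 : V) R) hw.locallyLipschitzOn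
  have hz : ∀ p q : V, |cl (R - ‖p‖) - cl (R - ‖q‖)| ≤ dist p q := by
    intro p q
    refine (cl_sub _ _).trans ?_
    rw [sub_sub_sub_cancel_left, dist_comm, dist_eq_norm]
    exact abs_norm_sub_norm_le q p
  have hout : ∀ p q : V, R < ‖q‖ →
      |cl (R - ‖p‖) * cl (w p) - cl (R - ‖q‖) * cl (w q)| ≤ dist p q := by
    intro p q hq
    have := hz p q
    rw [cl_of_le (sub_nonpos.2 hq.le)] at this ⊢
    rw [sub_zero, abs_of_nonneg (cl_nn _)] at this
    rw [zero_mul, sub_zero, abs_of_nonneg (mul_nonneg (cl_nn _) (cl_nn _))]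
    exact (mul_le_of_le_one_right (cl_nn _) (cl_le _)).trans this
  refine ⟨1 + K, LipschitzWith.of_dist_le_mul fun p q => ?_⟩
  have hK0 : 0 ≤ (K : ℝ) * dist p q := by positivity
  rw [Real.dist_eq, NNReal.coe_add, NNReal.coe_one, add_mul, one_mul]
  by_cases hq : R < ‖q‖
  · exact (hout p q hq).trans (le_add_of_nonneg_right hK0)
  by_cases hp : R < ‖p‖
  · rw [abs_sub_comm]
    exact ((hout q p hp).trans_eq (dist_comm _ _)).trans (le_add_of_nonneg_right hK0)
  have h1 := (cl_sub _ _).trans (hK.dist_le_mul p (by simpa using hp) q (by simpa using hq))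
  have h2 : cl (R - ‖p‖) * cl (w p) - cl (R - ‖q‖) * cl (w q) =
      (cl (R - ‖p‖) - cl (R - ‖q‖)) * cl (w p) + cl (R - ‖q‖) * (cl (w p) - cl (w q)) := by ring
  rw [h2]
  refine (abs_add_le _ _).trans (add_le_add ?_ ?_)
  · rw [abs_mul, abs_of_nonneg (cl_nn (w p))]
    exact (mul_le_of_le_one_right (abs_nonneg _) (cl_le _)).trans (hz p q)
  · rw [abs_mul, abs_of_nonneg (cl_nn _)]
    exact (mul_le_of_le_one_left (abs_nonneg _) (cl_le _)).trans h1

theorem exists_R (f : ℝ → ℝ) {E : Set V} (hE : MeasurableSet E) (hfin : mu f E ≠ ⊤) {ε : ℝ}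
    (hε : 0 < ε) : ∃ R ≥ (2 : ℝ), mu f (E \ Metric.ball 0 (R - 1)) ≤ ENNReal.ofReal ε := by
  have h1 := tendsto_measure_iInter_atTop (μ := mu f) (s := fun r : ℝ => E \ Metric.ball 0 r)
    (fun r => (hE.diff measurableSet_ball).nullMeasurableSet)
    (fun r r' hr => sdiff_subset_sdiff_right (Metric.ball_subset_ball hr))
    ⟨0, ne_top_of_le_ne_top hfin (measure_mono sdiff_subset)⟩
  have h2 : ⋂ r : ℝ, E \ Metric.ball 0 r = ∅ := by
    refine eq_empty_of_forall_notMem fun p hp => ?_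
    exact (mem_iInter.1 hp (‖p‖ + 1)).2 (by simp)
  rw [h2, measure_empty] at h1
  obtain ⟨r, hr, hr1⟩ := ((h1.eventually (ge_mem_nhds (ENNReal.ofReal_pos.2 hε))).and
    (eventually_ge_atTop 1)).exists
  exact ⟨r + 1, by linarith, by simpa using hr⟩

/-- a pointwise bound by the error on the closed ball and the part of `E` far out -/
theorem lint_le {μ : Measure V} {E B T : Set V} (hE : MeasurableSet E) (hB : MeasurableSet B)
    (hT : MeasurableSet T) {w : V → ℝ} (hw : Continuous w) {g : V → ℝ≥0∞}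
    (hg : ∀ p, g p ≤ B.indicator (fun p => ‖w p - E.indicator 1 p‖ₑ) p + T.indicator 1 p) :
    ∫⁻ p, g p ∂μ ≤ ∫⁻ p in B, ‖w p - E.indicator 1 p‖ₑ ∂μ + μ T := by
  refine (lintegral_mono hg).trans_eq ?_
  have hm : Measurable fun p => ‖w p - E.indicator 1 p‖ₑ :=
    (hw.measurable.sub (measurable_one.indicator hE)).enorm
  rw [lintegral_add_left (hm.indicator hB), lintegral_indicator hB, lintegral_indicator_one hT]

end RedAux

open RedAux in
theorem sRed : S_Red := by
  intro f a0 h E c hE hfin hper ε hε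
  obtain ⟨R, hR, hRE⟩ := exists_R f hE hfin (show 0 < ε / 4 by positivity)
  refine ⟨R, hR, fun ε' hε' => ?_⟩
  have hc : 0 < c := ENNReal.ofReal_pos.1 (zero_le.trans_lt hper)
  unfold per at hper
  simp only [iInf_lt_iff] at hper
  obtain ⟨W, hW, hL, hlim⟩ := hper
  obtain ⟨j, hG, herr⟩ := ((frequently_lt_of_liminf_lt (h := hlim)).and_eventually
    ((hL _ (isCompact_closedBall 0 R)).eventually
      (ge_mem_nhds (ENNReal.ofReal_pos.2 (lt_min hε' (show 0 < ε / 4 by positivity)))))).exists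
  have hw := hW j
  set w := W j
  have hwc := hw.continuous
  have herr1 := herr.trans (ENNReal.ofReal_le_ofReal (min_le_left _ _))
  have herr2 := herr.trans (ENNReal.ofReal_le_ofReal (min_le_right _ _))
  have hT : MeasurableSet (E \ Metric.ball 0 (R - 1)) := hE.diff measurableSet_ball
  have hsum : ∫⁻ p in Metric.closedBall 0 R, ‖w p - E.indicator 1 p‖ₑ ∂mu f +
      mu f (E \ Metric.ball 0 (R - 1)) ≤ ENNReal.ofReal ε := by
    refine (add_le_add herr2 hRE).trans ?_
    rw [← ENNReal.ofReal_add (by positivity) (by positivity)]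
    exact ENNReal.ofReal_le_ofReal (by linarith)
  have hen : ∀ p, ‖cl (w p) - E.indicator 1 p‖ₑ ≤ ‖w p - E.indicator 1 p‖ₑ := fun p =>
    enorm_le_iff_norm_le.2 (cl_ind E _ p)
  have hone : ∀ t : ℝ, 0 ≤ t → t ≤ 1 → ‖t - 1‖ₑ ≤ 1 := fun t h0 h1 => by
    rw [← ofReal_norm, ENNReal.ofReal_le_one, Real.norm_eq_abs, abs_le]
    constructor <;> linarith
  refine ⟨_, good hw R, ?_, ?_, ?_, hRE.trans (ENNReal.ofReal_le_ofReal (by linarith))⟩
  · set S : Set V := Metric.closedBall 0 R \ Metric.ball 0 (R - 1) with hS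
    have hSm : MeasurableSet S := measurableSet_closedBall.diff measurableSet_ball
    have hm : Measurable fun p => ENNReal.ofReal (S.indicator (fun q => cl (w q)) p) :=
      ((cl_cont.comp hwc).measurable.indicator hSm).ennreal_ofReal
    have h1 : ∀ r : ℝ, ∀ᵐ p : V, ‖p‖ ≠ r := fun r => by
      have := Measure.addHaar_sphere (volume : Measure V) 0 r
      rw [← compl_mem_ae_iff] at this
      filter_upwards [this] with p hp
      simpa using hp
    have h2 : GG f (fun q => cl (R - ‖q‖) * cl (w q)) ≤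
        GG f w + ∫⁻ p, ENNReal.ofReal (S.indicator (fun q => cl (w q)) p) ∂mu f := by
      rw [lint_mu h hm, GG, GG, ← lintegral_add_left (nrm_meas h w).ennreal_ofReal]
      refine lintegral_mono_ae ?_
      filter_upwards [h1 R, h1 (R - 1)] with p hp1 hp2
      rw [← ENNReal.ofReal_mul (sq_nonneg _)]
      refine le_trans (ENNReal.ofReal_le_ofReal ?_) ENNReal.ofReal_add_le
      exact (nrm_cut h (fun q => cl_nn (w q)) hR hp1 hp2).trans
        (add_le_add_left (nrm_cl f hwc p) _)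
    have h3 : ∫⁻ p, ENNReal.ofReal (S.indicator (fun q => cl (w q)) p) ∂mu f ≤
        ENNReal.ofReal ε := by
      refine (lint_le hE measurableSet_closedBall hT hwc fun p => ?_).trans hsum
      by_cases hp : p ∈ S
      · rw [indicator_of_mem hp, indicator_of_mem hp.1]
        by_cases hpE : p ∈ E
        · rw [indicator_of_mem (show p ∈ E \ Metric.ball 0 (R - 1) from ⟨hpE, hp.2⟩)]
          exact le_add_left (ENNReal.ofReal_le_one.2 (cl_le _))
        · refine le_add_right (le_trans ?_ (hen p))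
          rw [indicator_of_notMem hpE, sub_zero, Real.enorm_of_nonneg (cl_nn _)]
      · rw [indicator_of_notMem hp, ENNReal.ofReal_zero]
        exact zero_le
    rw [ENNReal.ofReal_add hc.le hε.le]
    exact h2.trans (add_le_add hG.le h3)
  · refine le_trans ?_ herr1
    refine le_trans (setLIntegral_mono' measurableSet_ball fun p hp => ?_)
      (lintegral_mono_set (Metric.ball_subset_closedBall.trans
        (Metric.closedBall_subset_closedBall (by linarith : R - 1 ≤ R))))
    rw [cl_of_ge (by linarith [mem_ball_zero_iff.1 hp]), one_mul]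
    exact hen p
  · refine (lint_le hE measurableSet_closedBall hT hwc fun p => ?_).trans hsum
    by_cases hp : p ∈ Metric.ball (0 : V) (R - 1)
    · have h1 := mem_ball_zero_iff.1 hp
      rw [cl_of_ge (by linarith), one_mul,
        indicator_of_mem (mem_closedBall_zero_iff.2 (by linarith : ‖p‖ ≤ R))]
      exact le_add_right (hen p)
    by_cases hpE : p ∈ E
    · rw [indicator_of_mem (show p ∈ E \ Metric.ball 0 (R - 1) from ⟨hpE, hp⟩),
        indicator_of_mem hpE]
      exact le_add_left (hone _ ((good hw R).nn p) ((good hw R).le p))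
    refine le_add_right ?_
    by_cases hpR : p ∈ Metric.closedBall (0 : V) R
    · rw [indicator_of_mem hpR]
      refine le_trans ?_ (hen p)
      rw [indicator_of_notMem hpE, sub_zero, sub_zero, Real.enorm_of_nonneg (cl_nn _),
        Real.enorm_of_nonneg (mul_nonneg (cl_nn _) (cl_nn _))]
      exact ENNReal.ofReal_le_ofReal (mul_le_of_le_one_left (cl_nn _) (cl_le _))
    · rw [cl_of_le (by linarith [not_le.1 (mt mem_closedBall_zero_iff.2 hpR)]),
        indicator_of_notMem hpE]
      simp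

end Pool.Agent.P.MP_ab9b82_gt
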