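import Pool.Agent.P.MP_ab9b82_gt.B1

/-! Package Sharp: replacing a profile by one with a definite growth rate. -/

namespace Pool.Agent.P.MP_ab9b82_gt

open MeasureTheory Set Filter Topology Real

namespace SharpAux

noncomputable section

/-! ### the calibration -/

def qq (t : ℝ) : ℝ := (√(1 + 64 * max (t * (1 - t)) 0))⁻¹

def QQ (t : ℝ) : ℝ := ∫ x in (0 : ℝ)..t, qq x

def Tau (t : ℝ) : ℝ := 8 * (t * (1 - t)) * qq t

theorem one_le_sqrt (t : ℝ) : 1 ≤ √(1 + 64 * max (t * (1 - t)) 0) :=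
  Real.le_sqrt_of_sq_le (by nlinarith [le_max_right (t * (1 - t)) 0])

theorem qq_cont : Continuous qq := by
  unfold qq
  exact Continuous.inv₀ (by fun_prop) fun t => (one_pos.trans_le (one_le_sqrt t)).ne'

theorem qq_pos (t : ℝ) : 0 < qq t := inv_pos.2 (one_pos.trans_le (one_le_sqrt t))

theorem qq_le (t : ℝ) : qq t ≤ 1 := inv_le_one_of_one_le₀ (one_le_sqrt t)

theorem qq_sq {t : ℝ} (h0 : 0 ≤ t) (h1 : t ≤ 1) : qq t ^ 2 * (1 + 64 * (t * (1 - t))) = 1 := by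
  have hz : 0 ≤ t * (1 - t) := mul_nonneg h0 (sub_nonneg.2 h1)
  unfold qq
  rw [max_eq_left hz, inv_pow, Real.sq_sqrt (by linarith)]
  exact inv_mul_cancel₀ (by linarith)

theorem Tau_cont : Continuous Tau := by
  have := qq_cont
  unfold Tau
  fun_prop

theorem QQ_deriv (t : ℝ) : HasDerivAt QQ (qq t) t :=
  (qq_cont.integral_hasStrictDerivAt 0 t).hasDerivAt

theorem QQ_lip : LipschitzWith 1 QQ :=
  lipschitzWith_of_nnnorm_deriv_le (fun t => (QQ_deriv t).differentiableAt) fun t => by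
    rw [← NNReal.coe_le_coe, coe_nnnorm, Real.norm_eq_abs, (QQ_deriv t).deriv,
      abs_of_pos (qq_pos t)]
    simpa using qq_le t

theorem QQ_mono : Monotone QQ :=
  monotone_of_deriv_nonneg (fun t => (QQ_deriv t).differentiableAt) fun t => by
    rw [(QQ_deriv t).deriv]; exact (qq_pos t).le

theorem Tau_deriv {t : ℝ} (h0 : 0 < t) (h1 : t < 1) :
    HasDerivAt Tau ((1 - 2 * t) * (8 + 256 * (t * (1 - t))) * qq t ^ 3) t := by
  have hz : 0 < t * (1 - t) := mul_pos h0 (sub_pos.2 h1)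
  have hzd : HasDerivAt (fun x : ℝ => x * (1 - x)) (1 - 2 * t) t := by
    have := (hasDerivAt_id t).mul ((hasDerivAt_id t).const_sub 1)
    exact this.congr_deriv (by simp; ring)
  have hne : 1 + 64 * (t * (1 - t)) ≠ 0 := by positivity
  have hs0 : √(1 + 64 * (t * (1 - t))) ≠ 0 := (Real.sqrt_pos.2 (by positivity)).ne'
  have hs := (((hzd.const_mul 64).const_add 1).sqrt hne).inv hs0
  have hT := (hzd.const_mul 8).mul hs
  have hev : Tau =ᶠ[𝓝 t] fun x => 8 * (x * (1 - x)) * (√(1 + 64 * (x * (1 - x))))⁻¹ := by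
    filter_upwards [Ioo_mem_nhds h0 h1] with x hx
    unfold Tau qq
    rw [max_eq_left (mul_pos hx.1 (sub_pos.2 hx.2)).le]
  refine (hT.congr_deriv ?_).congr_of_eventuallyEq hev
  have hsq : √(1 + 64 * (t * (1 - t))) ^ 2 = 1 + 64 * (t * (1 - t)) := Real.sq_sqrt (by positivity)
  unfold qq
  rw [max_eq_left hz.le]
  simp only [Pi.inv_apply]
  generalize √(1 + 64 * (t * (1 - t))) = s at hs0 hsq ⊢
  field_simp
  rw [hsq]
  ring

theorem mono_diff {a b : ℝ} (ha : 0 ≤ a) (hab : a ≤ b) (hb : b ≤ 1 / 4) :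
    2 * (QQ b - QQ a) ≤ Tau b - Tau a := by
  have hd : ∀ t ∈ interior (Icc (0 : ℝ) (1 / 4)), HasDerivAt (fun t => Tau t - 2 * QQ t)
      ((1 - 2 * t) * (8 + 256 * (t * (1 - t))) * qq t ^ 3 - 2 * qq t) t := fun t ht => by
    rw [interior_Icc] at ht
    exact (Tau_deriv ht.1 (by linarith [ht.2])).sub ((QQ_deriv t).const_mul 2)
  have hm : MonotoneOn (fun t => Tau t - 2 * QQ t) (Icc 0 (1 / 4)) := by
    refine monotoneOn_of_deriv_nonneg (convex_Icc _ _)
      (Tau_cont.sub (continuous_const.mul QQ_lip.continuous)).continuousOn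
      (fun t ht => (hd t ht).differentiableAt.differentiableWithinAt) fun t ht => ?_
    rw [(hd t ht).deriv]
    rw [interior_Icc] at ht
    have hz : 0 ≤ t * (1 - t) := mul_nonneg ht.1.le (by linarith [ht.2])
    have h1 := qq_sq ht.1.le (by linarith [ht.2])
    have h2 := qq_pos t
    have h3 : 2 * (1 + 64 * (t * (1 - t))) ≤ (1 - 2 * t) * (8 + 256 * (t * (1 - t))) := by
      nlinarith [ht.2]
    have h4 := mul_le_mul_of_nonneg_right h3 (pow_pos h2 3).le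
    have h5 : 2 * (1 + 64 * (t * (1 - t))) * qq t ^ 3 = 2 * qq t := by
      linear_combination 2 * qq t * h1
    linarith
  have := hm ⟨ha, hab.trans hb⟩ ⟨ha.trans hab, hb⟩ hab
  simp only at this
  linarith

theorem cal (f : ℝ → ℝ) (r p : ℝ) {t : ℝ} (h0 : 0 ≤ t) (h1 : t ≤ 1) :
    f r * Tau t + f r ^ 2 * (qq t * p) ≤ Lg f r t p := by
  have h2 := ph_sq h0 h1
  have h3 := qq_sq h0 h1
  have h := Lg_cal (f := f) (r := r) (p := p) (σ := 8 * ph t * qq t) (β := qq t) h0 h1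
    (le_of_eq (by linear_combination h3 + 64 * qq t ^ 2 * h2))
  refine le_trans (le_of_eq ?_) h
  unfold Tau
  linear_combination (-8 * f r * qq t) * h2

theorem cal_eq {f : ℝ → ℝ} {r t : ℝ} (hf : 0 < f r) (h0 : 0 ≤ t) (h1 : t ≤ 1) :
    Lg f r t (8 * f r)⁻¹ = f r * Tau t + f r ^ 2 * (qq t * (8 * f r)⁻¹) := by
  have h3 := qq_sq h0 h1
  have hz : 0 ≤ t * (1 - t) := mul_nonneg h0 (sub_nonneg.2 h1)
  have h2 := qq_pos t
  unfold Lg Tau
  rw [Real.sqrt_eq_iff_mul_self_eq (by positivity) (by positivity)]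
  have e : f r * (8 * f r)⁻¹ = 1 / 8 := by field_simp
  generalize (8 * f r)⁻¹ = p at e
  have e2 : f r ^ 2 * (qq t * p) = f r * qq t / 8 := by linear_combination f r * qq t * e
  have e3 : f r ^ 4 * p ^ 2 = f r ^ 2 / 64 := by
    linear_combination f r ^ 2 * (f r * p + 1 / 8) * e
  rw [e2, e3]
  linear_combination (-(f r ^ 2 * (1 + 64 * (t * (1 - t))) / 64)) * h3

/-! ### the running infimum -/

def Mn (φ : ℝ → ℝ) (r : ℝ) : ℝ := ⨅ t : NNReal, φ (r + t)

variable {φ : ℝ → ℝ} {c : ℝ}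

theorem Mn_le (hb : ∀ s, c ≤ φ s) {r s : ℝ} (h : r ≤ s) : Mn φ r ≤ φ s := by
  have := ciInf_le (f := fun t : NNReal => φ (r + t)) ⟨c, by rintro _ ⟨t, rfl⟩; exact hb _⟩
    ⟨s - r, sub_nonneg.2 h⟩
  exact this.trans (le_of_eq (congrArg φ (add_sub_cancel r s)))

theorem le_Mn {r d : ℝ} (h : ∀ s, r ≤ s → d ≤ φ s) : d ≤ Mn φ r :=
  le_ciInf fun t => h _ (le_add_of_nonneg_right t.2)

theorem Mn_mono (hb : ∀ s, c ≤ φ s) : Monotone (Mn φ) := fun _ _ h =>
  le_Mn fun _ hs => Mn_le hb (h.trans hs)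

theorem Mn_lip (hb : ∀ s, c ≤ φ s) (hl : Lip φ) : Lip (Mn φ) := by
  obtain ⟨K, hK⟩ := hl
  refine ⟨K, LipschitzWith.of_le_add_mul K fun x y => ?_⟩
  rw [← sub_le_iff_le_add]
  refine le_ciInf fun t => ?_
  have h1 : Mn φ x ≤ φ (x + t) := Mn_le hb (le_add_of_nonneg_right t.2)
  have h2 := hK.le_add_mul (x + t) (y + t)
  rw [dist_add_right] at h2
  linarith

theorem Mn_loc (hb : ∀ s, c ≤ φ s) (hc : Continuous φ) {r : ℝ} (h : Mn φ r < φ r) :
    ∀ᶠ x in 𝓝 r, Mn φ x = Mn φ r := by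
  obtain ⟨d, hd, hd'⟩ := exists_between h
  obtain ⟨a, b, hr, hab⟩ := mem_nhds_iff_exists_Ioo_subset.1
    (hc.continuousAt.eventually (eventually_gt_nhds hd'))
  have key : ∀ x ∈ Ioo a b, min d (Mn φ b) ≤ Mn φ x := fun x hx => le_Mn fun s hs => by
    by_cases hsb : s < b
    · exact (min_le_left _ _).trans (le_of_lt (hab ⟨hx.1.trans_le hs, hsb⟩))
    · exact (min_le_right _ _).trans (Mn_le hb (not_lt.1 hsb))
  have h1 : Mn φ b ≤ Mn φ r := by
    rcases min_le_iff.1 (key r hr) with h2 | h2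
    · exact absurd hd (not_lt.2 h2)
    · exact h2
  have h2 : Mn φ r ≤ Mn φ b := Mn_mono hb hr.2.le
  filter_upwards [Ioo_mem_nhds hr.1 hr.2] with x hx
  refine le_antisymm ((Mn_mono hb hx.2.le).trans h1) (le_trans (le_min hd.le h2) (key x hx))

/-! ### Lipschitz functions -/

theorem lip_add {u w : ℝ → ℝ} (hu : Lip u) (hw : Lip w) : Lip fun r => u r + w r :=
  ⟨_, hu.choose_spec.add hw.choose_spec⟩

theorem lip_sub {u w : ℝ → ℝ} (hu : Lip u) (hw : Lip w) : Lip fun r => u r - w r :=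
  ⟨_, hu.choose_spec.sub hw.choose_spec⟩

theorem lip_comp {u w : ℝ → ℝ} (hu : Lip u) (hw : Lip w) : Lip fun r => u (w r) :=
  ⟨_, hu.choose_spec.comp hw.choose_spec⟩

/-! ### the truncation of `v` -/

def mu0 (v : ℝ → ℝ) (r : ℝ) : ℝ := min (min (v r) (1 - v r)) (1 / 4)

variable {v : ℝ → ℝ}

theorem mu0_lip (hv : Adm v) : Lip (mu0 v) :=
  ⟨_, (hv.lip.choose_spec.min ((LipschitzWith.const 1).sub hv.lip.choose_spec)).min_const _⟩

theorem mu0_nn (hv : Adm v) (r : ℝ) : 0 ≤ mu0 v r :=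
  le_min (le_min (hv.nn r) (sub_nonneg.2 (hv.le r))) (by norm_num)

theorem mu0_le (r : ℝ) : mu0 v r ≤ 1 / 4 := min_le_right _ _

theorem mu0_le1 (r : ℝ) : mu0 v r ≤ v r := (min_le_left _ _).trans (min_le_left _ _)

theorem mu0_le2 (r : ℝ) : mu0 v r ≤ 1 - v r := (min_le_left _ _).trans (min_le_right _ _)

theorem Lg_mu0 (f : ℝ → ℝ) {r : ℝ} (h1 : DifferentiableAt ℝ v r)
    (h2 : DifferentiableAt ℝ (mu0 v) r) :
    Lg f r (mu0 v r) (deriv (mu0 v) r) ≤ Lg f r (v r) (deriv v r) := by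
  refine Lg_mono ?_ ?_
  · nlinarith [mul_nonneg (sub_nonneg.2 (mu0_le1 (v := v) r)) (sub_nonneg.2 (mu0_le2 (v := v) r))]
  · rcases min_choice (min (v r) (1 - v r)) (1 / 4) with h | h
    · rcases min_choice (v r) (1 - v r) with h' | h'
      · rw [touch1 (Eventually.of_forall mu0_le1) (h.trans h') h2 h1]
      · rw [touch1 (w := fun r => 1 - v r) (Eventually.of_forall mu0_le2) (h.trans h') h2
          (h1.const_sub 1), deriv_const_sub, abs_neg]
    · have : IsLocalMax (mu0 v) r :=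
        Eventually.of_forall fun x => (mu0_le x).trans (le_of_eq (Eq.symm h))
      rw [this.deriv_eq_zero, abs_zero]
      exact abs_nonneg _

/-! ### the primitive of `1 / (8 f)` -/

variable {f : ℝ → ℝ} {a0 r0 ρ : ℝ}

def gg (f : ℝ → ℝ) (r0 t : ℝ) : ℝ := (8 * f (max t r0))⁻¹

def GI (f : ℝ → ℝ) (r0 r : ℝ) : ℝ := ∫ t in r0..r, gg f r0 t

theorem gg_pos (h : Prof f a0) (h0 : 0 < r0) (t : ℝ) : 0 < gg f r0 t :=
  inv_pos.2 (mul_pos (by norm_num) (h.fpos (h0.trans_le (le_max_right _ _))))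

theorem gg_cont (h : Prof f a0) (h0 : 0 < r0) : Continuous (gg f r0) := by
  have := h.continuous
  unfold gg
  exact Continuous.inv₀ (by fun_prop) fun t =>
    (mul_pos (by norm_num) (h.fpos (h0.trans_le (le_max_right _ _)))).ne'

theorem GI_deriv (h : Prof f a0) (h0 : 0 < r0) (r : ℝ) : HasDerivAt (GI f r0) (gg f r0 r) r :=
  ((gg_cont h h0).integral_hasStrictDerivAt r0 r).hasDerivAt

theorem GI_diff (h : Prof f a0) (h0 : 0 < r0) : Differentiable ℝ (GI f r0) := fun r =>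
  (GI_deriv h h0 r).differentiableAt

theorem GI_lip (h : Prof f a0) (h0 : 0 < r0) : Lip (GI f r0) := by
  refine ⟨((8 * f r0)⁻¹).toNNReal, lipschitzWith_of_nnnorm_deriv_le (GI_diff h h0) fun t => ?_⟩
  rw [← NNReal.coe_le_coe, coe_nnnorm, Real.norm_eq_abs, (GI_deriv h h0 t).deriv,
    abs_of_pos (gg_pos h h0 t)]
  refine le_trans ?_ (Real.le_coe_toNNReal _)
  have h1 := h.fpos h0
  have h2 := h.mono.monotone (le_max_right t r0)
  exact inv_anti₀ (by linarith) (by linarith)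

theorem GI_mono (h : Prof f a0) (h0 : 0 < r0) : Monotone (GI f r0) :=
  monotone_of_deriv_nonneg (GI_diff h h0) fun t => by
    rw [(GI_deriv h h0 t).deriv]; exact (gg_pos h h0 t).le

theorem GI_gro (h : Prof f a0) (h0 : 0 < r0) (hρ : r0 ≤ ρ) {r r' : ℝ} (hr : r ≤ r')
    (hr' : r' ≤ ρ) : (r' - r) / (8 * f ρ) ≤ GI f r0 r' - GI f r0 r := by
  rw [div_eq_inv_mul]
  refine (convex_Icc r r').mul_sub_le_image_sub_of_le_deriv (GI_diff h h0).continuous.continuousOn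
    (GI_diff h h0).differentiableOn (fun t ht => ?_) r (left_mem_Icc.2 hr) r'
    (right_mem_Icc.2 hr) hr
  rw [(GI_deriv h h0 t).deriv]
  have h1 := h.fpos (h0.trans_le (le_max_right t r0))
  have h2 := h.mono.monotone (max_le ((interior_subset ht).2.trans hr') hρ)
  exact inv_anti₀ (by linarith) (by linarith)

/-! ### the new profile -/

def ph0 (f v : ℝ → ℝ) (r0 ρ s : ℝ) : ℝ := mu0 v (min s ρ) - GI f r0 (min s ρ)

def YY (f v : ℝ → ℝ) (r0 ρ r : ℝ) : ℝ := Mn (ph0 f v r0 ρ) r + GI f r0 r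

def ww (f v : ℝ → ℝ) (r0 ρ r : ℝ) : ℝ := max (YY f v r0 ρ r) 0

theorem ph0_bdd (h : Prof f a0) (hv : Adm v) (h0 : 0 < r0) (s : ℝ) :
    -GI f r0 ρ ≤ ph0 f v r0 ρ s := by
  unfold ph0
  linarith [mu0_nn hv (min s ρ), GI_mono h h0 (min_le_right s ρ)]

theorem ph0_lip (h : Prof f a0) (hv : Adm v) (h0 : 0 < r0) : Lip (ph0 f v r0 ρ) :=
  lip_comp (u := fun r => mu0 v r - GI f r0 r) (w := fun r => min r ρ)
    (lip_sub (mu0_lip hv) (GI_lip h h0)) ⟨_, LipschitzWith.id.min_const ρ⟩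

theorem YY_lip (h : Prof f a0) (hv : Adm v) (h0 : 0 < r0) : Lip (YY f v r0 ρ) :=
  lip_add (Mn_lip (ph0_bdd h hv h0) (ph0_lip h hv h0)) (GI_lip h h0)

theorem ww_lip (h : Prof f a0) (hv : Adm v) (h0 : 0 < r0) : Lip (ww f v r0 ρ) :=
  ⟨_, (YY_lip h hv h0).choose_spec.max_const 0⟩

theorem ww_le (h : Prof f a0) (hv : Adm v) (h0 : 0 < r0) {r : ℝ} (hr : r ≤ ρ) :
    ww f v r0 ρ r ≤ mu0 v r := by
  refine max_le ?_ (mu0_nn hv r)
  have := Mn_le (ph0_bdd (ρ := ρ) h hv h0) (le_refl r)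
  unfold ph0 at this
  rw [min_eq_left hr] at this
  unfold YY ph0
  linarith

theorem ww_top (h : Prof f a0) (hv : Adm v) (h0 : 0 < r0) : ww f v r0 ρ ρ = mu0 v ρ := by
  refine le_antisymm (ww_le h hv h0 le_rfl) (le_trans ?_ (le_max_left _ _))
  have : mu0 v ρ - GI f r0 ρ ≤ Mn (ph0 f v r0 ρ) ρ := le_Mn fun s hs => by
    unfold ph0
    rw [min_eq_right hs]
  unfold YY
  linarith

theorem gro (h : Prof f a0) (hv : Adm v) (h0 : 0 < r0) (hρ : r0 ≤ ρ) (h2 : r0 + 2 * f ρ ≤ ρ) :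
    Gro (ww f v r0 ρ) r0 ρ (8 * f ρ) := by
  have hb := ph0_bdd (ρ := ρ) h hv h0
  refine ⟨ww_lip h hv h0, fun r => le_max_right _ _, fun r hr => max_eq_right ?_,
    fun r r' hr hr' hw => ?_⟩
  · have h3 := Mn_le hb (hr.trans hρ)
    have h4 := GI_gro h h0 hρ hρ le_rfl
    have h5 := GI_mono h h0 hr
    have h6 := h.fpos (h0.trans_le hρ)
    have h7 : 1 / 4 ≤ (ρ - r0) / (8 * f ρ) := by
      rw [le_div_iff₀ (by linarith)]
      linarith
    have h8 := mu0_le (v := v) ρ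
    unfold YY
    unfold ph0 at h3 ⊢
    rw [min_self] at h3
    linarith
  · have h3 : ww f v r0 ρ r = YY f v r0 ρ r := by
      rcases lt_max_iff.1 hw with h4 | h4
      · exact max_eq_left h4.le
      · exact absurd h4 (lt_irrefl _)
    have h4 : YY f v r0 ρ r' ≤ ww f v r0 ρ r' := le_max_left _ _
    have h5 := Mn_mono hb hr
    have h6 := GI_gro h h0 hρ hr hr'
    rw [h3]
    unfold YY at h4 ⊢
    linarith

/-- the pointwise comparison -/
theorem pointwise (h : Prof f a0) (hv : Adm v) (h0 : 0 < r0) (hρ : r0 ≤ ρ)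
    (h2 : r0 + 2 * f ρ ≤ ρ) {r : ℝ} (hr : r < ρ) (d1 : DifferentiableAt ℝ (mu0 v) r)
    (d2 : DifferentiableAt ℝ (ww f v r0 ρ) r) :
    Lg f r (ww f v r0 ρ r) (deriv (ww f v r0 ρ) r) +
      (f r * (Tau (mu0 v r) - Tau (ww f v r0 ρ r)) +
        f r ^ 2 * deriv (fun x => QQ (mu0 v x) - QQ (ww f v r0 ρ x)) r) ≤
      Lg f r (mu0 v r) (deriv (mu0 v) r) := by
  have hG := gro h hv h0 hρ h2
  have hd : deriv (fun x => QQ (mu0 v x) - QQ (ww f v r0 ρ x)) r =
      qq (mu0 v r) * deriv (mu0 v) r - qq (ww f v r0 ρ r) * deriv (ww f v r0 ρ) r :=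
    (((QQ_deriv _).comp r d1.hasDerivAt).sub ((QQ_deriv _).comp r d2.hasDerivAt)).deriv
  rw [hd]
  have hc := cal f r (deriv (mu0 v) r) (mu0_nn hv r) ((mu0_le r).trans (by norm_num))
  rcases (ww_le h hv h0 hr.le).eq_or_lt with he | hlt
  · have := touch1 ((eventually_lt_nhds hr).mono fun x hx => ww_le h hv h0 hx.le) he d2 d1
    rw [this, he]
    simp
  suffices hs : Lg f r (ww f v r0 ρ r) (deriv (ww f v r0 ρ) r) = f r * Tau (ww f v r0 ρ r) +
      f r ^ 2 * (qq (ww f v r0 ρ r) * deriv (ww f v r0 ρ) r) by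
    rw [hs]
    linarith
  rcases (hG.nn r).eq_or_lt with hz | hpos
  · have : IsLocalMin (ww f v r0 ρ) r := Eventually.of_forall fun x => hz ▸ hG.nn x
    rw [this.deriv_eq_zero, ← hz]
    simp [Lg, Tau]
  have hr0 : r0 < r := lt_of_not_ge fun h3 => hpos.ne' (hG.zero r h3)
  have hY : 0 < YY f v r0 ρ r := by
    rcases lt_max_iff.1 hpos with h4 | h4
    · exact h4
    · exact absurd h4 (lt_irrefl _)
  have hM : Mn (ph0 f v r0 ρ) r < ph0 f v r0 ρ r := by
    have h4 : YY f v r0 ρ r ≤ ww f v r0 ρ r := le_max_left _ _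
    unfold YY at h4
    conv_rhs => unfold ph0
    rw [min_eq_left hr.le]
    linarith
  have hev : ww f v r0 ρ =ᶠ[𝓝 r] fun x => Mn (ph0 f v r0 ρ) r + GI f r0 x := by
    filter_upwards [Mn_loc (ph0_bdd h hv h0) (ph0_lip h hv h0).continuous hM,
      (YY_lip h hv h0).continuous.continuousAt.eventually (eventually_gt_nhds hY)] with x h3 h4
    rw [← h3]
    exact max_eq_left h4.le
  have hw : deriv (ww f v r0 ρ) r = (8 * f r)⁻¹ := by
    rw [hev.deriv_eq, ((GI_deriv h h0 r).const_add _).deriv, gg, max_eq_left hr0.le]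
  rw [hw]
  exact cal_eq (h.fpos (h0.trans hr0)) hpos.le (by linarith [mu0_le (v := v) r])

end

end SharpAux

open SharpAux in
theorem sSharp : S_Sharp := by
  intro f a0 h v r0 ρ hv h0 hρ h2 h3
  have hG := gro h hv h0 hρ h2
  have hρ0 : 0 ≤ ρ := (h0.trans_le hρ).le
  refine ⟨ww f v r0 ρ, hG, ?_, fun r hr => (ww_le h hv h0 hr.2).trans (mu0_le2 r), ?_⟩
  · rw [ww_top h hv h0, mu0, h3]
    norm_num
  have hμ := mu0_lip hv
  have hD : Lip fun x => QQ (mu0 v x) - QQ (ww f v r0 ρ x) :=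
    lip_sub (lip_comp ⟨_, QQ_lip⟩ hμ) (lip_comp ⟨_, QQ_lip⟩ hG.lip)
  have hfc := h.continuous
  have hf' := h.cont
  have c1 := hμ.continuous
  have c2 := hG.lip.continuous
  have c3 := Tau_cont
  have c4 := hD.continuous
  have ibp := hD.ibp (k := fun x => f x ^ 2) (k' := fun x => 2 * f x * deriv f x) (α := 0) (β := ρ)
    (fun x _ => ((h.diff x).hasDerivAt.pow 2).congr_deriv (by simp)) (by fun_prop)
  rw [ww_top h hv h0, h.zero] at ibp
  have i1 : IntervalIntegrable (fun r => f r * (Tau (mu0 v r) - Tau (ww f v r0 ρ r))) volume 0 ρ :=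
    Continuous.intervalIntegrable (by fun_prop) _ _
  have i2 : IntervalIntegrable (fun r => f r ^ 2 *
      deriv (fun x => QQ (mu0 v x) - QQ (ww f v r0 ρ x)) r) volume 0 ρ :=
    (hD.ii 0 ρ).continuousOn_mul (by fun_prop)
  have i3 : IntervalIntegrable (fun r => 2 * f r * deriv f r *
      (QQ (mu0 v r) - QQ (ww f v r0 ρ r))) volume 0 ρ :=
    Continuous.intervalIntegrable (by fun_prop) _ _
  have m1 := intervalIntegral.integral_mono_on hρ0 i3 i1 fun r hr => by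
    have h4 := mono_diff (hG.nn r) (ww_le h hv h0 hr.2) (mu0_le r)
    have h5 := sub_nonneg.2 (QQ_mono (ww_le h hv h0 hr.2))
    have h6 := h.fnn hr.1
    have h7 := mul_le_mul_of_nonneg_right (h.hi r) h5
    nlinarith [mul_le_mul_of_nonneg_left h4 h6, mul_le_mul_of_nonneg_left h7 h6]
  have m2 := intervalIntegral.integral_mono_ae_restrict hρ0 ((Lg_ii h hG.lip 0 ρ).add (i1.add i2))
    (Lg_ii h hv.lip 0 ρ) (by
      refine (ae_restrict_iff' measurableSet_Icc).2 ?_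
      filter_upwards [hμ.ae_diff, hG.lip.ae_diff, hv.lip.ae_diff,
        compl_mem_ae_iff.2 (measure_singleton ρ)] with r d1 d2 d3 hne hr
      exact (pointwise h hv h0 hρ h2 (lt_of_le_of_ne hr.2 hne) d1 d2).trans (Lg_mu0 f d3 d1))
  rw [intervalIntegral.integral_add (Lg_ii h hG.lip 0 ρ) (i1.add i2),
    intervalIntegral.integral_add i1 i2, ibp] at m2
  linarith

end Pool.Agent.P.MP_ab9b82_gt
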