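import Pool.Agent.P.MP_ab9b82_gt.B2

/-! Package P5: spherical coordinates. -/

namespace Pool.Agent.P.MP_ab9b82_gt

open MeasureTheory Set Filter Topology Real
open scoped ENNReal

namespace SphAux

noncomputable section

/-- splitting of the coordinates -/
def pr (q : Fin 3 → ℝ) : ℝ × ℝ × ℝ := (q 0, q 1, q 2)

theorem pr_mp : MeasurePreserving pr volume volume :=
  ((MeasurePreserving.id (volume : Measure ℝ)).prod (volume_preserving_finTwoArrow ℝ)).comp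
    (volume_preserving_piFinSuccAbove (fun _ : Fin 3 => ℝ) 0)

/-- the coordinate map -/
def Ph (q : Fin 3 → ℝ) : Fin 3 → ℝ :=
  ![2 * q 0 * ph (q 1) * cos (q 2), 2 * q 0 * ph (q 1) * sin (q 2), q 0 * (2 * q 1 - 1)]

/-- the domain -/
def D : Set (Fin 3 → ℝ) := pr ⁻¹' (Ioi 0 ×ˢ Om)

/-- the Jacobian matrix -/
def Jm (q : Fin 3 → ℝ) : Matrix (Fin 3) (Fin 3) ℝ :=
  !![2 * ph (q 1) * cos (q 2), 2 * q 0 * ((1 - 2 * q 1) / (2 * ph (q 1))) * cos (q 2),
      -(2 * q 0 * ph (q 1) * sin (q 2));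
    2 * ph (q 1) * sin (q 2), 2 * q 0 * ((1 - 2 * q 1) / (2 * ph (q 1))) * sin (q 2),
      2 * q 0 * ph (q 1) * cos (q 2);
    2 * q 1 - 1, 2 * q 0, 0]

theorem ph_pos {t : ℝ} (h : t ∈ Ioo (0 : ℝ) 1) : 0 < ph t :=
  Real.sqrt_pos.2 (mul_pos h.1 (sub_pos.2 h.2))

theorem hasDerivAt_ph {t : ℝ} (h : t ∈ Ioo (0 : ℝ) 1) :
    HasDerivAt ph ((1 - 2 * t) / (2 * ph t)) t := by
  have h1 : HasDerivAt (fun t : ℝ => t * (1 - t)) (1 - 2 * t) t := by
    refine ((hasDerivAt_id' t).mul ((hasDerivAt_id' t).const_sub 1)).congr_deriv ?_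
    ring
  exact h1.sqrt (mul_pos h.1 (sub_pos.2 h.2)).ne'

theorem hasFDerivAt_Ph {q : Fin 3 → ℝ} (h : q 1 ∈ Ioo (0 : ℝ) 1) :
    HasFDerivAt Ph (LinearMap.toContinuousLinearMap (Matrix.toLin' (Jm q))) q := by
  have p : ∀ i : Fin 3, HasFDerivAt (fun q : Fin 3 → ℝ => q i)
      (ContinuousLinearMap.proj (R := ℝ) (φ := fun _ : Fin 3 => ℝ) i) q :=
    fun i => hasFDerivAt_apply i q
  have a1 := (hasDerivAt_ph h).comp_hasFDerivAt q (p 1)
  have a2 := (hasDerivAt_cos (q 2)).comp_hasFDerivAt q (p 2)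
  have a3 := (hasDerivAt_sin (q 2)).comp_hasFDerivAt q (p 2)
  refine hasFDerivAt_pi'.2 fun i => ?_
  fin_cases i
  · refine ((((p 0).const_mul 2).mul a1).mul a2).congr_fderiv ?_
    ext v
    simp [Jm, dotProduct, Fin.sum_univ_three]
    ring
  · refine ((((p 0).const_mul 2).mul a1).mul a3).congr_fderiv ?_
    ext v
    simp [Jm, dotProduct, Fin.sum_univ_three]
    ring
  · refine ((p 0).mul (((p 1).const_mul 2).sub_const 1)).congr_fderiv ?_
    ext v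
    simp [Jm, dotProduct, Fin.sum_univ_three]
    ring

theorem det_Jm {q : Fin 3 → ℝ} (h : q 1 ∈ Ioo (0 : ℝ) 1) : (Jm q).det = -(2 * q 0 ^ 2) := by
  have h0 := (ph_pos h).ne'
  have h1 := ph_sq h.1.le h.2.le
  have h2 := cos_sq_add_sin_sq (q 2)
  rw [Matrix.det_fin_three]
  simp [Jm]
  field_simp
  linear_combination (-(q 0 ^ 2) * (4 * ph (q 1) ^ 2 + (1 - 2 * q 1) ^ 2)) * h2
    - (4 * q 0 ^ 2) * h1

theorem toLp_Ph (q : Fin 3 → ℝ) : WithLp.toLp 2 (Ph q) = sp (q 0) (q 1, q 2) := rfl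

theorem inj_Ph : InjOn Ph D := by
  intro q hq q' hq' e
  have h0 : 0 < q 0 := hq.1
  have h0' : 0 < q' 0 := hq'.1
  have h1 : q 1 ∈ Ioo (0 : ℝ) 1 := hq.2.1
  have h1' : q' 1 ∈ Ioo (0 : ℝ) 1 := hq'.2.1
  have e1 : sp (q 0) (q 1, q 2) = sp (q' 0) (q' 1, q' 2) := by rw [← toLp_Ph, ← toLp_Ph, e]
  have r : q 0 = q' 0 := by
    have := congrArg norm e1
    rwa [norm_sp _ (Ioo_subset_Icc_self h1), norm_sp _ (Ioo_subset_Icc_self h1'), abs_of_pos h0,
      abs_of_pos h0'] at this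
  have x : q 1 = q' 1 := by
    have := congrArg xc e1
    rwa [xc_sp h0 (Ioo_subset_Icc_self h1), xc_sp h0' (Ioo_subset_Icc_self h1')] at this
  have hk : 2 * q' 0 * ph (q' 1) ≠ 0 := by
    have := ph_pos h1'
    positivity
  have c0 : 2 * q 0 * ph (q 1) * cos (q 2) = 2 * q' 0 * ph (q' 1) * cos (q' 2) := congrFun e 0
  have c1 : 2 * q 0 * ph (q 1) * sin (q 2) = 2 * q' 0 * ph (q' 1) * sin (q' 2) := congrFun e 1
  rw [r, x] at c0 c1
  have t : ((1, q 2) : ℝ × ℝ) = (1, q' 2) := by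
    refine polarCoord.symm.injOn (x₁ := (1, q 2)) ⟨mem_Ioi.2 one_pos, hq.2.2⟩ (x₂ := (1, q' 2))
      ⟨mem_Ioi.2 one_pos, hq'.2.2⟩ ?_
    simp [mul_left_cancel₀ hk c0, mul_left_cancel₀ hk c1]
  funext i
  fin_cases i
  · exact r
  · exact x
  · exact congrArg Prod.snd t

theorem surj_Ph {p : Fin 3 → ℝ} (hp : p 1 ≠ 0) : p ∈ Ph '' D := by
  have hs : ((p 0, p 1) : ℝ × ℝ) ∈ polarCoord.source := Or.inr hp
  have ht := polarCoord.map_source hs
  have hl := polarCoord.left_inv hs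
  set ρ := (polarCoord (p 0, p 1)).1 with hρ
  set φ := (polarCoord (p 0, p 1)).2 with hφ
  have hρ0 : 0 < ρ := ht.1
  have e0 : ρ * cos φ = p 0 := congrArg Prod.fst hl
  have e1 : ρ * sin φ = p 1 := congrArg Prod.snd hl
  set r := √(ρ ^ 2 + p 2 ^ 2) with hr
  have hr2 : r ^ 2 = ρ ^ 2 + p 2 ^ 2 := Real.sq_sqrt (by positivity)
  have hr0 : 0 < r := Real.sqrt_pos.2 (by positivity)
  have hab : |p 2| < r := abs_lt_of_sq_lt_sq (by nlinarith) hr0.le
  have hab' := abs_lt.1 hab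
  set x := (1 + p 2 / r) / 2 with hx
  have hx1 : x ∈ Ioo (0 : ℝ) 1 := by
    have a1 : -1 < p 2 / r := by rw [lt_div_iff₀ hr0]; linarith
    have a2 : p 2 / r < 1 := by rw [div_lt_iff₀ hr0]; linarith
    constructor <;> linarith
  have hk : 2 * r * ph x = ρ := by
    have a1 := ph_pos hx1
    refine (sq_eq_sq₀ (by positivity) hρ0.le).1 ?_
    rw [mul_pow, ph_sq hx1.1.le hx1.2.le, hx]
    field_simp
    linarith
  refine ⟨![r, x, φ], ⟨hr0, hx1, ht.2⟩, ?_⟩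
  funext i
  fin_cases i
  · change 2 * r * ph x * cos φ = p 0
    rw [hk, e0]
  · change 2 * r * ph x * sin φ = p 1
    rw [hk, e1]
  · change r * (2 * x - 1) = p 2
    rw [hx]; field_simp; ring

end

end SphAux

open SphAux in
theorem sSph : S_Sph := by
  intro h hh
  have hm : MeasurableSet (Ioi (0 : ℝ) ×ˢ Om) :=
    measurableSet_Ioi.prod (measurableSet_Ioo.prod measurableSet_Ioo)
  have hD : MeasurableSet D := pr_mp.measurable hm
  have hF : Measurable fun w : ℝ × ℝ × ℝ => ENNReal.ofReal (2 * w.1 ^ 2) * h (sp w.1 w.2) :=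
    Measurable.mul (by fun_prop) (hh.comp sp_cont.measurable)
  have h1 : (Ph '' D : Set (Fin 3 → ℝ)) =ᵐ[volume] univ := by
    rw [ae_eq_univ]
    refine measure_mono_null (fun p hp => ?_) (Measure.pi_hyperplane (fun _ : Fin 3 => volume) 1 0)
    by_contra h2
    exact hp (surj_Ph h2)
  rw [← (PiLp.volume_preserving_toLp (Fin 3)).lintegral_comp hh, ← setLIntegral_univ,
    ← setLIntegral_congr h1, lintegral_image_eq_lintegral_abs_det_fderiv_mul volume hD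
      (fun q hq => (hasFDerivAt_Ph hq.2.1).hasFDerivWithinAt) inj_Ph,
    ← setLIntegral_prod _ hF.aemeasurable, ← Measure.volume_eq_prod,
    ← pr_mp.setLIntegral_comp_preimage hm hF]
  refine setLIntegral_congr_fun hD fun q hq => ?_
  simp only [ContinuousLinearMap.det, LinearMap.coe_toContinuousLinearMap, LinearMap.det_toLin']
  rw [det_Jm hq.2.1, abs_neg, abs_of_nonneg (by positivity)]
  rfl

end Pool.Agent.P.MP_ab9b82_gt
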