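import Pool.Agent.P.MP_ab9b82_gt.B2

/-! Package P13: volumes of hybrid sets, and limits. -/

namespace Pool.Agent.P.MP_ab9b82_gt

open MeasureTheory Set Filter Topology Real
open scoped ENNReal

namespace UBvAux

variable {f : ℝ → ℝ} {a0 : ℝ}

theorem meas_rx : Measurable fun p : V => (‖p‖, xc p) := measurable_norm.prodMk xc_meas

/-- integration of functions of the radius and of `xc` -/
theorem sph_rx (hS : S_Sph) (h : Prof f a0) {G : ℝ × ℝ → ℝ≥0∞} (hG : Measurable G) :
    ∫⁻ p, G (‖p‖, xc p) ∂mu f = ∫⁻ r in Ioi (0 : ℝ), ∫⁻ x in Ioo (0 : ℝ) 1,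
      ENNReal.ofReal (4 * π * f r ^ 2) * G (r, x) := by
  have h1 : Measurable fun p : V => G (‖p‖, xc p) := hG.comp meas_rx
  rw [lint_mu h h1, hS (fun p => ENNReal.ofReal (psi f ‖p‖ ^ 2) * G (‖p‖, xc p))
    ((mu_dens_meas h).mul h1)]
  refine setLIntegral_congr_fun measurableSet_Ioi fun r hr => ?_
  have hr' : 0 < r := hr
  have e : ∫⁻ z in Om, ENNReal.ofReal (2 * r ^ 2) *
      (ENNReal.ofReal (psi f ‖sp r z‖ ^ 2) * G (‖sp r z‖, xc (sp r z))) =
      ∫⁻ z in Om, (ENNReal.ofReal (2 * f r ^ 2) * G (r, z.1)) * 1 := by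
    refine setLIntegral_congr_fun Om_meas fun z hz => ?_
    simp only [norm_sp r (Om_mem hz), abs_of_pos hr', xc_sp hr' (Om_mem hz), mul_one]
    rw [← mul_assoc, ← ENNReal.ofReal_mul (by positivity), ← psi_mul h r]
    congr 2; ring
  have h2 : Measurable fun x : ℝ => ENNReal.ofReal (2 * f r ^ 2) * G (r, x) :=
    measurable_const.mul (hG.comp measurable_prodMk_left)
  rw [e, Om, Measure.volume_eq_prod, ← Measure.prod_restrict,
    lintegral_prod_mul (f := fun x => ENNReal.ofReal (2 * f r ^ 2) * G (r, x)) (g := fun _ => 1)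
      h2.aemeasurable aemeasurable_const, ← lintegral_mul_const _ h2]
  refine lintegral_congr fun x => ?_
  simp only [lintegral_const, Measure.restrict_apply_univ, Real.volume_Ioo, one_mul]
  rw [mul_right_comm, ← ENNReal.ofReal_mul (by positivity)]
  congr 2; ring

theorem mu_rx (hS : S_Sph) (h : Prof f a0) {A : Set (ℝ × ℝ)} (hA : MeasurableSet A) :
    mu f {p | (‖p‖, xc p) ∈ A} = ∫⁻ r in Ioi (0 : ℝ), ∫⁻ x in Ioo (0 : ℝ) 1,
      ENNReal.ofReal (4 * π * f r ^ 2) * A.indicator 1 (r, x) := by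
  rw [← sph_rx hS h (measurable_one.indicator hA),
    ← lintegral_indicator_one (s := {p : V | (‖p‖, xc p) ∈ A}) (meas_rx hA)]
  rfl

theorem mu_null (hS : S_Sph) (h : Prof f a0) {A : Set (ℝ × ℝ)} (hA : MeasurableSet A)
    (h0 : ∀ᵐ r : ℝ, ∀ᵐ x : ℝ, (r, x) ∉ A) : ∀ᵐ p ∂mu f, (‖p‖, xc p) ∉ A := by
  rw [ae_iff]
  simp only [not_not]
  rw [mu_rx hS h hA]
  refine (lintegral_congr_ae (ae_restrict_of_ae (h0.mono fun r hr => ?_))).trans lintegral_zero
  refine (lintegral_congr_ae (ae_restrict_of_ae (hr.mono fun x hx => ?_))).trans lintegral_zero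
  simp [hx]

theorem meas_DD {s v : ℝ → ℝ} (hs : Measurable s) (hv : Measurable v) (x0 : ℝ) :
    MeasurableSet (DD s v x0) :=
  (measurableSet_lt measurable_norm (hs.comp (xc_meas.min measurable_const))).union
    (measurableSet_lt (measurable_const.sub xc_meas) (hv.comp measurable_norm))

theorem lint_Wf (h : Prof f a0) {R : ℝ} (hR : 0 ≤ R) :
    ∫⁻ r in Ioo (0 : ℝ) R, ENNReal.ofReal (4 * π * f r ^ 2) = ENNReal.ofReal (4 * π * Wf f R) := by
  have hc : Continuous fun r => 4 * π * f r ^ 2 := (h.continuous.pow 2).const_mul _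
  rw [Wf, ← intervalIntegral.integral_const_mul, intervalIntegral.integral_of_le hR,
    integral_Ioc_eq_integral_Ioo, ofReal_integral_eq_lintegral_ofReal
      ((hc.integrableOn_Icc (a := 0) (b := R)).mono_set Ioo_subset_Icc_self)
      (ae_of_all _ fun r => by positivity)]

end UBvAux

open UBvAux

theorem sUBv (hS : S_Sph) : S_UBv := by
  intro f a0 h x0 s v H
  have hs := H.sp.lip.continuous.measurable
  have hv := H.adm.lip.continuous.measurable
  have hf := h.continuous.measurable
  refine ⟨meas_DD hs hv x0, ?_⟩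
  set A : Set (ℝ × ℝ) := {q | q.1 < s (min q.2 x0) ∨ 1 - q.2 < v q.1} with hAdef
  set A1 : Set (ℝ × ℝ) := {q | q.2 ≤ x0 ∧ q.1 < s q.2} with hA1def
  have hA : MeasurableSet A :=
    (measurableSet_lt measurable_fst (hs.comp (measurable_snd.min measurable_const))).union
      (measurableSet_lt (measurable_const.sub measurable_snd) (hv.comp measurable_fst))
  have hA1 : MeasurableSet A1 :=
    (measurableSet_le measurable_snd measurable_const).inter
      (measurableSet_lt measurable_fst (hs.comp measurable_snd))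
  have hc : Measurable fun r : ℝ => ENNReal.ofReal (4 * π * f r ^ 2) := by fun_prop
  have hm1 : Measurable fun q : ℝ × ℝ => ENNReal.ofReal (4 * π * f q.1 ^ 2) * A1.indicator 1 q :=
    (hc.comp measurable_fst).mul (measurable_one.indicator hA1)
  have e0 : DD s v x0 = {p | (‖p‖, xc p) ∈ A} := rfl
  have e1 : ∀ r x : ℝ, A.indicator (1 : ℝ × ℝ → ℝ≥0∞) (r, x) =
      A1.indicator 1 (r, x) + (Ioi (1 - v r)).indicator 1 x := by
    intro r x
    have h1 := H.le r
    by_cases hx : x ≤ x0
    · have h2 : x ∉ Ioi (1 - v r) := fun h3 => by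
        have : 1 - v r < x := h3
        linarith
      have h3 : ¬ 1 - x < v r := fun h3 => by linarith
      rw [indicator_of_notMem h2, add_zero]
      simp only [indicator, hAdef, hA1def, mem_ofPred_eq, min_eq_left hx, h3, or_false, hx, true_and]
    · have h2 : (r, x) ∉ A1 := fun h3 => hx h3.1
      have h4 : x0 < x := not_le.1 hx
      have h3 : (r, x) ∈ A ↔ x ∈ Ioi (1 - v r) := by
        simp only [hAdef, mem_ofPred_eq, min_eq_right h4.le, mem_Ioi]
        refine ⟨fun h5 => h5.elim (fun h6 => ?_) fun h6 => by linarith, fun h5 => Or.inr ?_⟩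
        · rw [H.eq r h6.le]; linarith
        · linarith
      rw [indicator_of_notMem h2, zero_add]
      simp only [indicator, h3]
      rfl
  have e2 : ∀ r : ℝ, ∫⁻ x in Ioo (0 : ℝ) 1, ENNReal.ofReal (4 * π * f r ^ 2) * A.indicator 1 (r, x) =
      (∫⁻ x in Ioo (0 : ℝ) 1, ENNReal.ofReal (4 * π * f r ^ 2) * A1.indicator 1 (r, x)) +
        ENNReal.ofReal (4 * π * (v r * f r ^ 2)) := by
    intro r
    simp only [e1, mul_add]
    rw [lintegral_add_left (f := fun x => ENNReal.ofReal (4 * π * f r ^ 2) * A1.indicator 1 (r, x))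
      (hm1.comp measurable_prodMk_left)]
    congr 1
    rw [lintegral_const_mul _ (measurable_one.indicator measurableSet_Ioi),
      lintegral_indicator_one measurableSet_Ioi, Measure.restrict_apply measurableSet_Ioi]
    have : Ioi (1 - v r) ∩ Ioo 0 1 = Ioo (1 - v r) 1 := by
      ext x
      have := H.adm.le r
      simp only [mem_inter_iff, mem_Ioi, mem_Ioo]
      exact ⟨fun h1 => ⟨h1.1, h1.2.2⟩, fun h1 => ⟨h1.1, by linarith [h1.1], h1.2⟩⟩
    rw [this, Real.volume_Ioo, ← ENNReal.ofReal_mul (by positivity)]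
    congr 1; ring
  have e3 : ∫⁻ r in Ioi (0 : ℝ), ENNReal.ofReal (4 * π * (v r * f r ^ 2)) =
      ENNReal.ofReal (4 * π * VV f v 0) := by
    rw [VV, ← integral_const_mul, ofReal_integral_eq_lintegral_ofReal
      ((H.adm.intV h 0).const_mul _) (ae_of_all _ fun r => by
        have := H.adm.nn r
        positivity)]
  have hW : Continuous fun x => 4 * π * Wf f (s x) :=
    (h.Wf_cont.comp H.sp.lip.continuous).const_mul _
  have hWn : ∀ x ∈ Icc 0 x0, 0 ≤ Wf f (s x) := fun x hx => (h.Wf_pos (H.sp.pos x hx)).le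
  have e4 : ∫⁻ r in Ioi (0 : ℝ), ∫⁻ x in Ioo (0 : ℝ) 1,
      ENNReal.ofReal (4 * π * f r ^ 2) * A1.indicator 1 (r, x) =
      ENNReal.ofReal (4 * π * VI f s x0) := by
    rw [lintegral_lintegral_swap hm1.aemeasurable, VI, ← intervalIntegral.integral_const_mul,
      intervalIntegral.integral_of_le H.xpos.le, integral_Ioc_eq_integral_Ioo,
      ofReal_integral_eq_lintegral_ofReal
        ((hW.integrableOn_Icc (a := 0) (b := x0)).mono_set Ioo_subset_Icc_self)
        ((ae_restrict_iff' measurableSet_Ioo).2 (ae_of_all _ fun x hx => by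
          have := hWn x (Ioo_subset_Icc_self hx)
          positivity))]
    have e5 : Ioo 0 x0 = Iio x0 ∩ Ioo (0 : ℝ) 1 := by
      ext x
      have := H.xle
      simp only [mem_inter_iff, mem_Iio, mem_Ioo]
      exact ⟨fun h1 => ⟨h1.2, h1.1, by linarith [h1.2]⟩, fun h1 => ⟨h1.2.1, h1.1⟩⟩
    rw [e5, ← Measure.restrict_restrict measurableSet_Iio, ← lintegral_indicator measurableSet_Iio]
    refine lintegral_congr_ae ?_
    filter_upwards [ae_restrict_mem measurableSet_Ioo,
      ae_restrict_of_ae (Measure.ae_ne volume x0)] with x hx hne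
    by_cases hx0 : x < x0
    · rw [indicator_of_mem (show x ∈ Iio x0 from hx0), ← lint_Wf h (H.sp.pos x ⟨hx.1.le, hx0.le⟩).le,
        ← Iio_inter_Ioi, ← Measure.restrict_restrict measurableSet_Iio,
        ← lintegral_indicator measurableSet_Iio]
      refine lintegral_congr fun r => ?_
      by_cases hr : r < s x
      · rw [indicator_of_mem (show (r, x) ∈ A1 from ⟨hx0.le, hr⟩),
          indicator_of_mem (show r ∈ Iio (s x) from hr)]
        simp
      · rw [indicator_of_notMem (show (r, x) ∉ A1 from fun h1 => hr h1.2),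
          indicator_of_notMem (show r ∉ Iio (s x) from hr)]
        simp
    · rw [indicator_of_notMem (show x ∉ Iio x0 from hx0)]
      refine (lintegral_congr fun r => ?_).trans lintegral_zero
      rw [indicator_of_notMem (show (r, x) ∉ A1 from fun h1 => hx0 (lt_of_le_of_ne h1.1 hne))]
      simp
  have hVI : 0 ≤ VI f s x0 := intervalIntegral.integral_nonneg H.xpos.le hWn
  rw [e0, mu_rx hS h hA]
  simp only [e2]
  rw [lintegral_add_left (hm1.lintegral_prod_right' (ν := volume.restrict (Ioo (0 : ℝ) 1))), e3, e4,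
    ← ENNReal.ofReal_add (by positivity) (mul_nonneg (by positivity) (H.adm.VV_nn 0)), volu, mul_add]

theorem sLim (hS : S_Sph) (hP : S_UBp) (hV : S_UBv) (hL : S_Lsc) : S_Lim := by
  intro f a0 h s v s' v' x0 b c W H hb hz hs hv hc hW
  have ms : Measurable s' := measurable_of_tendsto_metrizable
    (fun k => (H k).sp.lip.continuous.measurable) (tendsto_pi_nhds.2 hs)
  have mv : Measurable v' := measurable_of_tendsto_metrizable
    (fun k => (H k).adm.lip.continuous.measurable) (tendsto_pi_nhds.2 hv)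
  have mD := meas_DD ms mv x0
  have mk := fun k => (hV f a0 h x0 _ _ (H k)).1
  have hx0 := (H 0).xpos
  have hsub : ∀ s v : ℝ → ℝ, (∀ x ∈ Icc 0 x0, s x ≤ b) → (∀ r ≥ b, v r = 0) →
      DD s v x0 ⊆ Metric.closedBall 0 b := by
    intro s v h1 h2 p hp
    rw [mem_closedBall_zero_iff]
    rcases hp with hp | hp
    · exact hp.le.trans (h1 _ ⟨le_min (xc_mem p).1 hx0.le, min_le_right _ _⟩)
    · by_contra h3
      rw [h2 _ (not_le.1 h3).le] at hp
      linarith [(xc_mem p).2]
  have hsub' : DD s' v' x0 ⊆ Metric.closedBall 0 b :=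
    hsub _ _ (fun x hx => le_of_tendsto' (hs x) fun k => hb k x hx) fun r hr =>
      tendsto_nhds_unique (hv r) (by simp [hz _ r hr])
  have hsubk : ∀ k, DD (s k) (v k) x0 ⊆ Metric.closedBall 0 b := fun k => hsub _ _ (hb k) (hz k)
  have m1 : MeasurableSet {q : ℝ × ℝ | q.1 = s' (min q.2 x0)} :=
    measurableSet_eq_fun measurable_fst (ms.comp (measurable_snd.min measurable_const))
  have m2 : MeasurableSet {q : ℝ × ℝ | q.2 = 1 - v' q.1} :=
    measurableSet_eq_fun measurable_snd (measurable_const.sub (mv.comp measurable_fst))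
  have n1 := mu_null hS h m1 ((Measure.ae_ae_comm
    (p := fun r x : ℝ => (r, x) ∉ {q : ℝ × ℝ | q.1 = s' (min q.2 x0)}) m1.compl).2
    (ae_of_all _ fun x => Measure.ae_ne volume (s' (min x x0))))
  have n2 := mu_null hS h m2 (ae_of_all _ fun r => Measure.ae_ne volume (1 - v' r))
  have hlt : ∀ {u : ℕ → ℝ} {a y : ℝ}, Tendsto u atTop (𝓝 a) → y ≠ a →
      ∀ᶠ k in atTop, y < u k ↔ y < a := by
    intro u a y hu hne
    rcases hne.lt_or_gt with h1 | h1
    · filter_upwards [hu.eventually (lt_mem_nhds h1)] with k hk using iff_of_true hk h1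
    · filter_upwards [hu.eventually (gt_mem_nhds h1)] with k hk using
        iff_of_false (not_lt.2 hk.le) (not_lt.2 h1.le)
  have hae : ∀ᵐ p ∂mu f, ∀ᶠ k in atTop, p ∈ DD (s k) (v k) x0 ↔ p ∈ DD s' v' x0 := by
    filter_upwards [n1, n2] with p h1 h2
    have h3 : 1 - xc p ≠ v' ‖p‖ := fun e => h2 (show xc p = 1 - v' ‖p‖ by linarith)
    filter_upwards [hlt (hs _) h1, hlt (hv _) h3] with k h4 h5 using or_congr h4 h5
  have hB := (mu_ball_lt h 0 b).ne
  have t1 := tendsto_measure_of_ae_tendsto_indicator atTop mD mk Metric.isClosed_closedBall.measurableSet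
    hB (Eventually.of_forall hsubk) hae
  have t2 := tendsto_measure_of_ae_tendsto_indicator atTop (μ := mu f) MeasurableSet.empty
    (fun k => (mk k).symmDiff mD) Metric.isClosed_closedBall.measurableSet hB
    (Eventually.of_forall fun k => symmDiff_subset_union.trans (union_subset (hsubk k) hsub'))
    (hae.mono fun p hp => hp.mono fun k hk => by simp [mem_symmDiff, hk])
  rw [measure_empty] at t2
  refine ⟨mD, tendsto_nhds_unique t1 ?_, hL f a0 h _ _ _ mk mD t2 fun c' hc' => ?_⟩
  · simp only [fun k => (hV f a0 h x0 _ _ (H k)).2]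
    exact ENNReal.tendsto_ofReal (hW.const_mul _)
  · filter_upwards [(ENNReal.tendsto_ofReal (hc.const_mul (4 * π))).eventually (gt_mem_nhds hc')]
      with k hk using (hP f a0 h x0 _ _ (H k)).trans hk.le

end Pool.Agent.P.MP_ab9b82_gt
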