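import Pool.Agent.P.MP_ab9b82_gt.Fin
import Pool.Agent.P.MP_ab9b82_gt.Asym
import Pool.Agent.P.MP_ab9b82_gt.Avg1
import Pool.Agent.P.MP_ab9b82_gt.Avg2
import Pool.Agent.P.MP_ab9b82_gt.Bd
import Pool.Agent.P.MP_ab9b82_gt.CapL
import Pool.Agent.P.MP_ab9b82_gt.CapU
import Pool.Agent.P.MP_ab9b82_gt.Conv
import Pool.Agent.P.MP_ab9b82_gt.Curv
import Pool.Agent.P.MP_ab9b82_gt.Dil
import Pool.Agent.P.MP_ab9b82_gt.EL
import Pool.Agent.P.MP_ab9b82_gt.Flat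
import Pool.Agent.P.MP_ab9b82_gt.Helly
import Pool.Agent.P.MP_ab9b82_gt.Iso
import Pool.Agent.P.MP_ab9b82_gt.LB
import Pool.Agent.P.MP_ab9b82_gt.MI
import Pool.Agent.P.MP_ab9b82_gt.Met
import Pool.Agent.P.MP_ab9b82_gt.Pol1
import Pool.Agent.P.MP_ab9b82_gt.Pol2
import Pool.Agent.P.MP_ab9b82_gt.Prof
import Pool.Agent.P.MP_ab9b82_gt.Red
import Pool.Agent.P.MP_ab9b82_gt.Sharp
import Pool.Agent.P.MP_ab9b82_gt.Sph
import Pool.Agent.P.MP_ab9b82_gt.UBp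
import Pool.Agent.P.MP_ab9b82_gt.UBv

/-! All packages together. -/

namespace Pool.Agent.P.MP_ab9b82_gt

theorem lbAll : S_LB := sLB sRed (sPol sPol1 (sPol2 sSph)) (sAvg1 sSph (sAvg2 sSph)) (sAvg2 sSph) sDil

theorem final : Final :=
  final_of sProf sCurv sMet1 sMet2 (sBd sMet1) lbAll (sUBp sSph) (sUBv sSph)
    (sLim sSph (sUBp sSph) (sUBv sSph) sLsc)
    (sOne (sUBp sSph) (sUBv sSph) lbAll sDil sMI sFlat sSharp sConv sHelly sLsc1) sEL sAsym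
    (sIso sCapU sCapL)

theorem IsMetric.isRiem {g : Met} (h : IsMetric g) : IsRiem g :=
  ⟨fun _ _ => (h.smooth.clm_apply contDiff_const).clm_apply contDiff_const, h.symm, h.pos⟩

end Pool.Agent.P.MP_ab9b82_gt
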