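import Pool.Agent.P.MP_ab9b82_gt.St

/-! Toolbox for the one-dimensional packages. -/

namespace Pool.Agent.P.MP_ab9b82_gt

open MeasureTheory Set Filter Topology Real
open scoped ENNReal

variable {f : ℝ → ℝ} {a0 a Ra Rb ε : ℝ}

theorem Prof.continuous (h : Prof f a0) : Continuous f := h.diff.continuous

theorem Prof.contDiff (h : Prof f a0) : ContDiff ℝ 1 f := contDiff_one_iff_deriv.2 ⟨h.diff, h.cont⟩

theorem Prof.dpos (h : Prof f a0) (r : ℝ) : 0 < deriv f r := h.pos.trans_le (h.lo r)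

theorem Prof.a0le (h : Prof f a0) : a0 ≤ 1 := (h.lo 0).trans (h.hi 0)

theorem Prof.mono (h : Prof f a0) : StrictMono f := strictMono_of_deriv_pos h.dpos

/-- growth bounds from bounds on the derivative on an interval -/
theorem Prof.sub_le (h : Prof f a0) {r r' c : ℝ} (hr : r ≤ r')
    (hc : ∀ t ∈ Icc r r', deriv f t ≤ c) : f r' - f r ≤ c * (r' - r) :=
  (convex_Icc r r').image_sub_le_mul_sub_of_deriv_le h.continuous.continuousOn
    h.diff.differentiableOn (fun t ht => hc t (interior_subset ht)) r (left_mem_Icc.2 hr) r'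
    (right_mem_Icc.2 hr) hr

theorem Prof.le_sub (h : Prof f a0) {r r' c : ℝ} (hr : r ≤ r')
    (hc : ∀ t ∈ Icc r r', c ≤ deriv f t) : c * (r' - r) ≤ f r' - f r :=
  (convex_Icc r r').mul_sub_le_image_sub_of_le_deriv h.continuous.continuousOn
    h.diff.differentiableOn (fun t ht => hc t (interior_subset ht)) r (left_mem_Icc.2 hr) r'
    (right_mem_Icc.2 hr) hr

theorem Prof.ge (h : Prof f a0) {r : ℝ} (hr : 0 ≤ r) : a0 * r ≤ f r := by
  simpa [h.zero] using h.le_sub hr fun t _ => h.lo t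

theorem Prof.le (h : Prof f a0) {r : ℝ} (hr : 0 ≤ r) : f r ≤ r := by
  simpa [h.zero] using h.sub_le hr fun t _ => h.hi t

theorem Prof.fpos (h : Prof f a0) {r : ℝ} (hr : 0 < r) : 0 < f r :=
  (mul_pos h.pos hr).trans_le (h.ge hr.le)

theorem Prof.fnn (h : Prof f a0) {r : ℝ} (hr : 0 ≤ r) : 0 ≤ f r :=
  (mul_nonneg h.pos.le hr).trans (h.ge hr)

theorem Prof.lip (h : Prof f a0) : LipschitzWith 1 f :=
  lipschitzWith_of_nnnorm_deriv_le h.diff fun x => by
    have := h.dpos x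
    have := h.hi x
    rw [← NNReal.coe_le_coe, coe_nnnorm, Real.norm_eq_abs, abs_of_pos (h.dpos x)]
    simpa using h.hi x

theorem Prof.concave (h : Prof f a0) : ConcaveOn ℝ univ f :=
  h.anti.concaveOn_univ_of_deriv h.diff

theorem Prof.dil (h : Prof f a0) {κ r : ℝ} (h0 : 0 ≤ κ) (h1 : κ ≤ 1) : κ * f r ≤ f (κ * r) := by
  have := h.concave.2 (mem_univ r) (mem_univ 0) h0 (sub_nonneg.2 h1) (by ring)
  simpa [h.zero] using this

theorem Str.lt (s : Str f a Ra Rb ε) : Ra < Rb := by linarith [s.epos, s.elt]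

theorem Str.eq (h : Prof f a0) (s : Str f a Ra Rb ε) {r r' : ℝ} (hr : r ∈ Icc Ra Rb)
    (hr' : r' ∈ Icc Ra Rb) : f r' = f r + a * (r' - r) := by
  wlog hle : r ≤ r' generalizing r r'
  · have := this hr' hr (not_le.1 hle).le
    linarith
  have h1 := h.sub_le hle fun t ht => (s.lin t ⟨hr.1.trans ht.1, ht.2.trans hr'.2⟩).le
  have h2 := h.le_sub hle fun t ht => (s.lin t ⟨hr.1.trans ht.1, ht.2.trans hr'.2⟩).ge
  linarith

theorem Str.deriv_le (h : Prof f a0) (s : Str f a Ra Rb ε) {r : ℝ} (hr : Ra ≤ r) :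
    deriv f r ≤ a := (s.lin Ra ⟨le_rfl, s.lt.le⟩) ▸ h.anti hr

theorem Str.sub_le (h : Prof f a0) (s : Str f a Ra Rb ε) {r r' : ℝ} (hr : Ra ≤ r)
    (hr' : r ≤ r') : f r' - f r ≤ a * (r' - r) :=
  h.sub_le hr' fun _ ht => s.deriv_le h (hr.trans ht.1)

theorem Prof.Wf_deriv (h : Prof f a0) (r : ℝ) : HasDerivAt (Wf f) (f r ^ 2) r :=
  ((h.continuous.pow 2).integral_hasStrictDerivAt 0 r).hasDerivAt

theorem Prof.Wf_cont (h : Prof f a0) : Continuous (Wf f) :=
  continuous_iff_continuousAt.2 fun r => (h.Wf_deriv r).continuousAt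

theorem Wf_zero (f : ℝ → ℝ) : Wf f 0 = 0 := by simp [Wf]

theorem Prof.Wf_sub (h : Prof f a0) (r r' : ℝ) : Wf f r' - Wf f r = ∫ t in r..r', f t ^ 2 :=
  intervalIntegral.integral_interval_sub_left ((h.continuous.pow 2).intervalIntegrable _ _)
    ((h.continuous.pow 2).intervalIntegrable _ _)

theorem Prof.Wf_mono (h : Prof f a0) : Monotone (Wf f) :=
  monotone_of_deriv_nonneg (fun r => (h.Wf_deriv r).differentiableAt) fun r => by
    rw [(h.Wf_deriv r).deriv]; positivity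

theorem Prof.Wf_lt (h : Prof f a0) {r r' : ℝ} (h0 : 0 ≤ r) (hr : r < r') : Wf f r < Wf f r' := by
  refine strictMonoOn_of_deriv_pos (convex_Ici 0) h.Wf_cont.continuousOn (fun x hx => ?_) h0
    (h0.trans hr.le) hr
  rw [interior_Ici] at hx
  rw [(h.Wf_deriv x).deriv]
  exact pow_pos (h.fpos hx) 2

theorem Prof.Wf_pos (h : Prof f a0) {r : ℝ} (hr : 0 < r) : 0 < Wf f r := by
  simpa [Wf_zero] using h.Wf_lt le_rfl hr

theorem Prof.Wf_ge (h : Prof f a0) {r : ℝ} (hr : 0 ≤ r) : a0 ^ 2 * r ^ 3 / 3 ≤ Wf f r := by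
  have h1 : ∫ t in (0 : ℝ)..r, a0 ^ 2 * t ^ 2 = a0 ^ 2 * r ^ 3 / 3 := by
    rw [intervalIntegral.integral_const_mul, integral_pow]; ring
  rw [← h1]
  refine intervalIntegral.integral_mono_on hr (by apply Continuous.intervalIntegrable; fun_prop)
    ((h.continuous.pow 2).intervalIntegrable _ _) fun t ht => ?_
  rw [← mul_pow]
  exact pow_le_pow_left₀ (mul_nonneg h.pos.le ht.1) (h.ge ht.1) 2

theorem Str.Wf_eq (h : Prof f a0) (s : Str f a Ra Rb ε) {r r' : ℝ} (hr : r ∈ Icc Ra Rb)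
    (hr' : r' ∈ Icc Ra Rb) : 3 * a * (Wf f r' - Wf f r) = f r' ^ 3 - f r ^ 3 := by
  have hd : ∀ t ∈ uIcc r r', HasDerivAt (fun t => f t ^ 3) (3 * a * f t ^ 2) t := fun t ht => by
    have ht' : t ∈ Icc Ra Rb := (uIcc_subset_Icc hr hr') ht
    have := (h.diff t).hasDerivAt.pow 3
    rw [s.lin t ht'] at this
    exact this.congr_deriv (by simp; ring)
  rw [← intervalIntegral.integral_eq_sub_of_hasDerivAt hd
    (((h.continuous.pow 2).const_mul _).intervalIntegrable _ _), h.Wf_sub,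
    intervalIntegral.integral_const_mul]

/-! ### Lipschitz functions -/

theorem Lip.continuous {u : ℝ → ℝ} (h : Lip u) : Continuous u := h.choose_spec.continuous

theorem Lip.ac {u : ℝ → ℝ} (h : Lip u) (α β : ℝ) : AbsolutelyContinuousOnInterval u α β :=
  h.choose_spec.lipschitzOnWith.absolutelyContinuousOnInterval

theorem Lip.ae_diff {u : ℝ → ℝ} (h : Lip u) : ∀ᵐ x, DifferentiableAt ℝ u x :=
  h.choose_spec.ae_differentiableAt

theorem Lip.bdd {u : ℝ → ℝ} (h : Lip u) : ∃ K : ℝ, 0 ≤ K ∧ ∀ x, |deriv u x| ≤ K :=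
  ⟨h.choose, h.choose.2, fun _ => norm_deriv_le_of_lipschitz h.choose_spec⟩

theorem Lip.of_abs {u : ℝ → ℝ} {K : ℝ} (h : ∀ x y, |u x - u y| ≤ K * |x - y|) : Lip u :=
  ⟨K.toNNReal, LipschitzWith.of_dist_le_mul fun x y => (h x y).trans
    (mul_le_mul_of_nonneg_right (Real.le_coe_toNNReal K) (abs_nonneg _))⟩

theorem Lip.ftc {u : ℝ → ℝ} (h : Lip u) (α β : ℝ) : ∫ x in α..β, deriv u x = u β - u α :=
  (h.ac α β).integral_deriv_eq_sub

/-- a measurable function which is bounded on the interval is interval integrable -/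
theorem ii_of_bdd {g : ℝ → ℝ} (hm : Measurable g) {α β C : ℝ} (hb : ∀ x ∈ uIcc α β, |g x| ≤ C) :
    IntervalIntegrable g volume α β := by
  rw [intervalIntegrable_iff]
  refine Measure.integrableOn_of_bounded (M := C) (by simp [uIoc]) hm.aestronglyMeasurable ?_
  exact (ae_restrict_iff' measurableSet_uIoc).2 (ae_of_all _ fun x hx => hb x (uIoc_subset_uIcc hx))

theorem Lip.ii {u : ℝ → ℝ} (h : Lip u) (α β : ℝ) : IntervalIntegrable (deriv u) volume α β :=
  (h.ac α β).intervalIntegrable_deriv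

/-- integration by parts against a `C¹` function -/
theorem Lip.ibp {u k k' : ℝ → ℝ} (h : Lip u) {α β : ℝ} (hk : ∀ x ∈ uIcc α β, HasDerivAt k (k' x) x)
    (hc : ContinuousOn k' (uIcc α β)) :
    ∫ x in α..β, k x * deriv u x = k β * u β - k α * u α - ∫ x in α..β, k' x * u x := by
  have hac : AbsolutelyContinuousOnInterval k α β := by
    obtain ⟨C, hC⟩ := isCompact_uIcc.exists_bound_of_continuousOn hc
    refine LipschitzOnWith.absolutelyContinuousOnInterval (K := C.toNNReal) ?_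
    refine (convex_uIcc α β).lipschitzOnWith_of_nnnorm_hasDerivWithin_le
      (fun x hx => (hk x hx).hasDerivWithinAt) fun x hx => ?_
    rw [← NNReal.coe_le_coe, coe_nnnorm]
    exact (hC x hx).trans (Real.le_coe_toNNReal C)
  rw [hac.integral_mul_deriv_eq_deriv_mul (h.ac α β)]
  congr 1
  exact intervalIntegral.integral_congr fun x hx => by simp only [(hk x hx).deriv]

/-- functions touching from one side have the same derivative -/
theorem touch {E : Type*} [NormedAddCommGroup E] [NormedSpace ℝ E] {u w : E → ℝ} {x : E}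
    (hle : ∀ᶠ y in 𝓝 x, u y ≤ w y) (heq : u x = w x) (hu : DifferentiableAt ℝ u x)
    (hw : DifferentiableAt ℝ w x) : fderiv ℝ u x = fderiv ℝ w x := by
  have hm : IsLocalMin (fun y => w y - u y) x := by
    filter_upwards [hle] with y hy
    simp [heq, hy]
  have := hm.fderiv_eq_zero
  rw [fderiv_fun_sub hw hu] at this
  exact (sub_eq_zero.1 this).symm

theorem touch1 {u w : ℝ → ℝ} {x : ℝ} (hle : ∀ᶠ y in 𝓝 x, u y ≤ w y) (heq : u x = w x)
    (hu : DifferentiableAt ℝ u x) (hw : DifferentiableAt ℝ w x) : deriv u x = deriv w x := by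
  simp only [deriv, touch hle heq hu hw]

/-! ### the functionals -/

theorem ph_sq {t : ℝ} (h0 : 0 ≤ t) (h1 : t ≤ 1) : ph t ^ 2 = t * (1 - t) :=
  Real.sq_sqrt (mul_nonneg h0 (sub_nonneg.2 h1))

theorem ph_nn (t : ℝ) : 0 ≤ ph t := Real.sqrt_nonneg _

theorem ph_le (t : ℝ) : ph t ≤ 1 / 2 := Real.sqrt_le_iff.2 ⟨by norm_num, by nlinarith [sq_nonneg (t - 1 / 2)]⟩

theorem ph_cont : Continuous ph := by unfold ph; fun_prop

theorem Lg_nn (f : ℝ → ℝ) (r t p : ℝ) : 0 ≤ Lg f r t p := Real.sqrt_nonneg _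

/-- the calibration inequality -/
theorem Lg_cal {r t p σ β : ℝ} (h0 : 0 ≤ t) (h1 : t ≤ 1) (h : σ ^ 2 + β ^ 2 ≤ 1) :
    σ * (f r * ph t) + β * (f r ^ 2 * p) ≤ Lg f r t p := by
  refine Real.le_sqrt_of_sq_le ?_
  rw [← ph_sq h0 h1]
  have h2 : 0 ≤ (1 - (σ ^ 2 + β ^ 2)) * ((f r * ph t) ^ 2 + (f r ^ 2 * p) ^ 2) :=
    mul_nonneg (sub_nonneg.2 h) (by positivity)
  nlinarith [sq_nonneg (σ * (f r ^ 2 * p) - β * (f r * ph t))]

theorem Lg_mono {r t t' p p' : ℝ} (ht : t * (1 - t) ≤ t' * (1 - t')) (hp : |p| ≤ |p'|) :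
    Lg f r t p ≤ Lg f r t' p' := by
  refine Real.sqrt_le_sqrt ?_
  have := sq_le_sq.2 hp
  gcongr

theorem Lg_meas (h : Prof f a0) {v : ℝ → ℝ} (hv : Lip v) :
    Measurable fun r => Lg f r (v r) (deriv v r) := by
  have h1 := h.continuous.measurable
  have h2 := hv.continuous.measurable
  have h3 := measurable_deriv v
  unfold Lg
  fun_prop

theorem Lg_ii (h : Prof f a0) {v : ℝ → ℝ} (hv : Lip v) (α β : ℝ) :
    IntervalIntegrable (fun r => Lg f r (v r) (deriv v r)) volume α β := by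
  obtain ⟨K, -, hK⟩ := hv.bdd
  have hc : Continuous fun r => Lg f r (v r) K := by
    have h1 := h.continuous
    have h2 := hv.continuous
    unfold Lg
    fun_prop
  obtain ⟨C, hC⟩ := isCompact_uIcc.exists_bound_of_continuousOn (hc.continuousOn (s := uIcc α β))
  refine ii_of_bdd (C := C) (Lg_meas h hv) fun x hx => ?_
  rw [abs_of_nonneg (Lg_nn ..)]
  exact (Lg_mono le_rfl ((hK x).trans (le_abs_self K))).trans ((le_abs_self _).trans (hC x hx))

theorem Lg_zero {v : ℝ → ℝ} {b r : ℝ} (hb : ∀ r ≥ b, v r = 0) (hr : b < r) :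
    Lg f r (v r) (deriv v r) = 0 := by
  have : v =ᶠ[𝓝 r] fun _ => 0 := by
    filter_upwards [Ioi_mem_nhds hr] with y hy using hb y (le_of_lt hy)
  simp [Lg, this.deriv_eq, hb r hr.le]

theorem int_Ioi {g : ℝ → ℝ} {α b : ℝ} (hab : α ≤ b) (hz : ∀ r > b, g r = 0) :
    ∫ r in Ioi α, g r = ∫ r in α..b, g r := by
  rw [intervalIntegral.integral_of_le hab]
  refine setIntegral_eq_of_subset_of_forall_sdiff_eq_zero measurableSet_Ioi Ioc_subset_Ioi_self ?_
  intro x hx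
  exact hz x (lt_of_not_ge fun h => hx.2 ⟨hx.1, h⟩)

theorem intOn_Ioi {g : ℝ → ℝ} {α b : ℝ} (hi : ∀ α β, IntervalIntegrable g volume α β)
    (hz : ∀ r > b, g r = 0) : IntegrableOn g (Ioi α) := by
  have h1 : IntegrableOn g (Ioc α (max α b)) := (hi α (max α b)).1
  refine h1.of_forall_sdiff_eq_zero measurableSet_Ioi fun x hx => hz x ?_
  exact (le_max_right α b).trans_lt (lt_of_not_ge fun h => hx.2 ⟨hx.1, h⟩)

theorem FF_eq {v : ℝ → ℝ} {α b : ℝ} (hb : ∀ r ≥ b, v r = 0) (hab : α ≤ b) :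
    FF f v α = ∫ r in α..b, Lg f r (v r) (deriv v r) := int_Ioi hab fun _ hr => Lg_zero hb hr

theorem VV_eq {v : ℝ → ℝ} {α b : ℝ} (hb : ∀ r ≥ b, v r = 0) (hab : α ≤ b) :
    VV f v α = ∫ r in α..b, v r * f r ^ 2 := int_Ioi hab fun r hr => by simp [hb r hr.le]

theorem Adm.intF (h : Prof f a0) {v : ℝ → ℝ} (hv : Adm v) (α : ℝ) :
    IntegrableOn (fun r => Lg f r (v r) (deriv v r)) (Ioi α) :=
  intOn_Ioi (Lg_ii h hv.lip) fun _ hr => Lg_zero hv.fin.choose_spec hr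

theorem Adm.intV (h : Prof f a0) {v : ℝ → ℝ} (hv : Adm v) (α : ℝ) :
    IntegrableOn (fun r => v r * f r ^ 2) (Ioi α) :=
  intOn_Ioi (b := hv.fin.choose)
    (fun _ _ => (hv.lip.continuous.mul (h.continuous.pow 2)).intervalIntegrable _ _) fun r hr => by simp [hv.fin.choose_spec r hr.le]

theorem Adm.exists_b {v : ℝ → ℝ} (hv : Adm v) (α : ℝ) : ∃ b ≥ α, ∀ r ≥ b, v r = 0 :=
  ⟨max α hv.fin.choose, le_max_left _ _, fun r hr =>
    hv.fin.choose_spec r ((le_max_right _ _).trans hr)⟩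

theorem FF_nn (f v : ℝ → ℝ) (α : ℝ) : 0 ≤ FF f v α := integral_nonneg fun _ => Lg_nn ..

theorem Adm.VV_nn {v : ℝ → ℝ} (hv : Adm v) (α : ℝ) : 0 ≤ VV f v α :=
  integral_nonneg fun r => mul_nonneg (hv.nn r) (sq_nonneg _)

theorem Adm.FF_split (h : Prof f a0) {v : ℝ → ℝ} (hv : Adm v) {α β : ℝ} (hab : α ≤ β) :
    FF f v α = (∫ r in α..β, Lg f r (v r) (deriv v r)) + FF f v β := by
  obtain ⟨b, hb, hz⟩ := hv.exists_b β
  rw [FF_eq hz hb, FF_eq hz (hab.trans hb),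
    intervalIntegral.integral_add_adjacent_intervals (Lg_ii h hv.lip _ _) (Lg_ii h hv.lip _ _)]

theorem Adm.VV_split (h : Prof f a0) {v : ℝ → ℝ} (hv : Adm v) {α β : ℝ} (hab : α ≤ β) :
    VV f v α = (∫ r in α..β, v r * f r ^ 2) + VV f v β := by
  obtain ⟨b, hb, hz⟩ := hv.exists_b β
  have hc : Continuous fun r => v r * f r ^ 2 := hv.lip.continuous.mul (h.continuous.pow 2)
  rw [VV_eq hz hb, VV_eq hz (hab.trans hb),
    intervalIntegral.integral_add_adjacent_intervals (hc.intervalIntegrable _ _)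
      (hc.intervalIntegrable _ _)]

theorem Adm.FF_anti (h : Prof f a0) {v : ℝ → ℝ} (hv : Adm v) {α β : ℝ} (hab : α ≤ β) :
    FF f v β ≤ FF f v α := by
  rw [hv.FF_split h hab]
  exact le_add_of_nonneg_left (intervalIntegral.integral_nonneg hab fun _ _ => Lg_nn ..)

theorem Adm.var_le (h : Prof f a0) {v : ℝ → ℝ} (hv : Adm v) {α β : ℝ} (h0 : 0 ≤ α)
    (hab : α ≤ β) :
    f α ^ 2 * ∫ r in α..β, |deriv v r| ≤ ∫ r in α..β, Lg f r (v r) (deriv v r) := by
  rw [← intervalIntegral.integral_const_mul]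
  refine intervalIntegral.integral_mono_on hab ((hv.lip.ii α β).abs.const_mul _)
    (Lg_ii h hv.lip _ _) fun r hr => ?_
  have h1 : f α ^ 2 ≤ f r ^ 2 := pow_le_pow_left₀ (h.fnn h0) (h.mono.monotone hr.1) 2
  have h2 := Lg_cal (f := f) (r := r) (p := deriv v r) (σ := 0) (β := 1) (hv.nn r) (hv.le r)
    (by norm_num)
  have h3 := Lg_cal (f := f) (r := r) (p := deriv v r) (σ := 0) (β := -1) (hv.nn r) (hv.le r)
    (by norm_num)
  refine (mul_le_mul_of_nonneg_right h1 (abs_nonneg _)).trans ?_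
  rcases abs_cases (deriv v r) with ⟨e, -⟩ | ⟨e, -⟩ <;> rw [e] <;> linarith

theorem Adm.drop_le (h : Prof f a0) {v : ℝ → ℝ} (hv : Adm v) {α β : ℝ} (h0 : 0 ≤ α)
    (hab : α ≤ β) : f α ^ 2 * (v α - v β) ≤ ∫ r in α..β, Lg f r (v r) (deriv v r) := by
  refine le_trans (mul_le_mul_of_nonneg_left ?_ (sq_nonneg _)) (hv.var_le h h0 hab)
  have := intervalIntegral.abs_integral_le_integral_abs (f := deriv v) (μ := volume) hab
  rw [hv.lip.ftc] at this
  linarith [neg_abs_le (v β - v α)]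

/-- the spike estimate -/
theorem Adm.spike (h : Prof f a0) {v : ℝ → ℝ} (hv : Adm v) {α : ℝ} (h0 : 0 ≤ α) :
    f α ^ 2 * v α ≤ FF f v α := by
  obtain ⟨b, hb, hz⟩ := hv.exists_b α
  have := hv.drop_le h h0 hb
  rwa [hz b le_rfl, sub_zero, ← FF_eq hz hb] at this

/-- thin sets are expensive -/
theorem Adm.thin (h : Prof f a0) {v : ℝ → ℝ} (hv : Adm v) {α B : ℝ} (h0 : 0 ≤ α)
    (h1 : ∀ r > α, v r ≤ 3 / 4) (hB : 0 ≤ B) (hz : ∀ r, B < f r → v r = 0) :
    VV f v α ≤ 2 * B * FF f v α := by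
  unfold VV FF
  rw [← integral_const_mul]
  refine setIntegral_mono_on (hv.intV h α) ((hv.intF h α).const_mul _) measurableSet_Ioi
    fun r hr => ?_
  have hf : 0 ≤ f r := h.fnn (h0.trans (le_of_lt hr))
  by_cases hr' : B < f r
  · rw [hz r hr', zero_mul]
    exact mul_nonneg (by positivity) (Lg_nn ..)
  have h2 := Lg_cal (f := f) (r := r) (p := deriv v r) (σ := 1) (β := 0) (hv.nn r) (hv.le r)
    (by norm_num)
  have h3 : v r / 2 ≤ ph (v r) := Real.le_sqrt_of_sq_le (by nlinarith [hv.nn r, h1 r hr])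
  have h4 : f r * (v r / 2) ≤ Lg f r (v r) (deriv v r) := by nlinarith
  have h5 : f r * (f r * v r) ≤ B * (f r * v r) :=
    mul_le_mul_of_nonneg_right (not_lt.1 hr') (mul_nonneg hf (hv.nn r))
  nlinarith

theorem mm_bdd (f : ℝ → ℝ) (W : ℝ) : BddBelow {c | ∃ v, Adm v ∧ VV f v 0 = W ∧ FF f v 0 = c} :=
  ⟨0, by rintro c ⟨v, -, -, rfl⟩; exact FF_nn ..⟩

theorem Adm.mm_le {v : ℝ → ℝ} (hv : Adm v) : mm f (VV f v 0) ≤ FF f v 0 :=
  csInf_le (mm_bdd ..) ⟨v, hv, rfl, rfl⟩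

theorem mm_nn (f : ℝ → ℝ) (W : ℝ) : 0 ≤ mm f W :=
  Real.sInf_nonneg (by rintro c ⟨v, -, -, rfl⟩; exact FF_nn ..)

theorem exists_lt_of_mm_lt {W c : ℝ} (hW : ∃ v, Adm v ∧ VV f v 0 = W) (hc : mm f W < c) :
    ∃ v, Adm v ∧ VV f v 0 = W ∧ FF f v 0 < c := by
  obtain ⟨v, hv, hW⟩ := hW
  obtain ⟨_, ⟨w, h1, h2, rfl⟩, h3⟩ := exists_lt_of_csInf_lt
    (s := {c | ∃ v, Adm v ∧ VV f v 0 = W ∧ FF f v 0 = c}) ⟨_, v, hv, hW, rfl⟩ hc
  exact ⟨w, h1, h2, h3⟩

theorem Lh_meas (h : Prof f a0) {s : ℝ → ℝ} (hs : Lip s) :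
    Measurable fun x => Lh f x (s x) (deriv s x) := by
  have h1 := h.continuous.measurable
  have h2 := hs.continuous.measurable
  have h3 := measurable_deriv s
  unfold Lh
  fun_prop

theorem Lh_ii (h : Prof f a0) {s : ℝ → ℝ} (hs : Lip s) (α β : ℝ) :
    IntervalIntegrable (fun x => Lh f x (s x) (deriv s x)) volume α β := by
  obtain ⟨K, hK0, hK⟩ := hs.bdd
  have hc : Continuous fun x => |f (s x)| * √(|x * (1 - x)| * K ^ 2 + f (s x) ^ 2) := by
    have h1 := h.continuous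
    have h2 := hs.continuous
    fun_prop
  obtain ⟨C, hC⟩ := isCompact_uIcc.exists_bound_of_continuousOn (hc.continuousOn (s := uIcc α β))
  refine ii_of_bdd (C := C) (Lh_meas h hs) fun x hx => ?_
  refine le_trans ?_ ((le_abs_self _).trans (hC x hx))
  unfold Lh
  rw [abs_mul, abs_of_nonneg (Real.sqrt_nonneg _)]
  refine mul_le_mul_of_nonneg_left (Real.sqrt_le_sqrt (add_le_add_left ?_ _)) (abs_nonneg _)
  exact mul_le_mul (le_abs_self _) (sq_le_sq' (neg_le_of_abs_le (hK x)) (le_of_abs_le (hK x)))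
    (sq_nonneg _) (abs_nonneg _)

theorem Pos.exists_c {s : ℝ → ℝ} {x0 : ℝ} (h : Pos s x0) (h0 : 0 ≤ x0) :
    ∃ c > 0, ∀ x ∈ Icc 0 x0, c ≤ s x := by
  obtain ⟨y, hy, hm⟩ := isCompact_Icc.exists_isMinOn (nonempty_Icc.2 h0)
    h.lip.continuous.continuousOn
  exact ⟨s y, h.pos y hy, fun x hx => hm hx⟩

end Pool.Agent.P.MP_ab9b82_gt
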