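import Pool.Agent.P.MP_ab9b82_gt.B1

/-! Toolbox for the geometric packages. -/

namespace Pool.Agent.P.MP_ab9b82_gt

open MeasureTheory Set Filter Topology Real
open scoped ENNReal

variable {f : ℝ → ℝ} {a0 : ℝ}

theorem ip_apply (u v : V) : ip u v = inner ℝ u v := rfl

theorem gm_apply (f : ℝ → ℝ) (x u v : V) : gm f x u v =
    psi f ‖x‖ ^ 2 * inner ℝ u v + (1 - psi f ‖x‖ ^ 2) / ‖x‖ ^ 2 * (inner ℝ x u * inner ℝ x v) := by
  simp [gm, ip_apply]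

theorem gm_symm (f : ℝ → ℝ) (x u v : V) : gm f x u v = gm f x v u := by
  rw [gm_apply, gm_apply, real_inner_comm u v]; ring

theorem gm_iso (f : ℝ → ℝ) (A : V ≃ₗᵢ[ℝ] V) (x u v : V) :
    gm f (A x) (A u) (A v) = gm f x u v := by
  simp [gm_apply]

theorem psi_meas (h : Prof f a0) : Measurable (psi f) :=
  Measurable.ite (measurableSet_singleton 0) measurable_const
    (h.continuous.measurable.div measurable_id)

theorem psi_mul (h : Prof f a0) (r : ℝ) : psi f r * r = f r := by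
  unfold psi
  split_ifs with hr
  · simp [hr, h.zero]
  · field_simp

theorem psi_ge (h : Prof f a0) {r : ℝ} (hr : 0 ≤ r) : a0 ≤ psi f r := by
  unfold psi
  split_ifs with h0
  · exact h.a0le
  · exact (le_div_iff₀ (lt_of_le_of_ne hr (Ne.symm h0))).2 (h.ge hr)

theorem psi_le (h : Prof f a0) {r : ℝ} (hr : 0 ≤ r) : psi f r ≤ 1 := by
  unfold psi
  split_ifs with h0
  · exact le_rfl
  · exact (div_le_one (lt_of_le_of_ne hr (Ne.symm h0))).2 (h.le hr)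

theorem psi_pos (h : Prof f a0) {r : ℝ} (hr : 0 ≤ r) : 0 < psi f r := h.pos.trans_le (psi_ge h hr)

/-- the radial component -/
theorem rad_sq_le (x u : V) : (inner ℝ x u / ‖x‖) ^ 2 ≤ ‖u‖ ^ 2 := by
  refine sq_le_sq' ?_ ?_ <;> rcases (norm_nonneg x).eq_or_lt with h | h
  · simp [← h]
  · rw [le_div_iff₀ h]; linarith [neg_le_of_abs_le (abs_real_inner_le_norm x u)]
  · simp [← h]
  · rw [div_le_iff₀ h]; linarith [le_of_abs_le (abs_real_inner_le_norm x u)]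

theorem gm_self (f : ℝ → ℝ) (x u : V) : gm f x u u =
    (inner ℝ x u / ‖x‖) ^ 2 + psi f ‖x‖ ^ 2 * (‖u‖ ^ 2 - (inner ℝ x u / ‖x‖) ^ 2) := by
  rw [gm_apply, real_inner_self_eq_norm_sq]; ring

theorem gm_nn (f : ℝ → ℝ) (x u : V) : 0 ≤ gm f x u u := by
  rw [gm_self]
  have := sub_nonneg.2 (rad_sq_le x u)
  positivity

theorem gm_ge (h : Prof f a0) (x u : V) : a0 ^ 2 * ‖u‖ ^ 2 ≤ gm f x u u := by
  rw [gm_self]
  have h1 := sub_nonneg.2 (rad_sq_le x u)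
  have h2 : a0 ^ 2 ≤ psi f ‖x‖ ^ 2 := pow_le_pow_left₀ h.pos.le (psi_ge h (norm_nonneg x)) 2
  have h3 : a0 ^ 2 ≤ 1 := pow_le_one₀ h.pos.le h.a0le
  nlinarith [sq_nonneg (inner ℝ x u / ‖x‖)]

theorem gm_le (h : Prof f a0) (x u : V) : gm f x u u ≤ ‖u‖ ^ 2 := by
  rw [gm_self]
  have h1 := sub_nonneg.2 (rad_sq_le x u)
  have h3 : psi f ‖x‖ ^ 2 ≤ 1 := pow_le_one₀ (psi_pos h (norm_nonneg x)).le (psi_le h (norm_nonneg x))
  nlinarith

theorem tang_inner (x u w : V) :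
    inner ℝ (u - (inner ℝ x u / ‖x‖ ^ 2) • x) (w - (inner ℝ x w / ‖x‖ ^ 2) • x) =
      inner ℝ u w - inner ℝ x u / ‖x‖ * (inner ℝ x w / ‖x‖) := by
  simp only [inner_sub_left, inner_sub_right, real_inner_smul_left, real_inner_smul_right,
    real_inner_self_eq_norm_sq, real_inner_comm x u]
  rcases eq_or_ne ‖x‖ 0 with h | h
  · simp [h]
  · field_simp; ring

theorem exists_rep (l : V →L[ℝ] ℝ) : ∃ w : V, ‖l‖ = ‖w‖ ∧ ∀ ξ, l ξ = inner ℝ w ξ :=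
  ⟨(InnerProductSpace.toDual ℝ V).symm l, by simp, fun ξ => by simp⟩

theorem nrm_nn (f : ℝ → ℝ) (x : V) (l : V →L[ℝ] ℝ) : 0 ≤ nrm f x l := Real.sqrt_nonneg _

theorem nrm_sq (f : ℝ → ℝ) (x : V) (l : V →L[ℝ] ℝ) : nrm f x l ^ 2 =
    psi f ‖x‖ ^ 4 * (l x / ‖x‖) ^ 2 + psi f ‖x‖ ^ 2 * (‖l‖ ^ 2 - (l x / ‖x‖) ^ 2) := by
  obtain ⟨w, h1, h2⟩ := exists_rep l
  refine Real.sq_sqrt ?_
  have := sub_nonneg.2 (rad_sq_le x w)
  rw [h1, h2, real_inner_comm]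
  positivity

theorem nrm_ge' (f : ℝ → ℝ) (x : V) (l : V →L[ℝ] ℝ) (ξ : V) :
    psi f ‖x‖ ^ 2 * l ξ ≤ nrm f x l * √(gm f x ξ ξ) := by
  obtain ⟨w, h1, h2⟩ := exists_rep l
  refine le_trans (le_abs_self _) (abs_le_of_sq_le_sq' ?_ ?_).2
  swap
  · exact mul_nonneg (nrm_nn ..) (Real.sqrt_nonneg _)
  rw [mul_pow (nrm f x l), Real.sq_sqrt (gm_nn ..), nrm_sq, gm_self, h1, h2, h2, sq_abs,
    real_inner_comm x w]
  have e1 := tang_inner x w ξ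
  have e2 := tang_inner x w w
  have e3 := tang_inner x ξ ξ
  have cs := real_inner_mul_inner_self_le (w - (inner ℝ x w / ‖x‖ ^ 2) • x)
    (ξ - (inner ℝ x ξ / ‖x‖ ^ 2) • x)
  have p2 := real_inner_self_nonneg (x := w - (inner ℝ x w / ‖x‖ ^ 2) • x)
  have p3 := real_inner_self_nonneg (x := ξ - (inner ℝ x ξ / ‖x‖ ^ 2) • x)
  rw [e1, e2, e3] at cs
  rw [e2] at p2
  rw [e3] at p3
  rw [real_inner_self_eq_norm_sq] at cs p2 p3
  rw [real_inner_self_eq_norm_sq] at cs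
  generalize inner ℝ x w / ‖x‖ = a at *
  generalize inner ℝ x ξ / ‖x‖ = b at *
  generalize psi f ‖x‖ = ψ at *
  obtain ⟨c, hc⟩ : ∃ c, c = inner ℝ w ξ - a * b := ⟨_, rfl⟩
  obtain ⟨A, hA⟩ : ∃ A, A = ‖w‖ ^ 2 - a ^ 2 := ⟨_, rfl⟩
  obtain ⟨B, hB⟩ : ∃ B, B = ‖ξ‖ ^ 2 - b ^ 2 := ⟨_, rfl⟩
  have hc' : inner ℝ w ξ = c + a * b := by linarith
  have cs' : c ^ 2 ≤ A * B := by rw [hc, hA, hB]; nlinarith
  have hA0 : 0 ≤ A := by rw [hA]; nlinarith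
  have hB0 : 0 ≤ B := by rw [hB]; nlinarith
  rw [hc', ← hA, ← hB]
  have k : 2 * (ψ ^ 2 * (a * b * c)) ≤ ψ ^ 4 * a ^ 2 * B + A * b ^ 2 := by
    refine le_trans (le_abs_self _) (abs_le_of_sq_le_sq' ?_ (by positivity)).2
    rw [sq_abs]
    have : (ψ ^ 2 * a * b) ^ 2 * c ^ 2 ≤ (ψ ^ 2 * a * b) ^ 2 * (A * B) := by gcongr
    nlinarith [sq_nonneg (ψ ^ 4 * a ^ 2 * B - A * b ^ 2)]
  have k1 : ψ ^ 4 * c ^ 2 ≤ ψ ^ 4 * (A * B) := by gcongr
  have k2 := mul_le_mul_of_nonneg_left k (sq_nonneg ψ)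
  nlinarith

theorem nrm_ge (f : ℝ → ℝ) (x : V) (l : V →L[ℝ] ℝ) {ξ : V} (h : gm f x ξ ξ ≤ 1) :
    psi f ‖x‖ ^ 2 * l ξ ≤ nrm f x l :=
  (nrm_ge' f x l ξ).trans (mul_le_of_le_one_right (nrm_nn ..) (Real.sqrt_le_one.2 h))

theorem nrm_att (f : ℝ → ℝ) (x : V) (l : V →L[ℝ] ℝ) :
    ∃ ξ, gm f x ξ ξ ≤ 1 ∧ psi f ‖x‖ ^ 2 * l ξ = nrm f x l := by
  rcases (nrm_nn f x l).eq_or_lt with h0 | h0
  · exact ⟨0, by simp, by simp [← h0]⟩
  obtain ⟨w, h1, h2⟩ := exists_rep l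
  have hs := nrm_sq f x l
  rw [h1, h2, real_inner_comm] at hs
  have key : ∀ ξ0 : V, ξ0 = w + ((psi f ‖x‖ ^ 2 - 1) * (inner ℝ x w / ‖x‖ ^ 2)) • x →
      gm f x ξ0 ξ0 = nrm f x l ^ 2 ∧ psi f ‖x‖ ^ 2 * l ξ0 = nrm f x l ^ 2 := by
    rintro _ rfl
    rw [hs, gm_apply, h2]
    simp only [inner_add_left, inner_add_right, real_inner_smul_left, real_inner_smul_right,
      real_inner_self_eq_norm_sq, real_inner_comm x w, norm_smul, mul_pow, Real.norm_eq_abs, sq_abs]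
    rcases eq_or_ne ‖x‖ 0 with h | h
    · simp [h]
    · constructor <;> field_simp <;> ring
  obtain ⟨k1, k2⟩ := key _ rfl
  generalize w + ((psi f ‖x‖ ^ 2 - 1) * (inner ℝ x w / ‖x‖ ^ 2)) • x = ξ at k1 k2
  refine ⟨(nrm f x l)⁻¹ • ξ, le_of_eq ?_, ?_⟩
  · simp only [map_smul, smul_apply, smul_eq_mul]
    rw [k1]; field_simp
  · rw [map_smul, smul_eq_mul, mul_left_comm, k2]; field_simp

theorem nrm_zero (f : ℝ → ℝ) (x : V) : nrm f x 0 = 0 := by simp [nrm]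

theorem nrm_add_le (f : ℝ → ℝ) (x : V) (l m : V →L[ℝ] ℝ) :
    nrm f x (l + m) ≤ nrm f x l + nrm f x m := by
  obtain ⟨ξ, h1, h2⟩ := nrm_att f x (l + m)
  rw [← h2, add_apply, mul_add]
  exact add_le_add (nrm_ge f x l h1) (nrm_ge f x m h1)

theorem nrm_smul (f : ℝ → ℝ) (x : V) (c : ℝ) (l : V →L[ℝ] ℝ) :
    nrm f x (c • l) = |c| * nrm f x l := by
  unfold nrm
  rw [← Real.sqrt_sq_eq_abs, ← Real.sqrt_mul (sq_nonneg c), norm_smul, mul_pow, Real.norm_eq_abs,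
    sq_abs, smul_apply, smul_eq_mul]
  congr 1; ring

theorem nrm_iso (f : ℝ → ℝ) (A : V ≃ₗᵢ[ℝ] V) (x : V) (l : V →L[ℝ] ℝ) :
    nrm f x (l.comp (A.toContinuousLinearEquiv : V →L[ℝ] V)) = nrm f (A x) l := by
  have : ‖l.comp (A.toContinuousLinearEquiv : V →L[ℝ] V)‖ = ‖l‖ := l.opNorm_comp_linearIsometryEquiv A
  unfold nrm
  rw [this, A.norm_map]
  rfl

theorem nrm_le (h : Prof f a0) (x : V) (l : V →L[ℝ] ℝ) : nrm f x l ≤ psi f ‖x‖ * ‖l‖ := by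
  have h0 := psi_pos h (norm_nonneg x)
  refine (abs_le_of_sq_le_sq' ?_ (by positivity)).2
  have h3 : psi f ‖x‖ ^ 2 ≤ 1 := pow_le_one₀ h0.le (psi_le h (norm_nonneg x))
  rw [nrm_sq]
  have : 0 ≤ psi f ‖x‖ ^ 2 * (l x / ‖x‖) ^ 2 * (1 - psi f ‖x‖ ^ 2) :=
    mul_nonneg (by positivity) (sub_nonneg.2 h3)
  nlinarith

theorem nrm_meas (h : Prof f a0) (u : V → ℝ) : Measurable fun p => nrm f p (fderiv ℝ u p) := by
  have h1 : Measurable fun p : V => psi f ‖p‖ := (psi_meas h).comp measurable_norm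
  have h2 : Measurable fun p : V => ‖fderiv ℝ u p‖ := (measurable_fderiv ℝ u).norm
  have h3 : Measurable fun p : V => fderiv ℝ u p p :=
    (isBoundedBilinearMap_apply.continuous.measurable.comp
      ((measurable_fderiv ℝ u).prodMk measurable_id) :)
  unfold nrm
  fun_prop

/-! ### the coordinates `r` and `x` -/

theorem norm_sq_eq (p : V) : ‖p‖ ^ 2 = p 0 ^ 2 + p 1 ^ 2 + p 2 ^ 2 := by
  simp [EuclideanSpace.norm_sq_eq, Fin.sum_univ_three]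

theorem inner_eq (p q : V) : inner ℝ p q = p 0 * q 0 + p 1 * q 1 + p 2 * q 2 := by
  simp [PiLp.inner_apply, Fin.sum_univ_three, mul_comm]

theorem abs_two_le (p : V) : |p 2| ≤ ‖p‖ := by simpa using PiLp.norm_apply_le p 2

theorem xc_mem (p : V) : xc p ∈ Icc (0 : ℝ) 1 := by
  have h : |p 2 / ‖p‖| ≤ 1 := by
    rw [abs_div, abs_norm]; exact div_le_one_of_le₀ (abs_two_le p) (norm_nonneg p)
  unfold xc
  constructor <;> linarith [neg_le_of_abs_le h, le_of_abs_le h]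

theorem xc_meas : Measurable xc := by unfold xc; fun_prop

theorem xc_zero : xc 0 = 1 / 2 := by simp [xc]

theorem xc_smul {t : ℝ} (ht : 0 < t) (p : V) : xc (t • p) = xc p := by
  simp [xc, norm_smul, abs_of_pos ht, mul_div_mul_left _ _ ht.ne']

/-- the differential of the norm -/
noncomputable def dr (p : V) : V →L[ℝ] ℝ := ‖p‖⁻¹ • ip p

/-- the differential of `xc` -/
noncomputable def dx (p : V) : V →L[ℝ] ℝ :=
  (2 * ‖p‖)⁻¹ • ip (EuclideanSpace.single 2 1) - (p 2 / (2 * ‖p‖ ^ 3)) • ip p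

theorem dr_apply (p ξ : V) : dr p ξ = inner ℝ p ξ / ‖p‖ := by
  simp [dr, ip_apply, div_eq_inv_mul]

theorem dx_apply (p ξ : V) : dx p ξ = ξ 2 / (2 * ‖p‖) - p 2 * inner ℝ p ξ / (2 * ‖p‖ ^ 3) := by
  simp [dx, ip_apply, inner_eq]; ring

theorem hasFDerivAt_nrm {p : V} (hp : p ≠ 0) : HasFDerivAt (fun q : V => ‖q‖) (dr p) p := by
  have h0 : ‖p‖ ≠ 0 := norm_ne_zero_iff.2 hp
  have h1 := (hasStrictFDerivAt_norm_sq p).hasFDerivAt.sqrt (pow_ne_zero 2 h0)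
  simp only [Real.sqrt_sq (norm_nonneg _)] at h1
  refine h1.congr_fderiv ?_
  ext ξ
  simp [dr_apply]; field_simp

theorem hasFDerivAt_xc {p : V} (hp : p ≠ 0) : HasFDerivAt xc (dx p) p := by
  have h0 : ‖p‖ ≠ 0 := norm_ne_zero_iff.2 hp
  have h1 : HasFDerivAt (fun q : V => q 2) (EuclideanSpace.proj (2 : Fin 3) : V →L[ℝ] ℝ) p :=
    (EuclideanSpace.proj (2 : Fin 3) : V →L[ℝ] ℝ).hasFDerivAt
  have h2 := (hasDerivAt_inv h0).comp_hasFDerivAt p (hasFDerivAt_nrm hp)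
  have h3 := ((h1.mul h2).const_add 1).mul_const (2⁻¹ : ℝ)
  refine HasFDerivAt.congr_fderiv (f' := _) (h3.congr_of_eventuallyEq (.of_forall fun q => ?_)) ?_
  · simp [xc, div_eq_mul_inv]
  · ext ξ
    simp [dx_apply, dr_apply]; field_simp; ring

theorem xc_contAt {p : V} (hp : p ≠ 0) : ContinuousAt xc p := (hasFDerivAt_xc hp).continuousAt

theorem nrm_dd (h : Prof f a0) {p : V} (hp : p ≠ 0) (α β : ℝ) :
    ‖p‖ ^ 2 * nrm f p (α • dr p + β • dx p) =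
      √(f ‖p‖ ^ 4 * α ^ 2 + f ‖p‖ ^ 2 * (β ^ 2 * (xc p * (1 - xc p)))) := by
  have h0 : ‖p‖ ≠ 0 := norm_ne_zero_iff.2 hp
  have e : α • dr p + β • dx p = ip ((α * ‖p‖⁻¹ - β * (p 2 / (2 * ‖p‖ ^ 3))) • p +
      (β * (2 * ‖p‖)⁻¹) • EuclideanSpace.single 2 1) := by
    simp only [dr, dx, map_add, map_smul]; module
  have e1 : ∀ w : V, ‖ip w‖ = ‖w‖ := fun w => innerSL_apply_norm ℝ w
  rw [← Real.sqrt_sq (mul_nonneg (sq_nonneg ‖p‖) (nrm_nn f p _)), mul_pow, nrm_sq, e, e1, ip_apply,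
    ← psi_mul h ‖p‖, norm_add_sq_real, norm_smul, norm_smul]
  congr 1
  simp only [inner_add_left, real_inner_smul_left, real_inner_smul_right,
    real_inner_self_eq_norm_sq, EuclideanSpace.inner_single_left, EuclideanSpace.inner_single_right,
    mul_pow, Real.norm_eq_abs, sq_abs, PiLp.norm_single, xc]
  simp
  field_simp
  ring

/-! ### spherical coordinates -/

theorem sp_zero (r : ℝ) (z : ℝ × ℝ) : sp r z 0 = 2 * r * ph z.1 * cos z.2 := rfl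

theorem sp_one (r : ℝ) (z : ℝ × ℝ) : sp r z 1 = 2 * r * ph z.1 * sin z.2 := rfl

theorem sp_two (r : ℝ) (z : ℝ × ℝ) : sp r z 2 = r * (2 * z.1 - 1) := rfl

theorem sp_smul (r : ℝ) (z : ℝ × ℝ) : sp r z = r • sp 1 z := by
  ext i
  fin_cases i <;> simp [sp] <;> ring

theorem norm_sp (r : ℝ) {z : ℝ × ℝ} (hz : z.1 ∈ Icc (0 : ℝ) 1) : ‖sp r z‖ = |r| := by
  rw [← Real.sqrt_sq (norm_nonneg _), ← Real.sqrt_sq_eq_abs, norm_sq_eq, sp_zero, sp_one, sp_two]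
  congr 1
  have := ph_sq hz.1 hz.2
  have h2 := sin_sq_add_cos_sq z.2
  linear_combination 4 * r ^ 2 * ph z.1 ^ 2 * h2 + 4 * r ^ 2 * this

theorem xc_sp {r : ℝ} (hr : 0 < r) {z : ℝ × ℝ} (hz : z.1 ∈ Icc (0 : ℝ) 1) : xc (sp r z) = z.1 := by
  rw [xc, norm_sp r hz, abs_of_pos hr, sp_two]; field_simp; ring

theorem sp_cont : Continuous fun q : ℝ × ℝ × ℝ => sp q.1 q.2 := by
  have := ph_cont
  refine (PiLp.continuous_toLp 2 _).comp (continuous_pi fun i => ?_)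
  fin_cases i <;> simp <;> fun_prop

theorem Om_meas : MeasurableSet Om := measurableSet_Ioo.prod measurableSet_Ioo

theorem Om_vol : volume Om = ENNReal.ofReal (2 * π) := by
  rw [Om, Measure.volume_eq_prod, Measure.prod_prod]
  simp [two_mul]

theorem Om_mem {z : ℝ × ℝ} (hz : z ∈ Om) : z.1 ∈ Icc (0 : ℝ) 1 := Ioo_subset_Icc_self hz.1

/-! ### the volume measure -/

theorem mu_dens_meas (h : Prof f a0) : Measurable fun x : V => ENNReal.ofReal (psi f ‖x‖ ^ 2) :=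
  (((psi_meas h).comp measurable_norm).pow_const 2).ennreal_ofReal

theorem lint_mu (h : Prof f a0) {g : V → ℝ≥0∞} (hg : Measurable g) :
    ∫⁻ p, g p ∂mu f = ∫⁻ p, ENNReal.ofReal (psi f ‖p‖ ^ 2) * g p :=
  lintegral_withDensity_eq_lintegral_mul _ (mu_dens_meas h) hg

theorem mu_le (h : Prof f a0) : mu f ≤ volume := by
  conv_rhs => rw [← withDensity_one (μ := (volume : Measure V))]
  refine withDensity_mono (ae_of_all _ fun x => ENNReal.ofReal_le_one.2 ?_)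
  exact pow_le_one₀ (psi_pos h (norm_nonneg x)).le (psi_le h (norm_nonneg x))

theorem le_mu (h : Prof f a0) : ENNReal.ofReal (a0 ^ 2) • (volume : Measure V) ≤ mu f := by
  rw [← withDensity_const]
  exact withDensity_mono (ae_of_all _ fun x => ENNReal.ofReal_le_ofReal
    (pow_le_pow_left₀ h.pos.le (psi_ge h (norm_nonneg x)) 2))

theorem mu_pos (h : Prof f a0) {U : Set V} (hU : IsOpen U) (hne : U.Nonempty) : 0 < mu f U := by
  refine lt_of_lt_of_le ?_ (Measure.le_iff'.1 (le_mu h) U)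
  rw [Measure.smul_apply, smul_eq_mul]
  exact ENNReal.mul_pos (ENNReal.ofReal_pos.2 (pow_pos h.pos 2)).ne' (hU.measure_pos _ hne).ne'

theorem mu_ball_lt (h : Prof f a0) (x : V) (R : ℝ) : mu f (Metric.closedBall x R) < ⊤ :=
  (Measure.le_iff'.1 (mu_le h) _).trans_lt measure_closedBall_lt_top

end Pool.Agent.P.MP_ab9b82_gt
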