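import Mathlib

/-! Riemannian metrics on `ℝ³` in the global chart: curvature, distance, volume, perimeter. -/

namespace Pool.Agent.P.MP_ab9b82_gt

open MeasureTheory Set Filter Topology
open scoped ENNReal ContDiff

noncomputable section

/-- the underlying manifold -/
abbrev V : Type := EuclideanSpace ℝ (Fin 3)

/-- a field of bilinear forms -/
abbrev Met : Type := V → V →L[ℝ] V →L[ℝ] ℝ

/-- `ev g x u v = g_x(u, v)` -/
def ev (g : Met) (x u v : V) : ℝ := g x u v

/-- `g` is a smooth Riemannian metric -/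
structure IsRiem (g : Met) : Prop where
  smooth : ∀ u v, ContDiff ℝ ∞ fun x => ev g x u v
  symm : ∀ x u v, ev g x u v = ev g x v u
  pos : ∀ x u, u ≠ 0 → 0 < ev g x u u

/-- derivative of a function at `x` in the direction `u` -/
def dd (h : V → ℝ) (x u : V) : ℝ := fderiv ℝ h x u

/-- `Γ` are the Christoffel symbols of the Levi-Civita connection of `g` (Koszul formula) -/
def IsLC (g : Met) (Γ : V → V → V → V) : Prop :=
  ∀ x u v w, 2 * ev g x (Γ x u v) w = dd (fun y => ev g y v w) x u +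
    dd (fun y => ev g y u w) x v - dd (fun y => ev g y u v) x w

/-- the curvature tensor `R(u,v)w` at `x` -/
def riem (Γ : V → V → V → V) (x u v w : V) : V :=
  fderiv ℝ (fun y => Γ y v w) x u - fderiv ℝ (fun y => Γ y u w) x v +
    Γ x u (Γ x v w) - Γ x v (Γ x u w)

/-- the Ricci tensor, the trace of `u ↦ R(u,v)w` -/
def ric (Γ : V → V → V → V) (x v w : V) : ℝ := ∑ i, riem Γ x (EuclideanSpace.single i 1) v w i

/-- length of a curve on `[0,1]` -/
def len (g : Met) (γ : ℝ → V) : ℝ≥0∞ :=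
  ∫⁻ τ in Icc (0 : ℝ) 1, ENNReal.ofReal (Real.sqrt (g (γ τ) (deriv γ τ) (deriv γ τ)))

/-- intrinsic distance in `S`: infimum of the lengths of Lipschitz curves inside `S` -/
def idist (g : Met) (S : Set V) (p q : V) : ℝ≥0∞ :=
  ⨅ (γ : ℝ → V) (_ : ∃ K, LipschitzWith K γ) (_ : γ 0 = p) (_ : γ 1 = q)
    (_ : ∀ τ ∈ Icc (0 : ℝ) 1, γ τ ∈ S), len g γ

/-- Riemannian volume -/
def vol (g : Met) : Measure V :=
  volume.withDensity fun x => ENNReal.ofReal (Real.sqrt (Matrix.det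
    (Matrix.of fun i j : Fin 3 => g x (EuclideanSpace.single i 1) (EuclideanSpace.single j 1))))

/-- norm of a covector at `x` -/
def conorm (g : Met) (x : V) (l : V →L[ℝ] ℝ) : ℝ≥0∞ :=
  ⨆ (ξ : V) (_ : g x ξ ξ ≤ 1), ENNReal.ofReal (l ξ)

/-- perimeter: relaxation of `∫ |∇u|` along locally Lipschitz `u → 1_E` in `L¹_loc` -/
def perim (g : Met) (E : Set V) : ℝ≥0∞ :=
  ⨅ (u : ℕ → V → ℝ) (_ : ∀ j, LocallyLipschitz (u j))
    (_ : ∀ K, IsCompact K →
      Tendsto (fun j => ∫⁻ x in K, ‖u j x - E.indicator 1 x‖ₑ ∂vol g) atTop (𝓝 0)),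
    liminf (fun j => ∫⁻ x, conorm g x (fderiv ℝ (u j) x) ∂vol g) atTop

/-- `E` is an isoperimetric set of volume `W` -/
def IsIsop (g : Met) (W : ℝ) (E : Set V) : Prop :=
  MeasurableSet E ∧ vol g E = ENNReal.ofReal W ∧ perim g E < ⊤ ∧
    ∀ F, MeasurableSet F → vol g F = ENNReal.ofReal W → perim g E ≤ perim g F

/-- the boundary of `E`, independent of the representative -/
def bdry (g : Met) (E : Set V) : Set V := {x | ∀ U ∈ 𝓝 x, 0 < vol g (U ∩ E) ∧ 0 < vol g (U \ E)}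

/-- `S` and `T` are isometric for the intrinsic distances -/
def Isom (g : Met) (S T : Set V) : Prop :=
  ∃ Φ : S ≃ T, ∀ p q : S, idist g T (Φ p) (Φ q) = idist g S p q

/-- Cauchy sequences of the Riemannian distance converge -/
def IsCompleteMet (g : Met) : Prop :=
  ∀ x : ℕ → V, (∀ ε : ℝ≥0∞, 0 < ε → ∃ N, ∀ m ≥ N, ∀ n ≥ N, idist g univ (x m) (x n) < ε) →
    ∃ y, Tendsto x atTop (𝓝 y)

end

end Pool.Agent.P.MP_ab9b82_gt
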