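import Pool.Agent.P.MP_ab9b82_gt.One
import Pool.Agent.P.MP_ab9b82_gt.B2

/-! Assembly. -/

namespace Pool.Agent.P.MP_ab9b82_gt

open MeasureTheory Set Filter Topology Real
open scoped ENNReal

namespace FinAux

open OneAux

variable {f : ℝ → ℝ} {a0 a Ra Rb ε : ℝ}

theorem DD_ball (R : ℝ) : DD (fun _ => R) (fun _ => 0) 1 = Metric.ball 0 R := by
  ext p
  have := (xc_mem p).2
  simp only [DD, mem_ofPred_eq, mem_ball_zero_iff, or_iff_left_iff_imp]
  intro h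
  linarith

theorem isop (h1 : S_Met1) (hl : S_LB) (h : Prof f a0) {W c : ℝ} {E : Set V} (hW : 0 < W)
    (hc : c ≤ mm f W) (hE : MeasurableSet E) (hm : mu f E = ENNReal.ofReal (4 * π * W))
    (hp : per f E ≤ ENNReal.ofReal (4 * π * c)) : IsIsop (gm f) (4 * π * W) E := by
  obtain ⟨e1, e2⟩ := h1 f a0 h
  refine ⟨hE, e1 ▸ hm, by rw [e2]; exact hp.trans_lt ENNReal.ofReal_lt_top, fun F hF hF2 => ?_⟩
  rw [e2, e2]
  exact hp.trans ((ENNReal.ofReal_le_ofReal (by gcongr)).trans (hl f a0 h F W hF hW (e1 ▸ hF2)))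

theorem bdry_congr {g : Met} {E F : Set V} (h : vol g (symmDiff E F) = 0) :
    bdry g E = bdry g F := by
  have hae : E =ᵐ[vol g] F := measure_symmDiff_eq_zero_iff.1 h
  ext x
  refine forall₂_congr fun U _ => ?_
  rw [measure_congr ((ae_eq_refl U).inter hae), measure_congr ((ae_eq_refl U).diff hae)]

theorem pair (h1 : S_Met1) (hb : S_Bd) (hl : S_LB) (hp : S_UBp) (hv : S_UBv) (hL : S_Lim)
    (hO : S_One) (hE : S_EL) (hA : S_Asym) (hI : S_Iso) (h : Prof f a0) (S : Str f a Ra Rb ε) :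
    ∃ R > Ra, ∃ E E' : Set V, IsIsop (gm f) (4 * π * Wf f R) E ∧
      IsIsop (gm f) (4 * π * Wf f R) E' ∧ 0 < vol (gm f) (symmDiff E E') ∧
      ¬Isom (gm f) (bdry (gm f) E) (bdry (gm f) E') := by
  obtain ⟨R, r1, r2, hm, s, v, s', v', b, o1, o2, o3, o4, o5, o6, o7, o8, o9, o10, o11, o12⟩ :=
    hO f a0 a Ra Rb ε h S
  have hR : 0 < R := S.rpos.trans r1
  have hW := h.Wf_pos hR
  obtain ⟨l1, l2, l3⟩ := hL f a0 h s v s' v' _ b _ _ o1 o2 o3 o4 o5 o6 o7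
  have hy := hyb_one (pos_const hR 1)
  have b1 := hp f a0 h _ _ _ hy
  have b2 := (hv f a0 h _ _ _ hy).2
  rw [DD_ball, cost_one, FI_const h hR] at b1
  rw [DD_ball, volu_one, VI_const] at b2
  have hn : ¬Isom (gm f) (bdry (gm f) (Metric.ball 0 R)) (bdry (gm f) (DD s' v' (1 / 4))) := by
    intro hi
    rw [(hb f a0 h).1 R hR] at hi
    have hcap := (hb f a0 h).2 s' v' o8 fun r =>
      le_of_tendsto' (o5 r) fun k => by linarith [(o1 k).le r]
    obtain ⟨c1, H, hel⟩ := hE f a0 h s' _ (by norm_num) (by norm_num) o8 o12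
    obtain ⟨x1, x1p, x1l, hst⟩ := hI f a0 h _ s' R hcap o8 c1 hR hi
    obtain ⟨δ, δp, hδ⟩ := Metric.eventually_nhds_iff.1
      ((o8.lip.continuous.tendsto 0).eventually (Iio_mem_nhds o11))
    obtain ⟨x2, x2p, x2a, x2b⟩ : ∃ x2 > 0, x2 ≤ x1 ∧ x2 < δ :=
      ⟨min x1 (δ / 2), lt_min x1p (by linarith), min_le_left _ _,
        (min_le_right _ _).trans_lt (by linarith)⟩
    have hsub : Ioo (0 : ℝ) x2 ⊆ Ioo 0 (1 / 4) := Ioo_subset_Ioo_right (x2a.trans x1l)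
    have := hA f a0 h s' x2 a H (f R) x2p (by linarith)
      ⟨o8.lip, fun x hx => o8.pos x ⟨hx.1, by linarith [hx.2]⟩⟩ o9
      ⟨fun x hx => c1.diff x (hsub hx), c1.cont.mono hsub⟩ S.apos (by linarith [S.ale])
      (fun x hx => S.lin _ ⟨o10.trans (o9 hx.1), ((hδ (by
        rw [Real.dist_eq, sub_zero, abs_of_nonneg hx.1]; linarith [hx.2])).trans r2).le⟩)
      (h.fpos hR) (fun x hx => hel x (hsub hx)) fun x hx => hst x (Ioo_subset_Ioo_right x2a hx)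
    exact (h.mono o11).ne this
  refine ⟨R, r1, _, _, isop h1 hl h hW hm.ge measurableSet_ball b2 b1,
    isop h1 hl h hW hm.ge l1 l2 l3, pos_iff_ne_zero.2 fun e => hn ?_, hn⟩
  rw [bdry_congr e]
  exact ⟨Equiv.refl _, fun _ _ => rfl⟩

end FinAux

open FinAux in
theorem final_of (hP : S_Prof) (hC : S_Curv) (h1 : S_Met1) (h2 : S_Met2) (hb : S_Bd) (hl : S_LB)
    (hp : S_UBp) (hv : S_UBv) (hL : S_Lim) (hO : S_One) (hE : S_EL) (hA : S_Asym) (hI : S_Iso) :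
    Final := by
  obtain ⟨f, a0, h, hN, hS⟩ := hP
  obtain ⟨c1, Γ, c2, c3, C, Cp, c4⟩ := hC f a0 h hN
  obtain ⟨m1, m2, m3⟩ := h2 f a0 h
  refine ⟨gm f, Γ, c1, c2, m2, c3, (h1 f a0 h).1 ▸ m3, ⟨C, Cp, fun x u v w z e1 e2 e3 e4 =>
    (c4 x u v w z e1 e2 e3 e4).trans ?_⟩, ?_⟩
  · have := ENNReal.toReal_le_of_le_ofReal (norm_nonneg x) (m1 x)
    have := ENNReal.toReal_nonneg (a := idist (gm f) univ 0 x)
    gcongr
  choose a Ra Rb ε hS1 hS2 using hS
  choose R hR hE using fun i => pair h1 hb hl hp hv hL hO hE hA hI h (hS1 i)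
  have hpos : ∀ i, 0 < R i := fun i => (hS1 i).rpos.trans (hR i)
  refine ⟨fun i => 4 * π * Wf f (R i), fun i => mul_pos (by positivity) (h.Wf_pos (hpos i)), ?_, hE⟩
  refine Tendsto.const_mul_atTop (by positivity) (tendsto_atTop_mono (fun i => h.Wf_ge (hpos i).le) ?_)
  refine Tendsto.atTop_div_const (by norm_num) (Tendsto.const_mul_atTop (pow_pos h.pos 2) ?_)
  exact (tendsto_pow_atTop three_ne_zero).comp
    (tendsto_atTop_mono (fun i => (hS2 i).trans (hR i).le) tendsto_natCast_atTop_atTop)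

end Pool.Agent.P.MP_ab9b82_gt
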