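import Pool.Agent.P.MP_ab9b82_gt.B1

/-! Package Flat: calibration by loxodromes. -/

namespace Pool.Agent.P.MP_ab9b82_gt

open MeasureTheory Set Filter Topology Real

namespace FlatAux

/-- The profile `(1 - cos y₊) / 2`. -/
noncomputable def LL (y : ℝ) : ℝ := (1 - cos (max y 0)) / 2

theorem LL_nn (y : ℝ) : 0 ≤ LL y := by
  unfold LL
  linarith [cos_le_one (max y 0)]

theorem LL_neg {y : ℝ} (h : y ≤ 0) : LL y = 0 := by simp [LL, max_eq_right h]

theorem LL_mono {x y : ℝ} (h : x ≤ y) (hy : y ≤ π) : LL x ≤ LL y := by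
  have := cos_le_cos_of_nonneg_of_le_pi (le_max_right x 0) (max_le hy pi_pos.le)
    (max_le_max h (le_refl (0 : ℝ)))
  unfold LL
  linarith

theorem LL_lip {x y : ℝ} (h : y ≤ x) : LL x - LL y ≤ (x - y) / 2 := by
  have h1 := abs_cos_sub_cos_le (max y 0) (max x 0)
  have h2 := abs_max_sub_max_le_abs y x 0
  rw [abs_sub_comm y x, abs_of_nonneg (sub_nonneg.2 h)] at h2
  unfold LL
  linarith [le_abs_self (cos (max y 0) - cos (max x 0))]

theorem LL_arccos {t : ℝ} (h0 : 0 ≤ t) (h1 : t ≤ 1) : LL (arccos (1 - 2 * t)) = t := by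
  rw [LL, max_eq_left (arccos_nonneg _), cos_arccos (by linarith) (by linarith)]
  ring

theorem ph_LL {y : ℝ} (h0 : 0 ≤ y) (h1 : y ≤ π) : ph (LL y) = sin y / 2 := by
  have := sin_nonneg_of_nonneg_of_le_pi h0 h1
  rw [ph, LL, max_eq_left h0, ← sqrt_sq (show 0 ≤ sin y / 2 by positivity)]
  congr 1
  linear_combination (-1 / 4) * sin_sq_add_cos_sq y

theorem le_sqrt_LL {y : ℝ} (h1 : y ≤ π) : y ≤ π * √(LL y) := by
  rcases le_total y 0 with h0 | h0
  · exact h0.trans (by positivity)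
  · have h2 := cos_le_one_sub_mul_cos_sq (x := y) (by rwa [abs_of_nonneg h0])
    have h3 : y / π ≤ √(LL y) := by
      refine le_sqrt_of_sq_le ?_
      rw [LL, max_eq_left h0, div_pow]
      have : 2 / π ^ 2 * y ^ 2 = 2 * (y ^ 2 / π ^ 2) := by ring
      linarith
    rwa [div_le_iff₀' pi_pos] at h3

theorem exists_m {T : ℝ → ℝ} (hT : Continuous T) (r1 : ℝ) : ∃ m : ℝ → ℝ, ∀ r, r1 ≤ r →
    (∀ x ∈ Icc r1 r, m r ≤ T x) ∧ ∃ x ∈ Icc r1 r, m r = T x := by
  have : ∀ r, ∃ c, r1 ≤ r → (∀ x ∈ Icc r1 r, c ≤ T x) ∧ ∃ x ∈ Icc r1 r, c = T x := by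
    intro r
    by_cases h : r1 ≤ r
    · obtain ⟨x, hx, hm⟩ := isCompact_Icc.exists_isMinOn (nonempty_Icc.2 h) hT.continuousOn
      exact ⟨T x, fun _ => ⟨fun y hy => hm hy, x, hx, rfl⟩⟩
    · exact ⟨0, fun h' => absurd h' h⟩
  choose m hm using this
  exact ⟨m, hm⟩

theorem lip_glue {w : ℝ → ℝ} {K r1 : ℝ} (h1 : ∀ x y, x ≤ y → y ≤ r1 → |w x - w y| ≤ K * (y - x))
    (h2 : ∀ x y, r1 ≤ x → x ≤ y → |w x - w y| ≤ K * (y - x)) : Lip w := by
  refine Lip.of_abs (K := K) fun x y => ?_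
  wlog h : x ≤ y generalizing x y
  · rw [abs_sub_comm, abs_sub_comm x]
    exact this y x (not_le.1 h).le
  rw [abs_sub_comm x y, abs_of_nonneg (sub_nonneg.2 h)]
  rcases le_total y r1 with hy | hy
  · exact h1 x y h hy
  rcases le_total r1 x with hx | hx
  · exact h2 x y hx h
  have := abs_sub_le (w x) (w r1) (w y)
  linarith [h1 x r1 hx le_rfl, h2 r1 y le_rfl hy]

theorem ph_gap {v w : ℝ} (h0 : 0 ≤ w) (h1 : w ≤ v) (h2 : v ≤ 0.4) :
    0.2 * (v - w) ≤ ph v - ph w := by
  have e1 := ph_sq (h0.trans h1) (by linarith)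
  have e2 := ph_sq h0 (by linarith)
  have h3 : 0.2 * (v - w) ≤ ph v ^ 2 - ph w ^ 2 := by
    rw [e1, e2]
    nlinarith [mul_nonneg (sub_nonneg.2 h1) (show 0 ≤ 0.8 - v - w by linarith)]
  have h4 : ph w ≤ ph v := le_of_sq_le_sq (by linarith) (ph_nn _)
  nlinarith [ph_le v, ph_le w, ph_nn v, ph_nn w]

/-- The data of the construction to the right of `r1`. -/
structure Dat (f v w y : ℝ → ℝ) (r1 : ℝ) : Prop where
  adm : Adm w
  le : ∀ r, w r ≤ v r
  left : ∀ r ≤ r1, w r = v r
  right : ∀ r, r1 ≤ r → w r = LL (y r)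
  top : ∀ r, r1 ≤ r → y r ≤ π / 2
  drop : ∀ c p q, 0 < c → r1 ≤ p → p ≤ q → f q ≤ c → y q + (q - p) / c ≤ y p
  der : ∀ r, r1 < r → w r < v r → deriv w r = -(ph (w r) / f r)

theorem exists_dat {f : ℝ → ℝ} {a0 : ℝ} (h : Prof f a0) {v : ℝ → ℝ} (hv : Adm v) {r1 : ℝ}
    (h1 : 0 < r1) (hv4 : ∀ r, r1 ≤ r → v r ≤ 0.4) : ∃ w y, Dat f v w y r1 := by
  let g : ℝ → ℝ := fun r => (f (max r r1))⁻¹
  have hfp : ∀ r, 0 < f (max r r1) := fun r => h.fpos (h1.trans_le (le_max_right _ _))
  have hg : Continuous g :=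
    (h.continuous.comp (continuous_id.max continuous_const)).inv₀ fun r => (hfp r).ne'
  let G : ℝ → ℝ := fun r => ∫ t in r1..r, g t
  have hG : ∀ r, HasDerivAt G (g r) r := fun r => (hg.integral_hasStrictDerivAt r1 r).hasDerivAt
  have hGd : Differentiable ℝ G := fun r => (hG r).differentiableAt
  have hGlo : ∀ c p q, 0 < c → r1 ≤ p → p ≤ q → f q ≤ c → (q - p) / c ≤ G q - G p := by
    intro c p q hc hp hpq hq
    rw [div_eq_inv_mul]
    refine (convex_Icc p q).mul_sub_le_image_sub_of_le_deriv hGd.continuous.continuousOn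
      hGd.differentiableOn (fun t ht => ?_) p (left_mem_Icc.2 hpq) q (right_mem_Icc.2 hpq) hpq
    have ht := interior_subset ht
    rw [(hG t).deriv]
    refine inv_anti₀ (hfp t) ?_
    rw [max_eq_left (hp.trans ht.1)]
    exact (h.mono.monotone ht.2).trans hq
  have hGmono : ∀ p q, r1 ≤ p → p ≤ q → G p ≤ G q := by
    intro p q hp hpq
    have hq := h.fpos (h1.trans_le (hp.trans hpq))
    have := hGlo (f q) p q hq hp hpq le_rfl
    have := div_nonneg (sub_nonneg.2 hpq) hq.le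
    linarith
  have hGhi : ∀ p q, p ≤ q → G q - G p ≤ (f r1)⁻¹ * (q - p) := by
    intro p q hpq
    refine (convex_Icc p q).image_sub_le_mul_sub_of_deriv_le hGd.continuous.continuousOn
      hGd.differentiableOn (fun t _ => ?_) p (left_mem_Icc.2 hpq) q (right_mem_Icc.2 hpq) hpq
    rw [(hG t).deriv]
    exact inv_anti₀ (h.fpos h1) (h.mono.monotone (le_max_right _ _))
  let th : ℝ → ℝ := fun r => arccos (1 - 2 * v r)
  have hth : Continuous th :=
    continuous_arccos.comp (continuous_const.sub (continuous_const.mul hv.lip.continuous))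
  have hthL : ∀ r, LL (th r) = v r := fun r => LL_arccos (hv.nn r) (hv.le r)
  have hth2 : ∀ r, r1 ≤ r → th r ≤ π / 2 := fun r hr =>
    arccos_le_pi_div_two.2 (by linarith [hv4 r hr])
  have hT : Continuous fun r => th r + G r := hth.add hGd.continuous
  obtain ⟨m, hm⟩ := exists_m hT r1
  have hmanti : ∀ p q, r1 ≤ p → p ≤ q → m q ≤ m p := by
    intro p q hp hpq
    obtain ⟨x, hx, e⟩ := (hm p hp).2
    rw [e]
    exact (hm q (hp.trans hpq)).1 x ⟨hx.1, hx.2.trans hpq⟩
  let y : ℝ → ℝ := fun r => m r - G r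
  have hy : ∀ r, r1 ≤ r → y r ≤ th r := fun r hr => by
    have := (hm r hr).1 r ⟨hr, le_rfl⟩
    simp only [y]
    linarith
  have hy2 : ∀ r, r1 ≤ r → y r ≤ π := fun r hr => (hy r hr).trans (arccos_le_pi _)
  let w : ℝ → ℝ := fun r => if r ≤ r1 then v r else LL (y r)
  have hleft : ∀ r ≤ r1, w r = v r := fun r hr => if_pos hr
  have hright : ∀ r, r1 ≤ r → w r = LL (y r) := by
    intro r hr
    rcases hr.eq_or_lt with rfl | hr
    · obtain ⟨x, hx, e⟩ := (hm r1 le_rfl).2
      obtain rfl : x = r1 := le_antisymm hx.2 hx.1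
      rw [hleft x le_rfl, ← hthL]
      simp only [y]
      rw [e, add_sub_cancel_right]
    · exact if_neg hr.not_ge
  have hle : ∀ r, w r ≤ v r := by
    intro r
    rcases le_total r r1 with hr | hr
    · exact (hleft r hr).le
    · rw [hright r hr, ← hthL]
      exact LL_mono (hy r hr) (arccos_le_pi _)
  have hnn : ∀ r, 0 ≤ w r := by
    intro r
    rcases le_total r r1 with hr | hr
    · rw [hleft r hr]; exact hv.nn r
    · rw [hright r hr]; exact LL_nn _
  have hlip : Lip w := by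
    obtain ⟨K, hK⟩ := hv.lip
    have hK' : ∀ p q, p ≤ q → |v p - v q| ≤ K * (q - p) := fun p q hpq => by
      have := hK.dist_le_mul p q
      rwa [Real.dist_eq, Real.dist_eq, abs_sub_comm p q, abs_of_nonneg (sub_nonneg.2 hpq)] at this
    have hc : 0 ≤ (f r1)⁻¹ := (inv_pos.2 (h.fpos h1)).le
    have hK0 : (0 : ℝ) ≤ K := K.2
    refine lip_glue (K := K + (f r1)⁻¹) (r1 := r1) (fun p q hpq hq => ?_) fun p q hp hpq => ?_
    · rw [hleft p (hpq.trans hq), hleft q hq]
      nlinarith [hK' p q hpq, mul_nonneg hc (sub_nonneg.2 hpq)]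
    · have hq := hp.trans hpq
      have e1 : w q ≤ w p := by
        rw [hright p hp, hright q hq]
        refine LL_mono ?_ (hy2 p hp)
        have := hmanti p q hp hpq
        have := hGmono p q hp hpq
        simp only [y]
        linarith
      rw [abs_of_nonneg (sub_nonneg.2 e1)]
      obtain ⟨x, hx, e⟩ := (hm q hq).2
      rcases le_total x p with hxp | hxp
      · have e2 : m p ≤ m q := e ▸ (hm p hp).1 x ⟨hx.1, hxp⟩
        have e3 := hmanti p q hp hpq
        have e4 := hGmono p q hp hpq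
        have e5 := LL_lip (x := y p) (y := y q) (by simp only [y]; linarith)
        have e6 := hGhi p q hpq
        rw [hright p hp, hright q hq]
        simp only [y] at e5 ⊢
        nlinarith [mul_nonneg hc (sub_nonneg.2 hpq), mul_nonneg hK0 (sub_nonneg.2 hpq)]
      · have e4 := hGmono x q hx.1 hx.2
        have e5 := LL_lip (x := th x) (y := y q) (by simp only [y]; linarith)
        have e6 := hGhi x q hx.2
        have e7 := (le_abs_self _).trans (hK' p x hxp)
        have e8 := hle p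
        rw [hthL, ← hright q hq] at e5
        simp only [y] at e5
        nlinarith [mul_nonneg hc (sub_nonneg.2 hxp), mul_nonneg hK0 (sub_nonneg.2 hx.2),
          mul_nonneg hc (sub_nonneg.2 hx.2)]
  obtain ⟨b, hb⟩ := hv.fin
  refine ⟨w, y, ⟨hlip, hnn, fun r => (hle r).trans (hv.le r), b, fun r hr =>
    le_antisymm (hb r hr ▸ hle r) (hnn r)⟩, hle, hleft, hright,
    fun r hr => (hy r hr).trans (hth2 r hr), fun c p q hc hp hpq hq => ?_, fun r hr hlt => ?_⟩
  · have := hGlo c p q hc hp hpq hq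
    have := hmanti p q hp hpq
    simp only [y]
    linarith
  · rcases le_or_gt (y r) 0 with hy0 | hy0
    · have e : w r = 0 := by rw [hright r hr.le, LL_neg hy0]
      have hmin : IsLocalMin w r := Eventually.of_forall fun x => e ▸ hnn x
      rw [hmin.deriv_eq_zero, e]
      simp [ph]
    have hmT : m r < th r + G r := by
      refine lt_of_le_of_ne ((hm r hr.le).1 r ⟨hr.le, le_rfl⟩) fun e => hlt.ne ?_
      rw [hright r hr.le, ← hthL]
      simp only [y]
      rw [e, add_sub_cancel_right]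
    have hev : ∀ᶠ x in 𝓝 r, m r < th x + G x ∧ r1 < x :=
      (hT.continuousAt.eventually (lt_mem_nhds hmT)).and (lt_mem_nhds hr)
    obtain ⟨l, u, hlu, hsub⟩ := mem_nhds_iff_exists_Ioo_subset.1 hev
    have hloc : ∀ x ∈ Ioo l u, m x = m r := by
      intro x hx
      have hx1 : r1 ≤ x := (hsub hx).2.le
      apply le_antisymm
      · obtain ⟨z, hz, e⟩ := (hm r hr.le).2
        have : z ≤ l := by
          by_contra hc
          exact (hsub ⟨not_le.1 hc, hz.2.trans_lt hlu.2⟩).1.ne e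
        rw [e]
        exact (hm x hx1).1 z ⟨hz.1, this.trans hx.1.le⟩
      · obtain ⟨z, hz, e⟩ := (hm x hx1).2
        rw [e]
        rcases le_total z r with hzr | hzr
        · exact (hm r hr.le).1 z ⟨hz.1, hzr⟩
        · exact (hsub ⟨hlu.1.trans_le hzr, hz.2.trans_lt hx.2⟩).1.le
    have hd : HasDerivAt (fun x => (1 - cos (m r - G x)) / 2) (-(sin (y r) / 2 / f r)) r := by
      refine ((((hG r).const_sub (m r)).cos.const_sub 1).div_const 2).congr_deriv ?_
      simp only [g, y, max_eq_left hr.le]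
      ring
    have hpos : ∀ᶠ x in 𝓝 r, 0 < m r - G x :=
      (continuous_const.sub hGd.continuous).continuousAt.eventually (lt_mem_nhds hy0)
    have heq : w =ᶠ[𝓝 r] fun x => (1 - cos (m r - G x)) / 2 := by
      filter_upwards [Ioo_mem_nhds hlu.1 hlu.2, hpos] with x hx hx'
      rw [hright x (hsub hx).2.le]
      simp only [y, LL]
      rw [hloc x hx, max_eq_left hx'.le]
    rw [heq.deriv_eq, hd.deriv, hright r hr.le, ph_LL hy0.le (hy2 r hr.le)]

/-- The pointwise inequality. -/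
theorem pointwise {F φ v w v' w' : ℝ} (f : ℝ → ℝ) (r : ℝ) (hφ : f r = φ) (hF : 0 < F) (hp : 0 < φ)
    (h0 : 0 ≤ w) (h1 : w < v) (h2 : v ≤ 0.4) (hw : w' = -(ph w / φ)) (hs : φ ^ 2 * v < F ^ 2)
    (hz : 1.6 * F ≤ φ → w = 0) :
    Lg f r w w' + 0.07 / F * ((v - w) * φ ^ 2) - √2 / 2 * (φ ^ 2 * v' - φ ^ 2 * w') ≤
      Lg f r v v' := by
  have s2 : √2 * √2 = 2 := mul_self_sqrt (by norm_num)
  have s3 : 1.4 ≤ √2 := le_sqrt_of_sq_le (by norm_num)
  have e1 := Lg_cal (f := f) (r := r) (p := v') (σ := √2 / 2) (β := -(√2 / 2)) (h0.trans h1.le)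
    (by linarith) (by nlinarith)
  have e2 : Lg f r w w' = √2 * (φ * ph w) := by
    rw [Lg, ← ph_sq h0 (by linarith), hφ, hw,
      ← sqrt_sq (show 0 ≤ √2 * (φ * ph w) by have := ph_nn w; positivity)]
    congr 1
    field_simp
    rw [sq_sqrt (by norm_num)]
    ring
  have e3 : φ ^ 2 * w' = -(φ * ph w) := by
    rw [hw]
    field_simp
  have e4 : 0.1 / F * ((v - w) * φ ^ 2) ≤ φ * (ph v - ph w) := by
    rw [div_mul_eq_mul_div, div_le_iff₀ hF]
    rcases le_total φ (2 * F) with h | h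
    · have a1 := ph_gap h0 h1.le h2
      have a2 : φ * F * (0.2 * (v - w)) ≤ φ * F * (ph v - ph w) :=
        mul_le_mul_of_nonneg_left a1 (by positivity)
      have a3 : φ * (v - w) * φ ≤ φ * (v - w) * (2 * F) :=
        mul_le_mul_of_nonneg_left h (mul_nonneg hp.le (by linarith))
      nlinarith
    · have hw0 : w = 0 := hz (by linarith)
      subst hw0
      have a1 : 0.1 * (v * φ) ≤ ph v * F := by
        refine le_of_sq_le_sq ?_ (mul_nonneg (ph_nn _) hF.le)
        rw [mul_pow (ph v), ph_sq h1.le (by linarith)]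
        have b1 : v * (φ ^ 2 * v) ≤ v * F ^ 2 := mul_le_mul_of_nonneg_left hs.le h1.le
        have b2 : 0 ≤ v * F ^ 2 * (0.4 - v) := mul_nonneg (by positivity) (by linarith)
        have b3 : 0 ≤ v * F ^ 2 := by positivity
        nlinarith
      have a2 := mul_le_mul_of_nonneg_left a1 hp.le
      have : ph 0 = 0 := by simp [ph]
      rw [this]
      nlinarith
  have e5 : 0 ≤ 0.1 / F * ((v - w) * φ ^ 2) :=
    mul_nonneg (by positivity) (mul_nonneg (by linarith) (by positivity))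
  have e6 : 0.07 / F * ((v - w) * φ ^ 2) = 0.7 * (0.1 / F * ((v - w) * φ ^ 2)) := by ring
  rw [hφ] at e1
  rw [e2, e3, e6]
  nlinarith [mul_le_mul_of_nonneg_left e4 (show 0 ≤ √2 / 2 by positivity),
    mul_le_mul_of_nonneg_right s3 e5]

theorem main_ineq {f : ℝ → ℝ} {a0 : ℝ} (h : Prof f a0) {v w y : ℝ → ℝ} (hv : Adm v) {r1 F : ℝ}
    (h1 : 0 < r1) (hF : 0 < F) (hv4 : ∀ r, r1 ≤ r → v r ≤ 0.4) (D : Dat f v w y r1)
    (hs : ∀ r, r1 ≤ r → f r ^ 2 * v r < F ^ 2) (hz : ∀ r, 1.6 * F ≤ f r → w r = 0) :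
    FF f w 0 + 0.07 / F * (VV f v 0 - VV f w 0) ≤ FF f v 0 := by
  obtain ⟨b, hb, hvb⟩ := hv.exists_b r1
  have hwb : ∀ r ≥ b, w r = 0 := fun r hr => le_antisymm (hvb r hr ▸ D.le r) (D.adm.nn r)
  have e1 : ∫ r in (0 : ℝ)..r1, Lg f r (w r) (deriv w r) =
      ∫ r in (0 : ℝ)..r1, Lg f r (v r) (deriv v r) := by
    refine intervalIntegral.integral_congr_ae ?_
    filter_upwards [(countable_singleton r1).ae_notMem volume] with r hr hr'
    rw [uIoc_of_le h1.le] at hr'
    have hlt : r < r1 := lt_of_le_of_ne hr'.2 hr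
    have : w =ᶠ[𝓝 r] v := by
      filter_upwards [Iio_mem_nhds hlt] with x hx using D.left x (le_of_lt hx)
    rw [this.deriv_eq, D.left r hlt.le]
  have e2 : ∫ r in (0 : ℝ)..r1, w r * f r ^ 2 = ∫ r in (0 : ℝ)..r1, v r * f r ^ 2 := by
    refine intervalIntegral.integral_congr fun r hr => ?_
    rw [uIcc_of_le h1.le] at hr
    simp only [D.left r hr.2]
  have hk : ∀ x ∈ uIcc r1 b, HasDerivAt (fun r => f r ^ 2) (2 * f x * deriv f x) x := fun x _ =>
    ((h.diff x).hasDerivAt.pow 2).congr_deriv (by simp)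
  have hkc : Continuous fun x => 2 * f x * deriv f x :=
    (continuous_const.mul h.continuous).mul h.cont
  have i1 := hv.lip.ibp hk hkc.continuousOn
  have i2 := D.adm.lip.ibp hk hkc.continuousOn
  have i3 : ∫ x in r1..b, 2 * f x * deriv f x * w x ≤ ∫ x in r1..b, 2 * f x * deriv f x * v x := by
    refine intervalIntegral.integral_mono_on hb
      ((hkc.mul D.adm.lip.continuous).intervalIntegrable _ _)
      ((hkc.mul hv.lip.continuous).intervalIntegrable _ _) fun x hx => ?_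
    have := h.fnn (h1.le.trans hx.1)
    have := h.dpos x
    exact mul_le_mul_of_nonneg_left (D.le x) (by positivity)
  have c2 : Continuous fun r => f r ^ 2 := h.continuous.pow 2
  have j1 : IntervalIntegrable (fun x => f x ^ 2 * deriv v x) volume r1 b :=
    (hv.lip.ii _ _).continuousOn_mul c2.continuousOn
  have j2 : IntervalIntegrable (fun x => f x ^ 2 * deriv w x) volume r1 b :=
    (D.adm.lip.ii _ _).continuousOn_mul c2.continuousOn
  have j3 : IntervalIntegrable (fun x => v x * f x ^ 2) volume r1 b :=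
    (hv.lip.continuous.mul c2).intervalIntegrable _ _
  have j4 : IntervalIntegrable (fun x => w x * f x ^ 2) volume r1 b :=
    (D.adm.lip.continuous.mul c2).intervalIntegrable _ _
  have j5 := Lg_ii h D.adm.lip r1 b
  have key := intervalIntegral.integral_mono_ae_restrict hb
    ((j5.add ((j3.sub j4).const_mul (0.07 / F))).sub ((j1.sub j2).const_mul (√2 / 2)))
    (Lg_ii h hv.lip r1 b) (by
      refine (ae_restrict_iff' measurableSet_Icc).2 ?_
      filter_upwards [(countable_singleton r1).ae_notMem volume, hv.lip.ae_diff,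
        D.adm.lip.ae_diff] with r hr hdv hdw hr'
      have hlt : r1 < r := lt_of_le_of_ne hr'.1 (Ne.symm hr)
      rcases (D.le r).eq_or_lt with e | e
      · rw [touch1 (Eventually.of_forall D.le) e hdw hdv, e]
        simp
      · have := pointwise (v' := deriv v r) f r rfl hF (h.fpos (h1.trans hlt)) (D.adm.nn r) e
          (hv4 r hlt.le) (D.der r hlt e) (hs r hlt.le) (hz r)
        rw [← sub_mul]
        exact this)
  rw [intervalIntegral.integral_sub (j5.add ((j3.sub j4).const_mul _)) ((j1.sub j2).const_mul _),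
    intervalIntegral.integral_add j5 ((j3.sub j4).const_mul _),
    intervalIntegral.integral_const_mul, intervalIntegral.integral_const_mul,
    intervalIntegral.integral_sub j3 j4, intervalIntegral.integral_sub j1 j2, i1, i2,
    hvb b le_rfl, hwb b le_rfl, D.left r1 le_rfl] at key
  rw [hv.FF_split h h1.le, D.adm.FF_split h h1.le, hv.VV_split h h1.le, D.adm.VV_split h h1.le,
    e1, e2, FF_eq hvb hb, FF_eq hwb hb, VV_eq hvb hb, VV_eq hwb hb]
  have := mul_nonneg (show 0 ≤ √2 / 2 by positivity) (sub_nonneg.2 i3)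
  have e3 : ∀ A B C : ℝ, A + B - (A + C) = B - C := fun _ _ _ => by ring
  rw [e3]
  nlinarith

theorem exists_r1 {v : ℝ → ℝ} (hv : Adm v) (Ra : ℝ) :
    ∃ r1, Ra ≤ r1 ∧ (r1 = Ra ∨ 0.4 ≤ v r1) ∧ ∀ r, r1 ≤ r → v r ≤ 0.4 := by
  by_cases hS : ∃ r, Ra ≤ r ∧ 0.4 ≤ v r
  · obtain ⟨b, hb⟩ := hv.fin
    have hc : IsClosed {r | Ra ≤ r ∧ 0.4 ≤ v r} :=
      isClosed_Ici.inter (isClosed_le continuous_const hv.lip.continuous)
    have hbd : BddAbove {r | Ra ≤ r ∧ 0.4 ≤ v r} := ⟨b, fun r hr => by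
      by_contra hc
      have := hb r (not_le.1 hc).le
      have := hr.2
      linarith⟩
    have hm := hc.csSup_mem hS hbd
    set r1 := sSup {r | Ra ≤ r ∧ 0.4 ≤ v r}
    have hgt : ∀ r, r1 < r → v r ≤ 0.4 := fun r hr => by
      by_contra hc
      exact (le_csSup hbd (show r ∈ {r | Ra ≤ r ∧ 0.4 ≤ v r} from
        ⟨hm.1.trans hr.le, (not_le.1 hc).le⟩)).not_gt hr
    refine ⟨r1, hm.1, Or.inr hm.2, fun r hr => ?_⟩
    rcases hr.eq_or_lt with rfl | hr
    · exact le_of_tendsto (hv.lip.continuous.continuousWithinAt (s := Ioi r1) (x := r1))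
        (eventually_nhdsWithin_of_forall hgt)
    · exact hgt r hr
  · push Not at hS
    exact ⟨Ra, le_rfl, Or.inl rfl, fun r hr => (hS r hr).le⟩

end FlatAux

open FlatAux in
theorem sFlat : S_Flat := by
  intro f a0 a Ra Rb ε h s R hR v hv hFF
  have hRa := h.fpos s.rpos
  set F := f R
  have hF : 0 < F := by linarith
  have hs : ∀ r, 0 ≤ r → f r ^ 2 * v r < F ^ 2 := fun r hr =>
    ((hv.spike h hr).trans (hv.FF_anti h hr)).trans_lt hFF
  obtain ⟨r1, hr1, hor, hv4⟩ := exists_r1 hv Ra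
  have h1 : 0 < r1 := s.rpos.trans_le hr1
  have hf1 : f r1 ≤ 1.59 * F := by
    rcases hor with rfl | h4
    · linarith
    · refine le_of_sq_le_sq ?_ (by positivity)
      have := hs r1 h1.le
      nlinarith [mul_le_mul_of_nonneg_left h4 (sq_nonneg (f r1)), sq_nonneg F]
  obtain ⟨w, y, D⟩ := exists_dat h hv h1 hv4
  have hz : ∀ r, 1.6 * F ≤ f r → w r = 0 := by
    intro r hr
    have e1 := s.sub_le h hr1 (show r1 ≤ r1 + 3.2 * F by linarith)
    have e2 : a * (r1 + 3.2 * F - r1) ≤ 1 / 1000 * (r1 + 3.2 * F - r1) :=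
      mul_le_mul_of_nonneg_right s.ale (by linarith)
    have e3 : r1 + 3.2 * F ≤ r := (h.mono.lt_iff_lt.1 (by linarith)).le
    have e4 := D.drop (1.6 * F) r1 (r1 + 3.2 * F) (by positivity) le_rfl (by linarith) (by linarith)
    have e5 := D.drop (f r) (r1 + 3.2 * F) r (by linarith) (by linarith) e3 le_rfl
    have e6 : (r1 + 3.2 * F - r1) / (1.6 * F) = 2 := by
      field_simp
      ring
    have e7 : 0 ≤ (r - (r1 + 3.2 * F)) / f r := div_nonneg (by linarith) (by linarith)
    have e8 := D.top r1 le_rfl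
    rw [D.right r (by linarith), LL_neg (by linarith [pi_le_four])]
  refine ⟨w, D.adm, D.le, main_ineq h hv h1 hF hv4 D (fun r hr => hs r (h1.le.trans hr)) hz, hz,
    r1, by rwa [D.left r1 le_rfl], fun r hr r' hr' => ?_⟩
  rcases le_total (1.6 * F) (f r') with hc | hc
  · exact hz r' hc
  have hq : 0 ≤ √(w r) := sqrt_nonneg _
  have hrr : r ≤ r' := le_trans (le_add_of_nonneg_right (by positivity)) hr'
  have e1 := D.drop (1.6 * F) r r' (by positivity) hr hrr hc
  have e2 : 4 * √(w r) ≤ (r' - r) / (1.6 * F) := by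
    rw [le_div_iff₀ (by positivity)]
    nlinarith [mul_nonneg hF.le hq]
  have e3 := le_sqrt_LL (y := y r) (by linarith [D.top r hr, pi_pos])
  rw [← D.right r hr] at e3
  rw [D.right r' (hr.trans hrr), LL_neg]
  nlinarith [pi_le_four]

end Pool.Agent.P.MP_ab9b82_gt
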