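import Pool.Agent.P.MP_ab9b82_gt.One2

/-! The second minimizer of the one-dimensional problem. -/

namespace Pool.Agent.P.MP_ab9b82_gt

open MeasureTheory Set Filter Topology Real
open scoped ENNReal

namespace OneAux

variable {f : ℝ → ℝ} {a0 a Ra Rb ε : ℝ}

theorem Ctx.star (C : Ctx f a0) (hM : S_MI) (hF : S_Flat) (S : Str f a Ra Rb ε) :
    ∃ R, Ra < R ∧ R < Rb ∧ f Rb ≤ 2 * f R ∧ mm f (Wf f R) = f R ^ 2 ∧
      ∀ R', R < R' → R' ≤ Rb → mm f (Wf f R') < f R' ^ 2 := by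
  have h := C.p
  obtain ⟨-, R0, h1, h2, -⟩ := half h S le_rfl (by linarith [h.fpos (S.rpos.trans S.lt)])
  have h0 := h.fpos S.rpos
  have hb := S.big
  have h3 : R0 ≤ Rb := h.mono.le_iff_le.1 (by linarith)
  have h4 : Ra < R0 := h.mono.lt_iff_lt.1 (by linarith)
  have hc : ContinuousOn (fun R => mm f (Wf f R)) (Icc R0 Rb) := fun R hR =>
    ((C.cont (h.Wf_pos (S.rpos.trans (h4.trans_le hR.1)))).comp
      h.Wf_cont.continuousAt).continuousWithinAt
  have hcl : IsClosed {R ∈ Icc R0 Rb | f R ^ 2 ≤ mm f (Wf f R)} :=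
    isClosed_Icc.isClosed_le (h.continuous.pow 2).continuousOn hc
  have hbd : BddAbove {R ∈ Icc R0 Rb | f R ^ 2 ≤ mm f (Wf f R)} := ⟨Rb, fun R hR => hR.1.2⟩
  have hm := hcl.csSup_mem ⟨R0, ⟨le_rfl, h3⟩, C.base hM hF S h3 (by linarith)⟩ hbd
  refine ⟨_, h4.trans_le hm.1.1, lt_of_le_of_ne hm.1.2 fun e => ?_, ?_,
    le_antisymm (C.ball (S.rpos.trans (h4.trans_le hm.1.1))) hm.2, fun R' h5 h6 => ?_⟩
  · have := hm.2
    rw [e] at this
    exact absurd (C.tilt S) (not_lt.2 this)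
  · linarith [h.mono.monotone hm.1.1]
  · by_contra e
    exact absurd (le_csSup hbd ⟨⟨hm.1.1.trans h5.le, h6⟩, not_lt.1 e⟩) (not_le.2 h5)

theorem Step.helly (hH : S_Helly) {R δ : ℕ → ℝ} {s v : ℕ → ℝ → ℝ} (hRa : 0 < Ra)
    (hs : ∀ k, Step f a0 Ra Rb (R k) (δ k) (s k) (v k)) :
    ∃ φ : ℕ → ℕ, StrictMono φ ∧ ∃ s' v' : ℝ → ℝ,
      (∀ x, Tendsto (fun k => s (φ k) x) atTop (𝓝 (s' x))) ∧
      ∀ x, Tendsto (fun k => v (φ k) x) atTop (𝓝 (v' x)) := by
  obtain ⟨φ, hφ, s', h1⟩ := hH s (2 * f Rb / a0) (fun k => (hs k).hyb.sp.lip)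
    (fun k x => by
      rw [abs_of_pos (hRa.trans_le ((hs k).rng x).1)]; exact ((hs k).rng x).2)
    (fun k α β _ => by
      have : ∀ x, |deriv (s k) x| = deriv (s k) x := fun x =>
        abs_of_nonneg (hs k).mono.deriv_nonneg
      simp only [this, (hs k).hyb.sp.lip.ftc]
      linarith [((hs k).rng α).1, ((hs k).rng β).2])
  obtain ⟨ψ, hψ, v', h2⟩ := hH (fun k => v (φ k)) 4 (fun k => (hs _).hyb.adm.lip)
    (fun k x => by
      rw [abs_of_nonneg ((hs _).hyb.adm.nn x)]; linarith [(hs (φ k)).hyb.adm.le x])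
    fun k => (hs _).var
  exact ⟨φ ∘ ψ, hφ.comp hψ, s', v', fun x => (h1 x).comp hψ.tendsto_atTop, h2⟩

theorem Ctx.penMin (C : Ctx f a0) (hL : S_Lsc1) {s v : ℕ → ℝ → ℝ} {s' : ℝ → ℝ} {W : ℝ} {K : NNReal}
    (hW : 0 < W) (hh : ∀ k, Hyb (1 / 4) (s k) (v k)) (hK : ∀ k, LipschitzWith K (s k))
    (hp : Pos s' (1 / 4)) (hs : ∀ x, Tendsto (fun k => s k x) atTop (𝓝 (s' x)))
    (hc : Tendsto (fun k => cost f (1 / 4) (s k) (v k)) atTop (𝓝 (mm f W)))
    (hv : Tendsto (fun k => volu f (1 / 4) (s k) (v k)) atTop (𝓝 W)) : PenMin f s' (1 / 4) := by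
  have h := C.p
  obtain ⟨L1, L2⟩ := hL f a0 h (1 / 4) (by norm_num) (by norm_num)
  obtain ⟨A1, A2⟩ := L1 s s' K hK hp hs
  refine ⟨2 * mm f W / W, fun t ht he => ?_⟩
  have hc0 : Tendsto (fun k => s k (1 / 4) - s' (1 / 4)) atTop (𝓝 0) := by
    simpa using (hs (1 / 4)).sub_const (s' (1 / 4))
  obtain ⟨Kt, hKt⟩ := ht.lip
  have hKt' : ∀ c : ℝ, LipschitzWith Kt fun x => t x + c := fun c =>
    LipschitzWith.of_dist_le_mul fun x y => by simpa using hKt.dist_le_mul x y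
  have B2 := (L1 (fun k x => t x + (s k (1 / 4) - s' (1 / 4))) t Kt (fun k => hKt' _) ht
    fun x => by simpa using hc0.const_add (t x)).2
  have B1 : Tendsto (fun k => FI f (fun x => t x + (s k (1 / 4) - s' (1 / 4))) (1 / 4)) atTop
      (𝓝 (FI f t (1 / 4))) := by
    simpa [Function.comp_def] using ((L2 t ht.lip).tendsto 0).comp hc0
  have V1 : Tendsto (fun k => VV f (v k) 0) atTop (𝓝 (W - VI f s' (1 / 4))) := by
    simpa [volu] using hv.sub A2
  have V2 : 0 ≤ W - VI f s' (1 / 4) := ge_of_tendsto' V1 fun k => (hh k).adm.VV_nn 0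
  have V3 : 0 < VI f t (1 / 4) + (W - VI f s' (1 / 4)) :=
    add_pos_of_pos_of_nonneg (VI_pos h ht (by norm_num)) V2
  have M1 := (C.cont V3).tendsto.comp (B2.add V1)
  obtain ⟨c, hc1, hc2⟩ := ht.exists_c (by norm_num)
  have key : ∀ η > 0, mm f (VI f t (1 / 4) + (W - VI f s' (1 / 4))) ≤
      FI f t (1 / 4) + mm f W - (FI f s' (1 / 4) - η) := fun η hη => by
    refine le_of_tendsto_of_tendsto M1 ((B1.add hc).sub_const _) ?_
    filter_upwards [A1 η hη, hc0.eventually (Ioi_mem_nhds (neg_lt_zero.2 hc1))] with k k1 k2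
    have e : t (1 / 4) + (s k (1 / 4) - s' (1 / 4)) = s k (1 / 4) := by rw [he]; ring
    have hy : Hyb (1 / 4) (fun x => t x + (s k (1 / 4) - s' (1 / 4))) (v k) :=
      ⟨by norm_num, by norm_num, ⟨⟨_, hKt' _⟩, fun x hx => by linarith [hc2 x hx, k2]⟩,
        (hh k).adm, (hh k).le, fun r hr => (hh k).eq r (e ▸ hr)⟩
    have := C.hyb _ _ _ hy
    simp only [cost, volu, e, Function.comp] at this ⊢
    linarith
  have k1 : mm f (VI f t (1 / 4) + (W - VI f s' (1 / 4))) ≤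
      FI f t (1 / 4) + mm f W - FI f s' (1 / 4) :=
    le_of_forall_pos_le_add fun η hη => by linarith [key η hη]
  have k2 := C.pen hW V3
  rw [show VI f t (1 / 4) + (W - VI f s' (1 / 4)) - W = VI f t (1 / 4) - VI f s' (1 / 4) by ring]
    at k2
  linarith

end OneAux

open OneAux in
theorem sOne (hp : S_UBp) (hv : S_UBv) (hl : S_LB) (hd : S_Dil) (hM : S_MI) (hF : S_Flat)
    (hS : S_Sharp) (hC : S_Conv) (hH : S_Helly) (hL : S_Lsc1) : S_One := by
  intro f a0 a Ra Rb ε h S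
  have C := ctx hp hv hl hd h
  obtain ⟨R, h1, h2, h3, h4, h5⟩ := C.star hM hF S
  have hδ : Tendsto (fun k : ℕ => 1 / ((k : ℝ) + 1)) atTop (𝓝 0) :=
    tendsto_one_div_add_atTop_nhds_zero_nat
  have hδ0 : ∀ k : ℕ, 0 < 1 / ((k : ℝ) + 1) := fun k => by positivity
  have hδ1 : ∀ k : ℕ, 1 / ((k : ℝ) + 1) ≤ 1 := fun k =>
    (div_le_one (by positivity)).2 (by linarith [k.cast_nonneg (α := ℝ)])
  have hR1 : ∀ k : ℕ, R < R + (Rb - R) * (1 / ((k : ℝ) + 1)) := fun k =>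
    lt_add_of_pos_right _ (mul_pos (sub_pos.2 h2) (hδ0 k))
  have hR2 : ∀ k : ℕ, R + (Rb - R) * (1 / ((k : ℝ) + 1)) ≤ Rb := fun k => by
    linarith [mul_le_of_le_one_right (sub_pos.2 h2).le (hδ1 k)]
  choose s v hs using fun k : ℕ => C.step hM hF hS hC S (hR2 k)
    (by linarith [h.mono (hR1 k)]) (hδ0 k) (h5 _ (hR1 k) (hR2 k))
  have hRt : Tendsto (fun k : ℕ => R + (Rb - R) * (1 / ((k : ℝ) + 1))) atTop (𝓝 R) := by
    simpa using (hδ.const_mul (Rb - R)).const_add R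
  have hR0 : 0 < R := S.rpos.trans h1
  have hW := h.Wf_pos hR0
  have hfR := h.fpos hR0
  have hft : Tendsto (fun k : ℕ => f (R + (Rb - R) * (1 / ((k : ℝ) + 1))) ^ 2) atTop (𝓝 (f R ^ 2)) :=
    ((h.continuous.tendsto R).comp hRt).pow 2
  have hmc : ∀ k, mm f (volu f (1 / 4) (s k) (v k)) ≤ cost f (1 / 4) (s k) (v k) := fun k =>
    C.hyb _ _ _ (hs k).hyb
  have hvt : Tendsto (fun k => volu f (1 / 4) (s k) (v k)) atTop (𝓝 (Wf f R)) := by
    refine tendsto_order.2 ⟨fun W hW' => ?_, fun W hW' => ?_⟩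
    · have : Tendsto (fun k : ℕ => Wf f (R + (Rb - R) * (1 / ((k : ℝ) + 1))) -
          16 * f Rb * (1 / ((k : ℝ) + 1))) atTop (𝓝 (Wf f R)) := by
        simpa using ((h.Wf_cont.tendsto R).comp hRt).sub (hδ.const_mul (16 * f Rb))
      filter_upwards [this.eventually (Ioi_mem_nhds hW')] with k hk
      exact lt_of_lt_of_le hk (hs k).vol_ge
    · have e := C.strict hW hW' (by rw [h4]; positivity)
      rw [h4] at e
      filter_upwards [hft.eventually (Iio_mem_nhds e)] with k hk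
      by_contra e2
      have := C.mono (hW.trans hW') (not_lt.1 e2)
      linarith [hmc k, (hs k).cost_le, hk]
  have hct : Tendsto (fun k => cost f (1 / 4) (s k) (v k)) atTop (𝓝 (f R ^ 2)) :=
    tendsto_of_tendsto_of_tendsto_of_le_of_le (h4 ▸ (C.cont hW).tendsto.comp hvt) hft hmc
      fun k => (hs k).cost_le
  obtain ⟨φ, hφ, s', v', t1, t2⟩ := Step.helly hH S.rpos hs
  have hct' := hct.comp hφ.tendsto_atTop
  have hvt' := hvt.comp hφ.tendsto_atTop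
  have hlo : ∀ x, Ra ≤ s' x := fun x => ge_of_tendsto' (t1 x) fun k => ((hs _).rng x).1
  have hp' : Pos s' (1 / 4) := ⟨Lip.of_abs (K := 13 * f Rb) fun x y =>
    le_of_tendsto' ((t1 x).sub (t1 y)).abs fun k => (hs _).lip x y,
    fun x _ => S.rpos.trans_le (hlo x)⟩
  refine ⟨R, h1, h2, h4, fun k => s (φ k), fun k => v (φ k), s', v', 2 * f Rb / a0,
    fun k => (hs _).hyb, fun k x _ => ((hs _).rng x).2, fun k => (hs _).zero, t1, t2, hct', hvt',
    hp', fun x y hxy => le_of_tendsto_of_tendsto' (t1 x) (t1 y) fun k => (hs _).mono hxy, hlo 0,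
    ?_, ?_⟩
  · by_contra e
    obtain ⟨c, hc⟩ : ∃ c, c = min 0.4 (((Rb - (R + Rb) / 2) / (7 * f Rb)) ^ 2) := ⟨_, rfl⟩
    have hfb := h.fpos (hR0.trans h2)
    have c0 : 0 < c := hc ▸ lt_min (by norm_num) (pow_pos (div_pos (by linarith) (by linarith)) 2)
    have c1 : c ≤ 0.4 := hc ▸ min_le_left _ _
    have e1 : (1 - c) * f (s' 0) ^ 2 + c * f ((R + Rb) / 2) ^ 2 ≤ f R ^ 2 :=
      le_of_tendsto_of_tendsto'
        (((((h.continuous.tendsto _).comp (t1 0)).pow 2).const_mul (1 - c)).add_const _) hct'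
        fun k => (hs _).sep _ (by linarith) (by linarith) c hc
    have e2 : f R ^ 2 ≤ f (s' 0) ^ 2 := pow_le_pow_left₀ hfR.le (h.mono.monotone (not_lt.1 e)) 2
    have e3 : f R ^ 2 < f ((R + Rb) / 2) ^ 2 :=
      pow_lt_pow_left₀ (h.mono (by linarith)) hfR.le two_ne_zero
    nlinarith [mul_lt_mul_of_pos_left e3 c0, mul_le_mul_of_nonneg_left e2 (by linarith : 0 ≤ 1 - c)]
  · exact C.penMin hL (K := (13 * f Rb).toNNReal) hW (fun k => (hs (φ k)).hyb)
      (fun k => LipschitzWith.of_dist_le_mul fun x y => ((hs _).lip x y).trans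
        (mul_le_mul_of_nonneg_right (Real.le_coe_toNNReal _) (abs_nonneg _))) hp' t1
      (h4 ▸ hct') hvt'

end Pool.Agent.P.MP_ab9b82_gt
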