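import Pool.Agent.P.MP_ab9b82_gt.B1

/-! The isoperimetric profile of the one-dimensional problem. -/

namespace Pool.Agent.P.MP_ab9b82_gt

open MeasureTheory Set Filter Topology Real
open scoped ENNReal

namespace OneAux

variable {f : ℝ → ℝ} {a0 a Ra Rb ε : ℝ}

theorem FI_ge (h : Prof f a0) {s : ℝ → ℝ} {x0 c : ℝ} (hs : Lip s) (h0 : 0 ≤ x0) (h1 : x0 ≤ 1)
    (hc : 0 ≤ c) (hcs : ∀ x ∈ Icc 0 x0, c ≤ s x) : x0 * f c ^ 2 ≤ FI f s x0 := by
  have : ∫ _ in (0 : ℝ)..x0, f c ^ 2 = x0 * f c ^ 2 := by simp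
  rw [← this]
  refine intervalIntegral.integral_mono_on h0 (by simp) (Lh_ii h hs _ _) fun x hx => ?_
  have h2 := h.fnn hc
  have h3 : f c ≤ f (s x) := h.mono.monotone (hcs x hx)
  have h4 : f (s x) ≤ √(x * (1 - x) * deriv s x ^ 2 + f (s x) ^ 2) :=
    Real.le_sqrt_of_sq_le (le_add_of_nonneg_left
      (mul_nonneg (mul_nonneg hx.1 (by linarith [hx.2])) (sq_nonneg _)))
  rw [Lh, sq]
  exact mul_le_mul h3 (h3.trans h4) h2 (h2.trans h3)

theorem VI_pos (h : Prof f a0) {s : ℝ → ℝ} {x0 : ℝ} (hs : Pos s x0) (h0 : 0 < x0) :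
    0 < VI f s x0 :=
  intervalIntegral.intervalIntegral_pos_of_pos_on
    ((h.Wf_cont.comp hs.lip.continuous).intervalIntegrable _ _)
    (fun x hx => h.Wf_pos (hs.pos x (Ioo_subset_Icc_self hx))) h0

theorem volu_pos (h : Prof f a0) {s v : ℝ → ℝ} {x0 : ℝ} (hh : Hyb x0 s v) : 0 < volu f x0 s v :=
  add_pos_of_pos_of_nonneg (VI_pos h hh.sp hh.xpos) (hh.adm.VV_nn 0)

theorem cost_nn (h : Prof f a0) {s v : ℝ → ℝ} {x0 : ℝ} (hh : Hyb x0 s v) : 0 ≤ cost f x0 s v := by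
  have := FI_ge h hh.sp.lip hh.xpos.le hh.xle le_rfl fun x hx => (hh.sp.pos x hx).le
  rw [h.zero] at this
  exact add_nonneg (by simpa using this) (FF_nn ..)

structure Ctx (f : ℝ → ℝ) (a0 : ℝ) : Prop where
  p : Prof f a0
  hyb : ∀ x0 s v, Hyb x0 s v → mm f (volu f x0 s v) ≤ cost f x0 s v
  ex : ∀ W > 0, ∃ v, Adm v ∧ VV f v 0 = W
  dil : ∀ W1 W2, 0 < W1 → W1 ≤ W2 → mm f W2 ≤ (W2 / W1) ^ 2 * mm f W1 ∧
    mm f W1 ≤ (1 - a0 * (1 - W1 / W2) / 3) * mm f W2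

theorem ctx (hp : S_UBp) (hv : S_UBv) (hl : S_LB) (hd : S_Dil) (h : Prof f a0) : Ctx f a0 where
  p := h
  ex := (hd f a0 h).1
  dil := (hd f a0 h).2
  hyb x0 s v hh := by
    obtain ⟨h1, h2⟩ := hv f a0 h x0 s v hh
    have h3 := (hl f a0 h _ _ h1 (volu_pos h hh) h2).trans (hp f a0 h x0 s v hh)
    rw [ENNReal.ofReal_le_ofReal_iff (mul_nonneg (by positivity) (cost_nn h hh))] at h3
    exact le_of_mul_le_mul_left h3 (by positivity)

theorem Ctx.mono (C : Ctx f a0) {W1 W2 : ℝ} (h0 : 0 < W1) (h : W1 ≤ W2) : mm f W1 ≤ mm f W2 := by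
  refine (C.dil W1 W2 h0 h).2.trans (mul_le_of_le_one_left (mm_nn ..) ?_)
  have : W1 / W2 ≤ 1 := (div_le_one (h0.trans_le h)).2 h
  have := mul_nonneg C.p.pos.le (sub_nonneg.2 this)
  linarith

theorem Ctx.strict (C : Ctx f a0) {W1 W2 : ℝ} (h0 : 0 < W1) (h : W1 < W2) (hp : 0 < mm f W1) :
    mm f W1 < mm f W2 := by
  refine (C.dil W1 W2 h0 h.le).2.trans_lt
    (mul_lt_of_lt_one_left (hp.trans_le (C.mono h0 h.le)) ?_)
  have : W1 / W2 < 1 := (div_lt_one (h0.trans h)).2 h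
  have := mul_pos C.p.pos (sub_pos.2 this)
  linarith

theorem Ctx.pen (C : Ctx f a0) {W W' : ℝ} (h0 : 0 < W) (h0' : 0 < W') :
    mm f W - 2 * mm f W / W * |W' - W| ≤ mm f W' := by
  have hm := mm_nn f W
  rcases le_total W W' with h | h
  · have := C.mono h0 h
    have : 0 ≤ 2 * mm f W / W * |W' - W| := by positivity
    linarith
  · have h1 := (C.dil W' W h0' h).1
    have h2 : (W' / W) ^ 2 * mm f W ≤ mm f W' := by
      calc (W' / W) ^ 2 * mm f W ≤ (W' / W) ^ 2 * ((W / W') ^ 2 * mm f W') := by gcongr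
        _ = mm f W' := by field_simp
    rw [abs_of_nonpos (sub_nonpos.2 h)]
    have h3 : 2 * mm f W / W * -(W' - W) = 2 * (1 - W' / W) * mm f W := by field_simp; ring
    rw [h3]
    nlinarith [mul_nonneg hm (sq_nonneg (1 - W' / W))]

theorem Ctx.cont (C : Ctx f a0) {W : ℝ} (h0 : 0 < W) : ContinuousAt (mm f) W := by
  have hlo : Tendsto (fun W' => mm f W - 2 * mm f W / W * |W' - W|) (𝓝 W) (𝓝 (mm f W)) := by
    have : Continuous fun W' => mm f W - 2 * mm f W / W * |W' - W| := by fun_prop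
    simpa using this.tendsto W
  have hhi : Tendsto (fun W' => max 1 ((W' / W) ^ 2) * mm f W) (𝓝 W) (𝓝 (mm f W)) := by
    have : Continuous fun W' => max 1 ((W' / W) ^ 2) * mm f W := by fun_prop
    simpa [h0.ne'] using this.tendsto W
  refine tendsto_of_tendsto_of_tendsto_of_le_of_le' hlo hhi ?_ ?_
  · filter_upwards [Ioi_mem_nhds h0] with W' h using C.pen h0 h
  · filter_upwards [Ioi_mem_nhds h0] with W' h
    rcases le_total W W' with h1 | h1
    · exact (C.dil W W' h0 h1).1.trans (mul_le_mul_of_nonneg_right (le_max_right _ _) (mm_nn ..))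
    · exact (C.mono h h1).trans (le_mul_of_one_le_left (mm_nn ..) (le_max_left _ _))

theorem int_poly (A B C : ℝ) : ∫ x in (0 : ℝ)..1, (A + B * x + C * x ^ 2) = A + B / 2 + C / 3 := by
  rw [intervalIntegral.integral_add, intervalIntegral.integral_add] <;>
    first | (apply Continuous.intervalIntegrable; fun_prop) | skip
  rw [intervalIntegral.integral_const_mul, intervalIntegral.integral_const_mul]
  simp
  ring

theorem adm_zero : Adm fun _ => 0 :=
  ⟨⟨0, LipschitzWith.const _⟩, fun _ => le_rfl, fun _ => zero_le_one, 0, fun _ _ => rfl⟩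

theorem hyb_one {s : ℝ → ℝ} (hs : Pos s 1) : Hyb 1 s fun _ => 0 :=
  ⟨one_pos, le_rfl, hs, adm_zero, fun _ => by simp, fun _ _ => by simp⟩

theorem cost_one (s : ℝ → ℝ) : cost f 1 s (fun _ => 0) = FI f s 1 := by simp [cost, FF, Lg]

theorem volu_one (s : ℝ → ℝ) : volu f 1 s (fun _ => 0) = VI f s 1 := by simp [volu, VV]

theorem pos_const {R : ℝ} (hR : 0 < R) (x0 : ℝ) : Pos (fun _ => R) x0 :=
  ⟨⟨0, LipschitzWith.const _⟩, fun _ _ => hR⟩

theorem FI_const (h : Prof f a0) {R : ℝ} (hR : 0 < R) : FI f (fun _ => R) 1 = f R ^ 2 := by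
  simp [FI, Lh, Real.sqrt_mul_self (h.fpos hR).le, sq]

theorem VI_const (R : ℝ) : VI f (fun _ => R) 1 = Wf f R := by simp [VI]

theorem Ctx.ball (C : Ctx f a0) {R : ℝ} (hR : 0 < R) : mm f (Wf f R) ≤ f R ^ 2 := by
  have := C.hyb 1 _ _ (hyb_one (pos_const hR 1))
  rwa [cost_one, volu_one, FI_const C.p hR, VI_const] at this

theorem Wf_tan (h : Prof f a0) {r r' : ℝ} (hr : 0 ≤ r) (hr' : 0 ≤ r') :
    Wf f r + f r ^ 2 * (r' - r) ≤ Wf f r' := by
  have hc : IntervalIntegrable (fun t => f t ^ 2) volume r r' :=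
    (h.continuous.pow 2).intervalIntegrable _ _
  rcases le_total r r' with h1 | h1
  · have := intervalIntegral.integral_mono_on h1 (f := fun _ => f r ^ 2) (by simp) hc
      fun t ht => pow_le_pow_left₀ (h.fnn hr) (h.mono.monotone ht.1) 2
    rw [← h.Wf_sub] at this
    simp at this
    linarith
  · have := intervalIntegral.integral_mono_on h1 (g := fun _ => f r ^ 2) hc.symm (by simp)
      fun t ht => pow_le_pow_left₀ (h.fnn (hr'.trans ht.1)) (h.mono.monotone ht.2) 2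
    rw [← h.Wf_sub] at this
    simp at this
    linarith

/-- the ball of radius `Rb` is beaten by a tilted ball -/
theorem Ctx.tilt (C : Ctx f a0) (S : Str f a Ra Rb ε) : mm f (Wf f Rb) < f Rb ^ 2 := by
  have h := C.p
  have he := S.epos
  have hl := S.elt
  have hr := S.rpos
  obtain ⟨s, hs⟩ : ∃ s : ℝ → ℝ, s = fun x => Rb + ε * (2 * x - 1) := ⟨_, rfl⟩
  have hsx : ∀ x, s x = Rb + ε * (2 * x - 1) := fun x => by rw [hs]
  have hlo : ∀ x ∈ Icc (0 : ℝ) 1, Ra ≤ s x := fun x hx => by rw [hsx]; nlinarith [hx.1]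
  have hP : Pos s 1 := ⟨Lip.of_abs (K := 2 * ε) fun x y => by
    rw [hsx, hsx, show Rb + ε * (2 * x - 1) - (Rb + ε * (2 * y - 1)) = 2 * ε * (x - y) by ring,
      abs_mul, abs_of_pos (by positivity : 0 < 2 * ε)], fun x hx => hr.trans_le (hlo x hx)⟩
  have hd : ∀ x, deriv s x = 2 * ε := fun x => by
    have : HasDerivAt (fun x : ℝ => Rb + ε * (2 * x - 1)) (ε * (2 * 1)) x :=
      ((((hasDerivAt_id x).const_mul 2).sub_const 1).const_mul ε).const_add Rb
    rw [hs, this.deriv]; ring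
  have h1 := C.hyb 1 _ _ (hyb_one hP)
  rw [cost_one, volu_one] at h1
  have hRb : 0 < Rb := hr.trans S.lt
  have hF := h.fpos hRb
  have hV : Wf f Rb ≤ VI f s 1 := by
    have e : ∫ x in (0 : ℝ)..1, (Wf f Rb + f Rb ^ 2 * (ε * (2 * x - 1))) = Wf f Rb := by
      have : ∀ x : ℝ, Wf f Rb + f Rb ^ 2 * (ε * (2 * x - 1)) =
          (Wf f Rb - f Rb ^ 2 * ε) + (2 * f Rb ^ 2 * ε) * x + 0 * x ^ 2 := fun x => by ring
      simp only [this]
      rw [int_poly]; ring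
    rw [← e]
    refine intervalIntegral.integral_mono_on zero_le_one
      (by apply Continuous.intervalIntegrable; fun_prop)
      ((h.Wf_cont.comp hP.lip.continuous).intervalIntegrable _ _) fun x hx => ?_
    have := Wf_tan h hRb.le (hP.pos x hx).le
    rwa [hsx, add_sub_cancel_left, ← hsx] at this
  obtain ⟨d, hdd⟩ : ∃ d, d = f Rb + a * ε / 2 - f (Rb + ε / 2) := ⟨_, rfl⟩
  have hg : 2 * ε ^ 2 ≤ f Rb * d := hdd ▸ S.gain
  have hd0 : 0 ≤ d := by
    have := S.sub_le h S.lt.le (r' := Rb + ε / 2) (by linarith)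
    rw [hdd]; linarith
  have hL : ∀ x ∈ Icc (0 : ℝ) 1, Lh f x (s x) (deriv s x) ≤ f (s x) ^ 2 + ε ^ 2 / 2 := fun x hx => by
    rw [Lh, hd]
    have e1 : 0 ≤ x * (1 - x) * (2 * ε) ^ 2 + f (s x) ^ 2 :=
      add_nonneg (mul_nonneg (mul_nonneg hx.1 (sub_nonneg.2 hx.2)) (sq_nonneg _)) (sq_nonneg _)
    have e2 := Real.sq_sqrt e1
    have e3 := mul_nonneg (sq_nonneg ε) (sq_nonneg (2 * x - 1))
    nlinarith [sq_nonneg (f (s x) - √(x * (1 - x) * (2 * ε) ^ 2 + f (s x) ^ 2))]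
  have hA : ∀ x ∈ Icc (0 : ℝ) 1, f (s x) ≤ f Rb + a * (ε * (2 * x - 1)) := fun x hx => by
    rcases le_total (s x) Rb with h2 | h2
    · rw [S.eq h ⟨S.lt.le, le_rfl⟩ ⟨hlo x hx, h2⟩, hsx]; linarith
    · have := S.sub_le h S.lt.le h2
      rw [hsx x, add_sub_cancel_left, ← hsx] at this
      linarith
  have i1 : ∫ x in (0 : ℝ)..3 / 4, Lh f x (s x) (deriv s x) ≤
      ∫ x in (0 : ℝ)..3 / 4, ((f Rb + a * (ε * (2 * x - 1))) ^ 2 + ε ^ 2 / 2) := by
    refine intervalIntegral.integral_mono_on (by norm_num) (Lh_ii h hP.lip _ _)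
      (by apply Continuous.intervalIntegrable; fun_prop) fun x hx => ?_
    have hx' : x ∈ Icc (0 : ℝ) 1 := ⟨hx.1, by linarith [hx.2]⟩
    have := pow_le_pow_left₀ (h.fpos (hP.pos x hx')).le (hA x hx') 2
    linarith [hL x hx']
  have i2 : ∫ x in (3 / 4 : ℝ)..1, Lh f x (s x) (deriv s x) ≤ ∫ x in (3 / 4 : ℝ)..1,
      (((f Rb + a * (ε * (2 * x - 1))) ^ 2 + ε ^ 2 / 2) - 2 * f Rb * d) := by
    refine intervalIntegral.integral_mono_on (by norm_num) (Lh_ii h hP.lip _ _)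
      (by apply Continuous.intervalIntegrable; fun_prop) fun x hx => ?_
    have hx' : x ∈ Icc (0 : ℝ) 1 := ⟨by linarith [hx.1], hx.2⟩
    have e1 : Rb + ε / 2 ≤ s x := by rw [hsx]; nlinarith [hx.1]
    have e2 := S.sub_le h (r := Rb + ε / 2) (by linarith) e1
    have e3 : f Rb ≤ f (s x) := h.mono.monotone (by linarith)
    have e4 : f (s x) ≤ f Rb + a * (ε * (2 * x - 1)) - d := by
      rw [hsx x] at e2 ⊢; rw [hdd]; linarith
    have e5 := pow_le_pow_left₀ (hF.le.trans e3) e4 2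
    nlinarith [hL x hx']
  have hc : Continuous fun x : ℝ => (f Rb + a * (ε * (2 * x - 1))) ^ 2 + ε ^ 2 / 2 := by fun_prop
  rw [intervalIntegral.integral_sub (hc.intervalIntegrable _ _) (by simp)] at i2
  have i3 := intervalIntegral.integral_add_adjacent_intervals (hc.intervalIntegrable (μ := volume) 0
    (3 / 4)) (hc.intervalIntegrable (3 / 4) 1)
  have i4 := intervalIntegral.integral_add_adjacent_intervals (Lh_ii h hP.lip 0 (3 / 4))
    (Lh_ii h hP.lip (3 / 4) 1)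
  have i5 : ∫ x in (0 : ℝ)..1, ((f Rb + a * (ε * (2 * x - 1))) ^ 2 + ε ^ 2 / 2) =
      f Rb ^ 2 + a ^ 2 * ε ^ 2 / 3 + ε ^ 2 / 2 := by
    have : ∀ x : ℝ, (f Rb + a * (ε * (2 * x - 1))) ^ 2 + ε ^ 2 / 2 =
        ((f Rb - a * ε) ^ 2 + ε ^ 2 / 2) + (4 * a * ε * (f Rb - a * ε)) * x +
          (4 * a ^ 2 * ε ^ 2) * x ^ 2 := fun x => by ring
    simp only [this]
    rw [int_poly]; ring
  have h2 := C.mono (h.Wf_pos hRb) hV
  have h3 : a ^ 2 ≤ 1 := pow_le_one₀ S.apos.le (by linarith [S.ale])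
  have h4 : a ^ 2 * ε ^ 2 ≤ ε ^ 2 := mul_le_of_le_one_left (sq_nonneg _) h3
  have h5 : 0 < ε ^ 2 := by positivity
  simp only [intervalIntegral.integral_const, smul_eq_mul] at i2
  unfold FI at h1
  linarith

end OneAux

end Pool.Agent.P.MP_ab9b82_gt
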