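import Pool.Agent.P.MP_ab9b82_gt.One1

/-! From an almost minimizer which beats the ball to a controlled hybrid competitor. -/

namespace Pool.Agent.P.MP_ab9b82_gt

open MeasureTheory Set Filter Topology Real
open scoped ENNReal

namespace OneAux

variable {f : ℝ → ℝ} {a0 a Ra Rb ε : ℝ}

theorem VV_mono (h : Prof f a0) {v w : ℝ → ℝ} (hv : Adm v) (hw : Adm w) (hle : ∀ r, w r ≤ v r)
    (α : ℝ) : VV f w α ≤ VV f v α :=
  setIntegral_mono (hw.intV h α) (hv.intV h α) fun r =>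
    mul_le_mul_of_nonneg_right (hle r) (sq_nonneg _)

theorem VV_le (h : Prof f a0) {v : ℝ → ℝ} (hv : Adm v) {α : ℝ} (h0 : 0 ≤ α) :
    VV f v 0 ≤ Wf f α + VV f v α := by
  rw [hv.VV_split h h0]
  refine add_le_add_left (intervalIntegral.integral_mono_on h0
    ((hv.lip.continuous.mul (h.continuous.pow 2)).intervalIntegrable _ _)
    ((h.continuous.pow 2).intervalIntegrable _ _) fun r _ => ?_) _
  exact mul_le_of_le_one_left (sq_nonneg _) (hv.le r)

theorem half (h : Prof f a0) (S : Str f a Ra Rb ε) {R : ℝ} (hR : R ≤ Rb) (h2 : f Rb ≤ 2 * f R) :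
    Ra < R ∧ ∃ Rh, Ra ≤ Rh ∧ f Rh = f R / 2 ∧ 290 * f R ^ 3 ≤ Wf f R - Wf f Rh := by
  have h0 := h.fpos S.rpos
  have hb := S.big
  have h1 : Ra < R := h.mono.lt_iff_lt.1 (by linarith)
  have ha := S.apos
  have e := S.eq h ⟨le_rfl, S.lt.le⟩ ⟨h1.le, hR⟩
  have e1 : f R / (2 * a) ≤ R - Ra := by rw [div_le_iff₀ (by positivity)]; linarith
  have e2 : 0 ≤ f R / (2 * a) := div_nonneg (by linarith) (by positivity)
  have hm : R - f R / (2 * a) ∈ Icc Ra Rb := ⟨by linarith, by linarith⟩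
  have e3 : f (R - f R / (2 * a)) = f R / 2 := by
    rw [S.eq h ⟨h1.le, hR⟩ hm]; field_simp; ring
  refine ⟨h1, _, hm.1, e3, ?_⟩
  have e4 := S.Wf_eq h hm ⟨h1.le, hR⟩
  rw [e3] at e4
  have e5 : 0 ≤ Wf f R - Wf f (R - f R / (2 * a)) := sub_nonneg.2 (h.Wf_mono (by linarith))
  have e6 : 0 < f R ^ 3 := pow_pos (by linarith) 3
  nlinarith [mul_le_mul_of_nonneg_right S.ale e5]

/-- flattened competitors which beat the ball must reach beyond `Rb` -/
theorem reach (hM : S_MI) (h : Prof f a0) (S : Str f a Ra Rb ε) {R : ℝ} (hR : R ≤ Rb)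
    (h2 : f Rb ≤ 2 * f R) {v w : ℝ → ℝ} (hv : Adm v) (hw : Adm w) (hle : ∀ r, w r ≤ v r)
    (hV : VV f v 0 = Wf f R) (hF : FF f v 0 < f R ^ 2)
    (hc : FF f w 0 + 0.07 / f R * (VV f v 0 - VV f w 0) ≤ FF f v 0) : ¬∀ r ≥ Rb, w r = 0 := by
  intro hz
  have h1 := hM f a0 a Ra Rb ε h S R hR h2 w hw hz
  have h3 := sub_nonneg.2 (VV_mono h hv hw hle 0)
  rw [← hV, max_eq_left h3] at h1
  have h4 : 0 < f R := h.fpos (S.rpos.trans (half h S hR h2).1)
  have h5 : 4 * a / f R ≤ 0.07 / f R := by gcongr; linarith [S.ale]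
  linarith [mul_le_mul_of_nonneg_right h5 h3]

theorem Ctx.base (C : Ctx f a0) (hM : S_MI) (hF : S_Flat) (S : Str f a Ra Rb ε) {R : ℝ}
    (hR : R ≤ Rb) (h2 : f Rb = 2 * f R) : f R ^ 2 ≤ mm f (Wf f R) := by
  by_contra hlt
  have h := C.p
  have h1 := (half h S hR h2.le).1
  have h0 := h.fpos S.rpos
  obtain ⟨v, hv, hV, hlt⟩ := exists_lt_of_mm_lt (C.ex _ (h.Wf_pos (S.rpos.trans h1))) (not_le.1 hlt)
  obtain ⟨w, hw, hle, hc, hz, -⟩ := hF f a0 a Ra Rb ε h S R (by linarith [S.big]) v hv hlt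
  exact reach hM h S hR h2.le hv hw hle hV hlt hc fun r hr => hz r (by
    linarith [h.mono.monotone hr, S.big])

theorem last {w : ℝ → ℝ} (hw : Adm w) {α c : ℝ} (hc : 0 < c) (hne : ∃ r ≥ α, c ≤ w r) :
    ∃ ρ ≥ α, w ρ = c ∧ ∀ r ≥ ρ, w r ≤ c := by
  obtain ⟨b, -, hb⟩ := hw.exists_b α
  have hcl : IsClosed {r | α ≤ r ∧ c ≤ w r} :=
    isClosed_Ici.inter (isClosed_le continuous_const hw.lip.continuous)
  have hbd : BddAbove {r | α ≤ r ∧ c ≤ w r} :=
    ⟨b, fun r hr => by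
      by_contra h
      linarith [hb r (not_le.1 h).le, hr.2]⟩
  have hm := hcl.csSup_mem hne hbd
  have hlt : ∀ r > sSup {r | α ≤ r ∧ c ≤ w r}, w r ≤ c := fun r hr => by
    by_contra h
    exact absurd (le_csSup hbd ⟨hm.1.trans hr.le, (not_le.1 h).le⟩) (not_le.2 hr)
  have he : w (sSup {r | α ≤ r ∧ c ≤ w r}) ≤ c :=
    le_of_tendsto (hw.lip.continuous.continuousWithinAt (s := Ioi _)).tendsto
      (eventually_nhdsWithin_of_forall hlt)
  exact ⟨_, hm.1, le_antisymm he hm.2, fun r hr => hr.eq_or_lt.elim (fun e => e ▸ he) (hlt r)⟩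

theorem adm_max {w : ℝ → ℝ} (hw : Adm w) (ρ : ℝ) : Adm fun r => w (max r ρ) := by
  obtain ⟨K, hK⟩ := hw.lip
  obtain ⟨b, hb⟩ := hw.fin
  exact ⟨⟨_, hK.comp (LipschitzWith.id.max_const ρ)⟩, fun _ => hw.nn _, fun _ => hw.le _, b,
    fun r hr => hb _ (hr.le.trans (le_max_left _ _))⟩

theorem FF_max (w : ℝ → ℝ) (ρ : ℝ) : FF f (fun r => w (max r ρ)) ρ = FF f w ρ := by
  refine setIntegral_congr_fun measurableSet_Ioi fun r hr => ?_
  have : (fun r => w (max r ρ)) =ᶠ[𝓝 r] w := by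
    filter_upwards [Ioi_mem_nhds hr] with y hy
    rw [max_eq_left (le_of_lt hy)]
  simp only [this.deriv_eq, this.eq_of_nhds]

theorem VV_max (w : ℝ → ℝ) (ρ : ℝ) : VV f (fun r => w (max r ρ)) ρ = VV f w ρ :=
  setIntegral_congr_fun measurableSet_Ioi fun r hr => by simp only [max_eq_left (mem_Ioi.1 hr).le]

theorem var_max (h : Prof f a0) {w : ℝ → ℝ} (hw : Adm w) {ρ α β : ℝ} (h0 : 0 ≤ ρ) (hab : α ≤ β) :
    f ρ ^ 2 * ∫ r in α..β, |deriv (fun r => w (max r ρ)) r| ≤ FF f w ρ := by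
  have hm := adm_max hw ρ
  have hi := fun α β => (hm.lip.ii α β).abs
  have h1 : ∫ r in α..β, |deriv (fun r => w (max r ρ)) r| ≤
      ∫ r in (min α ρ)..(max β ρ), |deriv (fun r => w (max r ρ)) r| :=
    intervalIntegral.integral_mono_interval (min_le_left _ _) hab (le_max_left _ _)
      (ae_of_all _ fun _ => abs_nonneg _) (hi _ _)
  have h2 : ∫ r in (min α ρ)..ρ, |deriv (fun r => w (max r ρ)) r| = 0 := by
    rw [intervalIntegral.integral_of_le (min_le_right _ _), integral_Ioc_eq_integral_Ioo]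
    refine setIntegral_eq_zero_of_forall_eq_zero fun r hr => ?_
    have : (fun r => w (max r ρ)) =ᶠ[𝓝 r] fun _ => w ρ := by
      filter_upwards [Iio_mem_nhds hr.2] with y hy
      rw [max_eq_right (le_of_lt hy)]
    simp [this.deriv_eq]
  rw [← intervalIntegral.integral_add_adjacent_intervals (hi (min α ρ) ρ) (hi ρ _), h2, zero_add] at h1
  have h3 := hm.var_le h h0 (le_max_right β ρ)
  have h4 := hm.FF_split h (le_max_right β ρ)
  rw [FF_max] at h4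
  linarith [mul_le_mul_of_nonneg_left h1 (sq_nonneg (f ρ)), FF_nn f (fun r => w (max r ρ)) (max β ρ)]

theorem spike2 (h : Prof f a0) {w : ℝ → ℝ} (hw : Adm w) {ρ β r0 rs c : ℝ} (h0 : 0 ≤ r0)
    (h1 : r0 ≤ ρ) (hs : 0 ≤ rs) (h2 : rs ≤ β) (hρ : w ρ = 3 / 4) (hc : c ≤ w β) (hc0 : 0 ≤ c)
    (hc1 : c ≤ 3 / 4) : (3 / 4 - c) * f r0 ^ 2 + c * f rs ^ 2 ≤ FF f w ρ := by
  have e1 : f r0 ^ 2 ≤ f ρ ^ 2 := pow_le_pow_left₀ (h.fnn h0) (h.mono.monotone h1) 2
  have e1' := mul_le_mul_of_nonneg_left e1 (sub_nonneg.2 hc1)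
  rcases le_total ρ β with h3 | h3
  · have e2 := hw.drop_le h (h0.trans h1) h3
    have e3 := hw.spike h (hs.trans h2)
    have e4 : f rs ^ 2 ≤ f β ^ 2 := pow_le_pow_left₀ (h.fnn hs) (h.mono.monotone h2) 2
    have e5 : f ρ ^ 2 ≤ f β ^ 2 := pow_le_pow_left₀ (h.fnn (h0.trans h1)) (h.mono.monotone h3) 2
    rw [hw.FF_split h h3]
    rw [hρ] at e2
    nlinarith [mul_le_mul_of_nonneg_left e4 hc0, mul_nonneg (sub_nonneg.2 hc) (sub_nonneg.2 e5)]
  · have e3 := hw.spike h (h0.trans h1)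
    have e4 : f rs ^ 2 ≤ f ρ ^ 2 := pow_le_pow_left₀ (h.fnn hs) (h.mono.monotone (h2.trans h3)) 2
    rw [hρ] at e3
    nlinarith [mul_le_mul_of_nonneg_left e4 hc0]

/-- the output of one step -/
structure Step (f : ℝ → ℝ) (a0 Ra Rb R δ : ℝ) (s v : ℝ → ℝ) : Prop where
  hyb : Hyb (1 / 4) s v
  mono : Monotone s
  lip : ∀ x y, |s x - s y| ≤ 13 * f Rb * |x - y|
  rng : ∀ x, Ra ≤ s x ∧ s x ≤ 2 * f Rb / a0
  zero : ∀ r ≥ 2 * f Rb / a0, v r = 0
  var : ∀ α β, α ≤ β → ∫ r in α..β, |deriv v r| ≤ 4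
  cost_le : cost f (1 / 4) s v ≤ f R ^ 2
  vol_ge : Wf f R - 16 * f Rb * δ ≤ volu f (1 / 4) s v
  sep : ∀ rs, Ra < rs → rs < Rb → ∀ c, c = min 0.4 (((Rb - rs) / (7 * f Rb)) ^ 2) →
    (1 - c) * f (s 0) ^ 2 + c * f rs ^ 2 ≤ cost f (1 / 4) s v

theorem Ctx.step (C : Ctx f a0) (hM : S_MI) (hF : S_Flat) (hS : S_Sharp) (hC : S_Conv)
    (S : Str f a Ra Rb ε) {R δ : ℝ} (hR : R ≤ Rb) (h2 : f Rb ≤ 2 * f R) (hδ : 0 < δ)
    (hlt : mm f (Wf f R) < f R ^ 2) : ∃ s v, Step f a0 Ra Rb R δ s v := by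
  have h := C.p
  obtain ⟨h1, Rh, hRh, hfh, hW⟩ := half h S hR h2
  have h0 := h.fpos S.rpos
  have hb := S.big
  have hFF : 0 < f R := by linarith
  have hFb : f R ≤ f Rb := h.mono.monotone hR
  have hWp := h.Wf_pos (S.rpos.trans h1)
  have hWh := h.Wf_pos (S.rpos.trans_le hRh)
  obtain ⟨v, hv, hV, hv2⟩ := exists_lt_of_mm_lt (C.ex _ hWp)
    (lt_min hlt (lt_add_of_pos_right _ hδ))
  rw [lt_min_iff] at hv2
  obtain ⟨w, hw, hle, hc, hz, r1, hr1, hleaf⟩ :=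
    hF f a0 a Ra Rb ε h S R (by linarith) v hv hv2.1
  have hreach := reach hM h S hR h2 hv hw hle hV hv2.1 hc
  obtain ⟨D, hD⟩ : ∃ D, D = VV f v 0 - VV f w 0 := ⟨_, rfl⟩
  have hD0 : 0 ≤ D := hD ▸ sub_nonneg.2 (VV_mono h hv hw hle 0)
  rw [← hD] at hc
  have hc' : f R * FF f w 0 + 0.07 * D ≤ f R * FF f v 0 := by
    have := mul_le_mul_of_nonneg_left hc hFF.le
    rwa [mul_add, ← mul_assoc, mul_div_cancel₀ _ hFF.ne'] at this
  have hF3 : 0 < f R ^ 3 := by positivity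
  have hw0 := FF_nn f w 0
  have hwF : FF f w 0 ≤ f R ^ 2 := by
    have : 0 ≤ 0.07 / f R * D := by positivity
    linarith [hv2.1]
  have hD1 : D ≤ 15 * f R ^ 3 := by
    nlinarith [mul_lt_mul_of_pos_left hv2.1 hFF, mul_nonneg hFF.le hw0]
  have hVw : VV f w 0 = Wf f R - D := by rw [hD, hV]; ring
  have hD2 : D ≤ 16 * f Rb * δ := by
    have e1 := C.pen hWp (W' := VV f w 0) (by rw [hVw]; linarith)
    rw [hVw, sub_sub_cancel_left, abs_neg, abs_of_nonneg hD0, ← hVw] at e1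
    have e2 := hw.mm_le (f := f)
    have e3 : f R * (2 * mm f (Wf f R) / Wf f R) ≤ 0.007 := by
      rw [← mul_div_assoc, div_le_iff₀ hWp]
      nlinarith [mul_lt_mul_of_pos_left hlt hFF]
    have e4 := mul_le_mul_of_nonneg_right e3 hD0
    have e5 := mul_le_mul_of_nonneg_left (e1.trans e2) hFF.le
    have e6 := mul_lt_mul_of_pos_left hv2.2 hFF
    have e7 := mul_le_mul_of_nonneg_right hFb hδ.le
    nlinarith [mul_pos hFF hδ]
  obtain ⟨ρ, hρ, hρ1, hρ2⟩ := last hw (α := Rh) (c := 3 / 4) (by norm_num) (by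
    by_contra hn
    push Not at hn
    have e1 := hw.thin h (S.rpos.le.trans hRh) (fun r hr => (hn r hr.le).le) (B := 1.6 * f R)
      (by positivity) fun r hr => hz r hr.le
    have e2 := VV_le h hw (S.rpos.le.trans hRh)
    have e3 := (hw.FF_anti h (S.rpos.le.trans hRh)).trans hwF
    nlinarith [mul_le_mul_of_nonneg_left e3 hFF.le])
  have hρa : Ra ≤ ρ := hRh.trans hρ
  have hρ0 : 0 ≤ ρ := S.rpos.le.trans hρa
  have hfρ : f R / 2 ≤ f ρ := hfh ▸ h.mono.monotone hρ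
  have hfρ2 : f ρ < 1.6 * f R := lt_of_not_ge fun e => by linarith [hz ρ e]
  have hfar : Ra + 2 * f ρ ≤ ρ := by
    have := S.sub_le h le_rfl hρa
    nlinarith [mul_le_mul_of_nonneg_right S.ale (sub_nonneg.2 hρa)]
  obtain ⟨u, hu, hu1, hu2, hu3⟩ := hS f a0 h w Ra ρ hw S.rpos hρa hfar hρ1
  obtain ⟨s, hs1, hs2, hs3, hs4, hs5, hs6⟩ := hC f a0 h u Ra ρ _ (1 / 4) hu S.rpos (by linarith)
    (by norm_num) (by norm_num) hρa hu1
  have hbb : ∀ r ≥ 2 * f Rb / a0, 1.6 * f R ≤ f r := fun r hr => by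
    have e0 : 0 ≤ 2 * f Rb / a0 := div_nonneg (by linarith) h.pos.le
    have e1 := h.ge (e0.trans hr)
    have e2 := (div_le_iff₀ h.pos).1 hr
    linarith
  have hsp : Pos s (1 / 4) := ⟨Lip.of_abs hs2, fun x _ => S.rpos.trans_le (hs3 x).1⟩
  have hm := adm_max hw ρ
  have hcost : cost f (1 / 4) s (fun r => w (max r ρ)) = FI f s (1 / 4) + FF f w ρ := by
    rw [cost, hs4, FF_max]
  have hsplit := hw.FF_split h hρ0
  refine ⟨s, fun r => w (max r ρ), ⟨by norm_num, by norm_num, hsp, hm, fun r => ?_, fun r hr => ?_⟩,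
    hs1, fun x y => (hs2 x y).trans ?_, fun x => ⟨(hs3 x).1, (hs3 x).2.trans ?_⟩, fun r hr => ?_,
    fun α β hab => ?_, ?_, ?_, fun rs hr1' hr2 c hcc => ?_⟩
  · linarith [hρ2 _ (le_max_right r ρ)]
  · rw [max_eq_right (hs4 ▸ hr), hρ1]; norm_num
  · exact mul_le_mul_of_nonneg_right (by linarith) (abs_nonneg _)
  · by_contra e
    linarith [hbb ρ (not_le.1 e).le]
  · exact hz _ (hbb _ (hr.le.trans (le_max_left _ _)))
  · have e1 := (var_max h hw hρ0 hab).trans ((hw.FF_anti h hρ0).trans hwF)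
    have e2 : (f R / 2) ^ 2 ≤ f ρ ^ 2 := by gcongr
    by_contra e
    nlinarith [mul_lt_mul_of_pos_left (not_le.1 e) (pow_pos (by linarith : 0 < f ρ) 2)]
  · rw [hcost]; linarith
  · have hc2 : Continuous fun r => f r ^ 2 := h.continuous.pow 2
    have hcu := hu.lip.continuous
    have hcw := hw.lip.continuous
    rw [volu, hs6, hm.VV_split h hρ0, VV_max, ← add_assoc, ← intervalIntegral.integral_add
      (by apply Continuous.intervalIntegrable; fun_prop)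
      (by apply Continuous.intervalIntegrable; fun_prop)]
    have e1 := hw.VV_split h hρ0
    have e2 : ∫ r in (0 : ℝ)..ρ, w r * f r ^ 2 ≤
        ∫ r in (0 : ℝ)..ρ, ((1 / 4 - u r) * f r ^ 2 + w (max r ρ) * f r ^ 2) := by
      refine intervalIntegral.integral_mono_on hρ0 (by apply Continuous.intervalIntegrable; fun_prop)
        (by apply Continuous.intervalIntegrable; fun_prop) fun r hr => ?_
      rw [max_eq_right hr.2, hρ1, ← add_mul]
      exact mul_le_mul_of_nonneg_right (by linarith [hu2 r hr]) (sq_nonneg _)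
    linarith
  · have hc0 : 0 ≤ c := hcc ▸ le_min (by norm_num) (sq_nonneg _)
    have hc4 : c ≤ 0.4 := hcc ▸ min_le_left _ _
    obtain ⟨β, hβ, hβ2⟩ : ∃ β ≥ rs, c ≤ w β := by
      rcases le_or_gt r1 rs with e | e
      · refine ⟨rs, le_rfl, le_of_not_gt fun e1 => hreach fun r hr => hleaf rs e r ?_⟩
        have e2 : √(w rs) ≤ (Rb - rs) / (7 * f Rb) :=
          Real.sqrt_le_iff.2 ⟨div_nonneg (by linarith) (by linarith),
            e1.le.trans (hcc ▸ min_le_right _ _)⟩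
        rw [le_div_iff₀ (by linarith)] at e2
        nlinarith [mul_le_mul_of_nonneg_right hFb (Real.sqrt_nonneg (w rs))]
      · exact ⟨r1, e.le, hc4.trans (hr1.resolve_left (by linarith))⟩
    have e1 := spike2 h hw (hsp.pos 0 (by norm_num)).le (hs3 0).2 (by linarith [S.rpos]) hβ hρ1 hβ2
      hc0 (by linarith)
    have e2 := FI_ge h hsp.lip (x0 := 1 / 4) (by norm_num) (by norm_num)
      (hsp.pos 0 (by norm_num)).le fun x hx => hs1 hx.1
    rw [hcost]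
    linarith

end OneAux

end Pool.Agent.P.MP_ab9b82_gt
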