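import Pool.Agent.P.MP_ab9b82_gt.Defs

/-! Auxiliary definitions and the statements of the packages. -/

namespace Pool.Agent.P.MP_ab9b82_gt

open MeasureTheory Set Filter Topology Real
open scoped ENNReal ContDiff

noncomputable section

/-- `g` is a smooth Riemannian metric -/
structure IsMetric (g : Met) : Prop where
  smooth : ContDiff ℝ ∞ g
  symm : ∀ x u v, g x u v = g x v u
  pos : ∀ x u, u ≠ 0 → 0 < g x u u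

/-- `Γ` are the Christoffel symbols of the Levi-Civita connection of `g` -/
def IsChristoffel (g : Met) (Γ : V → V → V → V) : Prop :=
  ∀ x u v w, 2 * g x (Γ x u v) w = fderiv ℝ (fun y => g y v w) x u +
    fderiv ℝ (fun y => g y u w) x v - fderiv ℝ (fun y => g y u v) x w

/-- the final statement -/
def Final : Prop :=
  ∃ (g : Met) (Γ : V → V → V → V), IsMetric g ∧ IsChristoffel g Γ ∧ IsCompleteMet g ∧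
    (∀ x v, 0 ≤ ric Γ x v v) ∧
    (∃ c > (0 : ℝ), ∀ r > (0 : ℝ),
      ENNReal.ofReal (c * r ^ 3) ≤ vol g {x | idist g univ 0 x < ENNReal.ofReal r}) ∧
    (∃ C > (0 : ℝ), ∀ x u v w z, g x u u ≤ 1 → g x v v ≤ 1 → g x w w ≤ 1 → g x z z ≤ 1 →
      |g x (riem Γ x u v w) z| ≤ C / (1 + (idist g univ 0 x).toReal) ^ 2) ∧
    ∃ W : ℕ → ℝ, (∀ i, 0 < W i) ∧ Tendsto W atTop atTop ∧ ∀ i, ∃ E E' : Set V,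
      IsIsop g (W i) E ∧ IsIsop g (W i) E' ∧ 0 < vol g (symmDiff E E') ∧
      ¬Isom g (bdry g E) (bdry g E')

/-! ### the warped product metric `dr² + f(r)² g_{S²}` in Cartesian coordinates -/

def psi (f : ℝ → ℝ) (r : ℝ) : ℝ := if r = 0 then 1 else f r / r

/-- the Euclidean inner product as a bilinear form -/
def ip : V →L[ℝ] V →L[ℝ] ℝ := innerSL ℝ

def gm (f : ℝ → ℝ) : Met := fun x =>
  (psi f ‖x‖ ^ 2) • ip + ((1 - psi f ‖x‖ ^ 2) / ‖x‖ ^ 2) • (ip x).smulRight (ip x)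

def mu (f : ℝ → ℝ) : Measure V := volume.withDensity fun x => ENNReal.ofReal (psi f ‖x‖ ^ 2)

/-- volume density times the norm of a covector -/
def nrm (f : ℝ → ℝ) (x : V) (l : V →L[ℝ] ℝ) : ℝ :=
  √(psi f ‖x‖ ^ 4 * (l x / ‖x‖) ^ 2 + psi f ‖x‖ ^ 2 * (‖l‖ ^ 2 - (l x / ‖x‖) ^ 2))

def GG (f : ℝ → ℝ) (u : V → ℝ) : ℝ≥0∞ := ∫⁻ x, ENNReal.ofReal (nrm f x (fderiv ℝ u x))

def per (f : ℝ → ℝ) (E : Set V) : ℝ≥0∞ :=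
  ⨅ (u : ℕ → V → ℝ) (_ : ∀ j, LocallyLipschitz (u j))
    (_ : ∀ K, IsCompact K →
      Tendsto (fun j => ∫⁻ x in K, ‖u j x - E.indicator 1 x‖ₑ ∂mu f) atTop (𝓝 0)),
    liminf (fun j => GG f (u j)) atTop

structure Prof (f : ℝ → ℝ) (a0 : ℝ) : Prop where
  zero : f 0 = 0
  diff : Differentiable ℝ f
  cont : Continuous (deriv f)
  anti : Antitone (deriv f)
  pos : 0 < a0
  lo : ∀ r, a0 ≤ deriv f r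
  hi : ∀ r, deriv f r ≤ 1

structure Nice (f : ℝ → ℝ) : Prop where
  smooth : ContDiff ℝ ∞ f
  flat : ∀ r ≤ 1, f r = r
  dec : ∃ C : ℝ, ∀ r ≥ 0, |r * deriv (deriv f) r| ≤ C

/-- a long thin conical stretch `[Ra, Rb]` followed by a quick drop of the slope -/
structure Str (f : ℝ → ℝ) (a Ra Rb ε : ℝ) : Prop where
  apos : 0 < a
  ale : a ≤ 1 / 1000
  rpos : 0 < Ra
  lin : ∀ r ∈ Icc Ra Rb, deriv f r = a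
  big : 100 * f Ra ≤ f Rb
  epos : 0 < ε
  elt : ε < Rb - Ra
  gain : 2 * ε ^ 2 ≤ f Rb * (f Rb + a * ε / 2 - f (Rb + ε / 2))

/-! ### the one-dimensional problem -/

def ph (t : ℝ) : ℝ := √(t * (1 - t))

def Wf (f : ℝ → ℝ) (r : ℝ) : ℝ := ∫ t in (0 : ℝ)..r, f t ^ 2

def Lg (f : ℝ → ℝ) (r t p : ℝ) : ℝ := √(f r ^ 2 * (t * (1 - t)) + f r ^ 4 * p ^ 2)

def Lip (u : ℝ → ℝ) : Prop := ∃ K, LipschitzWith K u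

structure Adm (v : ℝ → ℝ) : Prop where
  lip : Lip v
  nn : ∀ r, 0 ≤ v r
  le : ∀ r, v r ≤ 1
  fin : ∃ b, ∀ r ≥ b, v r = 0

def FF (f v : ℝ → ℝ) (α : ℝ) : ℝ := ∫ r in Ioi α, Lg f r (v r) (deriv v r)

def VV (f v : ℝ → ℝ) (α : ℝ) : ℝ := ∫ r in Ioi α, v r * f r ^ 2

def mm (f : ℝ → ℝ) (W : ℝ) : ℝ := sInf {c | ∃ v, Adm v ∧ VV f v 0 = W ∧ FF f v 0 = c}

def Lh (f : ℝ → ℝ) (x r p : ℝ) : ℝ := f r * √(x * (1 - x) * p ^ 2 + f r ^ 2)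

def FI (f s : ℝ → ℝ) (x0 : ℝ) : ℝ := ∫ x in (0 : ℝ)..x0, Lh f x (s x) (deriv s x)

def VI (f s : ℝ → ℝ) (x0 : ℝ) : ℝ := ∫ x in (0 : ℝ)..x0, Wf f (s x)

structure Pos (s : ℝ → ℝ) (x0 : ℝ) : Prop where
  lip : Lip s
  pos : ∀ x ∈ Icc 0 x0, 0 < s x

structure Hyb (x0 : ℝ) (s v : ℝ → ℝ) : Prop where
  xpos : 0 < x0
  xle : x0 ≤ 1
  sp : Pos s x0
  adm : Adm v
  le : ∀ r, v r ≤ 1 - x0
  eq : ∀ r ≤ s x0, v r = 1 - x0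

def cost (f : ℝ → ℝ) (x0 : ℝ) (s v : ℝ → ℝ) : ℝ := FI f s x0 + FF f v (s x0)

def volu (f : ℝ → ℝ) (x0 : ℝ) (s v : ℝ → ℝ) : ℝ := VI f s x0 + VV f v 0

def Lp (f : ℝ → ℝ) (x r p : ℝ) : ℝ := f r * (x * (1 - x) * p) / √(x * (1 - x) * p ^ 2 + f r ^ 2)

def Ls (f : ℝ → ℝ) (x r p : ℝ) : ℝ :=
  deriv f r * (√(x * (1 - x) * p ^ 2 + f r ^ 2) + f r ^ 2 / √(x * (1 - x) * p ^ 2 + f r ^ 2))

structure C1 (s : ℝ → ℝ) (x0 : ℝ) : Prop where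
  diff : ∀ x ∈ Ioo 0 x0, DifferentiableAt ℝ s x
  cont : ContinuousOn (deriv s) (Ioo 0 x0)

def EL (f s : ℝ → ℝ) (x0 H : ℝ) : Prop :=
  ∀ x ∈ Ioo 0 x0, Lp f x (s x) (deriv s x) =
    ∫ y in (0 : ℝ)..x, (Ls f y (s y) (deriv s y) - H * f (s y) ^ 2)

def Star (f s : ℝ → ℝ) (x0 ρ : ℝ) : Prop :=
  ∀ x ∈ Ioo 0 x0,
    (2 * (deriv f (s x) * deriv s x) * (x * (1 - x)) + f (s x) * (1 - 2 * x)) ^ 2 =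
      (1 - 4 * f (s x) ^ 2 * (x * (1 - x)) / ρ ^ 2) * (x * (1 - x) * deriv s x ^ 2 + f (s x) ^ 2)

def PenMin (f s : ℝ → ℝ) (x0 : ℝ) : Prop :=
  ∃ C : ℝ, ∀ t, Pos t x0 → t x0 = s x0 → FI f s x0 ≤ FI f t x0 + C * |VI f t x0 - VI f s x0|

/-! ### spherical coordinates -/

/-- area fraction measured from the south pole -/
def xc (p : V) : ℝ := (1 + p 2 / ‖p‖) / 2

def DD (s v : ℝ → ℝ) (x0 : ℝ) : Set V := {p | ‖p‖ < s (min (xc p) x0) ∨ 1 - xc p < v ‖p‖}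

def sp (r : ℝ) (z : ℝ × ℝ) : V :=
  !₂[2 * r * ph z.1 * cos z.2, 2 * r * ph z.1 * sin z.2, r * (2 * z.1 - 1)]

def Om : Set (ℝ × ℝ) := Ioo 0 1 ×ˢ Ioo (-π) π

def av (h : V → ℝ) (r : ℝ) : ℝ := (∫ z in Om, h (sp r z)) / (2 * π)

structure Good (u : V → ℝ) (R : ℝ) : Prop where
  lip : ∃ K, LipschitzWith K u
  nn : ∀ p, 0 ≤ u p
  le : ∀ p, u p ≤ 1
  supp : ∀ p, R ≤ ‖p‖ → u p = 0

def KK (u : V → ℝ) (r : ℝ) : ℝ :=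
  (∫ z in Om, ∫ w in Om, max ((u (sp r w) - u (sp r z)) * (z.1 - w.1)) 0) / (2 * π) ^ 2

def dl (u : V → ℝ) (r : ℝ) : ℝ :=
  (∫ z in Om, |u (sp r z) - if 1 - av u r < z.1 then 1 else 0|) / (2 * π)

def mn (u : V → ℝ) (r : ℝ) : ℝ := av (fun p => min (u p) (1 - u p)) r

/-- the reflection in the plane orthogonal to `n` -/
def rf (n : V) : V ≃ₗᵢ[ℝ] V := (ℝ ∙ n)ᗮ.reflection

def JJ (u : V → ℝ) : ℝ := ∫ p, u p * p 2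

def Ps (u : V → ℝ) (p q : V) : ℝ := max ((u q - u p) * (p 2 - q 2)) 0

def Equi (u u' : V → ℝ) : Prop :=
  ∀ Φ : ℝ × ℝ → ℝ≥0∞, Measurable Φ → ∫⁻ p, Φ (‖p‖, u' p) = ∫⁻ p, Φ (‖p‖, u p)

/-! ### caps around the south pole -/

def XX (θ : ℝ) : ℝ := (1 - cos θ) / 2

def pt (s : ℝ → ℝ) (θ ϕ : ℝ) : V :=
  !₂[s (XX θ) * (sin θ * cos ϕ), s (XX θ) * (sin θ * sin ϕ), -(s (XX θ) * cos θ)]

def ell (f s : ℝ → ℝ) (θ : ℝ) : ℝ :=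
  ∫ t in (0 : ℝ)..θ, √((deriv s (XX t) * (sin t / 2)) ^ 2 + f (s (XX t)) ^ 2)

def yy (f s : ℝ → ℝ) (θ : ℝ) : ℝ := f (s (XX θ)) * sin θ

structure Cap (S : Set V) (s : ℝ → ℝ) : Prop where
  zero : (0 : V) ∉ S
  graph : ∀ p, xc p < 1 / 4 → (p ∈ S ↔ ‖p‖ = s (xc p))

/-! ### statements: the manifold -/

def S_Prof : Prop :=
  ∃ (f : ℝ → ℝ) (a0 : ℝ), Prof f a0 ∧ Nice f ∧
    ∀ i : ℕ, ∃ a Ra Rb ε, Str f a Ra Rb ε ∧ (i : ℝ) ≤ Ra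

def S_Curv : Prop :=
  ∀ f a0, Prof f a0 → Nice f → IsMetric (gm f) ∧ ∃ Γ, IsChristoffel (gm f) Γ ∧
    (∀ x v, 0 ≤ ric Γ x v v) ∧
    ∃ C > (0 : ℝ), ∀ x u v w z, gm f x u u ≤ 1 → gm f x v v ≤ 1 → gm f x w w ≤ 1 →
      gm f x z z ≤ 1 → |gm f x (riem Γ x u v w) z| ≤ C / (1 + ‖x‖) ^ 2

def S_Met1 : Prop := ∀ f a0, Prof f a0 → vol (gm f) = mu f ∧ ∀ E, perim (gm f) E = per f E

def S_Met2 : Prop :=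
  ∀ f a0, Prof f a0 → (∀ x, idist (gm f) univ 0 x ≤ ENNReal.ofReal ‖x‖) ∧ IsCompleteMet (gm f) ∧
    ∃ c > (0 : ℝ), ∀ r > (0 : ℝ),
      ENNReal.ofReal (c * r ^ 3) ≤ mu f {x | idist (gm f) univ 0 x < ENNReal.ofReal r}

def S_Bd : Prop :=
  ∀ f a0, Prof f a0 → (∀ R > (0 : ℝ), bdry (gm f) (Metric.ball 0 R) = Metric.sphere 0 R) ∧
    ∀ s v, Pos s (1 / 4) → (∀ r, v r ≤ 3 / 4) → Cap (bdry (gm f) (DD s v (1 / 4))) s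

/-! ### statements: symmetrization -/

def S_Sph : Prop :=
  ∀ h : V → ℝ≥0∞, Measurable h →
    ∫⁻ p, h p = ∫⁻ r in Ioi (0 : ℝ), ∫⁻ z in Om, ENNReal.ofReal (2 * r ^ 2) * h (sp r z)

def S_Red : Prop :=
  ∀ f a0, Prof f a0 → ∀ (E : Set V) (c : ℝ), MeasurableSet E → mu f E ≠ ⊤ →
    per f E < ENNReal.ofReal c → ∀ ε > (0 : ℝ), ∃ R ≥ (2 : ℝ), ∀ ε' > (0 : ℝ), ∃ u, Good u R ∧
      GG f u ≤ ENNReal.ofReal (c + ε) ∧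
      ∫⁻ p in Metric.ball 0 (R - 1), ‖u p - E.indicator 1 p‖ₑ ∂mu f ≤ ENNReal.ofReal ε' ∧
      ∫⁻ p, ‖u p - E.indicator 1 p‖ₑ ∂mu f ≤ ENNReal.ofReal ε ∧
      mu f (E \ Metric.ball 0 (R - 1)) ≤ ENNReal.ofReal ε

def S_Lsc : Prop :=
  ∀ f a0, Prof f a0 → ∀ (E : ℕ → Set V) (F : Set V) (c : ℝ≥0∞), (∀ k, MeasurableSet (E k)) →
    MeasurableSet F → Tendsto (fun k => mu f (symmDiff (E k) F)) atTop (𝓝 0) →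
    (∀ c' > c, ∀ᶠ k in atTop, per f (E k) ≤ c') → per f F ≤ c

def S_Pol1 : Prop :=
  ∀ f a0, Prof f a0 → ∀ u R n, Good u R → n ≠ 0 → ∃ u', Good u' R ∧ GG f u' ≤ GG f u ∧
    Equi u u' ∧ JJ u' = JJ u + (∫ p, Ps u p (rf n p)) / 2

def S_Pol2 : Prop :=
  ∃ C : ℝ, ∀ u R (ε : ℝ), Good u R → (∀ n ≠ 0, ∫ p, Ps u p (rf n p) ≤ ε) →
    ∫⁻ r in Ioi (0 : ℝ), ENNReal.ofReal (r ^ 3 * KK u r) ≤ ENNReal.ofReal (C * ε)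

def S_Pol : Prop :=
  ∀ f a0, Prof f a0 → ∀ u R, Good u R → ∀ ε > (0 : ℝ), ∃ u', Good u' R ∧ GG f u' ≤ GG f u ∧
    Equi u u' ∧ ∫⁻ r in Ioi (0 : ℝ), ENNReal.ofReal (r ^ 3 * KK u' r) ≤ ENNReal.ofReal ε

def S_Avg1 : Prop :=
  ∀ f a0, Prof f a0 → ∀ u R, Good u R → ∀ η > (0 : ℝ),
    ENNReal.ofReal (4 * π * FF f (av u) 0) ≤ GG f u + ∫⁻ r in Ioi (0 : ℝ),
      ENNReal.ofReal (4 * π * f r * min (ph (av u r)) (η + dl u r / η))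

def S_Avg2 : Prop :=
  ∀ f a0, Prof f a0 → ∀ u R, Good u R → Adm (av u) ∧ (∀ r ≥ R, av u r = 0) ∧
    (∀ α β : ℝ, 0 ≤ α → ∫⁻ p in {p : V | α < ‖p‖ ∧ ‖p‖ < β}, ENNReal.ofReal (u p) ∂mu f =
      ∫⁻ r in Ioo α β, ENNReal.ofReal (4 * π * (av u r * f r ^ 2))) ∧
    Measurable (KK u) ∧ Measurable (dl u) ∧
    ∀ r, 0 ≤ KK u r ∧ 0 ≤ dl u r ∧ dl u r ≤ 1 ∧ dl u r ^ 3 ≤ 32 * (KK u r + 2 * mn u r)

def S_LB : Prop :=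
  ∀ f a0, Prof f a0 → ∀ (E : Set V) (W : ℝ), MeasurableSet E → 0 < W →
    mu f E = ENNReal.ofReal (4 * π * W) → ENNReal.ofReal (4 * π * mm f W) ≤ per f E

def S_UBp : Prop :=
  ∀ f a0, Prof f a0 → ∀ x0 s v, Hyb x0 s v →
    per f (DD s v x0) ≤ ENNReal.ofReal (4 * π * cost f x0 s v)

def S_UBv : Prop :=
  ∀ f a0, Prof f a0 → ∀ x0 s v, Hyb x0 s v → MeasurableSet (DD s v x0) ∧
    mu f (DD s v x0) = ENNReal.ofReal (4 * π * volu f x0 s v)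

def S_Lim : Prop :=
  ∀ f a0, Prof f a0 → ∀ (s v : ℕ → ℝ → ℝ) (s' v' : ℝ → ℝ) (x0 b c W : ℝ),
    (∀ k, Hyb x0 (s k) (v k)) → (∀ k, ∀ x ∈ Icc 0 x0, s k x ≤ b) → (∀ k, ∀ r ≥ b, v k r = 0) →
    (∀ x, Tendsto (fun k => s k x) atTop (𝓝 (s' x))) →
    (∀ r, Tendsto (fun k => v k r) atTop (𝓝 (v' r))) →
    Tendsto (fun k => cost f x0 (s k) (v k)) atTop (𝓝 c) →
    Tendsto (fun k => volu f x0 (s k) (v k)) atTop (𝓝 W) →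
    MeasurableSet (DD s' v' x0) ∧ mu f (DD s' v' x0) = ENNReal.ofReal (4 * π * W) ∧
      per f (DD s' v' x0) ≤ ENNReal.ofReal (4 * π * c)

/-! ### statements: the one-dimensional problem -/

def S_Dil : Prop :=
  ∀ f a0, Prof f a0 → (∀ W > 0, ∃ v, Adm v ∧ VV f v 0 = W) ∧
    ∀ W1 W2, 0 < W1 → W1 ≤ W2 → mm f W2 ≤ (W2 / W1) ^ 2 * mm f W1 ∧
      mm f W1 ≤ (1 - a0 * (1 - W1 / W2) / 3) * mm f W2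

def S_MI : Prop :=
  ∀ f a0 a Ra Rb ε, Prof f a0 → Str f a Ra Rb ε → ∀ R ≤ Rb, f Rb ≤ 2 * f R → ∀ v, Adm v →
    (∀ r ≥ Rb, v r = 0) → f R ^ 2 ≤ FF f v 0 + 4 * a / f R * max (Wf f R - VV f v 0) 0

def S_Flat : Prop :=
  ∀ f a0 a Ra Rb ε, Prof f a0 → Str f a Ra Rb ε → ∀ R, 10 * f Ra ≤ f R → ∀ v, Adm v →
    FF f v 0 < f R ^ 2 → ∃ w, Adm w ∧ (∀ r, w r ≤ v r) ∧
      FF f w 0 + 0.07 / f R * (VV f v 0 - VV f w 0) ≤ FF f v 0 ∧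
      (∀ r, 1.6 * f R ≤ f r → w r = 0) ∧
      ∃ r1, (r1 = Ra ∨ 0.4 ≤ w r1) ∧ ∀ r ≥ r1, ∀ r' ≥ r + 7 * f R * √(w r), w r' = 0

/-- `w` vanishes up to `r0` and grows at least at rate `1/L` on `(-∞, ρ]` once it is positive -/
structure Gro (w : ℝ → ℝ) (r0 ρ L : ℝ) : Prop where
  lip : Lip w
  nn : ∀ r, 0 ≤ w r
  zero : ∀ r ≤ r0, w r = 0
  gro : ∀ r r', r ≤ r' → r' ≤ ρ → 0 < w r → (r' - r) / L ≤ w r' - w r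

def S_Sharp : Prop :=
  ∀ f a0, Prof f a0 → ∀ v r0 ρ, Adm v → 0 < r0 → r0 ≤ ρ → r0 + 2 * f ρ ≤ ρ → v ρ = 3 / 4 →
    ∃ w, Gro w r0 ρ (8 * f ρ) ∧ w ρ = 1 / 4 ∧ (∀ r ∈ Icc 0 ρ, w r ≤ 1 - v r) ∧
      ∫ r in (0 : ℝ)..ρ, Lg f r (w r) (deriv w r) ≤ ∫ r in (0 : ℝ)..ρ, Lg f r (v r) (deriv v r)

def S_Conv : Prop :=
  ∀ f a0, Prof f a0 → ∀ w r0 ρ L x0, Gro w r0 ρ L → 0 < r0 → 0 < L → 0 < x0 → x0 ≤ 1 →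
    r0 ≤ ρ → w ρ = x0 → ∃ s : ℝ → ℝ, Monotone s ∧ (∀ x y, |s x - s y| ≤ L * |x - y|) ∧
      (∀ x, r0 ≤ s x ∧ s x ≤ ρ) ∧ s x0 = ρ ∧
      FI f s x0 ≤ ∫ r in (0 : ℝ)..ρ, Lg f r (w r) (deriv w r) ∧
      VI f s x0 = ∫ r in (0 : ℝ)..ρ, (x0 - w r) * f r ^ 2

def S_Helly : Prop :=
  ∀ (u : ℕ → ℝ → ℝ) (C : ℝ), (∀ k, Lip (u k)) → (∀ k x, |u k x| ≤ C) →
    (∀ k α β, α ≤ β → ∫ x in α..β, |deriv (u k) x| ≤ C) →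
    ∃ φ : ℕ → ℕ, StrictMono φ ∧ ∃ w : ℝ → ℝ, ∀ x, Tendsto (fun k => u (φ k) x) atTop (𝓝 (w x))

def S_Lsc1 : Prop :=
  ∀ f a0, Prof f a0 → ∀ x0, 0 < x0 → x0 ≤ 1 →
    (∀ (s : ℕ → ℝ → ℝ) (s' : ℝ → ℝ) (K : NNReal), (∀ k, LipschitzWith K (s k)) → Pos s' x0 →
      (∀ x, Tendsto (fun k => s k x) atTop (𝓝 (s' x))) →
      (∀ ε > 0, ∀ᶠ k in atTop, FI f s' x0 - ε ≤ FI f (s k) x0) ∧
        Tendsto (fun k => VI f (s k) x0) atTop (𝓝 (VI f s' x0))) ∧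
    ∀ t : ℝ → ℝ, Lip t → Continuous fun c : ℝ => FI f (fun x => t x + c) x0

def S_EL : Prop :=
  ∀ f a0, Prof f a0 → ∀ s x0, 0 < x0 → x0 < 1 → Pos s x0 → PenMin f s x0 →
    C1 s x0 ∧ ∃ H, EL f s x0 H

def S_Asym : Prop :=
  ∀ f a0, Prof f a0 → ∀ s x0 a H ρ, 0 < x0 → x0 < 1 → Pos s x0 → Monotone s → C1 s x0 →
    0 < a → a < 1 → (∀ x ∈ Icc 0 x0, deriv f (s x) = a) → 0 < ρ → EL f s x0 H →
    Star f s x0 ρ → f (s 0) = ρ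

def S_One : Prop :=
  ∀ f a0 a Ra Rb ε, Prof f a0 → Str f a Ra Rb ε → ∃ R, Ra < R ∧ R < Rb ∧
    mm f (Wf f R) = f R ^ 2 ∧ ∃ (s v : ℕ → ℝ → ℝ) (s' v' : ℝ → ℝ) (b : ℝ),
      (∀ k, Hyb (1 / 4) (s k) (v k)) ∧ (∀ k, ∀ x ∈ Icc (0 : ℝ) (1 / 4), s k x ≤ b) ∧
      (∀ k, ∀ r ≥ b, v k r = 0) ∧ (∀ x, Tendsto (fun k => s k x) atTop (𝓝 (s' x))) ∧
      (∀ r, Tendsto (fun k => v k r) atTop (𝓝 (v' r))) ∧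
      Tendsto (fun k => cost f (1 / 4) (s k) (v k)) atTop (𝓝 (f R ^ 2)) ∧
      Tendsto (fun k => volu f (1 / 4) (s k) (v k)) atTop (𝓝 (Wf f R)) ∧
      Pos s' (1 / 4) ∧ Monotone s' ∧ Ra ≤ s' 0 ∧ s' 0 < R ∧ PenMin f s' (1 / 4)

/-! ### statements: intrinsic geometry of caps -/

def S_CapU : Prop :=
  ∀ f a0, Prof f a0 → ∀ S s, Cap S s → Pos s (1 / 4) → C1 s (1 / 4) →
    (∀ θ ∈ Ico 0 (π / 3), ∀ ϕ, pt s θ ϕ ∈ S) ∧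
    (∀ q ∈ S, xc q < 1 / 4 → ∃ θ ∈ Ico 0 (π / 3), ∃ ϕ ∈ Icc (-π) π, q = pt s θ ϕ) ∧
    StrictMonoOn (ell f s) (Icc 0 (π / 3)) ∧ Continuous (ell f s) ∧
    (∀ θ ∈ Ico 0 (π / 3), ∀ ϕ,
      idist (gm f) S (pt s 0 0) (pt s θ ϕ) ≤ ENNReal.ofReal (ell f s θ)) ∧
    ∀ θ ∈ Ico 0 (π / 3), ∀ ϕ ϕ',
      idist (gm f) S (pt s θ ϕ) (pt s θ ϕ') ≤ ENNReal.ofReal (yy f s θ * |ϕ - ϕ'|)

def S_CapL : Prop :=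
  ∀ f a0, Prof f a0 → ∀ S s, Cap S s → Pos s (1 / 4) → C1 s (1 / 4) →
    (∀ θ ∈ Ico 0 (π / 3), ∀ ϕ,
      ENNReal.ofReal (ell f s θ) ≤ idist (gm f) S (pt s 0 0) (pt s θ ϕ)) ∧
    (∀ θ ∈ Ico 0 (π / 3), ∀ q, 1 / 4 ≤ xc q →
      ENNReal.ofReal (ell f s θ) ≤ idist (gm f) S (pt s 0 0) q) ∧
    ∀ θ ∈ Ioo 0 (π / 3), ∀ η > (0 : ℝ), ∃ l > (0 : ℝ), ∀ ϕ ϕ',
      ENNReal.ofReal (min l ((yy f s θ - η) * (2 * |sin ((ϕ - ϕ') / 2)|))) ≤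
        idist (gm f) S (pt s θ ϕ) (pt s θ ϕ')

def S_Iso : Prop :=
  ∀ f a0, Prof f a0 → ∀ S s R, Cap S s → Pos s (1 / 4) → C1 s (1 / 4) → 0 < R →
    Isom (gm f) (Metric.sphere 0 R) S → ∃ x1 > 0, x1 ≤ 1 / 4 ∧ Star f s x1 (f R)

end

end Pool.Agent.P.MP_ab9b82_gt
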