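import Pool.Agent.P.MP_ab9b82_gt.B2

/-! Upper bound for the perimeter of the hybrid sets. -/

namespace Pool.Agent.P.MP_ab9b82_gt

open MeasureTheory Set Filter Topology Real
open scoped ENNReal

noncomputable section

namespace UBpAux

variable {f s v : ℝ → ℝ} {a0 x0 η : ℝ}

def st (s : ℝ → ℝ) (x0 x : ℝ) : ℝ := s (min x x0)

def cl (t : ℝ) : ℝ := max 0 (min 1 t)

def aa (s : ℝ → ℝ) (x0 η : ℝ) (p : V) : ℝ := η⁻¹ * (st s x0 (xc p) - ‖p‖)

def bb (v : ℝ → ℝ) (η : ℝ) (p : V) : ℝ := η⁻¹ * (v ‖p‖ + xc p - 1)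

def uu (s v : ℝ → ℝ) (x0 η : ℝ) (p : V) : ℝ := cl (max (aa s x0 η p) (bb v η p))

theorem cl_nn (t : ℝ) : 0 ≤ cl t := le_max_left _ _

theorem cl_le (t : ℝ) : cl t ≤ 1 := max_le zero_le_one (min_le_left _ _)

theorem cl_zero {t : ℝ} (h : t ≤ 0) : cl t = 0 := max_eq_left ((min_le_right _ _).trans h)

theorem cl_one {t : ℝ} (h : 1 ≤ t) : cl t = 1 := by simp [cl, min_eq_left h]

theorem cl_mid {t : ℝ} (h0 : 0 ≤ t) (h1 : t ≤ 1) : cl t = t := by
  simp [cl, min_eq_right h1, max_eq_right h0]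

theorem st_lip (hs : Lip s) : Lip (st s x0) := by
  obtain ⟨K, hK⟩ := hs
  exact ⟨_, hK.comp (LipschitzWith.id.min_const x0)⟩

theorem st_pos (H : Hyb x0 s v) {x : ℝ} (hx : 0 ≤ x) : 0 < st s x0 x :=
  H.sp.pos _ ⟨le_min hx H.xpos.le, min_le_right _ _⟩

theorem xc_c1 {p : V} (hp : p ≠ 0) : ContDiffAt ℝ 1 xc p := by
  have h1 : ContDiffAt ℝ 1 (fun q : V => q 2) p :=
    (EuclideanSpace.proj (2 : Fin 3) : V →L[ℝ] ℝ).contDiff.contDiffAt
  exact (contDiffAt_const.add (h1.div (contDiffAt_norm ℝ hp) (norm_ne_zero_iff.2 hp))).div_const 2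

theorem uu_loc (H : Hyb x0 s v) {c : ℝ} (hc : ∀ x ∈ Icc 0 x0, c ≤ s x) (h0 : 0 < η)
    (h1 : η < c) : LocallyLipschitz (uu s v x0 η) := by
  intro p
  rcases eq_or_ne p 0 with rfl | hp
  · refine ⟨0, Metric.ball 0 (c - η), Metric.ball_mem_nhds _ (by linarith), ?_⟩
    have key : ∀ q ∈ Metric.ball (0 : V) (c - η), uu s v x0 η q = 1 := fun q hq => by
      refine cl_one (le_max_of_le_left ?_)
      have h2 : c ≤ st s x0 (xc q) := hc _ ⟨le_min (xc_mem q).1 H.xpos.le, min_le_right _ _⟩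
      have h3 := mem_ball_zero_iff.1 hq
      rw [aa, ← div_eq_inv_mul, le_div_iff₀ h0]
      linarith
    intro q hq q' hq'
    simp [key q hq, key q' hq']
  · obtain ⟨K, t, ht, hK⟩ := (xc_c1 hp).exists_lipschitzOnWith
    obtain ⟨K1, h1⟩ := st_lip (x0 := x0) H.sp.lip
    obtain ⟨K2, h2⟩ := H.adm.lip
    have hA := (lipschitzWith_smul η⁻¹).comp
      ((h1.comp LipschitzWith.prod_snd).sub (LipschitzWith.prod_fst (α := ℝ) (β := ℝ)))
    have hB := (lipschitzWith_smul η⁻¹).comp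
      (((h2.comp LipschitzWith.prod_fst).add (LipschitzWith.prod_snd (α := ℝ) (β := ℝ))).sub
        (LipschitzWith.const (1 : ℝ)))
    have hC := (((hA.max hB).const_min 1).const_max 0).comp_lipschitzOnWith
      ((lipschitzWith_one_norm.lipschitzOnWith (s := t)).prodMk hK)
    exact ⟨_, t, ht, hC⟩

theorem aa_deriv {p : V} (hp : p ≠ 0) (hd : DifferentiableAt ℝ (st s x0) (xc p)) :
    HasFDerivAt (aa s x0 η) ((-η⁻¹) • dr p + (η⁻¹ * deriv (st s x0) (xc p)) • dx p) p := by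
  have h1 := ((hd.hasDerivAt.comp_hasFDerivAt p (hasFDerivAt_xc hp)).sub
    (hasFDerivAt_nrm hp)).const_mul η⁻¹
  refine h1.congr_fderiv ?_
  module

theorem bb_deriv {p : V} (hp : p ≠ 0) (hd : DifferentiableAt ℝ v ‖p‖) :
    HasFDerivAt (bb v η) ((η⁻¹ * deriv v ‖p‖) • dr p + η⁻¹ • dx p) p := by
  have h1 := (((hd.hasDerivAt.comp_hasFDerivAt p (hasFDerivAt_nrm hp)).add
    (hasFDerivAt_xc hp)).sub_const 1).const_mul η⁻¹
  refine h1.congr_fderiv ?_
  module

/-- the derivative of a clamped maximum -/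
theorem fderiv_cases {A B : V → ℝ} {p : V} (hA : DifferentiableAt ℝ A p)
    (hB : DifferentiableAt ℝ B p) :
    fderiv ℝ (fun q => cl (max (A q) (B q))) p = 0 ∨
      (0 < A p ∧ A p < 1 ∧ B p < 1 ∧ fderiv ℝ (fun q => cl (max (A q) (B q))) p = fderiv ℝ A p) ∨
      (0 < B p ∧ B p < 1 ∧ A p < 1 ∧
        fderiv ℝ (fun q => cl (max (A q) (B q))) p = fderiv ℝ B p) := by
  by_cases hu : DifferentiableAt ℝ (fun q => cl (max (A q) (B q))) p
  swap
  · exact Or.inl (fderiv_zero_of_not_differentiableAt hu)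
  by_cases h0 : max (A p) (B p) ≤ 0
  · refine Or.inl (IsLocalMin.fderiv_eq_zero (Eventually.of_forall fun q => ?_))
    simp only [cl_zero h0]
    exact cl_nn _
  by_cases h1 : 1 ≤ max (A p) (B p)
  · refine Or.inl (IsLocalMax.fderiv_eq_zero (Eventually.of_forall fun q => ?_))
    simp only [cl_one h1]
    exact cl_le _
  rw [not_le] at h0 h1
  have hc : ContinuousAt (fun q => max (A q) (B q)) p := hA.continuousAt.max hB.continuousAt
  have hev : ∀ᶠ q in 𝓝 p, cl (max (A q) (B q)) = max (A q) (B q) := by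
    filter_upwards [hc.eventually (Ioo_mem_nhds h0 h1)] with q hq using cl_mid hq.1.le hq.2.le
  have hp := hev.self_of_nhds
  rcases le_total (B p) (A p) with h | h
  · rw [max_eq_left h] at h0 h1
    refine Or.inr (Or.inl ⟨h0, h1, h.trans_lt h1, (touch ?_ ?_ hA hu).symm⟩)
    · filter_upwards [hev] with q hq using (le_max_left _ _).trans hq.ge
    · rw [hp, max_eq_left h]
  · rw [max_eq_right h] at h0 h1
    refine Or.inr (Or.inr ⟨h0, h1, h.trans_lt h1, (touch ?_ ?_ hB hu).symm⟩)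
    · filter_upwards [hev] with q hq using (le_max_right _ _).trans hq.ge
    · rw [hp, max_eq_right h]

/-- bound along the graph part -/
def K1 (f s : ℝ → ℝ) (x0 η x : ℝ) : ℝ≥0∞ :=
  (Iio (x0 + η)).indicator
    (fun x => ENNReal.ofReal (2 * Lh f x (st s x0 x) (deriv (st s x0) x))) x

/-- bound along the radial part -/
def K2 (f s v : ℝ → ℝ) (x0 η b r : ℝ) : ℝ≥0∞ :=
  (Ioi (s x0 - η)).indicator (fun r => ENNReal.ofReal (2 * Lg f r (v r) (deriv v r))) r +
    (Ioo 0 b).indicator (fun _ => ENNReal.ofReal (2 * b * √η)) r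

def H1 (f s : ℝ → ℝ) (x0 η r x : ℝ) : ℝ≥0∞ :=
  (Ioo (st s x0 x - η) (st s x0 x)).indicator (fun _ => ENNReal.ofReal η⁻¹ * K1 f s x0 η x) r

def H2 (f s v : ℝ → ℝ) (x0 η b r x : ℝ) : ℝ≥0∞ :=
  (Ioo (1 - v r) (1 - v r + η)).indicator (fun _ => ENNReal.ofReal η⁻¹ * K2 f s v x0 η b r) x

theorem mem_unit {t : ℝ} (h0 : 0 < η) (h1 : 0 < η⁻¹ * t) (h2 : η⁻¹ * t < 1) : 0 < t ∧ t < η := by
  rw [← div_eq_inv_mul] at h1 h2
  exact ⟨(div_pos_iff_of_pos_right h0).1 h1, (div_lt_one h0).1 h2⟩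

theorem lt_unit {t : ℝ} (h0 : 0 < η) (h2 : η⁻¹ * t < 1) : t < η := by
  rw [← div_eq_inv_mul] at h2
  exact (div_lt_one h0).1 h2

theorem point (h : Prof f a0) (H : Hyb x0 s v) (h0 : 0 < η) {b : ℝ} (hb : ∀ r ≥ b, v r = 0)
    {p : V} (hp : p ≠ 0) (hx1 : xc p < 1) (hd1 : DifferentiableAt ℝ (st s x0) (xc p))
    (hd2 : DifferentiableAt ℝ v ‖p‖) :
    ENNReal.ofReal (2 * ‖p‖ ^ 2) * ENNReal.ofReal (nrm f p (fderiv ℝ (uu s v x0 η) p)) ≤
      H1 f s x0 η ‖p‖ (xc p) + H2 f s v x0 η b ‖p‖ (xc p) := by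
  have hA := aa_deriv (η := η) hp hd1
  have hB := bb_deriv (η := η) hp hd2
  have hr : 0 < ‖p‖ := norm_pos_iff.2 hp
  have hf := h.fpos hr
  have hi : 0 < η⁻¹ := inv_pos.2 h0
  have hz : 0 ≤ xc p * (1 - xc p) := mul_nonneg (xc_mem p).1 (sub_nonneg.2 hx1.le)
  rw [← ENNReal.ofReal_mul (by positivity), mul_assoc]
  rcases fderiv_cases hA.differentiableAt hB.differentiableAt with e | ⟨a1, a2, a3, e⟩ |
    ⟨a1, a2, a3, e⟩
  · have e' : fderiv ℝ (uu s v x0 η) p = 0 := e
    simp [e', nrm_zero]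
  · have e' : fderiv ℝ (uu s v x0 η) p = _ := e.trans hA.fderiv
    obtain ⟨b1, b2⟩ := mem_unit h0 a1 a2
    have b3 := lt_unit h0 a3
    have b4 : xc p < x0 + η := by
      by_contra hc
      have hc' : x0 ≤ xc p := by linarith [not_lt.1 hc]
      have e1 : st s x0 (xc p) = s x0 := by rw [st, min_eq_right hc']
      have := H.eq ‖p‖ (by linarith)
      linarith [not_lt.1 hc]
    refine le_add_right ?_
    rw [e', nrm_dd h hp, H1, indicator_of_mem (by constructor <;> linarith), K1,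
      indicator_of_mem (by exact b4), ← ENNReal.ofReal_mul hi.le]
    refine ENNReal.ofReal_le_ofReal ?_
    have m : f ‖p‖ ≤ f (st s x0 (xc p)) := h.mono.monotone (by linarith)
    have m2 : f ‖p‖ ^ 2 ≤ f (st s x0 (xc p)) ^ 2 := pow_le_pow_left₀ hf.le m 2
    have e2 : f ‖p‖ ^ 4 * (-η⁻¹) ^ 2 + f ‖p‖ ^ 2 * ((η⁻¹ * deriv (st s x0) (xc p)) ^ 2 *
        (xc p * (1 - xc p))) = (η⁻¹ * f ‖p‖) ^ 2 *
        (xc p * (1 - xc p) * deriv (st s x0) (xc p) ^ 2 + f ‖p‖ ^ 2) := by ring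
    rw [e2, Real.sqrt_mul (sq_nonneg _), Real.sqrt_sq (by positivity), Lh]
    have m3 : √(xc p * (1 - xc p) * deriv (st s x0) (xc p) ^ 2 + f ‖p‖ ^ 2) ≤
        √(xc p * (1 - xc p) * deriv (st s x0) (xc p) ^ 2 + f (st s x0 (xc p)) ^ 2) :=
      Real.sqrt_le_sqrt (by linarith)
    have m4 := mul_le_mul m m3 (Real.sqrt_nonneg _) (hf.le.trans m)
    nlinarith
  · have e' : fderiv ℝ (uu s v x0 η) p = _ := e.trans hB.fderiv
    obtain ⟨b1, b2⟩ := mem_unit h0 a1 a2
    have b3 := lt_unit h0 a3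
    have hc' : x0 ≤ xc p := by linarith [H.le ‖p‖]
    have e1 : st s x0 (xc p) = s x0 := by rw [st, min_eq_right hc']
    have b4 : s x0 - η < ‖p‖ := by linarith
    have b5 : ‖p‖ < b := by
      by_contra hc
      have := hb _ (not_lt.1 hc)
      linarith
    have hb0 : 0 < b := hr.trans b5
    refine le_add_left ?_
    rw [e', nrm_dd h hp, H2, indicator_of_mem (by constructor <;> linarith), K2,
      indicator_of_mem (by exact b4), indicator_of_mem (by exact ⟨hr, b5⟩),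
      ← ENNReal.ofReal_add (mul_nonneg zero_le_two (Lg_nn ..)) (by positivity),
      ← ENNReal.ofReal_mul hi.le]
    refine ENNReal.ofReal_le_ofReal ?_
    have hL : Lg f ‖p‖ (v ‖p‖) (deriv v ‖p‖) ^ 2 =
        f ‖p‖ ^ 2 * (v ‖p‖ * (1 - v ‖p‖)) + f ‖p‖ ^ 4 * deriv v ‖p‖ ^ 2 :=
      Real.sq_sqrt (add_nonneg (mul_nonneg (sq_nonneg _)
        (mul_nonneg (H.adm.nn _) (sub_nonneg.2 (H.adm.le _)))) (by positivity))
    have hL0 := Lg_nn f ‖p‖ (v ‖p‖) (deriv v ‖p‖)
    have hs := Real.sq_sqrt h0.le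
    have hs0 := Real.sqrt_nonneg η
    have m1 : xc p * (1 - xc p) ≤ v ‖p‖ * (1 - v ‖p‖) + η := by
      nlinarith [H.adm.nn ‖p‖, H.adm.le ‖p‖, (xc_mem p).1]
    have m2 : f ‖p‖ ^ 2 ≤ b ^ 2 := pow_le_pow_left₀ hf.le ((h.le hr.le).trans b5.le) 2
    have m3 : f ‖p‖ ^ 4 * deriv v ‖p‖ ^ 2 + f ‖p‖ ^ 2 * (xc p * (1 - xc p)) ≤
        (Lg f ‖p‖ (v ‖p‖) (deriv v ‖p‖) + b * √η) ^ 2 := by
      have m4 := mul_le_mul_of_nonneg_left m1 (sq_nonneg (f ‖p‖))
      have m5 := mul_le_mul_of_nonneg_right m2 h0.le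
      have m6 : 0 ≤ Lg f ‖p‖ (v ‖p‖) (deriv v ‖p‖) * (b * √η) := by positivity
      have m7 : (b * √η) ^ 2 = b ^ 2 * η := by rw [mul_pow, hs]
      nlinarith
    have m8 : √(f ‖p‖ ^ 4 * (η⁻¹ * deriv v ‖p‖) ^ 2 + f ‖p‖ ^ 2 * (η⁻¹ ^ 2 * (xc p * (1 - xc p)))) ≤
        η⁻¹ * (Lg f ‖p‖ (v ‖p‖) (deriv v ‖p‖) + b * √η) := by
      refine Real.sqrt_le_iff.2 ⟨by positivity, ?_⟩
      have := mul_le_mul_of_nonneg_left m3 (sq_nonneg η⁻¹)
      nlinarith
    nlinarith

theorem K1_meas (h : Prof f a0) (hs : Lip s) : Measurable (K1 f s x0 η) :=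
  (((Lh_meas h (st_lip hs)).const_mul 2).ennreal_ofReal).indicator measurableSet_Iio

theorem K2_meas (h : Prof f a0) (hv : Lip v) (b : ℝ) : Measurable (K2 f s v x0 η b) :=
  ((((Lg_meas h hv).const_mul 2).ennreal_ofReal).indicator measurableSet_Ioi).add
    (measurable_const.indicator measurableSet_Ioo)

theorem H1_meas (h : Prof f a0) (hs : Lip s) : Measurable (Function.uncurry (H1 f s x0 η)) := by
  have h1 : Measurable fun q : ℝ × ℝ => st s x0 q.2 :=
    (st_lip hs).continuous.measurable.comp measurable_snd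
  have e : Function.uncurry (H1 f s x0 η) =
      {q : ℝ × ℝ | st s x0 q.2 - η < q.1 ∧ q.1 < st s x0 q.2}.indicator
        fun q => ENNReal.ofReal η⁻¹ * K1 f s x0 η q.2 := by
    ext q
    simp only [Function.uncurry, H1, indicator, mem_Ioo, mem_ofPred_eq]
  rw [e]
  exact (((K1_meas h hs).comp measurable_snd).const_mul _).indicator
    ((measurableSet_lt (h1.sub_const η) measurable_fst).inter (measurableSet_lt measurable_fst h1))

theorem lint_band (h0 : 0 < η) (S : Set ℝ) (α β : ℝ) (hβ : β - α = η) (C : ℝ≥0∞) :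
    ∫⁻ t in S, (Ioo α β).indicator (fun _ => ENNReal.ofReal η⁻¹ * C) t ≤ C := by
  refine (setLIntegral_le_lintegral _ _).trans ?_
  rw [lintegral_indicator_const measurableSet_Ioo, Real.volume_Ioo, hβ, mul_right_comm,
    ← ENNReal.ofReal_mul (inv_nonneg.2 h0.le), inv_mul_cancel₀ h0.ne', ENNReal.ofReal_one, one_mul]

theorem lint_Om {φ : ℝ → ℝ≥0∞} (hφ : Measurable φ) :
    ∫⁻ z in Om, φ z.1 = ENNReal.ofReal (2 * π) * ∫⁻ x in Ioo (0 : ℝ) 1, φ x := by
  rw [Om, Measure.volume_eq_prod, ← Measure.prod_restrict,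
    lintegral_prod (fun z : ℝ × ℝ => φ z.1) (hφ.comp measurable_fst).aemeasurable]
  simp only [lintegral_const, Measure.restrict_apply_univ, Real.volume_Ioo]
  rw [lintegral_mul_const _ hφ, mul_comm]
  congr 2
  ring

theorem lint_K1 (h : Prof f a0) (H : Hyb x0 s v) (h0 : 0 < η) :
    ∫⁻ x in Ioo (0 : ℝ) 1, K1 f s x0 η x ≤ ENNReal.ofReal
      (2 * ∫ x in (0 : ℝ)..(x0 + η), Lh f x (st s x0 x) (deriv (st s x0) x)) := by
  have hx : 0 ≤ x0 + η := by linarith [H.xpos]
  have hi := ((Lh_ii h (st_lip (x0 := x0) H.sp.lip) 0 (x0 + η)).const_mul 2).1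
  rw [← intervalIntegral.integral_const_mul, intervalIntegral.integral_of_le hx,
    ofReal_integral_eq_lintegral_ofReal hi]
  · unfold K1
    rw [lintegral_indicator measurableSet_Iio, Measure.restrict_restrict measurableSet_Iio]
    exact lintegral_mono_set fun x hx => ⟨hx.2.1, le_of_lt hx.1⟩
  · refine (ae_restrict_iff' measurableSet_Ioc).2 (ae_of_all _ fun x hx => ?_)
    exact mul_nonneg zero_le_two (mul_nonneg (h.fpos (st_pos H hx.1.le)).le (Real.sqrt_nonneg _))

theorem lint_K2 (h : Prof f a0) (H : Hyb x0 s v) {b : ℝ} (hb : 0 ≤ b) :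
    ∫⁻ r in Ioi (0 : ℝ), K2 f s v x0 η b r ≤
      ENNReal.ofReal (2 * FF f v (s x0 - η)) + ENNReal.ofReal (2 * (b ^ 2 * √η)) := by
  refine (setLIntegral_le_lintegral _ _).trans ?_
  unfold K2
  rw [lintegral_add_right _ (measurable_const.indicator measurableSet_Ioo),
    lintegral_indicator measurableSet_Ioi, lintegral_indicator_const measurableSet_Ioo,
    Real.volume_Ioo, ← ENNReal.ofReal_mul (by positivity), FF, ← integral_const_mul,
    ofReal_integral_eq_lintegral_ofReal ((H.adm.intF h _).const_mul 2)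
      (ae_of_all _ fun r => mul_nonneg zero_le_two (Lg_nn ..))]
  refine le_of_eq ?_
  congr 2
  ring

/-- the bound for one approximation -/
def bd (f s v : ℝ → ℝ) (x0 b η : ℝ) : ℝ :=
  (∫ x in (0 : ℝ)..(x0 + η), Lh f x (st s x0 x) (deriv (st s x0) x)) + FF f v (s x0 - η) +
    b ^ 2 * √η

theorem GG_le (hS : S_Sph) (h : Prof f a0) (H : Hyb x0 s v) (h0 : 0 < η) {b : ℝ} (hb0 : 0 ≤ b)
    (hb : ∀ r ≥ b, v r = 0) :
    GG f (uu s v x0 η) ≤ ENNReal.ofReal (4 * π * bd f s v x0 b η) := by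
  have hm := H1_meas (x0 := x0) (η := η) h H.sp.lip
  have hae : ∀ᵐ z : ℝ × ℝ, DifferentiableAt ℝ (st s x0) z.1 :=
    Measure.quasiMeasurePreserving_fst.ae (st_lip (x0 := x0) H.sp.lip).ae_diff
  have step1 : ∀ r > 0, DifferentiableAt ℝ v r →
      ∫⁻ z in Om, ENNReal.ofReal (2 * r ^ 2) *
        ENNReal.ofReal (nrm f (sp r z) (fderiv ℝ (uu s v x0 η) (sp r z))) ≤
      ENNReal.ofReal (2 * π) * ((∫⁻ x in Ioo (0 : ℝ) 1, H1 f s x0 η r x) + K2 f s v x0 η b r) := by
    intro r hr hd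
    have m1 : Measurable (H1 f s x0 η r) := hm.comp measurable_prodMk_left
    have m2 : Measurable (H2 f s v x0 η b r) := measurable_const.indicator measurableSet_Ioo
    calc _ ≤ ∫⁻ z in Om, (fun x => H1 f s x0 η r x + H2 f s v x0 η b r x) z.1 := by
          refine lintegral_mono_ae ?_
          filter_upwards [ae_restrict_of_ae hae, ae_restrict_mem Om_meas] with z hz hO
          have e1 : ‖sp r z‖ = r := by rw [norm_sp r (Om_mem hO), abs_of_pos hr]
          have e2 : xc (sp r z) = z.1 := xc_sp hr (Om_mem hO)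
          have := point h H h0 hb (p := sp r z) (by rw [← norm_ne_zero_iff, e1]; exact hr.ne')
            (by rw [e2]; exact hO.1.2) (by rwa [e2]) (by rwa [e1])
          rwa [e1, e2] at this
      _ ≤ _ := by
          rw [lint_Om (φ := fun x => H1 f s x0 η r x + H2 f s v x0 η b r x) (m1.add m2),
            lintegral_add_left m1]
          gcongr
          exact lint_band h0 _ _ _ (by ring) _
  have step2 : ∫⁻ r in Ioi (0 : ℝ), ∫⁻ x in Ioo (0 : ℝ) 1, H1 f s x0 η r x ≤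
      ∫⁻ x in Ioo (0 : ℝ) 1, K1 f s x0 η x := by
    rw [lintegral_lintegral_swap hm.aemeasurable]
    exact lintegral_mono fun x => lint_band h0 _ _ _ (by ring) _
  have hI : 0 ≤ ∫ x in (0 : ℝ)..(x0 + η), Lh f x (st s x0 x) (deriv (st s x0) x) :=
    intervalIntegral.integral_nonneg (by linarith [H.xpos]) fun x hx =>
      mul_nonneg (h.fpos (st_pos H hx.1)).le (Real.sqrt_nonneg _)
  have hF := FF_nn f v (s x0 - η)
  unfold GG
  rw [hS _ (nrm_meas h _).ennreal_ofReal]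
  calc _ ≤ ∫⁻ r in Ioi (0 : ℝ), ENNReal.ofReal (2 * π) *
        ((∫⁻ x in Ioo (0 : ℝ) 1, H1 f s x0 η r x) + K2 f s v x0 η b r) := by
        refine lintegral_mono_ae ?_
        filter_upwards [ae_restrict_of_ae H.adm.lip.ae_diff, ae_restrict_mem measurableSet_Ioi]
          with r hd hr using step1 r hr hd
    _ ≤ ENNReal.ofReal (2 * π) * (ENNReal.ofReal
          (2 * ∫ x in (0 : ℝ)..(x0 + η), Lh f x (st s x0 x) (deriv (st s x0) x)) +
          (ENNReal.ofReal (2 * FF f v (s x0 - η)) + ENNReal.ofReal (2 * (b ^ 2 * √η)))) := by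
        rw [lintegral_const_mul' _ _ ENNReal.ofReal_ne_top,
          lintegral_add_right _ (K2_meas h H.adm.lip b)]
        gcongr
        · exact step2.trans (lint_K1 h H h0)
        · exact lint_K2 h H hb0
    _ = _ := by
        rw [← ENNReal.ofReal_add (by positivity) (by positivity),
          ← ENNReal.ofReal_add (by positivity) (by positivity),
          ← ENNReal.ofReal_mul (by positivity), bd]
        congr 1
        ring

theorem bd_cont (h : Prof f a0) (H : Hyb x0 s v) (b : ℝ) :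
    Tendsto (bd f s v x0 b) (𝓝[≥] 0) (𝓝 (cost f x0 s v)) := by
  have c1 : Continuous fun η : ℝ =>
      ∫ x in (0 : ℝ)..(x0 + η), Lh f x (st s x0 x) (deriv (st s x0) x) :=
    (intervalIntegral.continuous_primitive (Lh_ii h (st_lip H.sp.lip)) 0).comp
      (continuous_const.add continuous_id)
  have c2 : Continuous fun η : ℝ => ∫ r in (s x0)..(s x0 - η), Lg f r (v r) (deriv v r) :=
    (intervalIntegral.continuous_primitive (Lg_ii h H.adm.lip) (s x0)).comp
      (continuous_const.sub continuous_id)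
  have c3 : Continuous fun η : ℝ => b ^ 2 * √η := by fun_prop
  have e1 : ∫ x in (0 : ℝ)..x0, Lh f x (st s x0 x) (deriv (st s x0) x) = FI f s x0 := by
    rw [FI, intervalIntegral.integral_of_le H.xpos.le, intervalIntegral.integral_of_le H.xpos.le,
      integral_Ioc_eq_integral_Ioo, integral_Ioc_eq_integral_Ioo]
    refine setIntegral_congr_fun measurableSet_Ioo fun x hx => ?_
    have : st s x0 =ᶠ[𝓝 x] s := by
      filter_upwards [Iio_mem_nhds hx.2] with y hy
      rw [st, min_eq_left (le_of_lt hy)]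
    simp only [this.deriv_eq, this.self_of_nhds]
  have c4 : Continuous fun η : ℝ =>
      (∫ x in (0 : ℝ)..(x0 + η), Lh f x (st s x0 x) (deriv (st s x0) x)) +
        (FF f v (s x0) - ∫ r in (s x0)..(s x0 - η), Lg f r (v r) (deriv v r)) + b ^ 2 * √η :=
    (c1.add (continuous_const.sub c2)).add c3
  have := (c4.tendsto 0).mono_left (nhdsWithin_le_nhds (s := Ici 0))
  simp only [add_zero, sub_zero, intervalIntegral.integral_same, Real.sqrt_zero, mul_zero,
    e1] at this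
  refine this.congr' ?_
  filter_upwards [self_mem_nhdsWithin] with η hη
  have hη' : (0 : ℝ) ≤ η := hη
  rw [bd, H.adm.FF_split h (α := s x0 - η) (β := s x0) (by linarith),
    intervalIntegral.integral_symm (s x0) (s x0 - η)]
  ring

theorem DD_iff (h0 : 0 < η) (p : V) :
    p ∈ DD s v x0 ↔ 0 < max (aa s x0 η p) (bb v η p) := by
  have hi : 0 < η⁻¹ := inv_pos.2 h0
  simp only [DD, mem_ofPred_eq, lt_max_iff, aa, bb, mul_pos_iff_of_pos_left hi, st, sub_pos]
  exact or_congr Iff.rfl ⟨fun h => by linarith, fun h => by linarith⟩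

theorem DD_meas (H : Hyb x0 s v) : MeasurableSet (DD s v x0) :=
  (measurableSet_lt measurable_norm ((st_lip (x0 := x0) H.sp.lip).continuous.measurable.comp
    xc_meas)).union (measurableSet_lt (xc_meas.const_sub 1)
      (H.adm.lip.continuous.measurable.comp measurable_norm))

theorem uu_lim {e : ℕ → ℝ} (he : ∀ n, 0 < e n) (hl : Tendsto e atTop (𝓝 0)) (p : V) :
    ∀ᶠ n in atTop, uu s v x0 (e n) p = (DD s v x0).indicator 1 p := by
  by_cases hp : p ∈ DD s v x0
  · have h1 := (DD_iff one_pos p).1 hp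
    filter_upwards [hl.eventually (gt_mem_nhds h1)] with n hn
    rw [indicator_of_mem hp]
    refine cl_one ?_
    simp only [aa, bb, inv_one, one_mul, lt_max_iff] at hn
    rcases hn with hn | hn
    · refine le_max_of_le_left ?_
      rw [aa, ← div_eq_inv_mul, le_div_iff₀ (he n)]
      linarith
    · refine le_max_of_le_right ?_
      rw [bb, ← div_eq_inv_mul, le_div_iff₀ (he n)]
      linarith
  · refine Eventually.of_forall fun n => ?_
    rw [indicator_of_notMem hp]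
    exact cl_zero (not_lt.1 (mt (DD_iff (he n) p).2 hp))

end UBpAux

open UBpAux in
theorem sUBp (hS : S_Sph) : S_UBp := by
  intro f a0 h x0 s v H
  obtain ⟨c, hc0, hc⟩ := H.sp.exists_c H.xpos.le
  obtain ⟨b, hb0, hb⟩ := H.adm.exists_b 0
  set e : ℕ → ℝ := fun n => c / 2 * (1 / ((n : ℝ) + 1)) with he
  have he0 : ∀ n, 0 < e n := fun n => by positivity
  have he1 : ∀ n, e n < c := fun n => by
    have : 1 / ((n : ℝ) + 1) ≤ 1 := by
      rw [div_le_one (by positivity)]; linarith [(Nat.cast_nonneg n : (0 : ℝ) ≤ n)]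
    have := mul_le_mul_of_nonneg_left this (half_pos hc0).le
    simp only [he]
    linarith
  have hl : Tendsto e atTop (𝓝 0) := by
    have := (tendsto_one_div_add_atTop_nhds_zero_nat (𝕜 := ℝ)).const_mul (c / 2)
    rwa [mul_zero] at this
  have hloc : ∀ n, LocallyLipschitz (uu s v x0 (e n)) := fun n => uu_loc H hc (he0 n) (he1 n)
  have hL1 : ∀ K, IsCompact K → Tendsto (fun n => ∫⁻ x in K,
      ‖uu s v x0 (e n) x - (DD s v x0).indicator 1 x‖ₑ ∂mu f) atTop (𝓝 0) := by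
    intro K hK
    have := tendsto_lintegral_of_dominated_convergence (μ := (mu f).restrict K)
      (F := fun n x => ‖uu s v x0 (e n) x - (DD s v x0).indicator 1 x‖ₑ) (f := fun _ => 0)
      (fun _ => 1) (fun n => ((hloc n).continuous.measurable.sub
        (measurable_one.indicator (DD_meas H))).enorm) (fun n => ae_of_all _ fun x => ?_) ?_
      (ae_of_all _ fun x => ?_)
    · simpa using this
    · have a1 := cl_nn (max (aa s x0 (e n) x) (bb v (e n) x))
      have a2 := cl_le (max (aa s x0 (e n) x) (bb v (e n) x))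
      show ‖uu s v x0 (e n) x - (DD s v x0).indicator 1 x‖ₑ ≤ 1
      rw [← ofReal_norm, ENNReal.ofReal_le_one, Real.norm_eq_abs, abs_le, uu]
      by_cases hx : x ∈ DD s v x0
      · rw [indicator_of_mem hx, Pi.one_apply]; constructor <;> linarith
      · rw [indicator_of_notMem hx]; constructor <;> linarith
    · rw [lintegral_const, one_mul, Measure.restrict_apply_univ]
      exact ((Measure.le_iff'.1 (mu_le h) _).trans_lt hK.measure_lt_top).ne
    · refine tendsto_const_nhds.congr' ?_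
      filter_upwards [uu_lim (s := s) (v := v) (x0 := x0) he0 hl x] with n hn
      simp [hn]
  unfold per
  refine iInf_le_of_le (fun n => uu s v x0 (e n)) (iInf_le_of_le hloc (iInf_le_of_le hL1 ?_))
  have ht : Tendsto (fun n => ENNReal.ofReal (4 * π * bd f s v x0 b (e n))) atTop
      (𝓝 (ENNReal.ofReal (4 * π * cost f x0 s v))) :=
    ENNReal.tendsto_ofReal (((bd_cont h H b).comp (tendsto_nhdsWithin_iff.2
      ⟨hl, Eventually.of_forall fun n => (he0 n).le⟩)).const_mul _)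
  rw [← ht.liminf_eq]
  exact liminf_le_liminf (Eventually.of_forall fun n => GG_le hS h H (he0 n) hb0 hb)

end

end Pool.Agent.P.MP_ab9b82_gt
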